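import Pool.Agent.R403.IS.Z

/-!
# Local parameters of `Z_u`
-/

set_option autoImplicit false

open scoped Topology
open Matrix Complex

noncomputable section

namespace Pool.Agent.R403.IS

variable {u : ℂ}

lemma OnZ.rel {p : Fin 6 → ℂ} (hp : OnZ u p) (k m j : Fin 6) :
    DD u k m * p j ^ 2 = DD u j m * p k ^ 2 + DD u k j * p m ^ 2 := by
  rw [hp.2 j, hp.2 k, hp.2 m]
  unfold DD
  ring

lemma Tan.rel {p v : Fin 6 → ℂ} (hp : Tan u p v) (k m j : Fin 6) :
    DD u k m * (p j * v j) = DD u j m * (p k * v k) + DD u k j * (p m * v m) := by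
  rw [hp j, hp k, hp m]
  unfold DD
  ring

lemma OnZ.ne_of_eq_zero (hu : Adm u) {p : Fin 6 → ℂ} (hp : OnZ u p) {i j : Fin 6} (hij : i ≠ j)
    (hi : p i = 0) : p j ≠ 0 := by
  intro hj
  apply hp.1
  funext l
  have h1 := hp.rel i j l
  rw [hi, hj] at h1
  have h2 : DD u i j * p l ^ 2 = 0 := by rw [h1]; ring
  have h3 := (mul_eq_zero.1 h2).resolve_left (DD_ne hu hij)
  simpa using h3

lemma OnZ.exists_k (hu : Adm u) {p : Fin 6 → ℂ} (hp : OnZ u p) : ∃ k, ∀ j, j ≠ k → p j ≠ 0 := by
  by_cases h : ∃ k, p k = 0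
  · obtain ⟨k, hk⟩ := h
    exact ⟨k, fun j hj => hp.ne_of_eq_zero hu (Ne.symm hj) hk⟩
  · push Not at h
    exact ⟨0, fun j _ => h j⟩

lemma OnZ.smul {p : Fin 6 → ℂ} (hp : OnZ u p) {c : ℂ} (hc : c ≠ 0) : OnZ u (c • p) := by
  refine ⟨smul_ne_zero hc hp.1, fun j => ?_⟩
  simp only [Pi.smul_apply, smul_eq_mul, mul_pow]
  rw [hp.2 j]
  ring

lemma Tan.smul {p v : Fin 6 → ℂ} (hp : Tan u p v) (c : ℂ) : Tan u p (c • v) := by
  intro j
  simp only [Pi.smul_apply, smul_eq_mul]
  linear_combination c * hp j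

lemma Tan.smul_smul {p v : Fin 6 → ℂ} (hp : Tan u p v) (c : ℂ) : Tan u (c • p) (c • v) := by
  intro j
  simp only [Pi.smul_apply, smul_eq_mul]
  linear_combination c ^ 2 * hp j

lemma Tan.add {p v w : Fin 6 → ℂ} (hp : Tan u p v) (hw : Tan u p w) : Tan u p (v + w) := by
  intro j
  simp only [Pi.add_apply]
  linear_combination hp j + hw j

lemma OnZ.tan_self {p : Fin 6 → ℂ} (hp : OnZ u p) : Tan u p p := by
  intro j
  linear_combination hp.2 j

/-- the argument of the square root -/
def gg (u : ℂ) (p : Fin 6 → ℂ) (k m j : Fin 6) (t : ℂ) : ℂ :=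
  1 + DD u j m / DD u k m * (2 * p k * t + t ^ 2) / p j ^ 2

/-- the local parameter at `p` given by the `k`-th coordinate, the `m`-th coordinate being fixed -/
def ch (u : ℂ) (p : Fin 6 → ℂ) (k m : Fin 6) (t : ℂ) : Fin 6 → ℂ := fun j =>
  if j = k then p k + t else p j * gg u p k m j t ^ (2⁻¹ : ℂ)

/-- its domain -/
def chU (u : ℂ) (p : Fin 6 → ℂ) (k m : Fin 6) : Set ℂ :=
  {t | ∀ j, j ≠ k → gg u p k m j t ∈ slitPlane}

/-- its derivative -/
def chD (u : ℂ) (p : Fin 6 → ℂ) (k m : Fin 6) (t : ℂ) : Fin 6 → ℂ := fun j =>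
  if j = k then 1 else DD u j m / DD u k m * (p k + t) / ch u p k m t j

/-- `p` is a point where all coordinates but the `k`-th are nonzero -/
structure Good (u : ℂ) (p : Fin 6 → ℂ) (k m : Fin 6) : Prop where
  adm : Adm u
  on : OnZ u p
  km : k ≠ m
  ne : ∀ j, j ≠ k → p j ≠ 0

lemma OnZ.exists_good (hu : Adm u) {p : Fin 6 → ℂ} (hp : OnZ u p) : ∃ k m, Good u p k m := by
  obtain ⟨k, hk⟩ := hp.exists_k hu
  exact ⟨k, k + 1, hu, hp, by fin_cases k <;> decide, hk⟩

namespace Good

variable {p : Fin 6 → ℂ} {k m : Fin 6} (h : Good u p k m)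

include h

lemma pm : p m ≠ 0 := h.ne m h.km.symm

lemma Dkm : DD u k m ≠ 0 := DD_ne h.adm h.km

omit h in
lemma DD_self (u : ℂ) (i : Fin 6) : DD u i i = 0 := by unfold DD; ring

omit h in
lemma ch_k (t : ℂ) : ch u p k m t k = p k + t := by simp [ch]

lemma ch_m (t : ℂ) : ch u p k m t m = p m := by
  have h1 : DD u m m = 0 := by unfold DD; ring
  simp [ch, h.km.symm, gg, h1]

omit h in
lemma ch_ne {j : Fin 6} (hj : j ≠ k) (t : ℂ) :
    ch u p k m t j = p j * gg u p k m j t ^ (2⁻¹ : ℂ) := by simp [ch, hj]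

omit h in
lemma ch_zero : ch u p k m 0 = p := by
  funext j
  by_cases hj : j = k
  · subst hj; simp [ch]
  · simp [ch, hj, gg]

lemma ch_sq (t : ℂ) (j : Fin 6) :
    ch u p k m t j ^ 2 = p j ^ 2 + DD u j m / DD u k m * (2 * p k * t + t ^ 2) := by
  by_cases hj : j = k
  · subst hj
    rw [ch_k, div_self h.Dkm]
    ring
  · rw [ch_ne hj, mul_pow]
    have h1 : (gg u p k m j t ^ (2⁻¹ : ℂ)) ^ 2 = gg u p k m j t := by
      have := cpow_nat_inv_pow (gg u p k m j t) (n := 2) two_ne_zero
      simpa using this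
    rw [h1]
    have := h.ne j hj
    unfold gg
    field_simp

lemma ch_onZ (t : ℂ) : OnZ u (ch u p k m t) := by
  refine ⟨fun h0 => h.pm ?_, fun j => ?_⟩
  · rw [← h.ch_m t, h0]; rfl
  · rw [h.ch_sq, h.ch_sq, h.ch_sq, h.on.2 j]
    have h1 := h.Dkm
    field_simp
    unfold DD
    simp only [al, be]
    simp
    ring

omit h in
lemma isOpen_chU : IsOpen (chU u p k m) := by
  have : chU u p k m = ⋂ j : Fin 6, {t | j ≠ k → gg u p k m j t ∈ slitPlane} := by
    ext t; simp [chU]
  rw [this]
  refine isOpen_iInter_of_finite fun j => ?_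
  by_cases hj : j = k
  · simp [hj]
  · simp only [ne_eq, hj, not_false_eq_true, forall_const]
    refine isOpen_slitPlane.preimage ?_
    unfold gg
    fun_prop

omit h in
lemma zero_mem_chU : (0 : ℂ) ∈ chU u p k m := by
  intro j _
  simp [gg]

omit h in
lemma differentiableAt_ch {t : ℂ} (ht : t ∈ chU u p k m) :
    DifferentiableAt ℂ (ch u p k m) t := by
  rw [differentiableAt_pi]
  intro j
  by_cases hj : j = k
  · subst hj
    have : (fun t => ch u p j m t j) = fun t => p j + t := by funext t; exact ch_k t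
    rw [this]
    fun_prop
  · have : (fun t => ch u p k m t j) = fun t => p j * gg u p k m j t ^ (2⁻¹ : ℂ) := by
      funext t; exact ch_ne hj t
    rw [this]
    have h1 : DifferentiableAt ℂ (fun t => gg u p k m j t) t := by
      unfold gg; fun_prop
    exact (h1.cpow (differentiableAt_const _) (ht j hj)).const_mul _

lemma ch_ne_zero {t : ℂ} (ht : t ∈ chU u p k m) {j : Fin 6} (hj : j ≠ k) :
    ch u p k m t j ≠ 0 := by
  rw [ch_ne hj]
  refine mul_ne_zero (h.ne j hj) ?_
  rw [Ne, cpow_eq_zero_iff]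
  intro h1
  exact slitPlane_ne_zero (ht j hj) h1.1

lemma hasDerivAt_ch {t : ℂ} (ht : t ∈ chU u p k m) :
    HasDerivAt (ch u p k m) (chD u p k m t) t := by
  have h1 := (differentiableAt_ch ht).hasDerivAt
  have h2 : deriv (ch u p k m) t = chD u p k m t := by
    funext j
    have h3 := (hasDerivAt_pi.1 h1) j
    have h4 := h3.fun_pow 2
    have h5 : (fun t => ch u p k m t j ^ 2) =
        fun t => p j ^ 2 + DD u j m / DD u k m * (2 * p k * t + t ^ 2) := by
      funext t; exact h.ch_sq t j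
    rw [h5] at h4
    have h6 : HasDerivAt (fun t : ℂ => p j ^ 2 + DD u j m / DD u k m * (2 * p k * t + t ^ 2))
        (DD u j m / DD u k m * (2 * p k + 2 * t)) t := by
      have a1 : HasDerivAt (fun t : ℂ => 2 * p k * t) (2 * p k) t := by
        simpa using (hasDerivAt_id t).const_mul (2 * p k)
      have a2 : HasDerivAt (fun t : ℂ => t ^ 2) (2 * t) t := by
        simpa using hasDerivAt_pow 2 t
      exact ((a1.add a2).const_mul _).const_add _
    have h7 := h4.unique h6
    unfold chD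
    by_cases hj : j = k
    · subst hj
      rw [if_pos rfl]
      have h8 : (fun t => ch u p j m t j) = fun t => p j + t := by funext t; exact ch_k t
      rw [h8] at h3
      have h9 : HasDerivAt (fun t : ℂ => p j + t) 1 t := (hasDerivAt_id t).const_add _
      exact h3.unique h9
    · rw [if_neg hj, eq_div_iff (h.ch_ne_zero ht hj)]
      simp at h7
      linear_combination h7 / 2
  rw [h2] at h1
  exact h1

lemma deriv_ch {t : ℂ} (ht : t ∈ chU u p k m) : deriv (ch u p k m) t = chD u p k m t :=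
  (h.hasDerivAt_ch ht).deriv

omit h in
lemma chD_k (t : ℂ) : chD u p k m t k = 1 := by simp [chD]

lemma chD_m (t : ℂ) : chD u p k m t m = 0 := by
  have h1 : DD u m m = 0 := by unfold DD; ring
  simp [chD, h.km.symm, h1]

lemma tan_chD {t : ℂ} (ht : t ∈ chU u p k m) : Tan u (ch u p k m t) (chD u p k m t) := by
  have h2 : ∀ j, ch u p k m t j * chD u p k m t j = DD u j m / DD u k m * (p k + t) := by
    intro j
    by_cases hj : j = k
    · subst hj
      rw [ch_k, chD_k, div_self h.Dkm]
      ring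
    · have := h.ch_ne_zero ht hj
      simp only [chD, if_neg hj]
      field_simp
  intro j
  rw [h2, h2, h2]
  have h1 := h.Dkm
  field_simp
  unfold DD
  simp only [al, be]
  simp
  ring

/-- the neighbourhood of `p` covered by the chart -/
def _root_.Pool.Agent.R403.IS.nb (p : Fin 6 → ℂ) (k m : Fin 6) : Set (Fin 6 → ℂ) :=
  {q | q m ≠ 0 ∧ ∀ j, j ≠ k → 0 < (p m / q m * q j / p j).re}

lemma mem_nb : p ∈ nb p k m := by
  refine ⟨h.pm, fun j hj => ?_⟩
  have h1 := h.pm
  have h2 := h.ne j hj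
  have : p m / p m * p j / p j = 1 := by field_simp
  rw [this]
  simp

omit h in
lemma nb_nhds {q : Fin 6 → ℂ} (hq : q ∈ nb p k m) : nb p k m ∈ 𝓝 q := by
  have h1 : ∀ᶠ r : Fin 6 → ℂ in 𝓝 q, r m ≠ 0 :=
    (continuous_apply m).continuousAt.eventually_ne hq.1
  have h2 : ∀ j, ∀ᶠ r : Fin 6 → ℂ in 𝓝 q, j ≠ k → 0 < (p m / r m * r j / p j).re := by
    intro j
    by_cases hj : j = k
    · simp [hj]
    · have hc : ContinuousAt (fun r : Fin 6 → ℂ => (p m / r m * r j / p j).re) q := by
        refine Complex.continuous_re.continuousAt.comp ?_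
        have c1 : ContinuousAt (fun r : Fin 6 → ℂ => r m) q := (continuous_apply m).continuousAt
        have c2 : ContinuousAt (fun r : Fin 6 → ℂ => r j) q := (continuous_apply j).continuousAt
        exact ((continuousAt_const.div c1 hq.1).mul c2).div_const _
      filter_upwards [hc.eventually (lt_mem_nhds (hq.2 j hj))] with r hr _ using hr
  filter_upwards [h1, Filter.eventually_all.2 h2] with r a b using ⟨a, b⟩

/-- the parameter of a point -/
def _root_.Pool.Agent.R403.IS.par (p : Fin 6 → ℂ) (k m : Fin 6) (q : Fin 6 → ℂ) : ℂ :=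
  p m / q m * q k - p k

lemma cover {q : Fin 6 → ℂ} (hq : OnZ u q) (hqn : q ∈ nb p k m) :
    par p k m q ∈ chU u p k m ∧ ch u p k m (par p k m q) = (p m / q m) • q := by
  have hc : p m / q m ≠ 0 := div_ne_zero h.pm hqn.1
  set q' : Fin 6 → ℂ := (p m / q m) • q with hq'
  have hon : OnZ u q' := hq.smul hc
  have hm : q' m = p m := by
    simp only [hq', Pi.smul_apply, smul_eq_mul]
    exact div_mul_cancel₀ _ hqn.1
  have hk : p k + par p k m q = q' k := by
    simp only [par, hq', Pi.smul_apply, smul_eq_mul]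
    ring
  have hre : ∀ j, j ≠ k → 0 < (q' j / p j).re := fun j hj => hqn.2 j hj
  have hgg : ∀ j, j ≠ k → gg u p k m j (par p k m q) = (q' j / p j) ^ 2 := by
    intro j hj
    have e1 := h.on.rel k m j
    have e2 := hon.rel k m j
    have e3 : 2 * p k * par p k m q + par p k m q ^ 2 = q' k ^ 2 - p k ^ 2 := by
      rw [← hk]; ring
    rw [hm] at e2
    have e4 := h.ne j hj
    have e5 := h.Dkm
    unfold gg
    rw [e3]
    field_simp
    linear_combination e1 - e2
  refine ⟨fun j hj => ?_, ?_⟩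
  · rw [hgg j hj]
    rw [Complex.mem_slitPlane_iff]
    by_contra hcon
    push Not at hcon
    set z := q' j / p j with hz
    have h1 := hre j hj
    have e1 : (z ^ 2).re = z.re ^ 2 - z.im ^ 2 := by rw [sq]; simp; ring
    have e2 : (z ^ 2).im = 2 * z.re * z.im := by rw [sq]; simp; ring
    rw [e1, e2] at hcon
    have h3 : z.im = 0 := by
      rcases mul_eq_zero.1 hcon.2 with h4 | h4
      · exact absurd h4 (by positivity)
      · exact h4
    rw [h3] at hcon
    nlinarith [hcon.1, h1]
  · funext j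
    by_cases hj : j = k
    · subst hj
      rw [ch_k, hk]
    · rw [ch_ne hj, hgg j hj, sq_cpow_two_inv (hre j hj)]
      have := h.ne j hj
      field_simp

lemma isArc (H : Subgroup (GL (Fin 6) ℂ)) : (ZD u H).IsArc (chU u p k m) (ch u p k m) where
  isOpen := isOpen_chU
  holo := fun t ht => (differentiableAt_ch ht).differentiableWithinAt
  mem := fun t _ => mem_cone.2 (h.ch_onZ t)
  immersed := by
    intro t ht c hc
    rw [h.deriv_ch ht] at hc
    have h1 := congrFun hc m
    rw [h.chD_m] at h1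
    simp only [Pi.smul_apply, smul_eq_mul, h.ch_m] at h1
    have h2 : c = 0 := (mul_eq_zero.1 h1.symm).resolve_right h.pm
    have h3 := congrFun hc k
    rw [chD_k, h2] at h3
    simp at h3

/-- tangent vectors at `p` -/
lemma tan_eq {v : Fin 6 → ℂ} (hv : Tan u p v) :
    v = (v m / p m) • p + (v k - v m / p m * p k) • chD u p k m 0 := by
  have hc0 := h.tan_chD (zero_mem_chU (u := u) (p := p) (k := k) (m := m))
  rw [ch_zero] at hc0
  set w : Fin 6 → ℂ := v - ((v m / p m) • p + (v k - v m / p m * p k) • chD u p k m 0) with hw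
  have hwt : Tan u p w := by
    intro j
    have e1 := hv j
    have e2 := h.on.tan_self j
    have e3 := hc0 j
    simp only [hw, Pi.sub_apply, Pi.add_apply, Pi.smul_apply, smul_eq_mul]
    linear_combination e1 - (v m / p m) * e2 - (v k - v m / p m * p k) * e3
  have hwm : w m = 0 := by
    have := h.pm
    simp only [hw, Pi.sub_apply, Pi.add_apply, Pi.smul_apply, smul_eq_mul, h.chD_m]
    field_simp
    ring
  have hwk : w k = 0 := by
    simp only [hw, Pi.sub_apply, Pi.add_apply, Pi.smul_apply, smul_eq_mul, chD_k]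
    ring
  have hw0 : w = 0 := by
    funext j
    by_cases hj : j = k
    · subst hj; exact hwk
    · have e1 := hwt.rel k m j
      rw [hwm, hwk] at e1
      have e2 : DD u k m * (p j * w j) = 0 := by rw [e1]; ring
      have e3 := (mul_eq_zero.1 e2).resolve_left h.Dkm
      exact (mul_eq_zero.1 e3).resolve_left (h.ne j hj)
  exact sub_eq_zero.1 hw0

end Good

end Pool.Agent.R403.IS
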