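import Pool.Agent.R403.IS.Chart

/-!
# The basic differential of `Z_u`
-/

set_option autoImplicit false

open scoped Topology
open Matrix Complex Finset

noncomputable section

namespace Pool.Agent.R403.IS

variable {u : ℂ}

/-- product of the coordinates other than `i, j` -/
def P2 (p : Fin 6 → ℂ) (i j : Fin 6) : ℂ := ∏ l ∈ univ.filter (fun l => l ≠ i ∧ l ≠ j), p l

/-- product of the coordinates other than `i` -/
def P1 (p : Fin 6 → ℂ) (i : Fin 6) : ℂ := ∏ l ∈ univ.filter (fun l => l ≠ i), p l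

lemma P2_symm (p : Fin 6 → ℂ) (i j : Fin 6) : P2 p i j = P2 p j i := by
  unfold P2
  congr 1
  ext l
  simp [and_comm]

lemma P2_mul (p : Fin 6 → ℂ) {i j : Fin 6} (h : i ≠ j) : P2 p i j * p j = P1 p i := by
  unfold P2 P1
  have : univ.filter (fun l : Fin 6 => l ≠ i) =
      insert j (univ.filter (fun l : Fin 6 => l ≠ i ∧ l ≠ j)) := by
    ext l
    simp only [mem_filter, mem_univ, true_and, mem_insert]
    by_cases hl : l = j
    · subst hl; simp [h.symm]
    · simp [hl]
  rw [this, prod_insert (by simp)]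
  ring

lemma P1_mul (p : Fin 6 → ℂ) (i : Fin 6) : P1 p i * p i = ∏ l, p l := by
  unfold P1
  have : (univ : Finset (Fin 6)) = insert i (univ.filter (fun l : Fin 6 => l ≠ i)) := by
    ext l
    simp only [mem_filter, mem_univ, true_and, mem_insert]
    tauto
  conv_rhs => rw [this, prod_insert (by simp)]
  ring

lemma P2_ne {p : Fin 6 → ℂ} {k m : Fin 6} (h : ∀ j, j ≠ k → p j ≠ 0) : P2 p k m ≠ 0 := by
  unfold P2
  rw [prod_ne_zero_iff]
  intro l hl
  simp only [mem_filter, mem_univ, true_and] at hl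
  exact h l hl.1

/-- the vanishing coordinate, if any -/
def kk (p : Fin 6 → ℂ) : Fin 6 := by
  classical exact if h : ∃ k, p k = 0 then h.choose else 0

lemma kk_good (hu : Adm u) {p : Fin 6 → ℂ} (hp : OnZ u p) : Good u p (kk p) (kk p + 1) := by
  refine ⟨hu, hp, ?_, ?_⟩
  · generalize kk p = k
    fin_cases k <;> decide
  · intro j hj
    unfold kk at hj
    split_ifs at hj with h
    · exact hp.ne_of_eq_zero hu (Ne.symm hj) h.choose_spec
    · push Not at h
      exact h j

/-- the basic differential (of weight `-2`) -/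
def eta (u : ℂ) (p v : Fin 6 → ℂ) : ℂ :=
  (p (kk p + 1) * v (kk p) - p (kk p) * v (kk p + 1)) /
    (DD u (kk p) (kk p + 1) * P2 p (kk p) (kk p + 1))

/-- `z dw - w dz` up to a factor -/
def th (p v : Fin 6 → ℂ) : ℂ := p 1 ^ 2 * (p 0 * v 0) - p 0 ^ 2 * (p 1 * v 1)

lemma N_mul {p v : Fin 6 → ℂ} (hp : OnZ u p) (hv : Tan u p v) (i j : Fin 6) :
    p i * p j * (p j * v i - p i * v j) = DD u i j * th p v := by
  have h1 : p i * p j * (p j * v i - p i * v j) = p j ^ 2 * (p i * v i) - p i ^ 2 * (p j * v j) := by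
    ring
  rw [h1, hp.2 i, hp.2 j, hv i, hv j]
  unfold DD th
  ring

/-- consistency of the formulas for the basic differential -/
lemma eta_aux {p v : Fin 6 → ℂ} {k m : Fin 6} (h : Good u p k m) (hv : Tan u p v) {i j : Fin 6}
    (hij : i ≠ j) {y : ℂ} (hy : DD u k m * y * P2 p k m = p m * v k - p k * v m) :
    DD u i j * y * P2 p i j = p j * v i - p i * v j := by
  have hDkm := h.Dkm
  have hPkm : P2 p k m ≠ 0 := P2_ne h.ne
  have hNkm := N_mul h.on hv k m
  have hNij := N_mul h.on hv i j
  by_cases hk : p k = 0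
  · have hth : th p v = 0 := by
      rw [hk] at hNkm
      have : DD u k m * th p v = 0 := by rw [← hNkm]; ring
      exact (mul_eq_zero.1 this).resolve_left hDkm
    have key : ∀ j, k ≠ j → DD u k j * y * P2 p k j = p j * v k - p k * v j := by
      intro j hkj
      have hj : p j ≠ 0 := h.ne j hkj.symm
      have e1 := P2_mul p h.km
      have e2 := P2_mul p hkj
      have e3 := h.on.rel k m j
      rw [hk] at e3 hy ⊢
      have e4 : DD u k m * p j ^ 2 = DD u k j * p m ^ 2 := by rw [e3]; ring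
      have e5 : P2 p k j * p j = P2 p k m * p m := by rw [e2, e1]
      have e6 : DD u k m * p j * (DD u k j * y * P2 p k j) = DD u k m * p j * (p j * v k - 0 * v j) := by
        calc DD u k m * p j * (DD u k j * y * P2 p k j)
            = DD u k m * DD u k j * y * (P2 p k j * p j) := by ring
          _ = (DD u k m * y * P2 p k m) * (DD u k j * p m) := by rw [e5]; ring
          _ = (p m * v k - 0 * v m) * (DD u k j * p m) := by rw [hy]
          _ = (DD u k j * p m ^ 2) * v k := by ring
          _ = (DD u k m * p j ^ 2) * v k := by rw [e4]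
          _ = _ := by ring
      exact mul_left_cancel₀ (mul_ne_zero hDkm hj) e6
    by_cases hik : i = k
    · subst hik
      exact key j hij
    · by_cases hjk : j = k
      · subst hjk
        have := key i hij.symm
        rw [P2_symm] at this
        have hD : DD u i j = - DD u j i := by unfold DD; ring
        rw [hD]
        linear_combination -this
      · have h1 : P2 p i j = 0 := by
          unfold P2
          exact prod_eq_zero (i := k) (by simp [Ne.symm hik, Ne.symm hjk]) hk
        rw [hth, mul_zero] at hNij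
        have h2 : p j * v i - p i * v j = 0 := by
          rcases mul_eq_zero.1 hNij with h3 | h3
          · rcases mul_eq_zero.1 h3 with h4 | h4
            · exact absurd h4 (h.ne i hik)
            · exact absurd h4 (h.ne j hjk)
          · exact h3
        rw [h1, h2, mul_zero]
  · have hall : ∀ j, p j ≠ 0 := by
      intro j
      by_cases hj : j = k
      · rw [hj]; exact hk
      · exact h.ne j hj
    have e1 : P2 p k m * (p m * p k) = ∏ l, p l := by
      rw [← mul_assoc, P2_mul p h.km, P1_mul]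
    have e2 : P2 p i j * (p j * p i) = ∏ l, p l := by
      rw [← mul_assoc, P2_mul p hij, P1_mul]
    have e3 : y * ∏ l, p l = th p v := by
      have : DD u k m * (y * ∏ l, p l) = DD u k m * th p v := by
        rw [← hNkm, ← e1]
        linear_combination p m * p k * hy
      exact mul_left_cancel₀ hDkm this
    have e4 : p i * p j * (DD u i j * y * P2 p i j) = p i * p j * (p j * v i - p i * v j) := by
      rw [hNij, ← e3, ← e2]
      ring
    exact mul_left_cancel₀ (mul_ne_zero (hall i) (hall j)) e4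

lemma eta_kk (hu : Adm u) {p v : Fin 6 → ℂ} (hp : OnZ u p) :
    DD u (kk p) (kk p + 1) * eta u p v * P2 p (kk p) (kk p + 1) =
      p (kk p + 1) * v (kk p) - p (kk p) * v (kk p + 1) := by
  have h := kk_good hu hp
  have h1 := h.Dkm
  have h2 : P2 p (kk p) (kk p + 1) ≠ 0 := P2_ne h.ne
  unfold eta
  field_simp

/-- the characterization of the basic differential -/
lemma eta_eq (hu : Adm u) {p v : Fin 6 → ℂ} (hp : OnZ u p) (hv : Tan u p v) {i j : Fin 6}
    (hij : i ≠ j) : DD u i j * eta u p v * P2 p i j = p j * v i - p i * v j :=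
  eta_aux (kk_good hu hp) hv hij (eta_kk hu hp)

/-- uniqueness from a good pair -/
lemma eta_unique {p v : Fin 6 → ℂ} {k m : Fin 6} (h : Good u p k m) (hv : Tan u p v) {y : ℂ}
    (hy : DD u k m * y * P2 p k m = p m * v k - p k * v m) : y = eta u p v := by
  have h1 := eta_eq h.adm h.on hv h.km
  rw [← hy] at h1
  have h2 : P2 p k m ≠ 0 := P2_ne h.ne
  have h3 := mul_right_cancel₀ h2 h1
  exact (mul_left_cancel₀ h.Dkm h3).symm

lemma eta_unique' (hu : Adm u) {p v : Fin 6 → ℂ} (hp : OnZ u p) (hv : Tan u p v) {y : ℂ}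
    (hy : ∀ i j, i ≠ j → DD u i j * y * P2 p i j = p j * v i - p i * v j) : y = eta u p v := by
  obtain ⟨k, m, h⟩ := hp.exists_good hu
  exact eta_unique h hv (hy k m h.km)

lemma eta_add (hu : Adm u) {p v w : Fin 6 → ℂ} (hp : OnZ u p) (hv : Tan u p v) (hw : Tan u p w) :
    eta u p (v + w) = eta u p v + eta u p w := by
  symm
  refine eta_unique' hu hp (hv.add hw) fun i j hij => ?_
  have h1 := eta_eq hu hp hv hij
  have h2 := eta_eq hu hp hw hij
  simp only [Pi.add_apply]
  linear_combination h1 + h2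

lemma eta_smul (hu : Adm u) {p v : Fin 6 → ℂ} (hp : OnZ u p) (hv : Tan u p v) (c : ℂ) :
    eta u p (c • v) = c * eta u p v := by
  symm
  refine eta_unique' hu hp (hv.smul c) fun i j hij => ?_
  have h1 := eta_eq hu hp hv hij
  simp only [Pi.smul_apply, smul_eq_mul]
  linear_combination c * h1

lemma eta_self (hu : Adm u) {p : Fin 6 → ℂ} (hp : OnZ u p) : eta u p p = 0 := by
  symm
  refine eta_unique' hu hp hp.tan_self fun i j hij => ?_
  ring

lemma P2_smul (p : Fin 6 → ℂ) {i j : Fin 6} (hij : i ≠ j) (c : ℂ) :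
    P2 (c • p) i j = c ^ 4 * P2 p i j := by
  unfold P2
  simp only [Pi.smul_apply, smul_eq_mul, prod_mul_distrib, prod_const]
  congr 2
  revert hij
  revert i j
  decide

lemma eta_scale (hu : Adm u) {p v : Fin 6 → ℂ} (hp : OnZ u p) (hv : Tan u p v) {c : ℂ}
    (hc : c ≠ 0) : eta u (c • p) (c • v) = eta u p v / c ^ 2 := by
  symm
  refine eta_unique' hu (hp.smul hc) (hv.smul_smul c) fun i j hij => ?_
  have h1 := eta_eq hu hp hv hij
  rw [P2_smul p hij]
  simp only [Pi.smul_apply, smul_eq_mul]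
  field_simp
  linear_combination h1

/-- the basic differential on a chart -/
lemma eta_chD {p : Fin 6 → ℂ} {k m : Fin 6} (h : Good u p k m) {t : ℂ} (ht : t ∈ chU u p k m) :
    DD u k m * eta u (ch u p k m t) (chD u p k m t) * P2 (ch u p k m t) k m = p m := by
  rw [eta_eq h.adm (h.ch_onZ t) (h.tan_chD ht) h.km, h.ch_m, Good.chD_k, h.chD_m]
  ring

lemma eta_chD_ne {p : Fin 6 → ℂ} {k m : Fin 6} (h : Good u p k m) {t : ℂ} (ht : t ∈ chU u p k m) :
    eta u (ch u p k m t) (chD u p k m t) ≠ 0 := by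
  intro h0
  have := eta_chD h ht
  rw [h0] at this
  exact h.pm (by rw [← this]; ring)

/-- a good pair stays good nearby -/
lemma Good.eventually {p : Fin 6 → ℂ} {k m : Fin 6} (h : Good u p k m) :
    ∀ᶠ q in 𝓝 p, OnZ u q → Good u q k m := by
  have h1 : ∀ j, ∀ᶠ q : Fin 6 → ℂ in 𝓝 p, j ≠ k → q j ≠ 0 := by
    intro j
    by_cases hj : j = k
    · simp [hj]
    · filter_upwards [(continuous_apply j).continuousAt.eventually_ne (h.ne j hj)] with q hq _
      exact hq
  filter_upwards [Filter.eventually_all.2 h1] with q hq hon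
  exact ⟨h.adm, hon, h.km, hq⟩

lemma arc_tan {U : Set ℂ} {φ : ℂ → Fin 6 → ℂ} {H : Subgroup (GL (Fin 6) ℂ)}
    (hφ : (ZD u H).IsArc U φ) {t : ℂ} (ht : t ∈ U) : Tan u (φ t) (deriv φ t) := by
  intro j
  have h1 : HasDerivAt φ (deriv φ t) t :=
    ((hφ.holo t ht).differentiableAt (hφ.isOpen.mem_nhds ht)).hasDerivAt
  have h2 : ∀ j, HasDerivAt (fun s => φ s j) (deriv φ t j) t := hasDerivAt_pi.1 h1
  have h3 := (h2 j).fun_pow 2
  have h4 := (((h2 0).fun_pow 2).const_mul (al j)).add (((h2 1).fun_pow 2).const_mul (be u j))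
  have h5 : (fun s => φ s j ^ 2) =ᶠ[𝓝 t]
      (fun s => al j * φ s 0 ^ 2) + (fun s => be u j * φ s 1 ^ 2) := by
    filter_upwards [hφ.isOpen.mem_nhds ht] with s hs
    exact (mem_cone.1 (hφ.mem s hs)).2 j
  have h6 := (h4.congr_of_eventuallyEq h5).unique h3
  simp at h6
  linear_combination -h6 / 2

/-- the differential `P η` -/
def Fm (u : ℂ) (P : (Fin 6 → ℂ) → ℂ) (p v : Fin 6 → ℂ) : ℂ := by
  classical exact if OnZ u p ∧ Tan u p v then P p * eta u p v else 0

lemma Fm_eq {P : (Fin 6 → ℂ) → ℂ} {p v : Fin 6 → ℂ} (hp : OnZ u p) (hv : Tan u p v) :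
    Fm u P p v = P p * eta u p v := by
  unfold Fm
  rw [if_pos ⟨hp, hv⟩]

lemma eta_holo (hu : Adm u) {U : Set ℂ} {φ : ℂ → Fin 6 → ℂ} {H : Subgroup (GL (Fin 6) ℂ)}
    (hφ : (ZD u H).IsArc U φ) :
    DifferentiableOn ℂ (fun t => eta u (φ t) (deriv φ t)) U := by
  intro t ht
  apply DifferentiableAt.differentiableWithinAt
  obtain ⟨k, m, h⟩ := (mem_cone.1 (hφ.mem t ht)).exists_good hu
  have hd : DifferentiableAt ℂ φ t := (hφ.holo t ht).differentiableAt (hφ.isOpen.mem_nhds ht)
  have hd' : DifferentiableAt ℂ (deriv φ) t :=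
    ((hφ.holo.analyticOnNhd hφ.isOpen).deriv t ht).differentiableAt
  have h1 : ∀ᶠ s in 𝓝 t, eta u (φ s) (deriv φ s) =
      (φ s m * deriv φ s k - φ s k * deriv φ s m) / (DD u k m * P2 (φ s) k m) := by
    have h2 := hd.continuousAt.eventually h.eventually
    filter_upwards [h2, hφ.isOpen.mem_nhds ht] with s hs hsU
    have hon := mem_cone.1 (hφ.mem s hsU)
    have hg := hs hon
    have h3 := eta_eq hu hon (arc_tan hφ hsU) h.km
    have h4 : P2 (φ s) k m ≠ 0 := P2_ne hg.ne
    have h5 := hg.Dkm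
    field_simp
    linear_combination h3
  refine DifferentiableAt.congr_of_eventuallyEq ?_ h1
  have dj : ∀ j, DifferentiableAt ℂ (fun s => φ s j) t := differentiableAt_pi.1 hd
  have dj' : ∀ j, DifferentiableAt ℂ (fun s => deriv φ s j) t := differentiableAt_pi.1 hd'
  have dP : DifferentiableAt ℂ (fun s => P2 (φ s) k m) t := by
    unfold P2
    exact DifferentiableAt.fun_finsetProd fun i _ => dj i
  refine (((dj m).mul (dj' k)).sub ((dj k).mul (dj' m))).div (dP.const_mul _) ?_
  exact mul_ne_zero h.Dkm (P2_ne h.ne)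

end Pool.Agent.R403.IS
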