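import Pool.Agent.R403.IS.Conn
import Pool.Agent.R403.IS.Eta

/-!
# Classification of homogeneous functions on the cone with a given character
-/

set_option autoImplicit false

open scoped Topology
open Matrix Complex Finset Filter

noncomputable section

namespace Pool.Agent.R403.IS

variable {u : ℂ}

lemma signs_induction {R : (Fin 6 → ℂ) → Prop} {p : Fin 6 → ℂ} (hp : OnZ u p) (hR : R p)
    (hstep : ∀ r j, OnZ u r → (∀ i, r i ^ 2 = p i ^ 2) → R r → R (flip j r)) {q : Fin 6 → ℂ}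
    (hpq : ∀ j, q j ^ 2 = p j ^ 2) : R q := by
  set r : ℕ → Fin 6 → ℂ := fun n j => if (j : ℕ) < n then q j else p j with hr
  have hrs : ∀ n j, r n j ^ 2 = p j ^ 2 := by
    intro n j
    simp only [hr]
    split_ifs
    · exact hpq j
    · rfl
  have hon : ∀ n, OnZ u (r n) := by
    intro n
    refine ⟨fun h0 => hp.1 ?_, fun j => ?_⟩
    · funext j
      have := hrs n j
      rw [h0] at this
      simpa using this.symm
    · rw [hrs, hrs, hrs]; exact hp.2 j
  have hall : ∀ n, R (r n) := by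
    intro n
    induction n with
    | zero =>
      have : r 0 = p := by funext j; simp [hr]
      rw [this]
      exact hR
    | succ n ih =>
      by_cases hn : n < 6
      · have h1 : r (n + 1) = r n ∨ r (n + 1) = flip ⟨n, hn⟩ (r n) := by
          have h2 := sq_eq_sq_iff_eq_or_eq_neg.1 (hpq ⟨n, hn⟩)
          rcases h2 with h2 | h2
          · left
            funext j
            simp only [hr]
            by_cases hj : (j : ℕ) < n
            · simp [hj, Nat.lt_succ_of_lt hj]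
            · by_cases hj' : (j : ℕ) = n
              · have : j = ⟨n, hn⟩ := Fin.ext hj'
                subst this
                simp [h2]
              · have : ¬ (j : ℕ) < n + 1 := by omega
                simp [hj, this]
          · right
            funext j
            simp only [hr, flip]
            by_cases hj' : j = ⟨n, hn⟩
            · subst hj'
              simp [h2]
            · rw [Function.update_of_ne hj']
              have hj2 : (j : ℕ) ≠ n := fun h => hj' (Fin.ext h)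
              by_cases hj : (j : ℕ) < n
              · simp [hj, Nat.lt_succ_of_lt hj]
              · have : ¬ (j : ℕ) < n + 1 := by omega
                simp [hj, this]
        rcases h1 with h1 | h1
        · rw [h1]; exact ih
        · rw [h1]; exact hstep _ _ (hon n) (hrs n) ih
      · have : r (n + 1) = r n := by
          funext j
          have h1 : (j : ℕ) < n := by omega
          simp [hr, h1, Nat.lt_succ_of_lt h1]
        rw [this]; exact ih
  have := hall 6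
  have h6 : r 6 = q := by funext j; simp [hr]
  rwa [h6] at this

/-- removable singularities at finitely many points -/
lemma removable (B : Finset ℂ) : ∀ f : ℂ → ℂ, (∀ s, s ∉ B → DifferentiableAt ℂ f s) →
    (∀ b ∈ B, ∃ C : ℝ, ∀ᶠ s in 𝓝[≠] b, ‖f s‖ ≤ C) →
    ∃ g : ℂ → ℂ, Differentiable ℂ g ∧ ∀ s, s ∉ B → g s = f s := by
  classical
  induction B using Finset.induction_on with
  | empty =>
    intro f h1 _
    exact ⟨f, fun s => h1 s (by simp), fun s _ => rfl⟩
  | insert c B hcB ih =>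
    intro f h1 h2
    obtain ⟨C, hC⟩ := h2 c (by simp)
    have hBc : (B : Set ℂ)ᶜ ∈ 𝓝 c := B.finite_toSet.isClosed.isOpen_compl.mem_nhds (by simpa using hcB)
    obtain ⟨T, hT, hTo, hcT⟩ : ∃ T : Set ℂ, (∀ s ∈ T \ {c}, ‖f s‖ ≤ C ∧ s ∉ B) ∧ IsOpen T ∧ c ∈ T := by
      have h3 : ∀ᶠ s in 𝓝 c, s ≠ c → ‖f s‖ ≤ C ∧ s ∉ B := by
        have h4 := eventually_nhdsWithin_iff.1 hC
        filter_upwards [h4, hBc] with s a b hs
        exact ⟨a hs, by simpa using b⟩
      obtain ⟨T, hT1, hT2, hT3⟩ := eventually_nhds_iff.1 h3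
      exact ⟨T, fun s hs => hT1 s hs.1 hs.2, hT2, hT3⟩
    have hd : DifferentiableOn ℂ f (T \ {c}) := by
      intro s hs
      exact (h1 s (by
        simp only [mem_insert, not_or]
        exact ⟨hs.2, (hT s hs).2⟩)).differentiableWithinAt
    have hb : BddAbove (norm ∘ f '' (T \ {c})) := by
      refine ⟨C, ?_⟩
      rintro _ ⟨s, hs, rfl⟩
      exact (hT s hs).1
    have h5 := Complex.differentiableOn_update_limUnder_of_bddAbove (hTo.mem_nhds hcT) hd hb
    set f₁ := Function.update f c (limUnder (𝓝[≠] c) f) with hf₁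
    have hA : ∀ s, s ∉ B → DifferentiableAt ℂ f₁ s := by
      intro s hs
      by_cases hsc : s = c
      · subst hsc
        exact (h5 s hcT).differentiableAt (hTo.mem_nhds hcT)
      · have h6 : f₁ =ᶠ[𝓝 s] f := by
          filter_upwards [isOpen_ne.mem_nhds hsc] with r hr
          rw [hf₁, Function.update_of_ne hr]
        exact (h1 s (by simp [hsc, hs])).congr_of_eventuallyEq h6
    have hB : ∀ b ∈ B, ∃ C : ℝ, ∀ᶠ s in 𝓝[≠] b, ‖f₁ s‖ ≤ C := by
      intro b hb'
      obtain ⟨C', hC'⟩ := h2 b (by simp [hb'])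
      refine ⟨C', ?_⟩
      have hbc : b ≠ c := fun h => hcB (h ▸ hb')
      filter_upwards [hC', mem_nhdsWithin_of_mem_nhds (isOpen_ne.mem_nhds hbc)] with s a b'
      rw [hf₁, Function.update_of_ne b']
      exact a
    obtain ⟨g, hg, hgf⟩ := ih f₁ hA hB
    refine ⟨g, hg, fun s hs => ?_⟩
    simp only [mem_insert, not_or] at hs
    rw [hgf s hs.2, hf₁, Function.update_of_ne hs.1]

/-- an entire function which is `O(s)` is affine -/
lemma affine_of_growth {g : ℂ → ℂ} (hg : Differentiable ℂ g) {C R : ℝ} (hR : 0 < R)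
    (h : ∀ s, R ≤ ‖s‖ → ‖g s‖ ≤ C * ‖s‖) : ∃ a b : ℂ, ∀ s, g s = a * s + b := by
  have hd : Differentiable ℂ (dslope g 0) := by
    have := (Complex.differentiableOn_dslope (f := g) (s := Set.univ) (c := 0) Filter.univ_mem).2
      hg.differentiableOn
    exact differentiableOn_univ.1 this
  have hbd : Bornology.IsBounded (Set.range (dslope g 0)) := by
    have h1 : ∃ C1, ∀ s ∈ Metric.closedBall (0 : ℂ) R, ‖dslope g 0 s‖ ≤ C1 :=
      (isCompact_closedBall (0 : ℂ) R).exists_bound_of_continuousOn hd.continuous.continuousOn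
    obtain ⟨C1, hC1⟩ := h1
    refine (Metric.isBounded_closedBall (x := (0 : ℂ)) (r := max C1 (|C| + ‖g 0‖ / R))).subset ?_
    rintro _ ⟨s, rfl⟩
    rw [mem_closedBall_zero_iff]
    by_cases hs : ‖s‖ ≤ R
    · exact (hC1 s (by simpa using hs)).trans (le_max_left _ _)
    · push Not at hs
      refine le_trans ?_ (le_max_right _ _)
      have hs0 : s ≠ 0 := by
        rintro rfl
        simp at hs
        linarith
      rw [dslope_of_ne _ hs0, slope_def_field, sub_zero, norm_div]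
      have hs1 : 0 < ‖s‖ := norm_pos_iff.2 hs0
      rw [div_le_iff₀ hs1]
      have h2 := h s hs.le
      have h3 : ‖g s - g 0‖ ≤ ‖g s‖ + ‖g 0‖ := norm_sub_le _ _
      have h4 : C * ‖s‖ ≤ |C| * ‖s‖ := mul_le_mul_of_nonneg_right (le_abs_self C) hs1.le
      have h5 : ‖g 0‖ ≤ ‖g 0‖ / R * ‖s‖ := by
        rw [div_mul_eq_mul_div, le_div_iff₀ hR]
        exact mul_le_mul_of_nonneg_left hs.le (norm_nonneg _)
      nlinarith
  refine ⟨dslope g 0 0, g 0, fun s => ?_⟩
  have h1 := hd.apply_eq_apply_of_bounded hbd s 0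
  by_cases hs : s = 0
  · subst hs; simp
  · rw [dslope_of_ne _ hs, slope_def_field, sub_zero] at h1
    rw [← h1]
    field_simp
    ring

/-- a homogeneous function of degree two on the cone, holomorphic in the charts, with a character -/
structure Fun (u : ℂ) (S : Finset (Fin 6)) (f : (Fin 6 → ℂ) → ℂ) : Prop where
  adm : Adm u
  scale : ∀ p, OnZ u p → ∀ c : ℂ, c ≠ 0 → f (c • p) = c ^ 2 * f p
  holo : ∀ p k m, Good u p k m → DifferentiableOn ℂ (fun t => f (ch u p k m t)) (chU u p k m)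
  sign : ∀ p, OnZ u p → ∀ j, f (flip j p) = (if j ∈ S then -1 else 1) * f p

/-- product over `S` -/
def PS (S : Finset (Fin 6)) (p : Fin 6 → ℂ) : ℂ := ∏ j ∈ S, p j

lemma PS_flip (S : Finset (Fin 6)) (p : Fin 6 → ℂ) (j : Fin 6) :
    PS S (flip j p) = (if j ∈ S then -1 else 1) * PS S p := by
  unfold PS flip
  split_ifs with h
  · rw [prod_update_of_mem h, ← mul_prod_erase S p h, sdiff_singleton_eq_erase]
    ring
  · rw [prod_update_of_notMem h, one_mul]

lemma PS_smul (S : Finset (Fin 6)) (p : Fin 6 → ℂ) (c : ℂ) : PS S (c • p) = c ^ #S * PS S p := by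
  unfold PS
  simp [prod_mul_distrib]

/-- the normalized point over `s` -/
def pt (u s : ℂ) : Fin 6 → ℂ := fun j => (al j * s + be u j) ^ (2⁻¹ : ℂ)

lemma half_sq (z : ℂ) : (z ^ (2⁻¹ : ℂ)) ^ 2 = z := by
  have := cpow_nat_inv_pow z (n := 2) two_ne_zero
  simpa using this

lemma pt_sq (s : ℂ) (j : Fin 6) : pt u s j ^ 2 = al j * s + be u j := half_sq _

lemma pt_onZ (s : ℂ) : OnZ u (pt u s) := by
  refine ⟨fun h => ?_, fun j => ?_⟩
  · have := pt_sq (u := u) s 1
    rw [h] at this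
    simp [al, be] at this
  · rw [pt_sq, pt_sq, pt_sq]
    simp [al, be]

namespace Fun

variable {S : Finset (Fin 6)} {f : (Fin 6 → ℂ) → ℂ} (hf : Fun u S f)

include hf

lemma ratio {p q : Fin 6 → ℂ} (hp : OnZ u p) (hpq : ∀ j, q j ^ 2 = p j ^ 2) :
    f q * PS S p = f p * PS S q := by
  refine signs_induction (R := fun q => f q * PS S p = f p * PS S q) hp rfl ?_ hpq
  intro r j hr _ h
  rw [hf.sign r hr, PS_flip]
  linear_combination (if j ∈ S then (-1 : ℂ) else 1) * h

/-- vanishing on the branch points in `S` -/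
lemma vanish {p : Fin 6 → ℂ} (hp : OnZ u p) {k : Fin 6} (hk : k ∈ S) (h0 : p k = 0) : f p = 0 := by
  have h1 : flip k p = p := by
    unfold flip
    rw [h0, neg_zero, ← h0, Function.update_eq_self]
  have h2 := hf.sign p hp k
  rw [h1, if_pos hk] at h2
  linear_combination h2 / 2

/-- boundedness of the quotient near the centre of a chart -/
lemma bounded_chart {p : Fin 6 → ℂ} {k m : Fin 6} (h : Good u p k m) (hpk : p k = 0) :
    ∃ C : ℝ, ∀ᶠ t in 𝓝[≠] (0 : ℂ), ‖f (ch u p k m t) / PS S (ch u p k m t)‖ ≤ C := by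
  have hd : DifferentiableAt ℂ (fun t => f (ch u p k m t)) 0 :=
    (hf.holo p k m h 0 Good.zero_mem_chU).differentiableAt
      (Good.isOpen_chU.mem_nhds Good.zero_mem_chU)
  have hdc : DifferentiableAt ℂ (ch u p k m) 0 := Good.differentiableAt_ch Good.zero_mem_chU
  have hcj : ∀ j, ContinuousAt (fun t => ch u p k m t j) 0 := fun j =>
    (differentiableAt_pi.1 hdc j).continuousAt
  by_cases hk : k ∈ S
  · -- `f` vanishes at the centre
    have hf0 : f (ch u p k m 0) = 0 := by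
      rw [Good.ch_zero]; exact hf.vanish h.on hk hpk
    have hP : ∀ t, PS S (ch u p k m t) = t * ∏ j ∈ S.erase k, ch u p k m t j := by
      intro t
      unfold PS
      rw [← mul_prod_erase S _ hk, Good.ch_k, hpk, zero_add]
    have hne : ∏ j ∈ S.erase k, ch u p k m 0 j ≠ 0 := by
      rw [prod_ne_zero_iff]
      intro j hj
      rw [Good.ch_zero]
      exact h.ne j (ne_of_mem_erase hj)
    have hcont : ContinuousAt (fun t => ∏ j ∈ S.erase k, ch u p k m t j) 0 :=
      tendsto_finsetProd _ fun j _ => hcj j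
    have h1 : Filter.Tendsto (fun t => slope (fun t => f (ch u p k m t)) 0 t /
        ∏ j ∈ S.erase k, ch u p k m t j) (𝓝[≠] 0)
        (𝓝 (deriv (fun t => f (ch u p k m t)) 0 / ∏ j ∈ S.erase k, ch u p k m 0 j)) :=
      (hasDerivAt_iff_tendsto_slope.1 hd.hasDerivAt).div
        (hcont.tendsto.mono_left nhdsWithin_le_nhds) hne
    refine ⟨‖deriv (fun t => f (ch u p k m t)) 0 / ∏ j ∈ S.erase k, ch u p k m 0 j‖ + 1, ?_⟩
    have h2 := h1.norm.eventually (gt_mem_nhds (lt_add_one _))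
    filter_upwards [h2, self_mem_nhdsWithin] with t ht ht0
    have ht0' : t ≠ 0 := ht0
    have h3 : f (ch u p k m t) / PS S (ch u p k m t) = slope (fun t => f (ch u p k m t)) 0 t /
        ∏ j ∈ S.erase k, ch u p k m t j := by
      rw [hP, slope_def_field, hf0, sub_zero, sub_zero]
      rw [div_div, mul_comm]
    rw [h3]
    exact ht.le
  · have hne : PS S (ch u p k m 0) ≠ 0 := by
      unfold PS
      rw [prod_ne_zero_iff]
      intro j hj
      rw [Good.ch_zero]
      exact h.ne j (fun hjk => hk (hjk ▸ hj))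
    have hcont : ContinuousAt (fun t => PS S (ch u p k m t)) 0 := by
      unfold PS
      exact tendsto_finsetProd _ fun j _ => hcj j
    have h1 := (hd.continuousAt.div hcont hne).norm
    refine ⟨‖f (ch u p k m 0) / PS S (ch u p k m 0)‖ + 1, ?_⟩
    have h2 := h1.eventually (gt_mem_nhds (lt_add_one _))
    filter_upwards [mem_nhdsWithin_of_mem_nhds h2] with t ht
    exact ht.le

/-- the quotient as a function on the base -/
def _root_.Pool.Agent.R403.IS.GG (u : ℂ) (S : Finset (Fin 6)) (f : (Fin 6 → ℂ) → ℂ) (s : ℂ) : ℂ :=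
  f (pt u s) / PS S (pt u s)

/-- the branch points -/
def _root_.Pool.Agent.R403.IS.BB (u : ℂ) : Finset ℂ := {0, 1, -1, u, -u}

omit hf in
lemma notMem_BB {s : ℂ} : s ∉ BB u ↔ ∀ j, al j * s + be u j ≠ 0 := by
  rw [forall_fin6]
  simp only [BB, mem_insert, mem_singleton, not_or, al, be]
  simp
  intro _
  constructor
  · rintro ⟨h1, h2, h3, h4⟩
    refine ⟨fun h => h1 (by linear_combination h), fun h => h2 (by linear_combination h),
      fun h => h3 (by linear_combination h), fun h => h4 (by linear_combination h)⟩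
  · rintro ⟨h1, h2, h3, h4⟩
    refine ⟨fun h => h1 (by linear_combination h), fun h => h2 (by linear_combination h),
      fun h => h3 (by linear_combination h), fun h => h4 (by linear_combination h)⟩

omit hf in
lemma PS_ne {q : Fin 6 → ℂ} (hq : ∀ j, q j ≠ 0) : PS S q ≠ 0 := by
  unfold PS
  rw [prod_ne_zero_iff]
  intro j _
  exact hq j

lemma GG_eq {s : ℂ} {q : Fin 6 → ℂ} (hs : s ∉ BB u) (hqs : ∀ j, q j ^ 2 = al j * s + be u j) :
    f q / PS S q = GG u S f s := by
  have h1 := hf.ratio (pt_onZ (u := u) s) (q := q) (fun j => by rw [hqs, pt_sq])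
  have h2 := notMem_BB.1 hs
  have h3 : ∀ j, q j ≠ 0 := fun j h => h2 j (by rw [← hqs, h]; simp)
  have h4 : ∀ j, pt u s j ≠ 0 := fun j h => h2 j (by rw [← pt_sq, h]; simp)
  unfold GG
  rw [div_eq_div_iff (PS_ne h3) (PS_ne h4)]
  exact h1

lemma GG_diff {s₀ : ℂ} (hs : s₀ ∉ BB u) : DifferentiableAt ℂ (GG u S f) s₀ := by
  have h2 := notMem_BB.1 hs
  have h4 : ∀ j, pt u s₀ j ≠ 0 := fun j h => h2 j (by rw [← pt_sq, h]; simp)
  set p := pt u s₀ with hp
  have h : Good u p 0 1 := ⟨hf.adm, pt_onZ s₀, by decide, fun j _ => h4 j⟩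
  have hs0 : s₀ ≠ 0 := by
    have := h2 0
    simpa [al, be] using this
  have hp0 : p 0 ^ 2 = s₀ := by rw [hp, pt_sq]; simp [al, be]
  set T : ℂ → ℂ := fun s => p 0 * (s / s₀) ^ (2⁻¹ : ℂ) - p 0 with hT
  have hT0 : T s₀ = 0 := by simp [hT, div_self hs0]
  have hTd : DifferentiableAt ℂ T s₀ := by
    have h1 : DifferentiableAt ℂ (fun s : ℂ => (s / s₀) ^ (2⁻¹ : ℂ)) s₀ := by
      refine (differentiableAt_fun_id.div_const _).cpow (differentiableAt_const _) ?_
      rw [div_self hs0]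
      simp
    exact (h1.const_mul _).sub_const _
  have hTs : ∀ s, (p 0 + T s) ^ 2 = s := by
    intro s
    simp only [hT]
    rw [show p 0 + (p 0 * (s / s₀) ^ (2⁻¹ : ℂ) - p 0) = p 0 * (s / s₀) ^ (2⁻¹ : ℂ) by ring,
      mul_pow, half_sq, hp0]
    field_simp
  have hsq : ∀ s j, ch u p 0 1 (T s) j ^ 2 = al j * s + be u j := by
    intro s j
    rw [h.ch_sq, hp, pt_sq, ← hp]
    have e1 : DD u j 1 = al j := by unfold DD; simp [al, be]
    have e2 : DD u 0 1 = 1 := by unfold DD; simp [al, be]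
    rw [e1, e2]
    have e3 := hTs s
    have e4 : 2 * p 0 * T s + T s ^ 2 = s - s₀ := by rw [← hp0]; linear_combination e3
    rw [e4]; ring
  have hev : ∀ᶠ s in 𝓝 s₀, GG u S f s = f (ch u p 0 1 (T s)) / PS S (ch u p 0 1 (T s)) := by
    have h5 : ((BB u : Finset ℂ) : Set ℂ)ᶜ ∈ 𝓝 s₀ :=
      (BB u).finite_toSet.isClosed.isOpen_compl.mem_nhds (by simpa using hs)
    filter_upwards [h5] with s hs'
    exact (hf.GG_eq (by simpa using hs') (hsq s)).symm
  refine DifferentiableAt.congr_of_eventuallyEq ?_ hev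
  have hmem : T s₀ ∈ chU u p 0 1 := by rw [hT0]; exact Good.zero_mem_chU
  have d1 : DifferentiableAt ℂ (fun t => f (ch u p 0 1 t)) (T s₀) :=
    (hf.holo p 0 1 h _ hmem).differentiableAt (Good.isOpen_chU.mem_nhds hmem)
  have d2 : DifferentiableAt ℂ (fun t => PS S (ch u p 0 1 t)) (T s₀) := by
    unfold PS
    exact DifferentiableAt.fun_finsetProd fun i _ =>
      differentiableAt_pi.1 (Good.differentiableAt_ch hmem) i
  have hne : PS S (ch u p 0 1 (T s₀)) ≠ 0 := by
    rw [hT0, Good.ch_zero]; exact PS_ne h4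
  exact DifferentiableAt.comp (f := T) (g := fun t => f (ch u p 0 1 t) / PS S (ch u p 0 1 t)) s₀
    (d1.div d2 hne) hTd

lemma GG_bdd {b : ℂ} (hb : b ∈ BB u) : ∃ C : ℝ, ∀ᶠ s in 𝓝[≠] b, ‖GG u S f s‖ ≤ C := by
  obtain ⟨k, hk1, hk⟩ : ∃ k : Fin 6, k ≠ 1 ∧ al k * b + be u k = 0 := by
    simp only [BB, mem_insert, mem_singleton] at hb
    rcases hb with h | h | h | h | h
    · exact ⟨0, by decide, by rw [h]; simp [al, be]⟩
    · exact ⟨2, by decide, by rw [h]; simp [al, be]⟩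
    · exact ⟨3, by decide, by rw [h]; simp [al, be]⟩
    · exact ⟨4, by decide, by rw [h]; simp [al, be]⟩
    · exact ⟨5, by decide, by rw [h]; simp [al, be]⟩
  set p := pt u b with hp
  have hpk : p k = 0 := by
    rw [hp]; unfold pt; rw [hk]; simp
  have h : Good u p k 1 :=
    ⟨hf.adm, pt_onZ b, hk1, fun j hj => (pt_onZ b).ne_of_eq_zero hf.adm (Ne.symm hj) hpk⟩
  have hak : al k = 1 := by
    fin_cases k <;> first | exact absurd rfl hk1 | simp [al]
  obtain ⟨C, hC⟩ := hf.bounded_chart h hpk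
  refine ⟨C, ?_⟩
  have hsq : ∀ t j, ch u p k 1 t j ^ 2 = al j * (b + t ^ 2) + be u j := by
    intro t j
    rw [h.ch_sq, hp, pt_sq, ← hp, hpk]
    have e1 : DD u j 1 = al j := by unfold DD; simp [al, be]
    have e2 : DD u k 1 = 1 := by unfold DD; rw [hak]; simp [al, be]
    rw [e1, e2]
    ring
  have ht : Tendsto (fun s : ℂ => (s - b) ^ (2⁻¹ : ℂ)) (𝓝[≠] b) (𝓝[≠] 0) := by
    refine tendsto_nhdsWithin_iff.2 ⟨?_, ?_⟩
    · have h1 : ContinuousAt (fun z : ℂ => z ^ (2⁻¹ : ℂ)) (b - b) :=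
        continuousAt_cpow_const_of_re_pos (Or.inl (by simp)) (by norm_num)
      have h2 : ContinuousAt (fun s : ℂ => (s - b) ^ (2⁻¹ : ℂ)) b :=
        ContinuousAt.comp (f := fun s : ℂ => s - b) h1 (by fun_prop)
      have h3 := h2.tendsto.mono_left (nhdsWithin_le_nhds (s := {b}ᶜ))
      simpa using h3
    · filter_upwards [self_mem_nhdsWithin] with s hs
      have hs' : s - b ≠ 0 := sub_ne_zero.2 hs
      intro h0
      have h1 := half_sq (s - b)
      rw [show (s - b) ^ (2⁻¹ : ℂ) = 0 from h0] at h1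
      exact hs' (by rw [← h1]; simp)
  have hBe : ∀ᶠ s in 𝓝[≠] b, s ∉ BB u := by
    have h5 : (((BB u).erase b : Finset ℂ) : Set ℂ)ᶜ ∈ 𝓝 b :=
      ((BB u).erase b).finite_toSet.isClosed.isOpen_compl.mem_nhds (by simp)
    filter_upwards [mem_nhdsWithin_of_mem_nhds h5, self_mem_nhdsWithin] with s h6 h7 h8
    exact h6 (by simpa using ⟨h8, h7⟩)
  filter_upwards [ht.eventually hC, hBe] with s h1 h2
  rw [← hf.GG_eq h2 (q := ch u p k 1 ((s - b) ^ (2⁻¹ : ℂ))) (fun j => by rw [hsq, half_sq]; ring)]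
  exact h1

/-- the point over infinity -/
def _root_.Pool.Agent.R403.IS.pinf : Fin 6 → ℂ := ![1, 0, 1, 1, 1, 1]

lemma good_pinf : Good u pinf 1 0 := by
  refine ⟨hf.adm, ⟨fun h => ?_, ?_⟩, by decide, ?_⟩
  · have := congrFun h 0
    simp [pinf] at this
  · rw [forall_fin6]
    simp [al, be, pinf]
  · intro j hj
    fin_cases j <;> first | exact absurd rfl hj | simp [pinf]

/-- growth at infinity -/
lemma GG_growth : ∃ C R : ℝ, 0 < C ∧ 1 ≤ R ∧ ∀ s, R ≤ ‖s‖ →
    s ∉ BB u ∧ ∃ t : ℂ, t ≠ 0 ∧ t ^ 2 = s⁻¹ ∧ ‖GG u S f s‖ * ‖t‖ ^ 2 ≤ C * ‖t‖ ^ #S := by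
  have h := hf.good_pinf
  obtain ⟨C, hC⟩ := hf.bounded_chart h (by simp [pinf])
  rw [eventually_nhdsWithin_iff, Metric.eventually_nhds_iff] at hC
  obtain ⟨ε, hε, hC⟩ := hC
  set M : ℝ := ∑ b ∈ BB u, ‖b‖ with hM
  have hM0 : 0 ≤ M := sum_nonneg fun _ _ => norm_nonneg _
  refine ⟨|C| + 1, max (M + 1) (ε ^ 2)⁻¹ + 1, by positivity, ?_, fun s hs => ?_⟩
  · have := le_max_left (M + 1) (ε ^ 2)⁻¹
    linarith
  have hsM : M < ‖s‖ := by
    have := le_max_left (M + 1) (ε ^ 2)⁻¹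
    linarith
  have hsε : (ε ^ 2)⁻¹ < ‖s‖ := by
    have := le_max_right (M + 1) (ε ^ 2)⁻¹
    linarith
  have hs0 : 0 < ‖s‖ := lt_of_le_of_lt hM0 hsM
  have hsne : s ≠ 0 := norm_pos_iff.1 hs0
  have hsB : s ∉ BB u := by
    intro hsB
    have : ‖s‖ ≤ M := single_le_sum (f := fun b : ℂ => ‖b‖) (fun _ _ => norm_nonneg _) hsB
    linarith
  refine ⟨hsB, s⁻¹ ^ (2⁻¹ : ℂ), ?_, half_sq _, ?_⟩
  · intro h0
    have := half_sq s⁻¹
    rw [h0] at this
    simp at this
    exact hsne this.symm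
  set t : ℂ := s⁻¹ ^ (2⁻¹ : ℂ) with ht
  have ht2 : t ^ 2 = s⁻¹ := half_sq _
  have ht0 : t ≠ 0 := by
    intro h0
    rw [h0] at ht2
    simp at ht2
    exact hsne ht2.symm
  have htn : 0 < ‖t‖ := norm_pos_iff.2 ht0
  have htε : ‖t‖ < ε := by
    have e1 : ‖t‖ ^ 2 = ‖s‖⁻¹ := by rw [← norm_pow, ht2, norm_inv]
    have e2 : ‖s‖⁻¹ < ε ^ 2 := by
      rw [inv_lt_comm₀ hs0 (by positivity)]
      exact hsε
    rw [← e1] at e2
    exact lt_of_pow_lt_pow_left₀ 2 hε.le e2
  have hb := hC (y := t) (by simpa using htε) ht0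
  have hsq : ∀ j, (t⁻¹ • ch u pinf 1 0 t) j ^ 2 = al j * s + be u j := by
    intro j
    simp only [Pi.smul_apply, smul_eq_mul, mul_pow]
    rw [h.ch_sq, inv_pow, ht2, inv_inv]
    have e1 : DD u j 0 = -be u j := by unfold DD; simp [al, be]
    have e2 : DD u 1 0 = -1 := by unfold DD; simp [al, be]
    have e3 : pinf j ^ 2 = al j := by
      revert j
      rw [forall_fin6]
      simp [al, pinf]
    have e4 : pinf 1 = 0 := by simp [pinf]
    rw [e1, e2, e3, e4]
    field_simp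
    ring
  have e5 := hf.GG_eq hsB hsq
  rw [hf.scale _ (h.ch_onZ t) _ (inv_ne_zero ht0), PS_smul] at e5
  have e6 : GG u S f s * t ^ 2 = f (ch u pinf 1 0 t) / PS S (ch u pinf 1 0 t) * t ^ #S := by
    rw [← e5]
    rcases eq_or_ne (PS S (ch u pinf 1 0 t)) 0 with h0 | h0
    · rw [h0]; simp
    · rw [inv_pow, inv_pow]
      field_simp
  have e7 : ‖GG u S f s‖ * ‖t‖ ^ 2 = ‖f (ch u pinf 1 0 t) / PS S (ch u pinf 1 0 t)‖ * ‖t‖ ^ #S := by
    rw [← norm_pow, ← norm_mul, e6, norm_mul, norm_pow]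
  rw [e7]
  refine mul_le_mul_of_nonneg_right (hb.trans ?_) (by positivity)
  linarith [le_abs_self C]

/-- from generic points to all points -/
lemma extend {R : (Fin 6 → ℂ) → ℂ} (hR : Continuous R)
    (h : ∀ p, OnZ u p → (∀ j, p j ≠ 0) → f p = R p) {p : Fin 6 → ℂ} (hp : OnZ u p) :
    f p = R p := by
  by_cases hz : ∃ k, p k = 0
  · obtain ⟨k, hk⟩ := hz
    have hg : Good u p k (k + 1) :=
      ⟨hf.adm, hp, by fin_cases k <;> decide, fun j hj => hp.ne_of_eq_zero hf.adm (Ne.symm hj) hk⟩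
    have hd : ContinuousAt (fun t => f (ch u p k (k + 1) t)) 0 :=
      ((hf.holo p k _ hg 0 Good.zero_mem_chU).differentiableAt
      (Good.isOpen_chU.mem_nhds Good.zero_mem_chU)).continuousAt
    have hd2 : ContinuousAt (fun t => R (ch u p k (k + 1) t)) 0 :=
      hR.continuousAt.comp (Good.differentiableAt_ch Good.zero_mem_chU).continuousAt
    have hev : ∀ᶠ t in 𝓝[≠] (0 : ℂ), f (ch u p k (k + 1) t) = R (ch u p k (k + 1) t) := by
      filter_upwards [mem_nhdsWithin_of_mem_nhds (Good.isOpen_chU.mem_nhds Good.zero_mem_chU),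
        self_mem_nhdsWithin] with t ht ht0
      refine h _ (hg.ch_onZ t) fun j => ?_
      by_cases hj : j = k
      · rw [hj, Good.ch_k, hk, zero_add]
        exact ht0
      · exact hg.ch_ne_zero ht hj
    have h1 := tendsto_nhds_unique (hd.tendsto.mono_left nhdsWithin_le_nhds)
      ((hd2.tendsto.mono_left nhdsWithin_le_nhds).congr' (hev.mono fun _ h => h.symm))
    simpa [Good.ch_zero] using h1
  · push Not at hz
    exact h p hp hz

lemma exists_entire : ∃ g : ℂ → ℂ, Differentiable ℂ g ∧ ∀ s, s ∉ BB u → g s = GG u S f s :=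
  removable (BB u) _ (fun _ hs => hf.GG_diff hs) (fun _ hb => hf.GG_bdd hb)

lemma generic {p : Fin 6 → ℂ} (hp : OnZ u p) (hne : ∀ j, p j ≠ 0) :
    p 0 ^ 2 / p 1 ^ 2 ∉ BB u ∧
      f p * p 1 ^ #S = p 1 ^ 2 * GG u S f (p 0 ^ 2 / p 1 ^ 2) * PS S p := by
  have h1 := hne 1
  have hs : ∀ j, p j ^ 2 / p 1 ^ 2 = al j * (p 0 ^ 2 / p 1 ^ 2) + be u j := by
    intro j
    rw [hp.2 j]
    field_simp
  have hB : p 0 ^ 2 / p 1 ^ 2 ∉ BB u := by
    rw [notMem_BB]
    intro j
    rw [← hs j]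
    exact div_ne_zero (pow_ne_zero 2 (hne j)) (pow_ne_zero 2 h1)
  refine ⟨hB, ?_⟩
  have h2 := hf.GG_eq hB (q := (p 1)⁻¹ • p) (fun j => by
    rw [← hs j]
    simp only [Pi.smul_apply, smul_eq_mul]
    field_simp)
  rw [hf.scale p hp _ (inv_ne_zero h1), PS_smul] at h2
  rw [← h2, inv_pow, inv_pow]
  have h3 : PS S p ≠ 0 := PS_ne hne
  field_simp

/-- character trivial: quadratic forms in the two basic coordinates -/
theorem class0 (hS : S = ∅) : ∃ a b : ℂ, ∀ p, OnZ u p → f p = a * p 0 ^ 2 + b * p 1 ^ 2 := by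
  subst hS
  obtain ⟨g, hg, hgG⟩ := hf.exists_entire
  obtain ⟨C, R, hC, hR, hgr⟩ := hf.GG_growth
  have h1 : ∀ s, R ≤ ‖s‖ → ‖g s‖ ≤ C * ‖s‖ := by
    intro s hs
    obtain ⟨hsB, t, ht0, ht2, ht⟩ := hgr s hs
    rw [hgG s hsB]
    rw [card_empty, pow_zero, mul_one, ← norm_pow, ht2, norm_inv] at ht
    have hs0 : 0 < ‖s‖ := by linarith
    rw [← div_eq_mul_inv, div_le_iff₀ hs0] at ht
    exact ht
  obtain ⟨a, b, hab⟩ := affine_of_growth hg (by linarith) h1
  refine ⟨a, b, fun p hp => hf.extend (R := fun p => a * p 0 ^ 2 + b * p 1 ^ 2) (by fun_prop)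
    (fun p hp hne => ?_) hp⟩
  obtain ⟨h2, h3⟩ := hf.generic hp hne
  rw [← hgG _ h2, hab] at h3
  have h4 := hne 1
  simp only [card_empty, pow_zero, mul_one, PS, prod_empty] at h3
  rw [h3]
  field_simp

/-- two sign changes: multiples of one monomial -/
theorem class2 (hS : #S = 2) : ∃ c : ℂ, ∀ p, OnZ u p → f p = c * PS S p := by
  obtain ⟨g, hg, hgG⟩ := hf.exists_entire
  obtain ⟨C, R, hC, hR, hgr⟩ := hf.GG_growth
  have h1 : ∀ s, R ≤ ‖s‖ → ‖g s‖ ≤ C := by
    intro s hs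
    obtain ⟨hsB, t, ht0, ht2, ht⟩ := hgr s hs
    rw [hgG s hsB]
    rw [hS] at ht
    have : 0 < ‖t‖ ^ 2 := by positivity
    exact le_of_mul_le_mul_right ht this
  have hb : Bornology.IsBounded (Set.range g) := by
    obtain ⟨C1, hC1⟩ := (isCompact_closedBall (0 : ℂ) R).exists_bound_of_continuousOn
      hg.continuous.continuousOn
    refine (Metric.isBounded_closedBall (x := (0 : ℂ)) (r := max C1 C)).subset ?_
    rintro _ ⟨s, rfl⟩
    rw [mem_closedBall_zero_iff]
    by_cases hs : ‖s‖ ≤ R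
    · exact (hC1 s (by simpa using hs)).trans (le_max_left _ _)
    · push Not at hs
      exact (h1 s hs.le).trans (le_max_right _ _)
  refine ⟨g 0, fun p hp => hf.extend (R := fun p => g 0 * PS S p) ?_ (fun p hp hne => ?_) hp⟩
  · unfold PS
    exact continuous_const.mul (continuous_finsetProd _ fun i _ => continuous_apply i)
  obtain ⟨h2, h3⟩ := hf.generic hp hne
  rw [← hgG _ h2, hg.apply_eq_apply_of_bounded hb _ 0, hS] at h3
  have h4 : p 1 ^ 2 ≠ 0 := pow_ne_zero 2 (hne 1)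
  exact mul_right_cancel₀ h4 (by linear_combination h3)

/-- more than two sign changes: zero -/
theorem class3 (hS : 3 ≤ #S) {p : Fin 6 → ℂ} (hp : OnZ u p) : f p = 0 := by
  obtain ⟨g, hg, hgG⟩ := hf.exists_entire
  obtain ⟨C, R, hC, hR, hgr⟩ := hf.GG_growth
  have h1 : ∀ s, R ≤ ‖s‖ → ‖g s‖ ^ 2 * ‖s‖ ≤ C ^ 2 := by
    intro s hs
    obtain ⟨hsB, t, ht0, ht2, ht⟩ := hgr s hs
    rw [hgG s hsB]
    have hs0 : 0 < ‖s‖ := by linarith
    have htn : 0 < ‖t‖ := norm_pos_iff.2 ht0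
    have e1 : ‖t‖ ^ 2 = ‖s‖⁻¹ := by rw [← norm_pow, ht2, norm_inv]
    have ht1 : ‖t‖ ≤ 1 := by
      have : ‖t‖ ^ 2 ≤ 1 := by
        rw [e1]
        exact inv_le_one_of_one_le₀ (by linarith)
      nlinarith
    have e2 : C * ‖t‖ ^ #S ≤ C * ‖t‖ ^ 3 :=
      mul_le_mul_of_nonneg_left (pow_le_pow_of_le_one htn.le ht1 hS) hC.le
    have e3 : ‖GG u S f s‖ ≤ C * ‖t‖ := by
      have : ‖GG u S f s‖ * ‖t‖ ^ 2 ≤ C * ‖t‖ * ‖t‖ ^ 2 := by
        calc _ ≤ _ := ht
          _ ≤ _ := e2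
          _ = _ := by ring
      exact le_of_mul_le_mul_right this (by positivity)
    have e4 : ‖GG u S f s‖ ^ 2 ≤ (C * ‖t‖) ^ 2 := pow_le_pow_left₀ (norm_nonneg _) e3 2
    calc ‖GG u S f s‖ ^ 2 * ‖s‖ ≤ (C * ‖t‖) ^ 2 * ‖s‖ := mul_le_mul_of_nonneg_right e4 hs0.le
      _ = C ^ 2 * (‖t‖ ^ 2 * ‖s‖) := by ring
      _ = C ^ 2 := by rw [e1]; field_simp
  have hb : Bornology.IsBounded (Set.range g) := by
    obtain ⟨C1, hC1⟩ := (isCompact_closedBall (0 : ℂ) R).exists_bound_of_continuousOn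
      hg.continuous.continuousOn
    refine (Metric.isBounded_closedBall (x := (0 : ℂ)) (r := max C1 C)).subset ?_
    rintro _ ⟨s, rfl⟩
    rw [mem_closedBall_zero_iff]
    by_cases hs : ‖s‖ ≤ R
    · exact (hC1 s (by simpa using hs)).trans (le_max_left _ _)
    · push Not at hs
      refine le_trans ?_ (le_max_right _ _)
      have h2 := h1 s hs.le
      have h3 : ‖g s‖ ^ 2 ≤ C ^ 2 := by nlinarith [sq_nonneg ‖g s‖]
      exact le_of_sq_le_sq h3 hC.le
  have hg0 : g 0 = 0 := by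
    by_contra hne
    have hn : 0 < ‖g 0‖ := norm_pos_iff.2 hne
    set s : ℂ := ((R + (C ^ 2 + 1) / ‖g 0‖ ^ 2 : ℝ) : ℂ) with hs
    have hpos : 0 ≤ (C ^ 2 + 1) / ‖g 0‖ ^ 2 := by positivity
    have hsn : ‖s‖ = R + (C ^ 2 + 1) / ‖g 0‖ ^ 2 := by
      rw [hs, norm_real, Real.norm_of_nonneg (by linarith)]
    have h2 := h1 s (by rw [hsn]; linarith)
    rw [hg.apply_eq_apply_of_bounded hb s 0, hsn] at h2
    have h3 : ‖g 0‖ ^ 2 * ((C ^ 2 + 1) / ‖g 0‖ ^ 2) = C ^ 2 + 1 := by field_simp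
    have h4 : 0 ≤ ‖g 0‖ ^ 2 * R := by positivity
    nlinarith
  refine hf.extend (R := fun _ => 0) continuous_const (fun p hp hne => ?_) hp
  obtain ⟨h2, h3⟩ := hf.generic hp hne
  rw [← hgG _ h2, hg.apply_eq_apply_of_bounded hb _ 0, hg0] at h3
  have h4 : p 1 ^ #S ≠ 0 := pow_ne_zero _ (hne 1)
  have h5 : f p * p 1 ^ #S = 0 := by rw [h3]; ring
  exact (mul_eq_zero.1 h5).resolve_right h4

end Fun

end Pool.Agent.R403.IS
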