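import Pool.Agent.R403.IS.Chart

/-!
# The cone over `Z_u` is connected
-/

set_option autoImplicit false

open scoped Topology
open Matrix Complex

noncomputable section

namespace Pool.Agent.R403.IS

variable {u : ℂ}

/-- the cone -/
def SZ (u : ℂ) : Set (Fin 6 → ℂ) := {p | OnZ u p}

/-- changing the sign of one coordinate -/
def flip (j : Fin 6) (p : Fin 6 → ℂ) : Fin 6 → ℂ := Function.update p j (-p j)

lemma flip_sq (j i : Fin 6) (p : Fin 6 → ℂ) : flip j p i ^ 2 = p i ^ 2 := by
  unfold flip
  by_cases h : i = j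
  · subst h; simp
  · rw [Function.update_of_ne h]

lemma flip_onZ {p : Fin 6 → ℂ} (hp : OnZ u p) (j : Fin 6) : OnZ u (flip j p) := by
  refine ⟨fun h0 => hp.1 ?_, fun i => ?_⟩
  · funext i
    have h1 := flip_sq j i p
    rw [h0] at h1
    simpa using h1.symm
  · rw [flip_sq, flip_sq, flip_sq]
    exact hp.2 i

lemma continuous_flip (j : Fin 6) : Continuous (flip j) := by
  unfold flip
  refine continuous_pi fun i => ?_
  by_cases h : i = j
  · subst h; simp; fun_prop
  · simp only [Function.update_of_ne h]; fun_prop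

lemma exists_scale (r : Fin 6 → ℂ) : ∃ c : ℂ, c ≠ 0 ∧ ∀ j, 0 ≤ (c * r j).re ∨ (c * r j).im ≠ 0 := by
  have h1 : ∀ j, {n : ℕ | ¬ (0 ≤ ((1 + n * I) * r j).re ∨ ((1 + n * I) * r j).im ≠ 0)}.Finite := by
    intro j
    apply Set.Subsingleton.finite
    intro n hn n' hn'
    simp only [Set.mem_ofPred_eq, not_or, not_le, not_not] at hn hn'
    simp at hn hn'
    obtain ⟨a1, a2⟩ := hn
    obtain ⟨b1, b2⟩ := hn'
    have e : ((n : ℝ) - n') * (r j).re = 0 := by linarith
    rcases mul_eq_zero.1 e with h | h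
    · have : (n : ℝ) = n' := by linarith
      exact_mod_cast this
    · rw [h] at a1 a2 b1 b2
      simp at a2 b2
      rw [a2] at a1
      simp at a1
  have h2 : (⋃ j, {n : ℕ | ¬ (0 ≤ ((1 + n * I) * r j).re ∨ ((1 + n * I) * r j).im ≠ 0)}).Finite :=
    Set.finite_iUnion h1
  obtain ⟨n, hn⟩ := h2.exists_notMem
  refine ⟨1 + n * I, ?_, ?_⟩
  · intro h
    have := congrArg Complex.re h
    simp at this
  · intro j
    by_contra hc
    exact hn (Set.mem_iUnion.2 ⟨j, hc⟩)

lemma step1 {p : Fin 6 → ℂ} (hp : OnZ u p) {W Z : ℂ} (hWZ : W ≠ 0 ∨ Z ≠ 0) :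
    ∃ c : ℂ, c ≠ 0 ∧ ∃ q, OnZ u q ∧ (∀ j, q j ^ 2 = c * (al j * W + be u j * Z)) ∧
      JoinedIn (SZ u) p q := by
  obtain ⟨c, hc, hcj⟩ := exists_scale (fun j => (al j * W + be u j * Z) / p j ^ 2)
  set L : Fin 6 → ℂ := fun j => c * (al j * W + be u j * Z) with hL
  have hr : ∀ j, ∃ r : ℂ, r ^ 2 = L j := fun j => by
    obtain ⟨r, hr⟩ := IsSquare.exists_sq (L j) (IsAlgClosed.exists_pow_nat_eq (L j) two_pos |>.elim
      fun r hr => ⟨r, by rw [← hr, sq]⟩)
    exact ⟨r, hr.symm⟩
  choose r hr using hr
  set x : ℝ → Fin 6 → ℂ := fun s j =>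
    if p j = 0 then (s : ℂ) ^ (2⁻¹ : ℂ) * r j
    else p j * ((1 - s : ℂ) + s * (L j / p j ^ 2)) ^ (2⁻¹ : ℂ) with hx
  have hsq : ∀ z : ℂ, (z ^ (2⁻¹ : ℂ)) ^ 2 = z := fun z => by
    have := cpow_nat_inv_pow z (n := 2) two_ne_zero
    simpa using this
  have hx2 : ∀ s : ℝ, ∀ j, x s j ^ 2 = (1 - s) * p j ^ 2 + s * L j := by
    intro s j
    simp only [hx]
    split_ifs with h
    · rw [mul_pow, hsq, hr, h]; ring
    · rw [mul_pow, hsq]
      field_simp
  have hLl : ∀ s : ℝ, ∀ j, x s j ^ 2 = al j * x s 0 ^ 2 + be u j * x s 1 ^ 2 := by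
    intro s j
    rw [hx2, hx2, hx2, hp.2 j]
    simp only [hL]
    simp only [al, be]
    simp
    ring
  have hcont : ContinuousOn x (Set.Icc 0 1) := by
    refine continuousOn_pi.2 fun j => ?_
    simp only [hx]
    by_cases h : p j = 0
    · simp only [h, if_true]
      intro s hs
      apply ContinuousAt.continuousWithinAt
      have h1 : ContinuousAt (fun z : ℂ => z ^ (2⁻¹ : ℂ)) (s : ℂ) :=
        continuousAt_cpow_const_of_re_pos (Or.inl (by simpa using hs.1)) (by norm_num)
      have h2 : ContinuousAt (fun s : ℝ => (s : ℂ)) s := Complex.continuous_ofReal.continuousAt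
      exact (ContinuousAt.comp (f := fun s : ℝ => (s : ℂ)) h1 h2).mul continuousAt_const
    · simp only [h, if_false]
      intro s hs
      apply ContinuousAt.continuousWithinAt
      have hcond : 0 ≤ ((1 - s : ℂ) + s * (L j / p j ^ 2)).re ∨
          ((1 - s : ℂ) + s * (L j / p j ^ 2)).im ≠ 0 := by
        have h3 := hcj j
        have h4 : c * ((al j * W + be u j * Z) / p j ^ 2) = L j / p j ^ 2 := by
          simp only [hL]; ring
        rw [h4] at h3
        set z := L j / p j ^ 2
        have e1 : ((1 - s : ℂ) + s * z).re = (1 - s) + s * z.re := by simp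
        have e2 : ((1 - s : ℂ) + s * z).im = s * z.im := by simp
        rw [e1, e2]
        rcases h3 with h3 | h3
        · left
          have := mul_nonneg hs.1 h3
          linarith [hs.2]
        · by_cases hs0 : s = 0
          · left; simp [hs0]
          · right; exact mul_ne_zero hs0 h3
      have h1 : ContinuousAt (fun z : ℂ => z ^ (2⁻¹ : ℂ)) ((1 - s : ℂ) + s * (L j / p j ^ 2)) :=
        continuousAt_cpow_const_of_re_pos hcond (by norm_num)
      have h2 : ContinuousAt (fun s : ℝ => (1 - s : ℂ) + s * (L j / p j ^ 2)) s := by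
        fun_prop
      exact continuousAt_const.mul
        (ContinuousAt.comp (f := fun s : ℝ => (1 - s : ℂ) + s * (L j / p j ^ 2)) h1 h2)
  -- the path does not pass through zero
  have hne : ∀ s ∈ Set.Icc (0 : ℝ) 1, x s ≠ 0 := by
    intro s hs h0
    have hz : ∀ j, (1 - s : ℂ) * p j ^ 2 + s * L j = 0 := by
      intro j
      rw [← hx2, h0]; simp
    obtain ⟨j, hj⟩ : ∃ j, p j ≠ 0 := by
      by_contra hcon
      push Not at hcon
      exact hp.1 (funext hcon)
    have h3 := hcj j
    have h4 : c * ((al j * W + be u j * Z) / p j ^ 2) = L j / p j ^ 2 := by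
      simp only [hL]; ring
    rw [h4] at h3
    have h5 : (1 - s : ℂ) + s * (L j / p j ^ 2) = 0 := by
      have := hz j
      field_simp
      linear_combination this
    set z := L j / p j ^ 2
    have e1 : ((1 - s : ℂ) + s * z).re = (1 - s) + s * z.re := by simp
    have e2 : ((1 - s : ℂ) + s * z).im = s * z.im := by simp
    rw [h5] at e1 e2
    simp only [zero_re, zero_im] at e1 e2
    have hs1 : s = 1 := by
      rcases h3 with h3 | h3
      · have := mul_nonneg hs.1 h3
        linarith [hs.2]
      · have : s = 0 := by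
          rcases mul_eq_zero.1 e2.symm with h | h
          · exact h
          · exact absurd h h3
        rw [this] at e1
        simp at e1
    have hL0 : ∀ j, L j = 0 := by
      intro j
      have := hz j
      rw [hs1] at this
      simpa using this
    have hw := hL0 0
    have hzz := hL0 1
    simp [hL, al, be, hc] at hw hzz
    rcases hWZ with h | h
    · exact h hw
    · exact h hzz
  have hmem : ∀ s ∈ Set.Icc (0 : ℝ) 1, x s ∈ SZ u := fun s hs => ⟨hne s hs, hLl s⟩
  have hx0 : x 0 = p := by
    funext j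
    simp only [hx]
    split_ifs with h
    · simp [h]
    · simp
  refine ⟨c, hc, x 1, hmem 1 (by simp), ?_, ?_⟩
  · intro j
    rw [hx2]
    simp [hL]
  · have hr1 : ContinuousOn x (Set.Icc 0 1) := hcont
    refine JoinedIn.ofLine (f := x) hcont hx0 rfl ?_
    rintro _ ⟨s, hs, rfl⟩
    exact hmem s hs

lemma joined_map {p q : Fin 6 → ℂ} (f : (Fin 6 → ℂ) → (Fin 6 → ℂ)) (hf : Continuous f)
    (hS : ∀ r ∈ SZ u, f r ∈ SZ u) (h : JoinedIn (SZ u) p q) : JoinedIn (SZ u) (f p) (f q) := by
  obtain ⟨γ, hγ⟩ := h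
  exact ⟨γ.map hf, fun t => hS _ (hγ t)⟩

lemma joined_flip (hu : Adm u) {p : Fin 6 → ℂ} (hp : OnZ u p) (j : Fin 6) :
    JoinedIn (SZ u) p (flip j p) := by
  have hne : be u j ≠ 0 ∨ -al j ≠ 0 := by
    fin_cases j <;> simp [al, be]
  obtain ⟨c, -, q, hq, hq2, hj⟩ := step1 hp hne
  have h0 : q j = 0 := by
    have := hq2 j
    have h1 : q j ^ 2 = 0 := by rw [this]; ring
    simpa using h1
  have h1 : flip j q = q := by
    unfold flip
    rw [h0, neg_zero, ← h0, Function.update_eq_self]
  have h2 := joined_map (flip j) (continuous_flip j) (fun r hr => flip_onZ hr j) hj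
  rw [h1] at h2
  exact hj.trans h2.symm

lemma joined_signs (hu : Adm u) {p q : Fin 6 → ℂ} (hp : OnZ u p) (hpq : ∀ j, q j ^ 2 = p j ^ 2) :
    JoinedIn (SZ u) p q := by
  set r : ℕ → Fin 6 → ℂ := fun n j => if (j : ℕ) < n then q j else p j with hr
  have hrs : ∀ n j, r n j ^ 2 = p j ^ 2 := by
    intro n j
    simp only [hr]
    split_ifs
    · exact hpq j
    · rfl
  have hon : ∀ n, OnZ u (r n) := by
    intro n
    refine ⟨fun h0 => hp.1 ?_, fun j => ?_⟩
    · funext j
      have := hrs n j
      rw [h0] at this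
      simpa using this.symm
    · rw [hrs, hrs, hrs]; exact hp.2 j
  have hall : ∀ n, JoinedIn (SZ u) p (r n) := by
    intro n
    induction n with
    | zero =>
      have : r 0 = p := by funext j; simp [hr]
      rw [this]
      exact JoinedIn.refl hp
    | succ n ih =>
      by_cases hn : n < 6
      · have h1 : r (n + 1) = r n ∨ r (n + 1) = flip ⟨n, hn⟩ (r n) := by
          have h2 := sq_eq_sq_iff_eq_or_eq_neg.1 (hpq ⟨n, hn⟩)
          rcases h2 with h2 | h2
          · left
            funext j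
            simp only [hr]
            by_cases hj : (j : ℕ) < n
            · simp [hj, Nat.lt_succ_of_lt hj]
            · by_cases hj' : (j : ℕ) = n
              · have : j = ⟨n, hn⟩ := Fin.ext hj'
                subst this
                simp [h2]
              · have : ¬ (j : ℕ) < n + 1 := by omega
                simp [hj, this]
          · right
            funext j
            simp only [hr, flip]
            by_cases hj' : j = ⟨n, hn⟩
            · subst hj'
              simp [h2]
            · rw [Function.update_of_ne hj']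
              have hj2 : (j : ℕ) ≠ n := fun h => hj' (Fin.ext h)
              by_cases hj : (j : ℕ) < n
              · simp [hj, Nat.lt_succ_of_lt hj]
              · have : ¬ (j : ℕ) < n + 1 := by omega
                simp [hj, this]
        rcases h1 with h1 | h1
        · rw [h1]; exact ih
        · rw [h1]; exact ih.trans (joined_flip hu (hon n) _)
      · have : r (n + 1) = r n := by
          funext j
          have h1 : (j : ℕ) < n := by omega
          simp [hr, h1, Nat.lt_succ_of_lt h1]
        rw [this]; exact ih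
  have := hall 6
  have h6 : r 6 = q := by funext j; simp [hr]
  rwa [h6] at this

lemma joined_smul {p : Fin 6 → ℂ} (hp : OnZ u p) {c : ℂ} (hc : c ≠ 0) :
    JoinedIn (SZ u) p (c • p) := by
  refine JoinedIn.ofLine (f := fun s : ℝ => exp (s * log c) • p) ?_ (by simp) (by simp [exp_log hc]) ?_
  · exact (by fun_prop : Continuous fun s : ℝ => exp (s * log c) • p).continuousOn
  · rintro _ ⟨s, -, rfl⟩
    exact hp.smul (exp_ne_zero _)

theorem joined (hu : Adm u) {p q : Fin 6 → ℂ} (hp : OnZ u p) (hq : OnZ u q) :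
    JoinedIn (SZ u) p q := by
  have hne : q 0 ^ 2 ≠ 0 ∨ q 1 ^ 2 ≠ 0 := by
    by_contra hcon
    push Not at hcon
    have h0 : q 0 = 0 := by simpa using hcon.1
    exact hq.ne_of_eq_zero hu (show (0 : Fin 6) ≠ 1 by decide) h0 (by simpa using hcon.2)
  obtain ⟨c, hc, r, hr, hr2, hj⟩ := step1 hp hne
  obtain ⟨d, hd⟩ := IsAlgClosed.exists_pow_nat_eq c two_pos
  have hd0 : d ≠ 0 := by
    rintro rfl
    apply hc
    rw [← hd]; simp
  have h1 : ∀ j, (d • q) j ^ 2 = r j ^ 2 := by
    intro j
    rw [hr2 j, ← hq.2 j]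
    simp only [Pi.smul_apply, smul_eq_mul, mul_pow, hd]
  exact (hj.trans (joined_signs hu hr h1)).trans (joined_smul hq hd0).symm

/-- an explicit point -/
lemma exists_onZ (u : ℂ) : ∃ p, OnZ u p := by
  refine ⟨![1, 0, 1, 1, 1, 1], fun h => ?_, ?_⟩
  · have := congrFun h 0
    simp at this
  · rw [forall_fin6]
    simp [al, be]

theorem isConnected_SZ (hu : Adm u) : IsConnected (SZ u) := by
  obtain ⟨p, hp⟩ := exists_onZ u
  have : IsPathConnected (SZ u) := ⟨p, hp, fun {q} hq => joined hu hp hq⟩
  exact this.isConnected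

end Pool.Agent.R403.IS
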