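import Pool.Agent.R403.IS.Forms

/-!
# The two curves `X_u` and `Y_u`
-/

set_option autoImplicit false

open scoped Topology
open Matrix Complex Finset

noncomputable section

namespace Pool.Agent.R403.IS

/-- the representation of the group of sign changes on forms -/
def rF : Sg →* Module.End ℂ FF where
  toFun e :=
    { toFun := fun w p v => w (sa e p) (sa e v)
      map_add' := fun _ _ => rfl
      map_smul' := fun _ _ => rfl }
  map_one' := by
    ext w p v
    simp [sa_one]
  map_mul' a b := by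
    ext w p v
    simp [mul_comm a b, sa_mul]

lemma rF_apply (e : Sg) (w : FF) (p v : Fin 6 → ℂ) : rF e w p v = w (sa e p) (sa e v) := rfl

section

variable {u : ℂ} {T : Subgroup Sg} {w : FF}

lemma sa_comm (a b : Sg) (p : Fin 6 → ℂ) : sa a (sa b p) = sa b (sa a p) := by
  rw [← sa_mul, ← sa_mul, mul_comm]

lemma rF_isForm (hu : Adm u) (hw : (ZD u (T.map dg)).IsForm w) (e : Sg) :
    (ZD u (T.map dg)).IsForm (rF e w) := by
  have := pull_isForm (sMon u e) hu (H' := T.map dg) hw (by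
    intro h' hh'
    refine ⟨h', hh', fun p => ?_⟩
    obtain ⟨a, -, rfl⟩ := Subgroup.mem_map.1 hh'
    rw [sMon_lin, sMon_lin, act_dg, act_dg, sa_comm])
  exact this

lemma proj_isForm (hu : Adm u) (hw : (ZD u (T.map dg)).IsForm w) (W : Finset (Fin 6)) :
    (ZD u (T.map dg)).IsForm (proj rF W w) := by
  have : proj rF W w ∈ (ZD u (T.map dg)).Omega := by
    unfold proj
    refine Submodule.smul_mem _ _ (Submodule.sum_mem _ fun e _ => Submodule.smul_mem _ _ ?_)
    exact rF_isForm hu hw e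
  exact this

lemma proj_hasChar (W : Finset (Fin 6)) (w : FF) : HasChar u (proj rF W w) W := by
  intro e p v _ _
  have := congrFun (congrFun (r_proj rF W w e) p) v
  exact this

lemma rF_fixed (hw : (ZD u (T.map dg)).IsForm w) {e : Sg} (he : e ∈ T) : rF e w = w := by
  funext p v
  rw [rF_apply]
  by_cases hc : OnZ u p ∧ Tan u p v
  · have := hw.inv (dg e) (Subgroup.mem_map_of_mem _ he) p (mem_cone.2 hc.1) v
      (mem_tangent.2 hc.2)
    rwa [act_dg, act_dg] at this
  · rw [hw.supp p v (by rwa [mem_cone, mem_tangent]), hw.supp (sa e p) (sa e v)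
      (by rwa [mem_cone, mem_tangent, sa_onZ_iff, sa_tan_iff])]

end

/-- the curve `X_u` -/
def XD (u : ℂ) : CurveData 6 := ZD u (SA.map dg)

/-- the curve `Y_u` -/
def YD (u : ℂ) : CurveData 6 := ZD u (SB.map dg)

lemma decompA {u : ℂ} {w : FF} (hw : (XD u).IsForm w) : ∑ i, proj rF (WA i) w = w :=
  sum_proj rF SA WA sumA cardA fun _ he => rF_fixed hw he

lemma decompB {u : ℂ} {w : FF} (hw : (YD u).IsForm w) : ∑ i, proj rF (WB i) w = w :=
  sum_proj rF SB WB sumB cardB fun _ he => rF_fixed hw he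

/-- a finite set of forms spanning everything -/
def GS (u : ℂ) : Set FF :=
  Set.range (fun W : Finset (Fin 6) => Fm u (PS W)) ∪ {Fm u (QQ 1 0), Fm u (QQ 0 1)}

lemma GS_finite (u : ℂ) : (GS u).Finite :=
  (Set.finite_range _).union (by simp)

lemma QQ_span (u a b : ℂ) : Fm u (QQ a b) = a • Fm u (QQ 1 0) + b • Fm u (QQ 0 1) := by
  funext p v
  by_cases hc : OnZ u p ∧ Tan u p v
  · simp only [Pi.add_apply, Pi.smul_apply, smul_eq_mul, Fm_eq hc.1 hc.2, QQ]
    ring
  · simp [Fm, hc]

lemma char_mem_span {u : ℂ} (hu : Adm u) {H : Subgroup (GL (Fin 6) ℂ)} {w : FF}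
    (hw : (ZD u H).IsForm w) {W : Finset (Fin 6)} (hW : HasChar u w W) (hc : #W ≠ 5) :
    w ∈ Submodule.span ℂ (GS u) := by
  have h6 : #W ≤ 6 := by
    have := card_le_univ W
    simpa using this
  rcases Nat.lt_or_ge (#W) 4 with h | h
  · rw [form_zero hu hw hW (by omega)]
    exact Submodule.zero_mem _
  · rcases Nat.lt_or_ge (#W) 5 with h' | h'
    · obtain ⟨c, rfl⟩ := form_four hu hw hW (by omega)
      exact Submodule.smul_mem _ _ (Submodule.subset_span (Or.inl ⟨_, rfl⟩))
    · have hW6 : W = univ := by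
        rw [← card_eq_iff_eq_univ]
        simp
        omega
      subst hW6
      obtain ⟨a, b, rfl⟩ := form_six hu hw hW
      rw [QQ_span]
      refine Submodule.add_mem _ (Submodule.smul_mem _ _ (Submodule.subset_span ?_))
        (Submodule.smul_mem _ _ (Submodule.subset_span ?_)) <;> simp [GS]

lemma cardWA : ∀ i, #(WA i) ≠ 5 := by decide
lemma cardWB : ∀ i, #(WB i) ≠ 5 := by decide

lemma finiteA {u : ℂ} (hu : Adm u) : Module.Finite ℂ (XD u).Omega := by
  have h1 : (XD u).Omega ≤ Submodule.span ℂ (GS u) := by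
    intro w hw
    rw [← decompA hw]
    exact Submodule.sum_mem _ fun i _ =>
      char_mem_span hu (proj_isForm hu hw _) (proj_hasChar _ _) (cardWA i)
  have := FiniteDimensional.span_of_finite ℂ (GS_finite u)
  exact Submodule.finiteDimensional_of_le h1

lemma finiteB {u : ℂ} (hu : Adm u) : Module.Finite ℂ (YD u).Omega := by
  have h1 : (YD u).Omega ≤ Submodule.span ℂ (GS u) := by
    intro w hw
    rw [← decompB hw]
    exact Submodule.sum_mem _ fun i _ =>
      char_mem_span hu (proj_isForm hu hw _) (proj_hasChar _ _) (cardWB i)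
  have := FiniteDimensional.span_of_finite ℂ (GS_finite u)
  exact Submodule.finiteDimensional_of_le h1

lemma conj_ZD (u : ℂ) (T : Subgroup Sg) (σ : ℂ ≃+* ℂ) :
    (ZD u (T.map dg)).conj σ = ZD (σ u) (T.map dg) := by
  have hF : ((MvPolynomial.map (σ : ℂ →+* ℂ)) '' FZ u) = FZ (σ u) := by
    unfold FZ
    simp [Set.image_insert_eq]
  have hH : (T.map dg).map (Matrix.GeneralLinearGroup.map (σ : ℂ →+* ℂ)) = T.map dg := by
    rw [Subgroup.map_map]
    congr 1
    ext e i j
    by_cases h : i = j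
    · subst h; simp [dg]
    · simp [dg, h]
  unfold CurveData.conj ZD
  simp only
  rw [hF, hH]

lemma conj_XD (u : ℂ) (σ : ℂ ≃+* ℂ) : (XD u).conj σ = XD (σ u) := conj_ZD u SA σ

lemma adm_map {u : ℂ} (hu : Adm u) (σ : ℂ ≃+* ℂ) : Adm (σ u) := by
  obtain ⟨h0, h1, h2⟩ := hu
  refine ⟨?_, ?_, ?_⟩
  · intro h
    exact h0 (σ.injective (by rw [h, map_zero]))
  · intro h
    exact h1 (σ.injective (by rw [h, map_one]))
  · intro h
    exact h2 (σ.injective (by rw [h, map_neg, map_one]))

lemma freeA : ∀ e ∈ SA, ∀ k, ∀ s : ℤˣ, (∀ i, i ≠ k → e i = s) → ∀ i, e i = s := by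
  decide +kernel

lemma freeB : ∀ e ∈ SB, ∀ k, ∀ s : ℤˣ, (∀ i, i ≠ k → e i = s) → ∀ i, e i = s := by
  decide +kernel

lemma PS_pair {i j : Fin 6} (hij : i ≠ j) (p : Fin 6 → ℂ) : PS {i, j} p = p i * p j := by
  unfold PS
  rw [prod_pair hij]

/-- differentials with four sign changes -/
lemma form_pair {u : ℂ} (hu : Adm u) {T : Subgroup Sg} {i j : Fin 6} (hij : i ≠ j)
    (hT : ∀ e ∈ T, (∏ i, e i) * (e i * e j) = 1) :
    (ZD u (T.map dg)).IsForm (Fm u (PS {i, j})) := by
  refine Fm_isForm hu ?_ ?_ ?_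
  · have : PS {i, j} = fun p => p i * p j := funext (PS_pair hij)
    rw [this]
    fun_prop
  · intro c p
    rw [PS_smul, card_pair hij]
  · intro h hh
    obtain ⟨e, he, rfl⟩ := Subgroup.mem_map.1 hh
    refine ⟨e, rfl, fun p => ?_⟩
    have h2 : chr univ e * (((e i : ℤ) : ℂ) * ((e j : ℤ) : ℂ)) = 1 := by
      have := congrArg (fun x : ℤˣ => ((x : ℤ) : ℂ)) (hT e he)
      simpa [chr] using this
    rw [PS_pair hij, PS_pair hij]
    simp only [sa]
    linear_combination (p i * p j) * h2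

lemma pairA : ∀ e ∈ SA, (∏ i, e i) * (e 1 * e 5) = 1 := by decide +kernel
lemma pairB : ∀ e ∈ SB, (∏ i, e i) * (e 1 * e 5) = 1 := by decide +kernel
lemma pairB' : ∀ e ∈ SB, (∏ i, e i) * (e 0 * e 4) = 1 := by decide +kernel

lemma form_other {u : ℂ} (hu : Adm u) {T : Subgroup Sg} (hT : ∀ e ∈ T, ∏ i, e i = 1) (a b : ℂ) :
    (ZD u (T.map dg)).IsForm (Fm u (QQ a b)) := by
  refine Fm_isForm hu ?_ ?_ ?_
  · unfold QQ
    fun_prop
  · intro c p
    simp only [QQ, Pi.smul_apply, smul_eq_mul]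
    ring
  · intro h hh
    obtain ⟨e, he, rfl⟩ := Subgroup.mem_map.1 hh
    refine ⟨e, rfl, fun p => ?_⟩
    have h2 : chr univ e = 1 := by
      simp only [chr, hT e he]
      simp
    have h3 := unit_sq (e 0)
    have h4 := unit_sq (e 1)
    simp only [QQ, sa, h2]
    linear_combination a * p 0 ^ 2 * h3 + b * p 1 ^ 2 * h4

lemma prodA : ∀ e ∈ SA, ∏ i, e i = 1 := by decide +kernel
lemma prodB : ∀ e ∈ SB, ∏ i, e i = 1 := by decide +kernel

lemma genus_aux {u : ℂ} (hu : Adm u) {T : Subgroup Sg} (hf : Module.Finite ℂ (ZD u (T.map dg)).Omega)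
    (h1 : ∀ e ∈ T, (∏ i, e i) * (e 1 * e 5) = 1) (h2 : ∀ e ∈ T, ∏ i, e i = 1) :
    2 ≤ Module.finrank ℂ (ZD u (T.map dg)).Omega := by
  set f1 : (ZD u (T.map dg)).Omega := ⟨_, form_pair hu (show (1 : Fin 6) ≠ 5 by decide) h1⟩ with hf1
  set f2 : (ZD u (T.map dg)).Omega := ⟨_, form_other hu h2 1 0⟩ with hf2
  have hli : LinearIndependent ℂ ![f1, f2] := by
    rw [LinearIndependent.pair_iff]
    intro s t hst
    have key : ∀ p, OnZ u p → s * (p 1 * p 5) + t * p 0 ^ 2 = 0 := by
      intro p hp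
      refine cf_unique hu hp fun v hv => ?_
      have h3 := congrFun (congrFun (congrArg Subtype.val hst) p) v
      simp only [hf1, hf2, Submodule.coe_add, Submodule.coe_smul, Pi.add_apply, Pi.smul_apply,
        smul_eq_mul, Fm_eq hp hv, PS_pair (show (1 : Fin 6) ≠ 5 by decide), QQ] at h3
      have h4 : (((0 : (ZD u (T.map dg)).Omega) : FF)) p v = 0 := rfl
      rw [h4] at h3
      linear_combination h3
    have ht : t = 0 := by
      have h5 : OnZ u ![1, 0, 1, 1, 1, 1] := by
        refine ⟨fun h => ?_, ?_⟩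
        · have := congrFun h 0
          simp at this
        · rw [forall_fin6]
          simp [al, be]
      have := key _ h5
      simpa using this
    have hs : s = 0 := by
      have := key _ (pt_onZ (u := u) 0)
      rw [ht] at this
      have h6 := pt_sq (u := u) 0 1
      have h7 := pt_sq (u := u) 0 5
      simp [al, be] at h6 h7
      have h8 : pt u 0 1 ≠ 0 := by
        intro h; rw [h] at h6; simp at h6
      have h9 : pt u 0 5 ≠ 0 := by
        intro h; rw [h] at h7; simp at h7; exact hu.1 h7.symm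
      have h10 : s * (pt u 0 1 * pt u 0 5) = 0 := by linear_combination this
      exact (mul_eq_zero.1 h10).resolve_right (mul_ne_zero h8 h9)
    exact ⟨hs, ht⟩
  have := hli.fintype_card_le_finrank
  simpa using this

lemma tangent_finrank {u : ℂ} (hu : Adm u) {H : Subgroup (GL (Fin 6) ℂ)} {p : Fin 6 → ℂ}
    (hp : OnZ u p) : Module.finrank ℂ ((ZD u H).tangent p) = 2 := by
  obtain ⟨k, m, h⟩ := hp.exists_good hu
  have h2 : Tan u p (chD u p k m 0) := by
    have := h.tan_chD Good.zero_mem_chU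
    rwa [Good.ch_zero] at this
  have hspan : (ZD u H).tangent p = Submodule.span ℂ (Set.range ![p, chD u p k m 0]) := by
    apply le_antisymm
    · intro v hv
      rw [mem_tangent] at hv
      rw [h.tan_eq hv]
      refine Submodule.add_mem _ (Submodule.smul_mem _ _ (Submodule.subset_span ⟨0, rfl⟩))
        (Submodule.smul_mem _ _ (Submodule.subset_span ⟨1, rfl⟩))
    · rw [Submodule.span_le]
      rintro _ ⟨i, rfl⟩
      fin_cases i
      · exact mem_tangent.2 hp.tan_self
      · exact mem_tangent.2 h2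
  have hli : LinearIndependent ℂ ![p, chD u p k m 0] := by
    rw [LinearIndependent.pair_iff]
    intro s t hst
    have e1 := congrFun hst m
    have e2 := congrFun hst k
    simp only [Pi.add_apply, Pi.smul_apply, smul_eq_mul, h.chD_m, Good.chD_k, Pi.zero_apply,
      mul_zero, add_zero, mul_one] at e1 e2
    have hs : s = 0 := (mul_eq_zero.1 e1).resolve_right h.pm
    rw [hs] at e2
    exact ⟨hs, by simpa using e2⟩
  rw [hspan, finrank_span_eq_card hli]
  simp

lemma homog {u : ℂ} : ∀ f ∈ FZ u, ∃ d, f.IsHomogeneous d := by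
  intro f hf
  have hX : ∀ i : Fin 6, (MvPolynomial.X i ^ 2 : MvPolynomial (Fin 6) ℂ).IsHomogeneous 2 :=
    fun i => MvPolynomial.isHomogeneous_X_pow i 2
  have hC : ∀ i : Fin 6, (MvPolynomial.C u * MvPolynomial.X i ^ 2 :
      MvPolynomial (Fin 6) ℂ).IsHomogeneous 2 := fun i => by
    have := (MvPolynomial.isHomogeneous_C (Fin 6) u).mul (hX i)
    simpa using this
  simp only [FZ, Set.mem_insert_iff, Set.mem_singleton_iff] at hf
  rcases hf with rfl | rfl | rfl | rfl
  · exact ⟨2, ((hX 2).sub (hX 0)).add (hX 1)⟩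
  · exact ⟨2, ((hX 3).sub (hX 0)).sub (hX 1)⟩
  · exact ⟨2, ((hX 4).sub (hX 0)).add (hC 1)⟩
  · exact ⟨2, ((hX 5).sub (hX 0)).sub (hC 1)⟩

lemma isCurve_aux {u : ℂ} (hu : Adm u) {T : Subgroup Sg}
    (hf : Module.Finite ℂ (ZD u (T.map dg)).Omega)
    (h1 : ∀ e ∈ T, (∏ i, e i) * (e 1 * e 5) = 1) (h2 : ∀ e ∈ T, ∏ i, e i = 1)
    (h3 : ∀ e ∈ T, ∀ k, ∀ s : ℤˣ, (∀ i, i ≠ k → e i = s) → ∀ i, e i = s) :
    (ZD u (T.map dg)).IsCurve where
  homogeneous := homog
  finite := by
    have : ((T.map dg : Subgroup (GL (Fin 6) ℂ)) : Set (GL (Fin 6) ℂ)) = dg '' (T : Set Sg) := rfl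
    change ((T.map dg : Subgroup (GL (Fin 6) ℂ)) : Set (GL (Fin 6) ℂ)).Finite
    rw [this]
    exact (Set.toFinite (T : Set Sg)).image _
  invariant := by
    intro h hh p hp
    obtain ⟨e, -, rfl⟩ := Subgroup.mem_map.1 hh
    rw [mem_cone] at hp ⊢
    rw [act_dg]
    exact sa_onZ e hp
  free := by
    intro h hh p hp hc
    rw [mem_cone] at hp
    obtain ⟨e, he, rfl⟩ := Subgroup.mem_map.1 hh
    obtain ⟨c, hc⟩ := hc
    obtain ⟨k, hk⟩ := hp.exists_k hu
    rw [act_dg] at hc
    have h4 : ∀ i, i ≠ k → ((e i : ℤ) : ℂ) = c := by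
      intro i hi
      have := congrFun hc i
      simp only [sa, Pi.smul_apply, smul_eq_mul] at this
      exact mul_right_cancel₀ (hk i hi) this
    have h5 : ∀ i, i ≠ k → e i = e (k + 1) := by
      intro i hi
      have hk1 : k + 1 ≠ k := by fin_cases k <;> decide
      have := (h4 i hi).trans (h4 (k + 1) hk1).symm
      have h6 : ((e i : ℤ)) = (e (k + 1) : ℤ) := by exact_mod_cast this
      exact Units.ext h6
    have h7 := h3 e he k _ h5
    refine ⟨((e (k + 1) : ℤ) : ℂ), fun q => ?_⟩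
    rw [act_dg]
    funext i
    simp only [sa, Pi.smul_apply, smul_eq_mul, h7 i]
  smooth := fun p hp => tangent_finrank hu (mem_cone.1 hp)
  arcs := by
    intro p hp
    obtain ⟨k, m, h⟩ := (mem_cone.1 hp).exists_good hu
    exact ⟨_, _, h.isArc _, Good.zero_mem_chU, Good.ch_zero⟩
  connected := by
    have : (ZD u (T.map dg)).cone = SZ u := by
      ext p; exact mem_cone
    rw [this]
    exact isConnected_SZ hu
  genus := genus_aux hu hf h1 h2

theorem isCurve_X {u : ℂ} (hu : Adm u) : (XD u).IsCurve :=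
  isCurve_aux hu (finiteA hu) pairA prodA freeA

theorem isCurve_Y {u : ℂ} (hu : Adm u) : (YD u).IsCurve :=
  isCurve_aux hu (finiteB hu) pairB prodB freeB

end Pool.Agent.R403.IS
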