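import Mathlib

/-!
# Curves `V(F)/H`, their hyperbolic metrics, spectra, periods and Jacobians

A compact Riemann surface is presented as the quotient `V(F)/H` of a smooth projective curve
`V(F)` in projective space by a finite group `H` of invertible matrices that acts freely on the
points of `V(F)` (up to scalars). All objects on the surface are written on the punctured affine
cone over `V(F)`.
-/

set_option autoImplicit false

open scoped Topology
open InnerProductSpace Matrix Laplacian

noncomputable section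

namespace Pool.Agent.R403.IS

theorem two_le_top : (2 : WithTop ℕ∞) ≤ ((⊤ : ℕ∞) : WithTop ℕ∞) := by
  change ((2 : ℕ∞) : WithTop ℕ∞) ≤ ((⊤ : ℕ∞) : WithTop ℕ∞)
  exact WithTop.coe_le_coe.2 le_top

/-- Data of a projective curve over `ℂ` with a group: a set `F` of polynomials in `n` homogeneous
coordinates and a group `H` of invertible `n × n` matrices. The curve is `V(F)/H`. -/
structure CurveData (n : ℕ) where
  /-- the equations -/
  F : Set (MvPolynomial (Fin n) ℂ)
  /-- the group -/
  H : Subgroup (GL (Fin n) ℂ)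

/-- The linear action of an invertible matrix. -/
def act {n : ℕ} (h : GL (Fin n) ℂ) (p : Fin n → ℂ) : Fin n → ℂ :=
  (h : Matrix (Fin n) (Fin n) ℂ) *ᵥ p

namespace CurveData

variable {n m : ℕ} (C : CurveData n) (D : CurveData m)

/-- The punctured affine cone over `V(F)`: the nonzero common zeros of `F`. Points of the projective
variety `V(F)` are the classes of points of the cone up to nonzero scalars. -/
def cone : Set (Fin n → ℂ) := {p | p ≠ 0 ∧ ∀ f ∈ C.F, MvPolynomial.eval p f = 0}

/-- The Zariski tangent space of the cone at `p`: the kernel of the Jacobian matrix of `F`. -/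
def tangent (p : Fin n → ℂ) : Submodule ℂ (Fin n → ℂ) where
  carrier := {v | ∀ f ∈ C.F, ∑ i, MvPolynomial.eval p (MvPolynomial.pderiv i f) * v i = 0}
  add_mem' := by
    intro a b ha hb f hf
    have := congrArg₂ (· + ·) (ha f hf) (hb f hf)
    simpa [mul_add, Finset.sum_add_distrib] using this
  zero_mem' := by simp
  smul_mem' := by
    intro c x hx f hf
    have := congrArg (c * ·) (hx f hf)
    simpa [Finset.mul_sum, mul_left_comm] using this

/-- A holomorphic immersed arc of the curve: `φ` is holomorphic on the open set `U`, takes values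
in the cone, and `φ'(t)` is nowhere proportional to `φ(t)`; so `t` is a local coordinate. -/
structure IsArc (U : Set ℂ) (φ : ℂ → Fin n → ℂ) : Prop where
  isOpen : IsOpen U
  holo : DifferentiableOn ℂ φ U
  mem : ∀ t ∈ U, φ t ∈ C.cone
  immersed : ∀ t ∈ U, ∀ c : ℂ, deriv φ t ≠ c • φ t

/-- Holomorphic 1-forms on the curve `V(F)/H`, written on the cone: `ω p v` is the value at the
point `p` on the tangent vector `v`. It is linear in `v`, kills the radial direction, is invariant
under scaling and under `H`, and is holomorphic in every local coordinate. (Off the tangent bundle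
the value is normalized to be zero.) -/
structure IsForm (ω : (Fin n → ℂ) → (Fin n → ℂ) → ℂ) : Prop where
  supp : ∀ p v, ¬ (p ∈ C.cone ∧ v ∈ C.tangent p) → ω p v = 0
  add : ∀ p ∈ C.cone, ∀ v ∈ C.tangent p, ∀ w ∈ C.tangent p, ω p (v + w) = ω p v + ω p w
  smul : ∀ p ∈ C.cone, ∀ v ∈ C.tangent p, ∀ c : ℂ, ω p (c • v) = c * ω p v
  radial : ∀ p ∈ C.cone, ω p p = 0
  scale : ∀ p ∈ C.cone, ∀ v ∈ C.tangent p, ∀ c : ℂ, c ≠ 0 → ω (c • p) (c • v) = ω p v
  inv : ∀ h ∈ C.H, ∀ p ∈ C.cone, ∀ v ∈ C.tangent p, ω (act h p) (act h v) = ω p v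
  holo : ∀ U φ, C.IsArc U φ → DifferentiableOn ℂ (fun t => ω (φ t) (deriv φ t)) U

/-- The space of holomorphic 1-forms of `V(F)/H`. -/
def Omega : Submodule ℂ ((Fin n → ℂ) → (Fin n → ℂ) → ℂ) where
  carrier := {ω | C.IsForm ω}
  add_mem' := by
    intro a b ha hb
    refine ⟨?_, ?_, ?_, ?_, ?_, ?_, ?_⟩
    · intro p v h
      simp [ha.supp p v h, hb.supp p v h]
    · intro p hp v hv w hw
      simp only [Pi.add_apply, ha.add p hp v hv w hw, hb.add p hp v hv w hw]
      ring
    · intro p hp v hv c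
      simp only [Pi.add_apply, ha.smul p hp v hv c, hb.smul p hp v hv c]
      ring
    · intro p hp
      simp [ha.radial p hp, hb.radial p hp]
    · intro p hp v hv c hc
      simp [ha.scale p hp v hv c hc, hb.scale p hp v hv c hc]
    · intro h hh p hp v hv
      simp [ha.inv h hh p hp v hv, hb.inv h hh p hp v hv]
    · intro U φ hφ
      exact (ha.holo U φ hφ).add (hb.holo U φ hφ)
  zero_mem' := by
    refine ⟨?_, ?_, ?_, ?_, ?_, ?_, ?_⟩ <;> intros <;> simp
  smul_mem' := by
    intro c a ha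
    refine ⟨?_, ?_, ?_, ?_, ?_, ?_, ?_⟩
    · intro p v h
      simp [ha.supp p v h]
    · intro p hp v hv w hw
      simp only [Pi.smul_apply, smul_eq_mul, ha.add p hp v hv w hw]
      ring
    · intro p hp v hv d
      simp only [Pi.smul_apply, smul_eq_mul, ha.smul p hp v hv d]
      ring
    · intro p hp
      simp [ha.radial p hp]
    · intro p hp v hv d hd
      simp [ha.scale p hp v hv d hd]
    · intro h hh p hp v hv
      simp [ha.inv h hh p hp v hv]
    · intro U φ hφ
      exact (ha.holo U φ hφ).const_smul c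

/-- `V(F)/H` is a smooth connected projective curve of genus at least two, and `H` is a finite group
acting on `V(F)` such that only scalar matrices in `H` have fixed points on `V(F)`. -/
structure IsCurve : Prop where
  homogeneous : ∀ f ∈ C.F, ∃ d, f.IsHomogeneous d
  finite : (C.H : Set (GL (Fin n) ℂ)).Finite
  invariant : ∀ h ∈ C.H, ∀ p ∈ C.cone, act h p ∈ C.cone
  free : ∀ h ∈ C.H, ∀ p ∈ C.cone, (∃ c : ℂ, act h p = c • p) → ∃ c : ℂ, ∀ q, act h q = c • q
  smooth : ∀ p ∈ C.cone, Module.finrank ℂ (C.tangent p) = 2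
  arcs : ∀ p ∈ C.cone, ∃ U φ, C.IsArc U φ ∧ (0 : ℂ) ∈ U ∧ φ 0 = p
  connected : IsConnected C.cone
  genus : 2 ≤ Module.finrank ℂ C.Omega

/-- A hyperbolic metric on `V(F)/H`, i.e. a conformal metric of curvature `-1`: `ρ p v` is the
length of the tangent vector `v` at `p`. In a local coordinate `t` the metric is `ρ |dt|` and its
Gaussian curvature is `-Δ (log ρ) / ρ ^ 2`. -/
structure IsHypMetric (ρ : (Fin n → ℂ) → (Fin n → ℂ) → ℝ) : Prop where
  pos : ∀ p ∈ C.cone, ∀ v ∈ C.tangent p, (∀ c : ℂ, v ≠ c • p) → 0 < ρ p v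
  smul : ∀ p ∈ C.cone, ∀ v ∈ C.tangent p, ∀ c : ℂ, ρ p (c • v) = ‖c‖ * ρ p v
  radial : ∀ p ∈ C.cone, ∀ v ∈ C.tangent p, ∀ c : ℂ, ρ p (v + c • p) = ρ p v
  scale : ∀ p ∈ C.cone, ∀ v ∈ C.tangent p, ∀ c : ℂ, c ≠ 0 → ρ (c • p) (c • v) = ρ p v
  inv : ∀ h ∈ C.H, ∀ p ∈ C.cone, ∀ v ∈ C.tangent p, ρ (act h p) (act h v) = ρ p v
  smooth : ∀ U φ, C.IsArc U φ → ContDiffOn ℝ (⊤ : ℕ∞) (fun t => Real.log (ρ (φ t) (deriv φ t))) U
  curvature : ∀ U φ, C.IsArc U φ → ∀ t ∈ U,
    (Δ (fun t => Real.log (ρ (φ t) (deriv φ t)))) t = ρ (φ t) (deriv φ t) ^ 2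

/-- Eigenfunctions of the Laplace-Beltrami operator of the metric `ρ` on `V(F)/H`, with eigenvalue
`lam`: smooth functions `f` on the surface with `-Δ f = lam * ρ ^ 2 * f` in every local coordinate.
(Off the cone the value is normalized to be zero.) -/
structure IsEigenfunction (ρ : (Fin n → ℂ) → (Fin n → ℂ) → ℝ) (lam : ℝ)
    (f : (Fin n → ℂ) → ℂ) : Prop where
  supp : ∀ p, p ∉ C.cone → f p = 0
  scale : ∀ p ∈ C.cone, ∀ c : ℂ, c ≠ 0 → f (c • p) = f p
  inv : ∀ h ∈ C.H, ∀ p ∈ C.cone, f (act h p) = f p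
  smooth : ∀ U φ, C.IsArc U φ → ContDiffOn ℝ (⊤ : ℕ∞) (fun t => f (φ t)) U
  eqn : ∀ U φ, C.IsArc U φ → ∀ t ∈ U,
    (Δ (fun t => f (φ t))) t = -((lam * ρ (φ t) (deriv φ t) ^ 2 : ℝ) : ℂ) * f (φ t)

/-- The eigenspace of the Laplace-Beltrami operator. -/
def eigenspace (ρ : (Fin n → ℂ) → (Fin n → ℂ) → ℝ) (lam : ℝ) :
    Submodule ℂ ((Fin n → ℂ) → ℂ) where
  carrier := {f | C.IsEigenfunction ρ lam f}
  add_mem' := by
    intro a b ha hb
    refine ⟨?_, ?_, ?_, ?_, ?_⟩
    · intro p h
      simp [ha.supp p h, hb.supp p h]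
    · intro p hp c hc
      simp [ha.scale p hp c hc, hb.scale p hp c hc]
    · intro h hh p hp
      simp [ha.inv h hh p hp, hb.inv h hh p hp]
    · intro U φ hφ
      exact (ha.smooth U φ hφ).add (hb.smooth U φ hφ)
    · intro U φ hφ t ht
      have h1 : ContDiffAt ℝ 2 (fun t => a (φ t)) t :=
        ((ha.smooth U φ hφ).contDiffAt (hφ.isOpen.mem_nhds ht)).of_le two_le_top
      have h2 : ContDiffAt ℝ 2 (fun t => b (φ t)) t :=
        ((hb.smooth U φ hφ).contDiffAt (hφ.isOpen.mem_nhds ht)).of_le two_le_top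
      have h3 := h1.laplacian_add h2
      have h4 : (fun t => (a + b) (φ t)) = (fun t => a (φ t)) + (fun t => b (φ t)) := rfl
      rw [h4, h3, ha.eqn U φ hφ t ht, hb.eqn U φ hφ t ht]
      simp only [Pi.add_apply]
      ring
  zero_mem' := by
    refine ⟨?_, ?_, ?_, ?_, ?_⟩
    · intros; rfl
    · intros; rfl
    · intros; rfl
    · intro U φ hφ
      exact contDiffOn_const
    · intro U φ hφ t ht
      have h4 : (fun t => (0 : (Fin n → ℂ) → ℂ) (φ t)) = fun _ => (0 : ℂ) := rfl
      rw [h4]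
      simp [InnerProductSpace.laplacian_const]
  smul_mem' := by
    intro c a ha
    refine ⟨?_, ?_, ?_, ?_, ?_⟩
    · intro p h
      simp [ha.supp p h]
    · intro p hp d hd
      simp [ha.scale p hp d hd]
    · intro h hh p hp
      simp [ha.inv h hh p hp]
    · intro U φ hφ
      exact (ha.smooth U φ hφ).const_smul c
    · intro U φ hφ t ht
      have h1 : ContDiffAt ℝ 2 (fun t => a (φ t)) t :=
        ((ha.smooth U φ hφ).contDiffAt (hφ.isOpen.mem_nhds ht)).of_le two_le_top
      have h3 := InnerProductSpace.laplacian_smul c h1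
      have h4 : (fun t => (c • a) (φ t)) = c • (fun t => a (φ t)) := rfl
      rw [h4, h3, ha.eqn U φ hφ t ht]
      simp only [Pi.smul_apply, smul_eq_mul]
      ring

/-- Closed `C¹` loops on the surface `V(F)/H`: `C¹` paths `γ` in the cone whose end points agree
up to a scalar and an element of `H`. -/
structure IsLoop (γ : ℝ → Fin n → ℂ) : Prop where
  smooth : ContDiff ℝ 1 γ
  mem : ∀ s, γ s ∈ C.cone
  closed : ∃ h ∈ C.H, ∃ c : ℂ, c ≠ 0 ∧ γ 1 = c • act h (γ 0)

/-- The group generated by the integration functionals `ω ↦ ∫_γ ω` of closed loops `γ`. The period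
lattice `Λ` of the curve is the group of the restrictions of these functionals to the space `Ω` of
holomorphic 1-forms, and the Jacobian of the curve is the complex torus `Ω^* / Λ`. -/
def periods : AddSubgroup (((Fin n → ℂ) → (Fin n → ℂ) → ℂ) → ℂ) :=
  AddSubgroup.closure {l | ∃ γ, C.IsLoop γ ∧ l = fun ω => ∫ s in (0 : ℝ)..1, ω (γ s) (deriv γ s)}

/-- The conjugate curve under a field automorphism `σ` of `ℂ`: `σ` is applied to the coefficients of
the equations and to the entries of the matrices of the group. -/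
def conj (σ : ℂ ≃+* ℂ) : CurveData n where
  F := (MvPolynomial.map (σ : ℂ →+* ℂ)) '' C.F
  H := C.H.map (Matrix.GeneralLinearGroup.map (σ : ℂ →+* ℂ))

end CurveData

/-- The two surfaces are isospectral: for their hyperbolic metrics, each real number has the same
multiplicity as an eigenvalue of the two Laplace-Beltrami operators. (By the uniformization theorem
a compact Riemann surface of genus at least two has exactly one hyperbolic metric.) -/
def Isospectral {n m : ℕ} (C : CurveData n) (D : CurveData m) : Prop :=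
  ∀ ρ₁ ρ₂, C.IsHypMetric ρ₁ → D.IsHypMetric ρ₂ → ∀ lam : ℝ,
    Nonempty (C.eigenspace ρ₁ lam ≃ₗ[ℂ] D.eigenspace ρ₂ lam)

/-- `S` restricts to a linear isomorphism from the holomorphic 1-forms of `D` to those of `C`. -/
structure IsFormIso {n m : ℕ} (C : CurveData n) (D : CurveData m)
    (S : ((Fin m → ℂ) → (Fin m → ℂ) → ℂ) → (Fin n → ℂ) → (Fin n → ℂ) → ℂ) : Prop where
  bij : Set.BijOn S {ω | D.IsForm ω} {ω | C.IsForm ω}
  add : ∀ ω₁ ω₂, D.IsForm ω₁ → D.IsForm ω₂ → S (ω₁ + ω₂) = S ω₁ + S ω₂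
  smul : ∀ (c : ℂ) (ω), D.IsForm ω → S (c • ω) = c • S ω

/-- The Jacobians `Ω(C)^* / Λ(C)` and `Ω(D)^* / Λ(D)` are isogenous: there is a linear isomorphism
`T : Ω(C)^* → Ω(D)^*` which maps the period lattice `Λ(C)` onto a subgroup of finite index of
`Λ(D)`. Here `T` is written as the transpose `l ↦ l ∘ S` of a linear isomorphism
`S : Ω(D) → Ω(C)`, functionals are compared on the forms of `D`, and for finitely generated groups
`A ≤ B` the index is finite if and only if `N • B ≤ A` for some `N > 0`. -/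
def JacIsogenous {n m : ℕ} (C : CurveData n) (D : CurveData m) : Prop :=
  ∃ S, IsFormIso C D S ∧
    (∀ l ∈ C.periods, ∃ l' ∈ D.periods, ∀ ω, D.IsForm ω → l (S ω) = l' ω) ∧
    ∃ N : ℕ, 0 < N ∧ ∀ l' ∈ D.periods, ∃ l ∈ C.periods, ∀ ω, D.IsForm ω → l (S ω) = N * l' ω

end Pool.Agent.R403.IS
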