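import Mathlib
import Pool.Agent.Helper620.Wg.KI

/-!
Values of the Weierstrass function at the half periods.
-/

set_option autoImplicit false

open Set Filter Topology
open scoped PeriodPair ComplexConjugate

namespace Pool.Agent.R403.IS

theorem deriv_half_zero (L : PeriodPair) {z : ℂ} (h : 2 * z ∈ L.lattice) : ℘'[L] z = 0 := by
  have h1 : ℘'[L] z = - ℘'[L] z := by
    have e : z = -z + ((⟨2 * z, h⟩ : L.lattice) : ℂ) := by
      show z = -z + 2 * z
      ring
    conv_lhs => rw [e]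
    rw [L.derivWeierstrassP_add_coe, L.derivWeierstrassP_neg]
  have h2 : (2 : ℂ) * ℘'[L] z = 0 := by linear_combination h1
  simpa using h2

theorem half_notMem (L : PeriodPair) : (L.ω₁ + L.ω₂) / 2 ∉ L.lattice := by
  have h := (L.mul_ω₁_add_mul_ω₂_mem_lattice (α := 1 / 2) (β := 1 / 2)).not.mpr (by norm_num)
  intro hc
  apply h
  convert hc using 1
  push_cast
  ring

theorem cubic_half (L : PeriodPair) {z : ℂ} (hz : z ∉ L.lattice) (h : 2 * z ∈ L.lattice) :
    4 * ℘[L] z ^ 3 - L.g₂ * ℘[L] z - L.g₃ = 0 := by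
  rw [← L.derivWeierstrassP_sq z hz, deriv_half_zero L h]
  ring

/-- TASK B0 -/
theorem half_facts (L : PeriodPair) {e₁ e₂ e₃ : ℂ} (h₁ : e₁ = ℘[L] (L.ω₁ / 2))
    (h₂ : e₂ = ℘[L] (L.ω₂ / 2)) (h₃ : e₃ = ℘[L] ((L.ω₁ + L.ω₂) / 2)) :
    e₁ ≠ e₂ ∧ e₁ ≠ e₃ ∧ e₂ ≠ e₃ ∧ e₁ + e₂ + e₃ = 0 := by
  have n1 := L.ω₁_div_two_notMem_lattice
  have n2 := L.ω₂_div_two_notMem_lattice
  have n3 := half_notMem L
  have m1 := L.ω₁_mem_lattice
  have m2 := L.ω₂_mem_lattice
  have c1 : e₁ ≠ e₂ := by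
    rw [h₁, h₂]
    intro h
    rcases Wg.wp_inj L _ _ n1 n2 h with h | h
    · apply n3
      have := add_mem h m2
      convert this using 1
      ring
    · apply n3
      convert h using 1
      ring
  have c2 : e₁ ≠ e₃ := by
    rw [h₁, h₃]
    intro h
    rcases Wg.wp_inj L _ _ n1 n3 h with h | h
    · apply n2
      have := neg_mem h
      convert this using 1
      ring
    · apply n2
      have := sub_mem h m1
      convert this using 1
      ring
  have c3 : e₂ ≠ e₃ := by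
    rw [h₂, h₃]
    intro h
    rcases Wg.wp_inj L _ _ n2 n3 h with h | h
    · apply n1
      have := neg_mem h
      convert this using 1
      ring
    · apply n1
      have := sub_mem h m2
      convert this using 1
      ring
  refine ⟨c1, c2, c3, ?_⟩
  have q1 := cubic_half L n1 (by rw [mul_div_cancel₀ _ (two_ne_zero)]; exact m1)
  have q2 := cubic_half L n2 (by rw [mul_div_cancel₀ _ (two_ne_zero)]; exact m2)
  have q3 := cubic_half L n3 (by rw [mul_div_cancel₀ _ (two_ne_zero)]; exact add_mem m1 m2)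
  rw [← h₁] at q1
  rw [← h₂] at q2
  rw [← h₃] at q3
  have r1 : 4 * (e₁ ^ 2 + e₁ * e₂ + e₂ ^ 2) - L.g₂ = 0 := by
    refine (mul_eq_zero.1 (?_ : (e₁ - e₂) * _ = 0)).resolve_left (sub_ne_zero.2 c1)
    linear_combination q1 - q2
  have r2 : 4 * (e₁ ^ 2 + e₁ * e₃ + e₃ ^ 2) - L.g₂ = 0 := by
    refine (mul_eq_zero.1 (?_ : (e₁ - e₃) * _ = 0)).resolve_left (sub_ne_zero.2 c2)
    linear_combination q1 - q3
  refine (mul_eq_zero.1 (?_ : (e₂ - e₃) * _ = 0)).resolve_left (sub_ne_zero.2 c3)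
  linear_combination (r1 - r2) / 4

end Pool.Agent.R403.IS
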