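import Mathlib

set_option autoImplicit false

open scoped PeriodPair

namespace Pool.Agent.R403.IS

/-- the rational span of a lattice -/
noncomputable def KL (L : PeriodPair) : Submodule ℚ ℂ := Submodule.span ℚ (L.lattice : Set ℂ)

end Pool.Agent.R403.IS
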