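import Mathlib
import Pool.Agent.R403.IS.KL
import Pool.Agent.R403.IS.HalfFacts

/-!
The family of lattices `ℤ + ℤ t`.
-/

set_option autoImplicit false

open Set Filter Topology
open scoped PeriodPair ComplexConjugate

namespace Pool.Agent.R403.IS

/-- the lattice `ℤ + ℤ t` -/
noncomputable def Lt (t : ℂ) (ht : 0 < t.im) : PeriodPair where
  ω₁ := 1
  ω₂ := t
  indep := by
    rw [LinearIndependent.pair_iff]
    intro a b h
    have h1 := congrArg Complex.im h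
    have h2 := congrArg Complex.re h
    simp at h1 h2
    have hb : b = 0 := by
      rcases h1 with h1 | h1
      · exact h1
      · exact absurd h1 ht.ne'
    subst hb
    simpa using h2

/-- the lattice point with the given coordinates -/
def w (x : Fin 2 → ℤ) (t : ℂ) : ℂ := (x 0 : ℂ) * t + x 1

theorem mem_Lt {t : ℂ} (ht : 0 < t.im) {z : ℂ} : z ∈ (Lt t ht).lattice ↔ ∃ x : Fin 2 → ℤ, z = w x t := by
  rw [PeriodPair.mem_lattice]
  constructor
  · rintro ⟨m, n, h⟩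
    refine ⟨![n, m], ?_⟩
    rw [← h]
    simp [w, Lt]
    ring
  · rintro ⟨x, rfl⟩
    refine ⟨x 1, x 0, ?_⟩
    simp [w, Lt]
    ring

/-- coordinates of lattice points -/
noncomputable def eqv (t : ℂ) (ht : 0 < t.im) : (Fin 2 → ℤ) ≃ (Lt t ht).lattice :=
  (finTwoArrowEquiv ℤ).trans ((Equiv.prodComm ℤ ℤ).trans (Lt t ht).latticeEquivProd.symm.toEquiv)

theorem eqv_coe (t : ℂ) (ht : 0 < t.im) (x : Fin 2 → ℤ) : ((eqv t ht x : (Lt t ht).lattice) : ℂ) = w x t := by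
  have h := (Lt t ht).latticeEquiv_symm_apply (x 1, x 0)
  have e : (eqv t ht x) = (Lt t ht).latticeEquivProd.symm (x 1, x 0) := rfl
  rw [e, h]
  simp [w, Lt]
  ring

theorem wp_eq (t : ℂ) (ht : 0 < t.im) (z : ℂ) :
    ℘[Lt t ht] z = ∑' x : Fin 2 → ℤ, (1 / (z - w x t) ^ 2 - 1 / (w x t) ^ 2) := by
  unfold PeriodPair.weierstrassP
  rw [← (eqv t ht).tsum_eq]
  refine tsum_congr fun x => ?_
  rw [eqv_coe]

/-- the summand of `℘((a + b t) / 2)` -/
noncomputable def S (a b : ℤ) (x : Fin 2 → ℤ) (t : ℂ) : ℂ :=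
  1 / (((a : ℂ) + b * t) / 2 - w x t) ^ 2 - 1 / (w x t) ^ 2

/-- `℘((a + b t) / 2)` -/
noncomputable def E (a b : ℤ) (t : ℂ) : ℂ := ∑' x : Fin 2 → ℤ, S a b x t

theorem E_eq (a b : ℤ) (t : ℂ) (ht : 0 < t.im) : E a b t = ℘[Lt t ht] (((a : ℂ) + b * t) / 2) := by
  rw [wp_eq]
  rfl

/-- lower bound for lattice points in a strip -/
theorem low {A B : ℝ} (hB : 0 < B) {t : ℂ} (h1 : |t.re| ≤ A) (h2 : B ≤ t.im) (x : Fin 2 → ℤ) :
    EisensteinSeries.r ⟨⟨A, B⟩, hB⟩ * ‖x‖ ≤ ‖w x t‖ := by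
  by_cases hx : x = 0
  · subst hx
    simp [w]
  · have ht : 0 < t.im := hB.trans_le h2
    have h3 := EisensteinSeries.r_mul_max_le (z := (⟨t, ht⟩ : UpperHalfPlane)) hx
    refine le_trans ?_ h3
    refine mul_le_mul_of_nonneg_right ?_ (norm_nonneg _)
    exact EisensteinSeries.r_lower_bound_on_verticalStrip (z := (⟨t, ht⟩ : UpperHalfPlane)) hB ⟨h1, h2⟩

end Pool.Agent.R403.IS
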