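import Mathlib
import Pool.Agent.R403.IS.Fam

/-!
The values at the half periods depend holomorphically on `t`.
-/

set_option autoImplicit false

open Set Filter Topology
open scoped PeriodPair ComplexConjugate

namespace Pool.Agent.R403.IS

/-- the second vector -/
def yy (a b : ℤ) (x : Fin 2 → ℤ) : Fin 2 → ℤ := ![b - 2 * x 0, a - 2 * x 1]

theorem yy_eq (a b : ℤ) (x : Fin 2 → ℤ) (t : ℂ) :
    ((a : ℂ) + b * t) / 2 - w x t = w (yy a b x) t / 2 := by
  simp [w, yy]
  ring

theorem norm_yy {a b : ℤ} (ha : |a| ≤ 1) (hb : |b| ≤ 1) (x : Fin 2 → ℤ) : ‖x‖ ≤ ‖yy a b x‖ := by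
  rw [EisensteinSeries.norm_eq_max_natAbs, EisensteinSeries.norm_eq_max_natAbs]
  have h0 : (x 0).natAbs ≤ (b - 2 * x 0).natAbs := by
    rw [abs_le] at hb
    omega
  have h1 : (x 1).natAbs ≤ (a - 2 * x 1).natAbs := by
    rw [abs_le] at ha
    omega
  have : max (x 0).natAbs (x 1).natAbs ≤ max (yy a b x 0).natAbs (yy a b x 1).natAbs := by
    simp only [yy, Matrix.cons_val_zero, Matrix.cons_val_one]
    exact max_le_max h0 h1
  exact_mod_cast this

theorem one_le_yy {a b : ℤ} (hab : Odd a ∨ Odd b) (x : Fin 2 → ℤ) : 1 ≤ ‖yy a b x‖ := by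
  rw [EisensteinSeries.norm_eq_max_natAbs]
  have : 1 ≤ max (yy a b x 0).natAbs (yy a b x 1).natAbs := by
    simp only [yy, Matrix.cons_val_zero, Matrix.cons_val_one]
    rcases hab with ⟨k, hk⟩ | ⟨k, hk⟩
    · refine le_max_of_le_right ?_
      omega
    · refine le_max_of_le_left ?_
      omega
  exact_mod_cast this

theorem S_bound {a b : ℤ} (ha : |a| ≤ 1) (hb : |b| ≤ 1) (hab : Odd a ∨ Odd b) {A B C : ℝ} (hB : 0 < B)
    (hA : 0 ≤ A) :
    ∃ u : (Fin 2 → ℤ) → ℝ, Summable u ∧ ∀ x, ∀ t : ℂ, |t.re| ≤ A → B ≤ t.im → t.im ≤ C →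
      ‖S a b x t‖ ≤ u x := by
  set r := EisensteinSeries.r ⟨⟨A, B⟩, hB⟩ with hr
  have hr0 : 0 < r := EisensteinSeries.r_pos _
  set Z : ℝ := 1 + A + |C| with hZ
  have hZ0 : 0 < Z := by positivity
  refine ⟨fun x => (6 * Z / r ^ 3) * ‖x‖ ^ (-3 : ℝ) + if x = 0 then 4 / r ^ 2 else 0, ?_, ?_⟩
  · refine ((EisensteinSeries.summable_one_div_norm_rpow (by norm_num)).mul_left _).add ?_
    exact summable_of_hasFiniteSupport ((Set.finite_singleton (0 : Fin 2 → ℤ)).subset fun x hx => by
      by_contra hne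
      exact hx (if_neg hne))
  · intro x t h1 h2 h3
    have ht : 0 < t.im := hB.trans_le h2
    have ly := low hB h1 h2 (yy a b x)
    rw [← hr] at ly
    have l1 := one_le_yy hab x
    have hy0 : 0 < ‖w (yy a b x) t‖ := by
      have : 0 < r * ‖yy a b x‖ := by positivity
      linarith
    unfold S
    rw [yy_eq]
    by_cases hx : x = 0
    · subst hx
      have e1 : w 0 t = 0 := by simp [w]
      simp only [e1, if_true, norm_zero]
      rw [Real.zero_rpow (by norm_num)]
      have h5 : r ≤ ‖w (yy a b 0) t‖ := by nlinarith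
      have : ‖(1 : ℂ) / (w (yy a b 0) t / 2) ^ 2 - 1 / 0 ^ 2‖ = 4 / ‖w (yy a b 0) t‖ ^ 2 := by
        rw [zero_pow two_ne_zero, div_zero, sub_zero, norm_div, norm_pow, norm_div]
        simp
        field_simp
        norm_num
      rw [this, mul_zero, zero_add]
      gcongr
    · have lx := low hB h1 h2 x
      rw [← hr] at lx
      have hxn : 0 < ‖x‖ := norm_pos_iff.2 hx
      have hx0 : 0 < ‖w x t‖ := by
        have : 0 < r * ‖x‖ := by positivity
        linarith
      have ly' : r * ‖x‖ ≤ ‖w (yy a b x) t‖ :=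
        (mul_le_mul_of_nonneg_left (norm_yy ha hb x) hr0.le).trans ly
      simp only [if_neg hx, add_zero]
      set p := w x t with hp
      set q := w (yy a b x) t with hq
      have hp0 : p ≠ 0 := norm_pos_iff.1 hx0
      have hq0 : q ≠ 0 := norm_pos_iff.1 hy0
      have hz : q / 2 + p = ((a : ℂ) + b * t) / 2 := by rw [hq, ← yy_eq]; ring
      have hzn : ‖q / 2 + p‖ ≤ Z := by
        rw [hz, norm_div]
        have na : ‖(a : ℂ)‖ ≤ 1 := by
          rw [Complex.norm_intCast]; exact_mod_cast ha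
        have nb : ‖(b : ℂ)‖ ≤ 1 := by
          rw [Complex.norm_intCast]; exact_mod_cast hb
        have nt : ‖t‖ ≤ A + |C| := by
          refine (Complex.norm_le_abs_re_add_abs_im t).trans ?_
          have : |t.im| ≤ |C| := by
            rw [abs_of_pos ht]
            exact h3.trans (le_abs_self _)
          linarith
        have n1 : ‖(a : ℂ) + b * t‖ ≤ Z := by
          refine (norm_add_le _ _).trans ?_
          rw [norm_mul]
          have : ‖(b : ℂ)‖ * ‖t‖ ≤ 1 * (A + |C|) := by gcongr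
          rw [hZ]
          linarith
        rw [Complex.norm_two]
        linarith
      have e : (1 : ℂ) / (q / 2) ^ 2 - 1 / p ^ 2 = (q / 2 + p) * (4 / (q ^ 2 * p) - 2 / (q * p ^ 2)) := by
        field_simp
        ring
      rw [e, norm_mul]
      have b1 : ‖(4 : ℂ) / (q ^ 2 * p) - 2 / (q * p ^ 2)‖ ≤ 6 / (r * ‖x‖) ^ 3 := by
        refine (norm_sub_le _ _).trans ?_
        rw [norm_div, norm_div, norm_mul, norm_mul, norm_pow, norm_pow, Complex.norm_two,
          show ‖(4 : ℂ)‖ = 4 by norm_num]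
        have hrx : 0 < r * ‖x‖ := by positivity
        have c1 : (4 : ℝ) / (‖q‖ ^ 2 * ‖p‖) ≤ 4 / ((r * ‖x‖) ^ 2 * (r * ‖x‖)) := by gcongr
        have c2 : (2 : ℝ) / (‖q‖ * ‖p‖ ^ 2) ≤ 2 / ((r * ‖x‖) * (r * ‖x‖) ^ 2) := by gcongr
        have c3 : (4 : ℝ) / ((r * ‖x‖) ^ 2 * (r * ‖x‖)) + 2 / ((r * ‖x‖) * (r * ‖x‖) ^ 2) =
          6 / (r * ‖x‖) ^ 3 := by
          field_simp
          norm_num
        linarith
      calc ‖q / 2 + p‖ * ‖(4 : ℂ) / (q ^ 2 * p) - 2 / (q * p ^ 2)‖ ≤ Z * (6 / (r * ‖x‖) ^ 3) := by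
            gcongr
        _ = (6 * Z / r ^ 3) * ‖x‖ ^ (-3 : ℝ) := by
            rw [Real.rpow_neg hxn.le]
            have : ‖x‖ ^ (3 : ℝ) = ‖x‖ ^ 3 := by
              rw [← Real.rpow_natCast]; norm_num
            rw [this]
            field_simp

theorem S_diff {a b : ℤ} (hab : Odd a ∨ Odd b) (x : Fin 2 → ℤ) {t : ℂ} (ht : 0 < t.im) :
    DifferentiableAt ℂ (S a b x) t := by
  have hne : ∀ y : Fin 2 → ℤ, y ≠ 0 → w y t ≠ 0 := by
    intro y hy h
    have := low (A := |t.re|) ht le_rfl le_rfl y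
    rw [h, norm_zero] at this
    have hr := EisensteinSeries.r_pos ⟨⟨|t.re|, t.im⟩, ht⟩
    have hy' : 0 < ‖y‖ := norm_pos_iff.2 hy
    nlinarith [mul_pos hr hy']
  have hwd : ∀ y : Fin 2 → ℤ, Differentiable ℂ (w y) := by
    intro y
    unfold w
    fun_prop
  have h1 : w (yy a b x) t ≠ 0 := by
    refine hne _ fun h => ?_
    have := one_le_yy hab x
    rw [h, norm_zero] at this
    norm_num at this
  have e : S a b x = fun t => 1 / (w (yy a b x) t / 2) ^ 2 - 1 / (w x t) ^ 2 := by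
    funext t
    unfold S
    rw [yy_eq]
  rw [e]
  refine DifferentiableAt.sub ?_ ?_
  · refine DifferentiableAt.div (differentiableAt_const _) ?_ ?_
    · exact (((hwd _) t).div_const 2).pow 2
    · exact pow_ne_zero 2 (div_ne_zero h1 two_ne_zero)
  · by_cases hx : x = 0
    · subst hx
      have : (fun t : ℂ => (1 : ℂ) / (w 0 t) ^ 2) = fun _ => 0 := by
        funext t
        simp [w]
      rw [this]
      exact differentiableAt_const _
    · refine DifferentiableAt.div (differentiableAt_const _) (((hwd _) t).pow 2) ?_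
      exact pow_ne_zero 2 (hne x hx)

theorem E_diff {a b : ℤ} (ha : |a| ≤ 1) (hb : |b| ≤ 1) (hab : Odd a ∨ Odd b) :
    DifferentiableOn ℂ (E a b) {t | 0 < t.im} := by
  intro t ht
  have ht' : 0 < t.im := ht
  set U : Set ℂ := {s | |s.re| < |t.re| + 1} ∩ ({s | t.im / 2 < s.im} ∩ {s | s.im < t.im + 1}) with hU
  have hUo : IsOpen U := (isOpen_lt (by fun_prop) continuous_const).inter
    ((isOpen_lt continuous_const Complex.continuous_im).inter (isOpen_lt Complex.continuous_im continuous_const))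
  have htU : t ∈ U := ⟨by show |t.re| < |t.re| + 1; linarith,
    by show t.im / 2 < t.im; linarith, by show t.im < t.im + 1; linarith⟩
  obtain ⟨u, hu, hb⟩ := S_bound ha hb hab (A := |t.re| + 1) (B := t.im / 2) (C := t.im + 1)
    (by linarith) (by positivity)
  have h3 : DifferentiableOn ℂ (fun s => ∑' x : Fin 2 → ℤ, S a b x s) U := by
    refine Complex.differentiableOn_tsum_of_summable_norm hu (fun x s hs => ?_) hUo fun x s hs => ?_
    · have : t.im / 2 < s.im := hs.2.1
      exact (S_diff hab x (by linarith)).differentiableWithinAt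
    · exact hb x s (le_of_lt hs.1) (le_of_lt hs.2.1) (le_of_lt hs.2.2)
  exact (h3.differentiableAt (hUo.mem_nhds htU)).differentiableWithinAt

end Pool.Agent.R403.IS
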