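import Pool.Agent.R403.IS.Curves

/-!
# Period lattices as subgroups of the dual space
-/

set_option autoImplicit false

open scoped Topology
open Matrix

noncomputable section

namespace Pool.Agent.R403.IS

namespace CurveData

variable {n : ℕ} (C : CurveData n)

/-- The period lattice in the dual of the space of holomorphic 1-forms: the group generated by
the integration functionals of closed loops. The Jacobian of the curve is the complex torus
`Module.Dual ℂ C.Omega ⧸ C.periodLattice`. -/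
def periodLattice : AddSubgroup (Module.Dual ℂ C.Omega) :=
  AddSubgroup.closure {l | ∃ γ, C.IsLoop γ ∧
    ∀ ω : C.Omega, l ω = ∫ s in (0 : ℝ)..1, (ω : (Fin n → ℂ) → (Fin n → ℂ) → ℂ) (γ s) (deriv γ s)}

end CurveData

/-- The Jacobians are isogenous: there is a linear isomorphism of the universal covers which maps
the first period lattice onto a subgroup of finite index of the second. -/
def DualIsogenous {n m : ℕ} (C : CurveData n) (D : CurveData m) : Prop :=
  ∃ T : Module.Dual ℂ C.Omega ≃ₗ[ℂ] Module.Dual ℂ D.Omega,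
    (∀ l ∈ C.periodLattice, T l ∈ D.periodLattice) ∧
    ∃ N : ℕ, 0 < N ∧ ∀ l ∈ D.periodLattice, ∃ l' ∈ C.periodLattice, T l' = N • l

/-- A form is integrated continuously along every loop -/
def ContPeriods {n : ℕ} (C : CurveData n) : Prop :=
  ∀ γ, C.IsLoop γ → ∀ ω, C.IsForm ω → Continuous fun s => ω (γ s) (deriv γ s)

section

variable {n m : ℕ} {C : CurveData n} {D : CurveData m}

lemma to_periods {l : Module.Dual ℂ C.Omega} (hl : l ∈ C.periodLattice) :
    ∃ l' ∈ C.periods, ∀ ω (h : C.IsForm ω), l' ω = l ⟨ω, h⟩ := by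
  unfold CurveData.periodLattice at hl
  induction hl using AddSubgroup.closure_induction with
  | mem l hl =>
    obtain ⟨γ, hγ, hl⟩ := hl
    exact ⟨_, AddSubgroup.subset_closure ⟨γ, hγ, rfl⟩, fun ω h => (hl ⟨ω, h⟩).symm⟩
  | zero => exact ⟨0, zero_mem _, fun _ _ => rfl⟩
  | add x y _ _ hx hy =>
    obtain ⟨x', hx', hx⟩ := hx
    obtain ⟨y', hy', hy⟩ := hy
    refine ⟨x' + y', add_mem hx' hy', fun ω h => ?_⟩
    rw [Pi.add_apply, hx ω h, hy ω h]
    rfl
  | neg x _ hx =>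
    obtain ⟨x', hx', hx⟩ := hx
    refine ⟨-x', neg_mem hx', fun ω h => ?_⟩
    rw [Pi.neg_apply, hx ω h]
    rfl

lemma of_periods (hC : ContPeriods C) {l' : ((Fin n → ℂ) → (Fin n → ℂ) → ℂ) → ℂ}
    (hl' : l' ∈ C.periods) :
    ∃ l ∈ C.periodLattice, ∀ ω : C.Omega, l ω = l' ω := by
  unfold CurveData.periods at hl'
  induction hl' using AddSubgroup.closure_induction with
  | mem l' hl' =>
    obtain ⟨γ, hγ, rfl⟩ := hl'
    have hint : ∀ w : C.Omega, IntervalIntegrable
        (fun s => (w : (Fin n → ℂ) → (Fin n → ℂ) → ℂ) (γ s) (deriv γ s))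
        MeasureTheory.volume 0 1 := fun w => (hC γ hγ w w.2).intervalIntegrable _ _
    refine ⟨{ toFun := fun w => ∫ s in (0 : ℝ)..1,
                (w : (Fin n → ℂ) → (Fin n → ℂ) → ℂ) (γ s) (deriv γ s)
              map_add' := ?_, map_smul' := ?_ },
      AddSubgroup.subset_closure ⟨γ, hγ, fun w => rfl⟩, fun w => rfl⟩
    · intro w w'
      exact intervalIntegral.integral_add (hint w) (hint w')
    · intro c w
      exact intervalIntegral.integral_const_mul c _
  | zero => exact ⟨0, zero_mem _, fun _ => rfl⟩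
  | add x y _ _ hx hy =>
    obtain ⟨x', hx', hx⟩ := hx
    obtain ⟨y', hy', hy⟩ := hy
    refine ⟨x' + y', add_mem hx' hy', fun ω => ?_⟩
    rw [LinearMap.add_apply, hx ω, hy ω]
    rfl
  | neg x _ hx =>
    obtain ⟨x', hx', hx⟩ := hx
    refine ⟨-x', neg_mem hx', fun ω => ?_⟩
    rw [LinearMap.neg_apply, hx ω]
    rfl

/-- the linear map between the spaces of forms -/
def formMap {S : ((Fin m → ℂ) → (Fin m → ℂ) → ℂ) → (Fin n → ℂ) → (Fin n → ℂ) → ℂ}
    (hS : IsFormIso C D S) : D.Omega →ₗ[ℂ] C.Omega where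
  toFun w := ⟨S w, hS.bij.mapsTo w.2⟩
  map_add' w w' := Subtype.ext (hS.add _ _ w.2 w'.2)
  map_smul' c w := Subtype.ext (hS.smul c _ w.2)

lemma formMap_bij {S : ((Fin m → ℂ) → (Fin m → ℂ) → ℂ) → (Fin n → ℂ) → (Fin n → ℂ) → ℂ}
    (hS : IsFormIso C D S) : Function.Bijective (formMap hS) := by
  constructor
  · intro w w' h
    exact Subtype.ext (hS.bij.injOn w.2 w'.2 (congrArg Subtype.val h))
  · intro w
    obtain ⟨x, hx, he⟩ := hS.bij.surjOn w.2
    exact ⟨⟨x, hx⟩, Subtype.ext he⟩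

/-- the linear isomorphism between the spaces of forms -/
def formEquiv {S : ((Fin m → ℂ) → (Fin m → ℂ) → ℂ) → (Fin n → ℂ) → (Fin n → ℂ) → ℂ}
    (hS : IsFormIso C D S) : D.Omega ≃ₗ[ℂ] C.Omega :=
  LinearEquiv.ofBijective (formMap hS) (formMap_bij hS)

lemma formEquiv_coe {S : ((Fin m → ℂ) → (Fin m → ℂ) → ℂ) → (Fin n → ℂ) → (Fin n → ℂ) → ℂ}
    (hS : IsFormIso C D S) (w : D.Omega) :
    ((formEquiv hS w : C.Omega) : (Fin n → ℂ) → (Fin n → ℂ) → ℂ) = S w := rfl

lemma JacIsogenous.dual (hC : ContPeriods C) (hD : ContPeriods D) (h : JacIsogenous C D) :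
    DualIsogenous C D := by
  obtain ⟨S, hS, h1, N, hN, h2⟩ := h
  refine ⟨(formEquiv hS).dualMap, ?_, N, hN, ?_⟩
  · intro l hl
    obtain ⟨l₀, hl₀, e₀⟩ := to_periods hl
    obtain ⟨l₁, hl₁, e₁⟩ := h1 l₀ hl₀
    obtain ⟨l₂, hl₂, e₂⟩ := of_periods hD hl₁
    have : (formEquiv hS).dualMap l = l₂ := by
      ext w
      rw [LinearEquiv.dualMap_apply, e₂, ← e₁ _ w.2, e₀ _ (hS.bij.mapsTo w.2)]
      exact congrArg l (Subtype.ext (formEquiv_coe hS w))
    rw [this]
    exact hl₂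
  · intro l hl
    obtain ⟨l₀, hl₀, e₀⟩ := to_periods hl
    obtain ⟨l₁, hl₁, e₁⟩ := h2 l₀ hl₀
    obtain ⟨l₂, hl₂, e₂⟩ := of_periods hC hl₁
    refine ⟨l₂, hl₂, ?_⟩
    ext w
    rw [LinearEquiv.dualMap_apply, e₂, formEquiv_coe, e₁ _ w.2, e₀ _ w.2, LinearMap.smul_apply,
      nsmul_eq_mul]

end

end Pool.Agent.R403.IS
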