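import Mathlib
import Pool.Agent.R403.IS.Diff

/-!
Symmetries of the family.
-/

set_option autoImplicit false

open Set Filter Topology
open scoped PeriodPair ComplexConjugate

namespace Pool.Agent.R403.IS

theorem wp_conj {L L' : PeriodPair} (h : ∀ z, z ∈ L'.lattice ↔ conj z ∈ L.lattice) (z : ℂ) :
    ℘[L'] (conj z) = conj (℘[L] z) := by
  unfold PeriodPair.weierstrassP
  let e : L.lattice ≃ L'.lattice :=
    { toFun := fun l => ⟨conj (l : ℂ), (h _).2 (by rw [Complex.conj_conj]; exact l.2)⟩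
      invFun := fun l => ⟨conj (l : ℂ), (h _).1 l.2⟩
      left_inv := fun l => Subtype.ext (Complex.conj_conj _)
      right_inv := fun l => Subtype.ext (Complex.conj_conj _) }
  rw [← e.tsum_eq, Complex.conj_tsum]
  refine tsum_congr fun l => ?_
  have : ((e l : L'.lattice) : ℂ) = conj (l : ℂ) := rfl
  rw [this]
  simp only [map_sub, map_div₀, map_one, map_pow]

theorem wp_smul {L L' : PeriodPair} {c : ℂ} (hc : c ≠ 0) (h : ∀ z, z ∈ L.lattice ↔ c * z ∈ L'.lattice)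
    (z : ℂ) : ℘[L'] (c * z) = (c ^ 2)⁻¹ * ℘[L] z := by
  unfold PeriodPair.weierstrassP
  let e : L.lattice ≃ L'.lattice :=
    { toFun := fun l => ⟨c * (l : ℂ), (h _).1 l.2⟩
      invFun := fun l => ⟨c⁻¹ * (l : ℂ), (h _).2 (by rw [mul_inv_cancel_left₀ hc]; exact l.2)⟩
      left_inv := fun l => Subtype.ext (by simp [hc])
      right_inv := fun l => Subtype.ext (by simp [hc]) }
  rw [← e.tsum_eq, ← tsum_mul_left]
  refine tsum_congr fun l => ?_
  have : ((e l : L'.lattice) : ℂ) = c * (l : ℂ) := rfl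
  rw [this, ← mul_sub, mul_pow, mul_pow]
  rw [mul_sub, one_div, one_div, one_div, one_div, mul_inv, mul_inv]

theorem wp_congr {L L' : PeriodPair} (h : ∀ z, z ∈ L.lattice ↔ z ∈ L'.lattice) (z : ℂ) :
    ℘[L'] z = ℘[L] z := by
  have := wp_smul (L := L) (L' := L') one_ne_zero (fun z => by rw [one_mul]; exact h z) z
  rw [one_mul] at this
  rw [this]
  norm_num

theorem wp_add {L : PeriodPair} {z l : ℂ} (h : l ∈ L.lattice) : ℘[L] (z + l) = ℘[L] z :=
  L.weierstrassP_add_coe z ⟨l, h⟩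

theorem conj_two : conj (2 : ℂ) = 2 := map_ofNat _ 2

theorem conj_three : conj (3 : ℂ) = 3 := map_ofNat _ 3

theorem im_neg_conj (t : ℂ) : (-conj t).im = t.im := by simp

theorem t_mem {t : ℂ} (ht : 0 < t.im) : t ∈ (Lt t ht).lattice := (Lt t ht).ω₂_mem_lattice

theorem one_mem {t : ℂ} (ht : 0 < t.im) : (1 : ℂ) ∈ (Lt t ht).lattice := (Lt t ht).ω₁_mem_lattice

theorem E10 {t : ℂ} (ht : 0 < t.im) : E 1 0 t = ℘[Lt t ht] (1 / 2) := by
  rw [E_eq 1 0 t ht]
  norm_num

theorem E01 {t : ℂ} (ht : 0 < t.im) : E 0 1 t = ℘[Lt t ht] (t / 2) := by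
  rw [E_eq 0 1 t ht]
  norm_num

theorem E11 {t : ℂ} (ht : 0 < t.im) : E 1 1 t = ℘[Lt t ht] ((1 + t) / 2) := by
  rw [E_eq 1 1 t ht]
  norm_num

theorem facts {t : ℂ} (ht : 0 < t.im) :
    E 1 0 t ≠ E 0 1 t ∧ E 1 0 t ≠ E 1 1 t ∧ E 0 1 t ≠ E 1 1 t ∧ E 1 0 t + E 0 1 t + E 1 1 t = 0 :=
  half_facts (Lt t ht) (E10 ht) (E01 ht) (E11 ht)

theorem conj_lattice {t : ℂ} (ht : 0 < t.im) (hs : 0 < (-conj t).im) (z : ℂ) :
    z ∈ (Lt (-conj t) hs).lattice ↔ conj z ∈ (Lt t ht).lattice := by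
  rw [mem_Lt, mem_Lt]
  constructor
  · rintro ⟨x, rfl⟩
    refine ⟨![-x 0, x 1], ?_⟩
    simp [w]
  · rintro ⟨x, hx⟩
    refine ⟨![-x 0, x 1], ?_⟩
    have := congrArg conj hx
    rw [Complex.conj_conj] at this
    rw [this]
    simp [w]

theorem E_conj {t : ℂ} (ht : 0 < t.im) :
    E 1 0 (-conj t) = conj (E 1 0 t) ∧ E 0 1 (-conj t) = conj (E 0 1 t) ∧
      E 1 1 (-conj t) = conj (E 1 1 t) := by
  have hs : 0 < (-conj t).im := by rw [im_neg_conj]; exact ht
  have hc := wp_conj (conj_lattice ht hs)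
  refine ⟨?_, ?_, ?_⟩
  · rw [E10 ht, E10 hs, ← hc]
    congr 1
    simp [conj_two]
  · rw [E01 ht, E01 hs, ← hc, ← (Lt (-conj t) hs).weierstrassP_neg]
    congr 1
    simp [conj_two]
    ring
  · rw [E11 ht, E11 hs, ← hc, ← wp_add (t_mem hs) (z := conj ((1 + t) / 2))]
    congr 1
    simp [conj_two]
    ring

/-- the function `-3 e₃ / (e₁ - e₂)` -/
noncomputable def uu (t : ℂ) : ℂ := -3 * E 1 1 t / (E 1 0 t - E 0 1 t)

theorem uu_conj {t : ℂ} (ht : 0 < t.im) : uu (-conj t) = conj (uu t) := by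
  obtain ⟨h1, h2, h3⟩ := E_conj ht
  unfold uu
  rw [h1, h2, h3]
  simp [conj_three]

theorem uu_diff : DifferentiableOn ℂ uu {t | 0 < t.im} := by
  have h1 := E_diff (a := 1) (b := 1) (by norm_num) (by norm_num) (Or.inl odd_one)
  have h2 := E_diff (a := 1) (b := 0) (by norm_num) (by norm_num) (Or.inl odd_one)
  have h3 := E_diff (a := 0) (b := 1) (by norm_num) (by norm_num) (Or.inr odd_one)
  unfold uu
  exact (h1.const_mul (-3)).div (h2.sub h3) fun t ht => sub_ne_zero.2 (facts ht).1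

theorem I_im : 0 < Complex.I.im := by simp

theorem oneI_im : 0 < (1 + Complex.I).im := by simp

theorem E11_I : E 1 1 Complex.I = 0 := by
  have h := wp_smul (L := Lt Complex.I I_im) (L' := Lt Complex.I I_im) (c := Complex.I) Complex.I_ne_zero
    (fun z => by
      rw [mem_Lt, mem_Lt]
      constructor
      · rintro ⟨x, rfl⟩
        refine ⟨![x 1, -x 0], ?_⟩
        simp [w]
        linear_combination (x 0 : ℂ) * Complex.I_mul_I
      · rintro ⟨x, hx⟩
        refine ⟨![-x 1, x 0], ?_⟩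
        have h2 : z = -Complex.I * (Complex.I * z) := by
          linear_combination z * Complex.I_mul_I
        rw [h2, hx]
        simp [w]
        linear_combination (-(x 0 : ℂ)) * Complex.I_mul_I) ((1 + Complex.I) / 2)
  rw [Complex.I_sq] at h
  have h3 : ℘[Lt Complex.I I_im] (Complex.I * ((1 + Complex.I) / 2)) =
      ℘[Lt Complex.I I_im] ((1 + Complex.I) / 2) := by
    rw [← wp_add (one_mem I_im) (z := Complex.I * ((1 + Complex.I) / 2))]
    congr 1
    linear_combination (1 / 2 : ℂ) * Complex.I_mul_I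
  rw [h3] at h
  rw [E11 I_im]
  have h4 : (2 : ℂ) * ℘[Lt Complex.I I_im] ((1 + Complex.I) / 2) = 0 := by
    linear_combination h
  simpa using h4

theorem uu_I : uu Complex.I = 0 := by
  unfold uu
  rw [E11_I]
  simp

theorem uu_one_I : uu (1 + Complex.I) = 3 := by
  have hL := wp_congr (L := Lt Complex.I I_im) (L' := Lt (1 + Complex.I) oneI_im) (fun z => by
    rw [mem_Lt, mem_Lt]
    constructor
    · rintro ⟨x, rfl⟩
      refine ⟨![x 0, x 1 - x 0], ?_⟩
      simp [w]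
      ring
    · rintro ⟨x, rfl⟩
      refine ⟨![x 0, x 1 + x 0], ?_⟩
      simp [w]
      ring)
  have h1 : E 1 0 (1 + Complex.I) = E 1 0 Complex.I := by
    rw [E10 oneI_im, E10 I_im, hL]
  have h2 : E 0 1 (1 + Complex.I) = 0 := by
    rw [E01 oneI_im, hL, ← E11 I_im, E11_I]
  obtain ⟨f1, f2, f3, f4⟩ := facts I_im
  obtain ⟨g1, g2, g3, g4⟩ := facts oneI_im
  rw [E11_I] at f2
  rw [h1] at g4
  rw [h2] at g4
  have h3 : E 1 1 (1 + Complex.I) = - E 1 0 Complex.I := by linear_combination g4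
  unfold uu
  rw [h1, h2, h3, sub_zero]
  field_simp

end Pool.Agent.R403.IS
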