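import Mathlib
import Pool.Agent.R403.IS.Sym

/-!
A lattice with `|3 e₃| = |e₁ - e₂|`, without complex multiplication and not isogenous to its
complex conjugate.
-/

set_option autoImplicit false

open Set Filter Topology
open scoped PeriodPair ComplexConjugate

namespace Pool.Agent.R403.IS

theorem zeros_countable {f : ℂ → ℂ} {U : Set ℂ} (hU : IsOpen U) (hc : IsPreconnected U)
    (hf : DifferentiableOn ℂ f U) {z₀ : ℂ} (hz₀ : z₀ ∈ U) (hne : f z₀ ≠ 0) :
    {z | z ∈ U ∧ f z = 0}.Countable := by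
  have hA := hf.analyticOnNhd hU
  have h1 : ∀ z ∈ {z | z ∈ U ∧ f z = 0}, ({z} : Set ℂ) ∈ 𝓝[{z | z ∈ U ∧ f z = 0}] z := by
    rintro z ⟨hz, hz0⟩
    have h2 : ∀ᶠ v in 𝓝[≠] z, f v ≠ 0 := by
      by_contra hcon
      have h3 : ∃ᶠ v in 𝓝[≠] z, f v = 0 := by
        intro h4
        exact hcon (h4.mono fun v hv => hv)
      exact hne (hA.eqOn_zero_of_preconnected_of_frequently_eq_zero hc hz h3 hz₀)
    rw [eventually_nhdsWithin_iff] at h2
    rw [mem_nhdsWithin_iff_eventually]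
    filter_upwards [h2] with v hv hv2
    by_contra hne
    exact hv hne hv2.2
  obtain ⟨t, -, htc, hcov⟩ := TopologicalSpace.countable_cover_nhdsWithin h1
  refine htc.mono fun z hz => ?_
  have := hcov hz
  simpa using this

theorem im_mob {p q r s : ℚ} {t : ℂ} (hd : (r : ℂ) * t + s ≠ 0) :
    (((p : ℂ) * t + q) / (r * t + s)).im = ((p * s - q * r : ℚ) : ℝ) * t.im / Complex.normSq (r * t + s) := by
  rw [Complex.div_im]
  have h : Complex.normSq ((r : ℂ) * t + s) ≠ 0 := by simpa using hd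
  field_simp
  simp
  ring

theorem den_ne {p q r s : ℚ} (hdet : 0 < p * s - q * r) {t : ℂ} (ht : 0 < t.im) : (r : ℂ) * t + s ≠ 0 := by
  intro h
  have h1 := congrArg Complex.im h
  have h2 := congrArg Complex.re h
  simp at h1 h2
  rcases h1 with h1 | h1
  · subst h1
    simp at h2
    subst h2
    simp at hdet
  · exact ht.ne' h1

theorem mob_im_pos {p q r s : ℚ} (hdet : 0 < p * s - q * r) {t : ℂ} (ht : 0 < t.im) :
    0 < (((p : ℂ) * t + q) / (r * t + s)).im := by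
  have hd := den_ne hdet ht
  rw [im_mob hd]
  have h : 0 < Complex.normSq ((r : ℂ) * t + s) := Complex.normSq_pos.2 hd
  have : (0 : ℝ) < ((p * s - q * r : ℚ) : ℝ) := by exact_mod_cast hdet
  positivity

theorem bad_countable {p q r s : ℚ} (hdet : 0 < p * s - q * r) :
    {t : ℂ | 0 < t.im ∧ uu ((p * t + q) / (r * t + s)) * uu t = 1}.Countable := by
  have hU : IsOpen {t : ℂ | 0 < t.im} := isOpen_lt continuous_const Complex.continuous_im
  have hc : IsPreconnected {t : ℂ | 0 < t.im} := (convex_halfSpace_im_gt 0).isPreconnected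
  have hf : DifferentiableOn ℂ (fun t => uu (((p : ℂ) * t + q) / (r * t + s)) * uu t - 1) {t : ℂ | 0 < t.im} := by
    refine DifferentiableOn.sub_const ?_ 1
    refine DifferentiableOn.mul ?_ uu_diff
    refine uu_diff.comp (t := {t : ℂ | 0 < t.im}) ?_ fun t ht => mob_im_pos hdet ht
    refine DifferentiableOn.div (by fun_prop) (by fun_prop) fun t ht => den_ne hdet ht
  have h := zeros_countable hU hc hf (z₀ := Complex.I) I_im (by simp [uu_I])
  refine h.mono ?_
  rintro t ⟨h1, h2⟩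
  exact ⟨h1, sub_eq_zero.2 h2⟩

theorem exists_on_line : ∃ δ : ℝ, 0 < δ ∧ ∀ h : ℝ, |h| < δ → ∃ s : ℝ, ‖uu (s + (1 + h : ℝ) * Complex.I)‖ = 1 := by
  have hU : IsOpen {t : ℂ | 0 < t.im} := isOpen_lt continuous_const Complex.continuous_im
  have c0 : ContinuousAt (fun t => ‖uu t‖) Complex.I :=
    ((uu_diff.differentiableAt (hU.mem_nhds I_im)).continuousAt).norm
  have c1 : ContinuousAt (fun t => ‖uu t‖) (1 + Complex.I) :=
    ((uu_diff.differentiableAt (hU.mem_nhds oneI_im)).continuousAt).norm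
  have e0 : ∀ᶠ t in 𝓝 Complex.I, ‖uu t‖ < 1 := c0.eventually_lt_const (by
    show ‖uu Complex.I‖ < 1
    rw [uu_I]; norm_num)
  have e1 : ∀ᶠ t in 𝓝 (1 + Complex.I), 1 < ‖uu t‖ := c1.eventually_const_lt (by
    show 1 < ‖uu (1 + Complex.I)‖
    rw [uu_one_I]; norm_num)
  obtain ⟨δ0, hδ0, hb0⟩ := Metric.eventually_nhds_iff.1 e0
  obtain ⟨δ1, hδ1, hb1⟩ := Metric.eventually_nhds_iff.1 e1
  refine ⟨min (min δ0 δ1) 1, by positivity, fun h hh => ?_⟩
  have hh0 : |h| < δ0 := hh.trans_le ((min_le_left _ _).trans (min_le_left _ _))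
  have hh1 : |h| < δ1 := hh.trans_le ((min_le_left _ _).trans (min_le_right _ _))
  have hh2 : |h| < 1 := hh.trans_le (min_le_right _ _)
  have hpos : 0 < 1 + h := by
    have := (abs_lt.1 hh2).1
    linarith
  have hg : ContinuousOn (fun s : ℝ => ‖uu (s + (1 + h : ℝ) * Complex.I)‖) (Icc 0 1) := by
    intro s hs
    have him : 0 < ((s : ℂ) + (1 + h : ℝ) * Complex.I).im := by simpa using hpos
    have h1 : ContinuousAt uu ((s : ℂ) + (1 + h : ℝ) * Complex.I) :=
      (uu_diff.differentiableAt (hU.mem_nhds him)).continuousAt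
    have h2 : ContinuousAt (fun s : ℝ => uu ((s : ℂ) + (1 + h : ℝ) * Complex.I)) s :=
      ContinuousAt.comp (f := fun s : ℝ => (s : ℂ) + (1 + h : ℝ) * Complex.I) h1 (by fun_prop)
    exact h2.norm.continuousWithinAt
  have hlow : ‖uu ((0 : ℝ) + (1 + h : ℝ) * Complex.I)‖ < 1 := by
    apply hb0
    rw [dist_eq_norm]
    have : ((0 : ℝ) : ℂ) + (1 + h : ℝ) * Complex.I - Complex.I = (h : ℂ) * Complex.I := by
      push_cast; ring
    rw [this]
    simpa using hh0
  have hhigh : 1 < ‖uu ((1 : ℝ) + (1 + h : ℝ) * Complex.I)‖ := by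
    apply hb1
    rw [dist_eq_norm]
    have : ((1 : ℝ) : ℂ) + (1 + h : ℝ) * Complex.I - (1 + Complex.I) = (h : ℂ) * Complex.I := by
      push_cast; ring
    rw [this]
    simpa using hh1
  obtain ⟨s, -, hs⟩ := intermediate_value_Icc zero_le_one hg ⟨hlow.le, hhigh.le⟩
  exact ⟨s, hs⟩

/-- the set of parameters to be avoided -/
def bad : Set ℂ := {t : ℂ | IsAlgebraic ℚ t} ∪
  ⋃ m : ℚ × ℚ × ℚ × ℚ, {t : ℂ | 0 < m.1 * m.2.2.2 - m.2.1 * m.2.2.1 ∧ 0 < t.im ∧
    uu ((m.1 * t + m.2.1) / (m.2.2.1 * t + m.2.2.2)) * uu t = 1}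

theorem countable_bad : bad.Countable := by
  refine Set.Countable.union ?_ (Set.countable_iUnion fun m => ?_)
  · exact Algebraic.countable ℚ ℂ
  · by_cases h : 0 < m.1 * m.2.2.2 - m.2.1 * m.2.2.1
    · refine (bad_countable h).mono ?_
      rintro t ⟨-, h1, h2⟩
      exact ⟨h1, h2⟩
    · have : {t : ℂ | 0 < m.1 * m.2.2.2 - m.2.1 * m.2.2.1 ∧ 0 < t.im ∧
        uu ((m.1 * t + m.2.1) / (m.2.2.1 * t + m.2.2.2)) * uu t = 1} = ∅ := by
        ext t
        simp only [mem_ofPred_eq, mem_empty_iff_false, iff_false, not_and]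
        intro h'
        exact absurd h' h
      rw [this]
      exact Set.countable_empty

theorem exists_param : ∃ t : ℂ, 0 < t.im ∧ ‖uu t‖ = 1 ∧ t ∉ bad := by
  obtain ⟨δ, hδ, H⟩ := exists_on_line
  choose! s hs using H
  by_contra hcon
  push Not at hcon
  set δ' := min δ 1 with hδ'
  have hδ'0 : 0 < δ' := by positivity
  have h1 : ∀ h ∈ Ioo (-δ') δ', (s h : ℂ) + (1 + h : ℝ) * Complex.I ∈ bad := by
    rintro h ⟨ha, hb⟩
    have hh : |h| < δ' := abs_lt.2 ⟨ha, hb⟩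
    refine hcon _ ?_ (hs h (hh.trans_le (min_le_left _ _)))
    have : |h| < 1 := hh.trans_le (min_le_right _ _)
    have := (abs_lt.1 this).1
    simp
    linarith
  have h2 : (Ioo (-δ') δ') ⊆ (fun t : ℂ => t.im - 1) '' bad := by
    intro h hh
    refine ⟨_, h1 h hh, ?_⟩
    simp
  have h3 : (Ioo (-δ') δ').Countable := (countable_bad.image _).mono h2
  have h4 : ¬ (Ioo (-δ') δ').Countable := by
    rw [← Cardinal.le_aleph0_iff_set_countable, not_le, Cardinal.mk_Ioo_real (by linarith)]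
    exact Cardinal.aleph0_lt_continuum
  exact h4 h3

theorem mem_KL {t : ℂ} (ht : 0 < t.im) {z : ℂ} : z ∈ KL (Lt t ht) ↔ ∃ a b : ℚ, z = a + b * t := by
  unfold KL
  constructor
  · intro h
    induction h using Submodule.span_induction with
    | mem x hx =>
      obtain ⟨y, rfl⟩ := (mem_Lt ht).1 hx
      exact ⟨y 1, y 0, by simp [w]; ring⟩
    | zero => exact ⟨0, 0, by simp⟩
    | add x y _ _ hx hy =>
      obtain ⟨a, b, rfl⟩ := hx
      obtain ⟨a', b', rfl⟩ := hy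
      exact ⟨a + a', b + b', by push_cast; ring⟩
    | smul q x _ hx =>
      obtain ⟨a, b, rfl⟩ := hx
      exact ⟨q * a, q * b, by rw [Algebra.smul_def]; simp; ring⟩
  · rintro ⟨a, b, rfl⟩
    have h1 : (1 : ℂ) ∈ Submodule.span ℚ ((Lt t ht).lattice : Set ℂ) := Submodule.subset_span (one_mem ht)
    have h2 : t ∈ Submodule.span ℚ ((Lt t ht).lattice : Set ℂ) := Submodule.subset_span (t_mem ht)
    have h3 := Submodule.smul_mem _ a h1
    have h4 := Submodule.smul_mem _ b h2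
    rw [Algebra.smul_def] at h3 h4
    have := add_mem h3 h4
    simpa using this

/-- TASK B -/
theorem exists_lattice : ∃ (L : PeriodPair) (e₁ e₂ e₃ : ℂ),
    e₁ = ℘[L] (L.ω₁ / 2) ∧ e₂ = ℘[L] (L.ω₂ / 2) ∧ e₃ = ℘[L] ((L.ω₁ + L.ω₂) / 2) ∧
    ‖3 * e₃‖ = ‖e₁ - e₂‖ ∧
    (∀ c : ℂ, (∀ z ∈ KL L, c * z ∈ KL L) → ∃ q : ℚ, c = q) ∧
    (∀ c : ℂ, (∀ z ∈ KL L, c * conj z ∈ KL L) → c = 0) := by
  obtain ⟨t, ht, hu, hbad⟩ := exists_param
  have halg : ¬ IsAlgebraic ℚ t := fun h => hbad (Or.inl h)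
  have hm : ∀ p q r s : ℚ, 0 < p * s - q * r → uu ((p * t + q) / (r * t + s)) * uu t ≠ 1 := by
    intro p q r s hdet h
    exact hbad (Or.inr (Set.mem_iUnion.2 ⟨(p, q, r, s), hdet, ht, h⟩))
  obtain ⟨f1, f2, f3, f4⟩ := facts ht
  refine ⟨Lt t ht, E 1 0 t, E 0 1 t, E 1 1 t, E10 ht, E01 ht, E11 ht, ?_, ?_, ?_⟩
  · have h1 : E 1 0 t - E 0 1 t ≠ 0 := sub_ne_zero.2 f1
    have h2 : ‖uu t‖ = ‖3 * E 1 1 t‖ / ‖E 1 0 t - E 0 1 t‖ := by
      unfold uu
      rw [norm_div, neg_mul, norm_neg]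
    rw [h2, div_eq_one_iff_eq (norm_ne_zero_iff.2 h1)] at hu
    exact hu
  · intro c hc
    have h1 := hc 1 ((mem_KL ht).2 ⟨1, 0, by simp⟩)
    have h2 := hc t ((mem_KL ht).2 ⟨0, 1, by simp⟩)
    rw [mul_one] at h1
    obtain ⟨a, b, h1⟩ := (mem_KL ht).1 h1
    obtain ⟨a', b', h2⟩ := (mem_KL ht).1 h2
    rw [h1] at h2
    have hb : b = 0 := by
      by_contra hb
      apply halg
      refine ⟨Polynomial.C b * Polynomial.X ^ 2 + Polynomial.C (a - b') * Polynomial.X - Polynomial.C a', ?_, ?_⟩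
      · intro h0
        have := congrArg (fun p => Polynomial.coeff p 2) h0
        simp at this
        exact hb this
      · simp
        linear_combination h2
    subst hb
    exact ⟨a, by rw [h1]; simp⟩
  · intro c hc
    by_contra hc0
    have h1 := hc 1 ((mem_KL ht).2 ⟨1, 0, by simp⟩)
    have h2 := hc t ((mem_KL ht).2 ⟨0, 1, by simp⟩)
    rw [map_one, mul_one] at h1
    obtain ⟨a, b, h1⟩ := (mem_KL ht).1 h1
    obtain ⟨a', b', h2⟩ := (mem_KL ht).1 h2
    have hd : (b : ℂ) * t + a ≠ 0 := by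
      rw [add_comm, ← h1]
      exact hc0
    have h3 : -conj t = (((-b' : ℚ) : ℂ) * t + ((-a' : ℚ) : ℂ)) / ((b : ℂ) * t + a) := by
      rw [eq_div_iff hd]
      rw [h1] at h2
      push_cast
      linear_combination -h2
    have h4 := im_mob (p := -b') (q := -a') (t := t) hd
    rw [← h3, im_neg_conj] at h4
    have hdet : 0 < (-b') * a - (-a') * b := by
      by_contra hneg
      push Not at hneg
      have hneg' : (((-b') * a - (-a') * b : ℚ) : ℝ) ≤ 0 := by exact_mod_cast hneg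
      have hn : 0 < Complex.normSq ((b : ℂ) * t + a) := Complex.normSq_pos.2 hd
      have : (((-b') * a - (-a') * b : ℚ) : ℝ) * t.im / Complex.normSq ((b : ℂ) * t + a) ≤ 0 :=
        div_nonpos_of_nonpos_of_nonneg (mul_nonpos_of_nonpos_of_nonneg hneg' ht.le) hn.le
      linarith
    have h5 := hm (-b') (-a') b a hdet
    apply h5
    rw [← h3, uu_conj ht, mul_comm, Complex.mul_conj, Complex.normSq_eq_norm_sq, hu]
    norm_num

end Pool.Agent.R403.IS
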