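import Pool.Agent.R403.IS.Mon

/-!
# The group of sign changes and its characters
-/

set_option autoImplicit false

open scoped Topology
open Matrix Complex Finset

noncomputable section

namespace Pool.Agent.R403.IS

/-- the group of sign changes -/
abbrev Sg := Fin 6 → ℤˣ

/-- diagonal sign matrices -/
def dg : Sg →* GL (Fin 6) ℂ where
  toFun e := ⟨diagonal fun i => ((e i : ℤ) : ℂ), diagonal fun i => ((e i : ℤ) : ℂ), by
    rw [diagonal_mul_diagonal]
    have : (fun i => (((e i : ℤ) : ℂ) * ((e i : ℤ) : ℂ))) = fun _ => 1 := by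
      funext i
      rcases Int.units_eq_one_or (e i) with h | h <;> simp [h]
    rw [this]; exact diagonal_one, by
    rw [diagonal_mul_diagonal]
    have : (fun i => (((e i : ℤ) : ℂ) * ((e i : ℤ) : ℂ))) = fun _ => 1 := by
      funext i
      rcases Int.units_eq_one_or (e i) with h | h <;> simp [h]
    rw [this]; exact diagonal_one⟩
  map_one' := by
    ext i j
    simp [Matrix.one_apply, diagonal_apply]
  map_mul' a b := by
    ext i j
    by_cases h : i = j
    · subst h; simp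
    · simp [h]

/-- the action of a sign change -/
def sa (e : Sg) (p : Fin 6 → ℂ) : Fin 6 → ℂ := fun i => ((e i : ℤ) : ℂ) * p i

lemma act_dg (e : Sg) (p : Fin 6 → ℂ) : act (dg e) p = sa e p := by
  funext i
  simp [act, dg, sa, mulVec_diagonal]

lemma unit_sq (x : ℤˣ) : ((x : ℤ) : ℂ) * ((x : ℤ) : ℂ) = 1 := by
  rcases Int.units_eq_one_or x with h | h <;> simp [h]

lemma sa_mul (a b : Sg) (p : Fin 6 → ℂ) : sa (a * b) p = sa a (sa b p) := by
  funext i
  simp [sa, mul_assoc]

lemma sa_one (p : Fin 6 → ℂ) : sa 1 p = p := by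
  funext i
  simp [sa]

lemma sa_sa (a : Sg) (p : Fin 6 → ℂ) : sa a (sa a p) = p := by
  funext i
  simp only [sa, ← mul_assoc, unit_sq, one_mul]

/-- sign changes as monomial maps -/
def sMon (u : ℂ) (e : Sg) : Mon u u where
  π := 1
  a := fun i => ((e i : ℤ) : ℂ)
  A := 1
  B := 0
  C := 0
  D := 1
  h1 := fun i => by
    have := unit_sq (e i)
    simp only [Equiv.Perm.coe_one, id_eq, sq, this]
    ring
  h2 := fun i => by
    have := unit_sq (e i)
    simp only [Equiv.Perm.coe_one, id_eq, sq, this]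
    ring
  ha := fun i h => by
    have := unit_sq (e i)
    rw [h] at this
    simp at this

lemma sMon_lin (u : ℂ) (e : Sg) (p : Fin 6 → ℂ) : (sMon u e).lin p = sa e p := rfl

lemma sa_onZ {u : ℂ} (e : Sg) {p : Fin 6 → ℂ} (hp : OnZ u p) : OnZ u (sa e p) :=
  (sMon u e).onZ hp

lemma sa_tan {u : ℂ} (e : Sg) {p v : Fin 6 → ℂ} (hp : Tan u p v) : Tan u (sa e p) (sa e v) :=
  (sMon u e).tan hp

lemma sa_onZ_iff {u : ℂ} (e : Sg) {p : Fin 6 → ℂ} : OnZ u (sa e p) ↔ OnZ u p :=
  ⟨fun h => by have := sa_onZ e h; rwa [sa_sa] at this, sa_onZ e⟩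

lemma sa_tan_iff {u : ℂ} (e : Sg) {p v : Fin 6 → ℂ} : Tan u (sa e p) (sa e v) ↔ Tan u p v :=
  ⟨fun h => by have := sa_tan e h; rwa [sa_sa, sa_sa] at this, sa_tan e⟩

/-- the characters -/
def chr (W : Finset (Fin 6)) (e : Sg) : ℂ := (((∏ j ∈ W, e j : ℤˣ) : ℤ) : ℂ)

lemma chr_mul (W : Finset (Fin 6)) (a b : Sg) : chr W (a * b) = chr W a * chr W b := by
  simp [chr, prod_mul_distrib]

lemma chr_sq (W : Finset (Fin 6)) (a : Sg) : chr W a * chr W a = 1 := unit_sq _

lemma chr_one (W : Finset (Fin 6)) : chr W 1 = 1 := by simp [chr]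

lemma chr_univ (e : Sg) : chr univ e = ∏ i, ((e i : ℤ) : ℂ) := by
  simp [chr]

/-- the sign change of one coordinate -/
def e1 (j : Fin 6) : Sg := Function.update 1 j (-1)

lemma chr_e1 (W : Finset (Fin 6)) (j : Fin 6) : chr W (e1 j) = if j ∈ W then -1 else 1 := by
  unfold chr e1
  split_ifs with h
  · rw [prod_update_of_mem h]; simp
  · rw [prod_update_of_notMem h]; simp

lemma sg_sq (e : Sg) : e * e = 1 := by
  funext i
  rcases Int.units_eq_one_or (e i) with h | h <;> simp [h]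

/-- orthogonality of characters -/
lemma chr_orth {W W' : Finset (Fin 6)} (h : W ≠ W') : ∑ e : Sg, chr W e * chr W' e = 0 := by
  obtain ⟨j, hj⟩ : ∃ j, ¬ (j ∈ W ↔ j ∈ W') := by
    by_contra hcon
    push Not at hcon
    exact h (Finset.ext hcon)
  have h1 : ∑ e : Sg, chr W e * chr W' e = ∑ e : Sg, chr W (e1 j * e) * chr W' (e1 j * e) :=
    (Fintype.sum_equiv (Equiv.mulLeft (e1 j)) _ _ (fun _ => rfl)).symm
  have h2 : ∀ e, chr W (e1 j * e) * chr W' (e1 j * e) = -(chr W e * chr W' e) := by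
    intro e
    rw [chr_mul, chr_mul, chr_e1, chr_e1]
    by_cases h3 : j ∈ W <;> by_cases h4 : j ∈ W' <;> simp_all
  rw [sum_congr rfl fun e _ => h2 e, sum_neg_distrib] at h1
  exact self_eq_neg.1 h1

section Rep

variable {M : Type*} [AddCommGroup M] [Module ℂ M] (r : Sg →* Module.End ℂ M)

/-- the projection to an isotypic component -/
def proj (W : Finset (Fin 6)) (x : M) : M := (64 : ℂ)⁻¹ • ∑ e : Sg, chr W e • r e x

lemma card_Sg : Fintype.card Sg = 64 := by decide

lemma r_proj (W : Finset (Fin 6)) (x : M) (a : Sg) : r a (proj r W x) = chr W a • proj r W x := by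
  unfold proj
  have h1 : ∀ e, r a (chr W e • r e x) = chr W a • (chr W (a * e) • r (a * e) x) := by
    intro e
    rw [map_smul, ← Module.End.mul_apply, ← map_mul, chr_mul, smul_smul, ← mul_assoc, chr_sq,
      one_mul]
  rw [map_smul, map_sum, sum_congr rfl fun e _ => h1 e, ← Finset.smul_sum, smul_comm]
  congr 2
  exact Fintype.sum_equiv (Equiv.mulLeft a) _ _ (fun _ => rfl)

lemma proj_self {W : Finset (Fin 6)} {x : M} (h : ∀ e, r e x = chr W e • x) : proj r W x = x := by
  unfold proj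
  have h1 : ∀ e, chr W e • r e x = x := by
    intro e
    rw [h e, smul_smul, chr_sq, one_smul]
  rw [sum_congr rfl fun e _ => h1 e, sum_const, card_univ, card_Sg, ← Nat.cast_smul_eq_nsmul ℂ,
    smul_smul]
  norm_num

lemma proj_other {W W' : Finset (Fin 6)} (hW : W' ≠ W) {x : M} (h : ∀ e, r e x = chr W e • x) :
    proj r W' x = 0 := by
  unfold proj
  have h1 : ∀ e, chr W' e • r e x = (chr W' e * chr W e) • x := by
    intro e
    rw [h e, smul_smul]
  rw [sum_congr rfl fun e _ => h1 e, ← Finset.sum_smul, chr_orth hW]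
  simp

lemma proj_add (W : Finset (Fin 6)) (x y : M) : proj r W (x + y) = proj r W x + proj r W y := by
  unfold proj
  simp [smul_add, sum_add_distrib]

lemma proj_smul (W : Finset (Fin 6)) (c : ℂ) (x : M) : proj r W (c • x) = c • proj r W x := by
  unfold proj
  have h1 : ∀ e, chr W e • r e (c • x) = c • (chr W e • r e x) := by
    intro e
    rw [map_smul, smul_comm]
  rw [sum_congr rfl fun e _ => h1 e, ← Finset.smul_sum, smul_comm]

lemma proj_sum {ι : Type*} (s : Finset ι) (W : Finset (Fin 6)) (x : ι → M) :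
    proj r W (∑ i ∈ s, x i) = ∑ i ∈ s, proj r W (x i) := by
  classical
  induction s using Finset.induction_on with
  | empty => simp [proj]
  | insert a s ha ih => rw [sum_insert ha, sum_insert ha, proj_add, ih]

end Rep

/-- the subgroup defining `X` -/
def SA : Subgroup Sg where
  carrier := {e | e 1 = e 4 ∧ e 4 = e 5 ∧ e 5 = e 0 * e 2 * e 3}
  mul_mem' := by
    rintro a b ⟨h1, h2, h3⟩ ⟨k1, k2, k3⟩
    refine ⟨by simp [h1, k1], by simp [h2, k2], ?_⟩
    simp only [Pi.mul_apply, h3, k3]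
    ac_rfl
  one_mem' := by simp
  inv_mem' := by
    rintro a ⟨h1, h2, h3⟩
    refine ⟨by simp [h1], by simp [h2], ?_⟩
    simp [h3, mul_comm]

/-- the subgroup defining `Y` -/
def SB : Subgroup Sg where
  carrier := {e | e 2 = e 3 ∧ e 0 = e 4 ∧ e 1 = e 5}
  mul_mem' := by
    rintro a b ⟨h1, h2, h3⟩ ⟨k1, k2, k3⟩
    exact ⟨by simp [h1, k1], by simp [h2, k2], by simp [h3, k3]⟩
  one_mem' := by simp
  inv_mem' := by
    rintro a ⟨h1, h2, h3⟩
    exact ⟨by simp [h1], by simp [h2], by simp [h3]⟩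

instance : DecidablePred (· ∈ SA) := fun e =>
  inferInstanceAs (Decidable (e 1 = e 4 ∧ e 4 = e 5 ∧ e 5 = e 0 * e 2 * e 3))

instance : DecidablePred (· ∈ SB) := fun e =>
  inferInstanceAs (Decidable (e 2 = e 3 ∧ e 0 = e 4 ∧ e 1 = e 5))

/-- the characters trivial on `SA` -/
def WA : Fin 8 → Finset (Fin 6) :=
  ![∅, {1, 5}, {0, 2, 3, 4}, univ, {4, 5}, {0, 1, 2, 3}, {1, 4}, {0, 2, 3, 5}]

/-- the characters trivial on `SB` -/
def WB : Fin 8 → Finset (Fin 6) :=
  ![∅, {1, 5}, {0, 2, 3, 4}, univ, {2, 3}, {0, 1, 4, 5}, {0, 4}, {1, 2, 3, 5}]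

lemma WA_inj : Function.Injective WA := by decide
lemma WB_inj : Function.Injective WB := by decide

lemma sumA : ∀ e : Sg, ∑ i, ((∏ j ∈ WA i, e j : ℤˣ) : ℤ) = if e ∈ SA then 8 else 0 := by
  decide +kernel

lemma sumB : ∀ e : Sg, ∑ i, ((∏ j ∈ WB i, e j : ℤˣ) : ℤ) = if e ∈ SB then 8 else 0 := by
  decide +kernel

/-- the sum of the projections for the characters trivial on a subgroup of order eight -/
lemma sum_proj {M : Type*} [AddCommGroup M] [Module ℂ M] (r : Sg →* Module.End ℂ M)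
    (T : Subgroup Sg) [DecidablePred (· ∈ T)] (Wd : Fin 8 → Finset (Fin 6))
    (hs : ∀ e : Sg, ∑ i, ((∏ j ∈ Wd i, e j : ℤˣ) : ℤ) = if e ∈ T then 8 else 0)
    (hc : #(univ.filter (· ∈ T)) = 8) {x : M} (hx : ∀ e ∈ T, r e x = x) :
    ∑ i, proj r (Wd i) x = x := by
  unfold proj
  rw [← Finset.smul_sum, sum_comm]
  have h1 : ∀ e : Sg, ∑ i, chr (Wd i) e • r e x = if e ∈ T then (8 : ℂ) • x else 0 := by
    intro e
    rw [← Finset.sum_smul]
    have h2 : ∑ i, chr (Wd i) e = ((if e ∈ T then 8 else 0 : ℤ) : ℂ) := by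
      rw [← hs e]
      simp [chr]
    rw [h2]
    split_ifs with h
    · rw [hx e h]; norm_num
    · simp
  rw [sum_congr rfl fun e _ => h1 e, ← sum_filter, sum_const, hc, ← Nat.cast_smul_eq_nsmul ℂ,
    smul_smul, smul_smul]
  norm_num

lemma cardA : #(univ.filter (· ∈ SA)) = 8 := by decide +kernel
lemma cardB : #(univ.filter (· ∈ SB)) = 8 := by decide +kernel

end Pool.Agent.R403.IS
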