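import Pool.Agent.R403.IS.Class
import Pool.Agent.R403.IS.Sign

/-!
# Holomorphic 1-forms of `Z_u / H`
-/

set_option autoImplicit false

open scoped Topology
open Matrix Complex Finset

noncomputable section

namespace Pool.Agent.R403.IS

/-- functions on pairs (point, vector) -/
abbrev FF := (Fin 6 → ℂ) → (Fin 6 → ℂ) → ℂ

section Inverse

variable {u' u : ℂ} (g : Mon u' u)

lemma Mon.det_ne (hu' : Adm u') : g.A * g.D - g.B * g.C ≠ 0 := by
  intro h
  have h1 := g.DD_rel 0 1
  rw [h, zero_mul] at h1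
  have h2 : DD u' (g.π 0) (g.π 1) ≠ 0 :=
    DD_ne hu' (fun h => absurd (g.π.injective h) (by decide))
  have h3 := g.ha 0
  have h4 := g.ha 1
  exact (mul_ne_zero (mul_ne_zero (pow_ne_zero 2 h3) (pow_ne_zero 2 h4)) h2) h1

/-- the inverse monomial map -/
def Mon.inv (hu' : Adm u') : Mon u u' where
  π := g.π.symm
  a := fun i => (g.a (g.π.symm i))⁻¹
  A := g.D / (g.A * g.D - g.B * g.C)
  B := -g.B / (g.A * g.D - g.B * g.C)
  C := -g.C / (g.A * g.D - g.B * g.C)
  D := g.A / (g.A * g.D - g.B * g.C)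
  h1 := by
    intro i
    obtain ⟨k, rfl⟩ := g.π.surjective i
    have h0 := g.det_ne hu'
    have h1 := g.h1 k
    have h2 := g.h2 k
    have h3 := g.ha k
    rw [Equiv.symm_apply_apply]
    have key : (al (g.π k) * g.D - be u' (g.π k) * g.C) * g.a k ^ 2 =
        al k * (g.A * g.D - g.B * g.C) := by linear_combination -g.D * h1 + g.C * h2
    have key2 : al (g.π k) * g.D - be u' (g.π k) * g.C =
        (g.a k)⁻¹ ^ 2 * (al k * (g.A * g.D - g.B * g.C)) := by
      rw [← key]; field_simp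
    rw [show al (g.π k) * (g.D / (g.A * g.D - g.B * g.C)) +
      be u' (g.π k) * (-g.C / (g.A * g.D - g.B * g.C)) =
      (al (g.π k) * g.D - be u' (g.π k) * g.C) / (g.A * g.D - g.B * g.C) by ring,
      div_eq_iff h0, key2]
    ring
  h2 := by
    intro i
    obtain ⟨k, rfl⟩ := g.π.surjective i
    have h0 := g.det_ne hu'
    have h1 := g.h1 k
    have h2 := g.h2 k
    have h3 := g.ha k
    rw [Equiv.symm_apply_apply]
    have key : (be u' (g.π k) * g.A - al (g.π k) * g.B) * g.a k ^ 2 =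
        be u k * (g.A * g.D - g.B * g.C) := by linear_combination g.B * h1 - g.A * h2
    have key2 : be u' (g.π k) * g.A - al (g.π k) * g.B =
        (g.a k)⁻¹ ^ 2 * (be u k * (g.A * g.D - g.B * g.C)) := by
      rw [← key]; field_simp
    rw [show al (g.π k) * (-g.B / (g.A * g.D - g.B * g.C)) +
      be u' (g.π k) * (g.A / (g.A * g.D - g.B * g.C)) =
      (be u' (g.π k) * g.A - al (g.π k) * g.B) / (g.A * g.D - g.B * g.C) by ring,
      div_eq_iff h0, key2]
    ring
  ha := fun i => inv_ne_zero (g.ha _)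

lemma Mon.inv_lin (hu' : Adm u') (p : Fin 6 → ℂ) : (g.inv hu').lin (g.lin p) = p := by
  funext i
  have h := g.ha (g.π.symm i)
  simp only [Mon.lin_apply, Mon.inv, Equiv.apply_symm_apply]
  field_simp

lemma Mon.lin_inv (hu' : Adm u') (p : Fin 6 → ℂ) : g.lin ((g.inv hu').lin p) = p := by
  funext i
  have h := g.ha i
  simp only [Mon.lin_apply, Mon.inv, Equiv.symm_apply_apply]
  field_simp

lemma Mon.onZ_iff (hu' : Adm u') {p : Fin 6 → ℂ} : OnZ u (g.lin p) ↔ OnZ u' p :=
  ⟨fun h => by have := (g.inv hu').onZ h; rwa [g.inv_lin] at this, g.onZ⟩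

lemma Mon.tan_iff (hu' : Adm u') {p v : Fin 6 → ℂ} :
    Tan u (g.lin p) (g.lin v) ↔ Tan u' p v :=
  ⟨fun h => by have := (g.inv hu').tan h; rwa [g.inv_lin, g.inv_lin] at this, g.tan⟩

end Inverse

/-- pull back of a form -/
def pull {u' u : ℂ} (g : Mon u' u) (w : FF) : FF := fun p v => w (g.lin p) (g.lin v)

lemma pull_isForm {u' u : ℂ} (g : Mon u' u) (hu' : Adm u') {H H' : Subgroup (GL (Fin 6) ℂ)} {w : FF}
    (hw : (ZD u H).IsForm w)
    (hH : ∀ h' ∈ H', ∃ h ∈ H, ∀ p, g.lin (act h' p) = act h (g.lin p)) :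
    (ZD u' H').IsForm (pull g w) where
  supp := by
    intro p v h
    rw [mem_cone, mem_tangent] at h
    refine hw.supp _ _ ?_
    rwa [mem_cone, mem_tangent, g.onZ_iff hu', g.tan_iff hu']
  add := by
    intro p hp v hv v' hv'
    rw [mem_cone] at hp
    rw [mem_tangent] at hv hv'
    unfold pull
    rw [map_add]
    exact hw.add _ (mem_cone.2 (g.onZ hp)) _ (mem_tangent.2 (g.tan hv)) _
      (mem_tangent.2 (g.tan hv'))
  smul := by
    intro p hp v hv c
    rw [mem_cone] at hp
    rw [mem_tangent] at hv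
    unfold pull
    rw [map_smul]
    exact hw.smul _ (mem_cone.2 (g.onZ hp)) _ (mem_tangent.2 (g.tan hv)) _
  radial := by
    intro p hp
    rw [mem_cone] at hp
    exact hw.radial _ (mem_cone.2 (g.onZ hp))
  scale := by
    intro p hp v hv c hc
    rw [mem_cone] at hp
    rw [mem_tangent] at hv
    unfold pull
    rw [map_smul, map_smul]
    exact hw.scale _ (mem_cone.2 (g.onZ hp)) _ (mem_tangent.2 (g.tan hv)) c hc
  inv := by
    intro h' hh' p hp v hv
    rw [mem_cone] at hp
    rw [mem_tangent] at hv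
    obtain ⟨h, hh, he⟩ := hH h' hh'
    unfold pull
    rw [he, he]
    exact hw.inv h hh _ (mem_cone.2 (g.onZ hp)) _ (mem_tangent.2 (g.tan hv))
  holo := by
    intro U φ hφ
    have h1 := hw.holo U _ (g.arc hφ H)
    refine h1.congr fun t ht => ?_
    unfold pull
    rw [g.deriv_arc hφ ht]

section Coef

variable {u : ℂ} {H : Subgroup (GL (Fin 6) ℂ)} {w : FF}

/-- coefficient function of a form -/
def cf (u : ℂ) (w : FF) (p : Fin 6 → ℂ) : ℂ :=
  w p (chD u p (kk p) (kk p + 1) 0) / eta u p (chD u p (kk p) (kk p + 1) 0)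

lemma form_eq (hu : Adm u) (hw : (ZD u H).IsForm w) {p v : Fin 6 → ℂ} (hp : OnZ u p)
    (hv : Tan u p v) : w p v = cf u w p * eta u p v := by
  have h := kk_good hu hp
  have h1 := h.tan_eq hv
  have h2 : Tan u p (chD u p (kk p) (kk p + 1) 0) := by
    have := h.tan_chD Good.zero_mem_chU
    rwa [Good.ch_zero] at this
  have h3 : eta u p (chD u p (kk p) (kk p + 1) 0) ≠ 0 := by
    have := eta_chD_ne h Good.zero_mem_chU
    rwa [Good.ch_zero] at this
  have hc := (mem_cone (H := H)).2 hp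
  rw [h1, hw.add p hc _ (mem_tangent.2 (hp.tan_self.smul _)) _ (mem_tangent.2 (h2.smul _)),
    hw.smul p hc _ (mem_tangent.2 hp.tan_self), hw.smul p hc _ (mem_tangent.2 h2), hw.radial p hc,
    eta_add hu hp (hp.tan_self.smul _) (h2.smul _), eta_smul hu hp hp.tan_self,
    eta_smul hu hp h2, eta_self hu hp]
  unfold cf
  field_simp
  ring

lemma cf_unique (hu : Adm u) {p : Fin 6 → ℂ} (hp : OnZ u p) {y y' : ℂ}
    (h : ∀ v, Tan u p v → y * eta u p v = y' * eta u p v) : y = y' := by
  have hg := kk_good hu hp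
  have h2 : Tan u p (chD u p (kk p) (kk p + 1) 0) := by
    have := hg.tan_chD Good.zero_mem_chU
    rwa [Good.ch_zero] at this
  have h3 : eta u p (chD u p (kk p) (kk p + 1) 0) ≠ 0 := by
    have := eta_chD_ne hg Good.zero_mem_chU
    rwa [Good.ch_zero] at this
  exact mul_right_cancel₀ h3 (h _ h2)

lemma form_ext (hw : (ZD u H).IsForm w) {w' : FF} (hw' : (ZD u H).IsForm w')
    (h : ∀ p v, OnZ u p → Tan u p v → w p v = w' p v) : w = w' := by
  funext p v
  by_cases hc : OnZ u p ∧ Tan u p v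
  · exact h p v hc.1 hc.2
  · rw [hw.supp p v (by rwa [mem_cone, mem_tangent]), hw'.supp p v (by rwa [mem_cone, mem_tangent])]

/-- `w` has character `W` under sign changes -/
def HasChar (u : ℂ) (w : FF) (W : Finset (Fin 6)) : Prop :=
  ∀ e p v, OnZ u p → Tan u p v → w (sa e p) (sa e v) = chr W e * w p v

lemma sa_e1 (j : Fin 6) (p : Fin 6 → ℂ) : sa (e1 j) p = flip j p := by
  funext i
  unfold sa e1 flip
  by_cases h : i = j
  · subst h; simp
  · simp [Function.update_of_ne h]

lemma eta_sa (hu : Adm u) {p v : Fin 6 → ℂ} (hp : OnZ u p) (hv : Tan u p v) (e : Sg) :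
    eta u (sa e p) (sa e v) = chr univ e * eta u p v := by
  have h := (sMon u e).eta_lin hu hu hp hv
  rw [sMon_lin, sMon_lin] at h
  rw [h]
  congr 1
  have h1 : chr univ e = ∏ i, ((e i : ℤ) : ℂ) := chr_univ e
  have h2 := chr_sq univ e
  have h3 : chr univ e ≠ 0 := fun h0 => by rw [h0] at h2; simp at h2
  unfold Mon.fac sMon
  simp only
  rw [← h1]
  field_simp
  linear_combination -h2

lemma compl_char {W : Finset (Fin 6)} (j : Fin 6) :
    (if j ∈ W then (-1 : ℂ) else 1) * (-1) = if j ∈ univ \ W then -1 else 1 := by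
  by_cases h : j ∈ W <;> simp [h]

lemma cf_fun (hu : Adm u) (hw : (ZD u H).IsForm w) {W : Finset (Fin 6)} (hW : HasChar u w W) :
    Fun u (univ \ W) (cf u w) where
  adm := hu
  scale := by
    intro p hp c hc
    refine cf_unique hu hp fun v hv => ?_
    have h1 := form_eq hu hw (hp.smul hc) (hv.smul_smul c)
    rw [hw.scale p (mem_cone.2 hp) v (mem_tangent.2 hv) c hc, form_eq hu hw hp hv,
      eta_scale hu hp hv hc] at h1
    field_simp at h1
    linear_combination -h1
  holo := by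
    intro p k m h
    have harc := h.isArc H
    have h1 := hw.holo _ _ harc
    have h2 := eta_holo hu harc
    have h3 : ∀ t ∈ chU u p k m, eta u (ch u p k m t) (deriv (ch u p k m) t) ≠ 0 := by
      intro t ht
      rw [h.deriv_ch ht]
      exact eta_chD_ne h ht
    refine (h1.div h2 h3).congr fun t ht => ?_
    have h4 := form_eq hu hw (h.ch_onZ t) (h.tan_chD ht)
    have h5 := h3 t ht
    simp only [Pi.div_apply]
    rw [h.deriv_ch ht] at h5 ⊢
    rw [h4]
    field_simp
  sign := by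
    intro p hp j
    refine cf_unique hu hp fun v hv => ?_
    have h1 := form_eq hu hw (sa_onZ (e1 j) hp) (sa_tan (e1 j) hv)
    rw [hW (e1 j) p v hp hv, form_eq hu hw hp hv, eta_sa hu hp hv, chr_e1, chr_e1, sa_e1] at h1
    rw [← compl_char]
    simp only [mem_univ, if_true] at h1
    linear_combination h1

/-- forms with a character with at most three signs vanish -/
theorem form_zero (hu : Adm u) (hw : (ZD u H).IsForm w) {W : Finset (Fin 6)}
    (hW : HasChar u w W) (hc : #W ≤ 3) : w = 0 := by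
  have h1 := cf_fun hu hw hW
  have h2 : 3 ≤ #(univ \ W) := by
    rw [card_sdiff_of_subset (subset_univ _)]
    simp
    omega
  funext p v
  by_cases h : OnZ u p ∧ Tan u p v
  · rw [form_eq hu hw h.1 h.2, h1.class3 h2 h.1]; simp
  · rw [hw.supp p v (by rwa [mem_cone, mem_tangent])]; rfl

/-- forms with a character with four signs -/
theorem form_four (hu : Adm u) (hw : (ZD u H).IsForm w) {W : Finset (Fin 6)}
    (hW : HasChar u w W) (hc : #W = 4) : ∃ c : ℂ, w = c • Fm u (PS (univ \ W)) := by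
  have h1 := cf_fun hu hw hW
  have h2 : #(univ \ W) = 2 := by
    rw [card_sdiff_of_subset (subset_univ _), hc]
    simp
  obtain ⟨c, hc⟩ := h1.class2 h2
  refine ⟨c, ?_⟩
  funext p v
  by_cases h : OnZ u p ∧ Tan u p v
  · rw [form_eq hu hw h.1 h.2, hc p h.1]
    simp only [Pi.smul_apply, smul_eq_mul, Fm_eq h.1 h.2]
    ring
  · rw [hw.supp p v (by rwa [mem_cone, mem_tangent])]
    simp [Fm, h]

/-- the quadratic functions of the two basic coordinates -/
def QQ (a b : ℂ) (p : Fin 6 → ℂ) : ℂ := a * p 0 ^ 2 + b * p 1 ^ 2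

/-- forms with six signs -/
theorem form_six (hu : Adm u) (hw : (ZD u H).IsForm w) (hW : HasChar u w univ) :
    ∃ a b : ℂ, w = Fm u (QQ a b) := by
  have h1 := cf_fun hu hw hW
  obtain ⟨a, b, hab⟩ := h1.class0 (by simp)
  refine ⟨a, b, ?_⟩
  funext p v
  by_cases h : OnZ u p ∧ Tan u p v
  · rw [form_eq hu hw h.1 h.2, hab p h.1, Fm_eq h.1 h.2]
    rfl
  · rw [hw.supp p v (by rwa [mem_cone, mem_tangent])]
    simp [Fm, h]

/-- construction of forms -/
theorem Fm_isForm (hu : Adm u) {P : (Fin 6 → ℂ) → ℂ} (hP : Differentiable ℂ P)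
    (hP2 : ∀ (c : ℂ) p, P (c • p) = c ^ 2 * P p)
    (hH : ∀ h ∈ H, ∃ e : Sg, h = dg e ∧ ∀ p, P (sa e p) * chr univ e = P p) :
    (ZD u H).IsForm (Fm u P) where
  supp := by
    intro p v h
    rw [mem_cone, mem_tangent] at h
    simp [Fm, h]
  add := by
    intro p hp v hv v' hv'
    rw [mem_cone] at hp
    rw [mem_tangent] at hv hv'
    rw [Fm_eq hp hv, Fm_eq hp hv', Fm_eq hp (hv.add hv'), eta_add hu hp hv hv']
    ring
  smul := by
    intro p hp v hv c
    rw [mem_cone] at hp
    rw [mem_tangent] at hv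
    rw [Fm_eq hp hv, Fm_eq hp (hv.smul c), eta_smul hu hp hv]
    ring
  radial := by
    intro p hp
    rw [mem_cone] at hp
    rw [Fm_eq hp hp.tan_self, eta_self hu hp]
    ring
  scale := by
    intro p hp v hv c hc
    rw [mem_cone] at hp
    rw [mem_tangent] at hv
    rw [Fm_eq hp hv, Fm_eq (hp.smul hc) (hv.smul_smul c), eta_scale hu hp hv hc, hP2]
    field_simp
  inv := by
    intro h hh p hp v hv
    rw [mem_cone] at hp
    rw [mem_tangent] at hv
    obtain ⟨e, rfl, he⟩ := hH h hh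
    rw [act_dg, act_dg, Fm_eq hp hv, Fm_eq (sa_onZ e hp) (sa_tan e hv), eta_sa hu hp hv]
    linear_combination eta u p v * he p
  holo := by
    intro U φ hφ
    have h1 := eta_holo hu hφ
    have h2 : DifferentiableOn ℂ (fun t => P (φ t)) U := hP.comp_differentiableOn hφ.holo
    refine (h2.mul h1).congr fun t ht => ?_
    rw [Fm_eq (mem_cone.1 (hφ.mem t ht)) (arc_tan hφ ht)]
    rfl

end Coef

end Pool.Agent.R403.IS
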