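import Pool.Agent.R403.IS.Chart

/-!
# The hyperbolic metric of `Z_u` is unique (maximum principle)
-/

set_option autoImplicit false

open scoped Topology
open Matrix Complex Laplacian

noncomputable section

namespace Pool.Agent.R403.IS

namespace MU

/-- second derivative test for one variable -/
lemma second_nonpos {φ : ℝ → ℝ} (hc : ContinuousAt φ 0) (hm : IsLocalMax φ 0) :
    deriv (deriv φ) 0 ≤ 0 := by
  by_contra hcon
  push Not at hcon
  have h1 : IsLocalMin φ 0 := isLocalMin_of_deriv_deriv_pos hcon hm.deriv_eq_zero hc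
  have h2 : φ =ᶠ[𝓝 0] fun _ => φ 0 := by
    filter_upwards [h1, hm] with x a b using le_antisymm b a
  have h3 : deriv φ =ᶠ[𝓝 0] deriv (fun _ => φ 0) := h2.deriv
  have h4 := h3.deriv_eq
  rw [h4] at hcon
  simp at hcon

/-- at a local maximum the second derivatives along lines are nonpositive -/
lemma iter_nonpos {F : ℂ → ℝ} (hF : ContDiffAt ℝ 2 F 0) (hm : IsLocalMax F 0) (v : ℂ) :
    iteratedFDeriv ℝ 2 F 0 ![v, v] ≤ 0 := by
  rw [iteratedFDeriv_two_apply]
  simp only [Matrix.cons_val_zero, Matrix.cons_val_one]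
  have hl : ContinuousAt (fun s : ℝ => (s : ℂ) * v) 0 := by fun_prop
  have hl0 : ((0 : ℝ) : ℂ) * v = 0 := by simp
  have hdl : ∀ s : ℝ, HasDerivAt (fun s : ℝ => (s : ℂ) * v) v s := by
    intro s
    have := (Complex.ofRealCLM.hasDerivAt (x := s)).mul_const v
    simpa using this
  have hev : ∀ᶠ s : ℝ in 𝓝 0, ContDiffAt ℝ 2 F ((s : ℂ) * v) := by
    have h1 : ∀ᶠ z in 𝓝 (0 : ℂ), ContDiffAt ℝ 2 F z := hF.eventually (by simp)
    rw [← hl0] at h1
    exact hl.eventually h1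
  have h1 : ∀ᶠ s : ℝ in 𝓝 0, deriv (fun s : ℝ => F ((s : ℂ) * v)) s = fderiv ℝ F ((s : ℂ) * v) v := by
    filter_upwards [hev] with s hs
    have hd : DifferentiableAt ℝ F ((s : ℂ) * v) := hs.differentiableAt (by norm_num)
    exact (hd.hasFDerivAt.comp_hasDerivAt s (hdl s)).deriv
  have h2 : deriv (deriv (fun s : ℝ => F ((s : ℂ) * v))) 0 =
      fderiv ℝ (fderiv ℝ F) 0 v v := by
    have e1 : deriv (fun s : ℝ => F ((s : ℂ) * v)) =ᶠ[𝓝 0]
        fun s => fderiv ℝ F ((s : ℂ) * v) v := h1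
    rw [e1.deriv_eq]
    have hd2 : DifferentiableAt ℝ (fderiv ℝ F) 0 :=
      (hF.fderiv_right (m := 1) (by norm_num)).differentiableAt (by norm_num)
    have hd3 : DifferentiableAt ℝ (fderiv ℝ F) (((0 : ℝ) : ℂ) * v) := by rw [hl0]; exact hd2
    have h3 : HasDerivAt (fun s : ℝ => fderiv ℝ F ((s : ℂ) * v))
        (fderiv ℝ (fderiv ℝ F) (((0 : ℝ) : ℂ) * v) v) 0 :=
      hd3.hasFDerivAt.comp_hasDerivAt (0 : ℝ) (hdl 0)
    have h4 := h3.clm_apply (hasDerivAt_const (0 : ℝ) v)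
    rw [hl0] at h4
    have h5 := h4.deriv
    rw [h5]
    simp
  rw [← h2]
  apply second_nonpos
  · have : ContinuousAt F (((0 : ℝ) : ℂ) * v) := by rw [hl0]; exact hF.continuousAt
    exact ContinuousAt.comp (g := F) this hl
  · have h3 : ∀ᶠ z in 𝓝 (((0 : ℝ) : ℂ) * v), F z ≤ F 0 := by rw [hl0]; exact hm
    have h4 := hl.eventually h3
    filter_upwards [h4] with s hs
    simpa using hs

lemma laplacian_nonpos {F : ℂ → ℝ} (hF : ContDiffAt ℝ 2 F 0) (hm : IsLocalMax F 0) :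
    (Δ F) 0 ≤ 0 := by
  rw [InnerProductSpace.laplacian_eq_iteratedFDeriv_complexPlane]
  exact add_nonpos (iter_nonpos hF hm 1) (iter_nonpos hF hm I)

variable {u : ℂ}

/-- difference of the logarithms -/
def LL (ρ ρ' : (Fin 6 → ℂ) → (Fin 6 → ℂ) → ℝ) (p v : Fin 6 → ℂ) : ℝ :=
  Real.log (ρ p v) - Real.log (ρ' p v)

/-- nonradial tangent vectors -/
def NT (u : ℂ) (p v : Fin 6 → ℂ) : Prop := Tan u p v ∧ ∀ c : ℂ, v ≠ c • p

lemma nt_ch {p : Fin 6 → ℂ} {k m : Fin 6} (h : Good u p k m) {t : ℂ} (ht : t ∈ chU u p k m) :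
    NT u (ch u p k m t) (deriv (ch u p k m) t) := by
  refine ⟨?_, (h.isArc ⊥).immersed t ht⟩
  rw [h.deriv_ch ht]
  exact h.tan_chD ht

lemma nt_smul {p v : Fin 6 → ℂ} (h : NT u p v) {c : ℂ} (hc : c ≠ 0) : NT u (c • p) (c • v) := by
  refine ⟨h.1.smul_smul c, fun d hd => h.2 d ?_⟩
  rw [smul_comm] at hd
  exact smul_right_injective _ hc hd

section
variable {ρ ρ' : (Fin 6 → ℂ) → (Fin 6 → ℂ) → ℝ}
variable (h : (ZD u ⊥).IsHypMetric ρ) (h' : (ZD u ⊥).IsHypMetric ρ')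

include h in
lemma rho_pos {p v : Fin 6 → ℂ} (hp : OnZ u p) (hv : NT u p v) : 0 < ρ p v :=
  h.pos p (mem_cone.2 hp) v (mem_tangent.2 hv.1) hv.2

include h in
lemma rho_eq {p v : Fin 6 → ℂ} {k m : Fin 6} (hg : Good u p k m) (hv : NT u p v) :
    ρ p v = ‖v k - v m / p m * p k‖ * ρ p (deriv (ch u p k m) 0) ∧
      v k - v m / p m * p k ≠ 0 := by
  have h0 := Good.zero_mem_chU (u := u) (p := p) (k := k) (m := m)
  have e1 := hg.tan_eq hv.1
  have hw := nt_ch hg h0
  rw [Good.ch_zero] at hw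
  rw [hg.deriv_ch h0] at hw ⊢
  set b : ℂ := v k - v m / p m * p k with hb
  have hp := mem_cone (u := u) (H := ⊥).2 hg.on
  constructor
  · have e2 : ρ p (b • chD u p k m 0 + (v m / p m) • p) = ρ p (b • chD u p k m 0) :=
      h.radial p hp _ (mem_tangent.2 (hw.1.smul b)) _
    rw [h.smul p hp _ (mem_tangent.2 hw.1) b, add_comm, ← e1] at e2
    exact e2
  · intro hb0
    rw [hb0, zero_smul, add_zero] at e1
    exact hv.2 _ e1

include h h' in
lemma LL_ind {p v w : Fin 6 → ℂ} (hu : Adm u) (hp : OnZ u p) (hv : NT u p v) (hw : NT u p w) :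
    LL ρ ρ' p v = LL ρ ρ' p w := by
  obtain ⟨k, m, hg⟩ := hp.exists_good hu
  have h0 := Good.zero_mem_chU (u := u) (p := p) (k := k) (m := m)
  have key : ∀ v, NT u p v → LL ρ ρ' p v = LL ρ ρ' p (deriv (ch u p k m) 0) := by
    intro v hv
    obtain ⟨e1, e2⟩ := rho_eq h hg hv
    obtain ⟨e3, -⟩ := rho_eq h' hg hv
    have hw := nt_ch hg h0
    rw [Good.ch_zero] at hw
    have p1 := rho_pos h hp hw
    have p2 := rho_pos h' hp hw
    unfold LL
    rw [e1, e3, Real.log_mul (norm_ne_zero_iff.2 e2) p1.ne',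
      Real.log_mul (norm_ne_zero_iff.2 e2) p2.ne']
    ring
  rw [key v hv, key w hw]

include h h' in
lemma LL_scale {p v : Fin 6 → ℂ} (hp : OnZ u p) (hv : Tan u p v) {c : ℂ} (hc : c ≠ 0) :
    LL ρ ρ' (c • p) (c • v) = LL ρ ρ' p v := by
  unfold LL
  rw [h.scale p (mem_cone.2 hp) v (mem_tangent.2 hv) c hc,
    h'.scale p (mem_cone.2 hp) v (mem_tangent.2 hv) c hc]

include h h' in
theorem le_main (hu : Adm u) {p v : Fin 6 → ℂ} (hp : OnZ u p) (hv : NT u p v) :
    ρ p v ≤ ρ' p v := by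
  -- choose nonradial tangent vectors
  have hex : ∀ p, OnZ u p → ∃ v, NT u p v := by
    intro p hp
    obtain ⟨k, m, hg⟩ := hp.exists_good hu
    have h0 := Good.zero_mem_chU (u := u) (p := p) (k := k) (m := m)
    have hw := nt_ch hg h0
    rw [Good.ch_zero] at hw
    exact ⟨_, hw⟩
  choose! w hw using hex
  set Q : (Fin 6 → ℂ) → ℝ := fun p => LL ρ ρ' p (w p) with hQ
  have hQv : ∀ p, OnZ u p → ∀ v, NT u p v → LL ρ ρ' p v = Q p := by
    intro p hp v hv
    exact LL_ind h h' hu hp hv (hw p hp)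
  have hQs : ∀ p, OnZ u p → ∀ c : ℂ, c ≠ 0 → Q (c • p) = Q p := by
    intro p hp c hc
    rw [← hQv (c • p) (hp.smul hc) (c • w p) (nt_smul (hw p hp) hc)]
    exact LL_scale h h' hp (hw p hp).1 hc
  -- in the charts
  have hch : ∀ p k m, Good u p k m → ∀ t ∈ chU u p k m,
      Q (ch u p k m t) = LL ρ ρ' (ch u p k m t) (deriv (ch u p k m) t) := by
    intro p k m hg t ht
    exact (hQv _ (hg.ch_onZ t) _ (nt_ch hg ht)).symm
  have hnb : ∀ p k m, Good u p k m → ∀ q, OnZ u q → q ∈ nb p k m →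
      Q q = LL ρ ρ' (ch u p k m (par p k m q)) (deriv (ch u p k m) (par p k m q)) := by
    intro p k m hg q hq hqn
    obtain ⟨c1, c2⟩ := hg.cover hq hqn
    rw [← hch p k m hg _ c1, c2, hQs q hq _ (div_ne_zero hg.pm hqn.1)]
  have hcont : ∀ p, OnZ u p → ContinuousWithinAt Q {q | OnZ u q} p := by
    intro p hp
    obtain ⟨k, m, hg⟩ := hp.exists_good hu
    have h0 := Good.zero_mem_chU (u := u) (p := p) (k := k) (m := m)
    have s1 := (h.smooth _ _ (hg.isArc ⊥)).continuousOn.continuousAt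
      (Good.isOpen_chU.mem_nhds h0)
    have s2 := (h'.smooth _ _ (hg.isArc ⊥)).continuousOn.continuousAt
      (Good.isOpen_chU.mem_nhds h0)
    have s3 : ContinuousAt (fun t => LL ρ ρ' (ch u p k m t) (deriv (ch u p k m) t)) 0 :=
      s1.sub s2
    have hpar : ContinuousAt (par p k m) p := by
      unfold par
      have c1 : ContinuousAt (fun r : Fin 6 → ℂ => r m) p := (continuous_apply m).continuousAt
      have c2 : ContinuousAt (fun r : Fin 6 → ℂ => r k) p := (continuous_apply k).continuousAt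
      exact ((continuousAt_const.div c1 hg.pm).mul c2).sub continuousAt_const
    have hpar0 : par p k m p = 0 := by
      unfold par
      rw [div_self hg.pm]
      ring
    have s4 : ContinuousAt (fun q => LL ρ ρ' (ch u p k m (par p k m q))
        (deriv (ch u p k m) (par p k m q))) p := by
      have s3' : ContinuousAt (fun t => LL ρ ρ' (ch u p k m t) (deriv (ch u p k m) t))
          (par p k m p) := by rw [hpar0]; exact s3
      exact ContinuousAt.comp (g := fun t => LL ρ ρ' (ch u p k m t) (deriv (ch u p k m) t)) s3' hpar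
    refine s4.continuousWithinAt.congr_of_eventuallyEq ?_ (hnb p k m hg p hp hg.mem_nb)
    have : nb p k m ∈ 𝓝[{q | OnZ u q}] p := nhdsWithin_le_nhds (Good.nb_nhds hg.mem_nb)
    filter_upwards [this, self_mem_nhdsWithin] with q hq hon
    exact hnb p k m hg q hon hq
  -- compactness
  set K : Set (Fin 6 → ℂ) := {p | OnZ u p ∧ ‖p‖ = 1} with hK
  have hKc : IsCompact K := by
    apply Metric.isCompact_of_isClosed_isBounded
    · have : K = {p : Fin 6 → ℂ | (∀ j, p j ^ 2 = al j * p 0 ^ 2 + be u j * p 1 ^ 2)} ∩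
          {p | ‖p‖ = 1} := by
        ext p
        simp only [hK, OnZ, Set.mem_inter_iff, Set.mem_ofPred_eq]
        constructor
        · rintro ⟨⟨a, b⟩, c⟩
          exact ⟨b, c⟩
        · rintro ⟨b, c⟩
          refine ⟨⟨?_, b⟩, c⟩
          rintro rfl
          simp at c
      rw [this]
      refine IsClosed.inter ?_ ?_
      · have : {p : Fin 6 → ℂ | (∀ j, p j ^ 2 = al j * p 0 ^ 2 + be u j * p 1 ^ 2)} =
            ⋂ j, {p : Fin 6 → ℂ | p j ^ 2 = al j * p 0 ^ 2 + be u j * p 1 ^ 2} := by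
          ext p; simp
        rw [this]
        refine isClosed_iInter fun j => isClosed_eq (by fun_prop) (by fun_prop)
      · exact isClosed_eq continuous_norm continuous_const
    · refine (Metric.isBounded_sphere (x := (0 : Fin 6 → ℂ)) (r := 1)).subset ?_
      intro p hp
      simpa using hp.2
  have hnorm : ∀ p, OnZ u p → (((‖p‖⁻¹ : ℝ) : ℂ)) • p ∈ K ∧ (((‖p‖⁻¹ : ℝ) : ℂ)) ≠ 0 := by
    intro p hp
    have h1 : 0 < ‖p‖ := norm_pos_iff.2 hp.1
    have h2 : (((‖p‖⁻¹ : ℝ) : ℂ)) ≠ 0 := by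
      rw [Complex.ofReal_ne_zero]
      positivity
    refine ⟨⟨hp.smul h2, ?_⟩, h2⟩
    rw [norm_smul, Complex.norm_real, norm_inv, norm_norm]
    exact inv_mul_cancel₀ h1.ne'
  have hKn : K.Nonempty := ⟨_, (hnorm p hp).1⟩
  have hQc : ContinuousOn Q K := fun q hq => (hcont q hq.1).mono fun r hr => hr.1
  obtain ⟨p₀, hp₀, hmax⟩ := hKc.exists_isMaxOn hKn hQc
  have hmax' : ∀ q, OnZ u q → Q q ≤ Q p₀ := by
    intro q hq
    have h1 := hmax (hnorm q hq).1
    have h2 := hQs q hq _ (hnorm q hq).2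
    simp only [Set.mem_ofPred_eq] at h1
    rw [h2] at h1
    exact h1
  -- at the maximum
  obtain ⟨k, m, hg⟩ := hp₀.1.exists_good hu
  have h0 := Good.zero_mem_chU (u := u) (p := p₀) (k := k) (m := m)
  have hU : chU u p₀ k m ∈ 𝓝 (0 : ℂ) := Good.isOpen_chU.mem_nhds h0
  have hch0 : ch u p₀ k m 0 = p₀ := Good.ch_zero
  set f : ℂ → ℝ := fun t => Real.log (ρ (ch u p₀ k m t) (deriv (ch u p₀ k m) t)) with hf
  set f' : ℂ → ℝ := fun t => Real.log (ρ' (ch u p₀ k m t) (deriv (ch u p₀ k m) t)) with hf'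
  have hfs : ContDiffAt ℝ 2 f 0 :=
    ((h.smooth _ _ (hg.isArc ⊥)).contDiffAt hU).of_le two_le_top
  have hfs' : ContDiffAt ℝ 2 f' 0 :=
    ((h'.smooth _ _ (hg.isArc ⊥)).contDiffAt hU).of_le two_le_top
  have hlm : IsLocalMax (f - f') 0 := by
    have : ∀ᶠ t in 𝓝 (0 : ℂ), (f - f') t ≤ (f - f') 0 := by
      filter_upwards [hU] with t ht
      have e1 : (f - f') t = Q (ch u p₀ k m t) := by
        rw [hch p₀ k m hg t ht]; rfl
      have e2 : (f - f') 0 = Q (ch u p₀ k m 0) := by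
        rw [hch p₀ k m hg 0 h0]; rfl
      rw [e1, e2, hch0]
      exact hmax' _ (hg.ch_onZ t)
    exact this
  have hlap : (Δ (f - f')) 0 ≤ 0 := laplacian_nonpos (hfs.sub hfs') hlm
  rw [hfs.laplacian_sub hfs', h.curvature _ _ (hg.isArc ⊥) 0 h0,
    h'.curvature _ _ (hg.isArc ⊥) 0 h0] at hlap
  have hnt := nt_ch hg h0
  have q1 := rho_pos h (hg.ch_onZ 0) hnt
  have q2 := rho_pos h' (hg.ch_onZ 0) hnt
  have hle : ρ (ch u p₀ k m 0) (deriv (ch u p₀ k m) 0) ≤
      ρ' (ch u p₀ k m 0) (deriv (ch u p₀ k m) 0) := by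
    nlinarith
  have hQ0 : Q p₀ ≤ 0 := by
    have := hch p₀ k m hg 0 h0
    rw [hch0] at this
    rw [this]
    rw [hch0] at hle q1 q2
    unfold LL
    have := Real.log_le_log q1 hle
    linarith
  have hQp : LL ρ ρ' p v ≤ 0 := by
    rw [hQv p hp v hv]
    exact (hmax' p hp).trans hQ0
  have r1 := rho_pos h hp hv
  have r2 := rho_pos h' hp hv
  unfold LL at hQp
  exact (Real.log_le_log_iff r1 r2).1 (by linarith)

end

end MU

open MU in
/-- TASK D -/
theorem metric_unique {u : ℂ} (hu : Adm u) {ρ ρ' : (Fin 6 → ℂ) → (Fin 6 → ℂ) → ℝ}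
    (h : (ZD u ⊥).IsHypMetric ρ) (h' : (ZD u ⊥).IsHypMetric ρ') {p v : Fin 6 → ℂ}
    (hp : OnZ u p) (hv : Tan u p v) : ρ p v = ρ' p v := by
  by_cases hr : ∀ c : ℂ, v ≠ c • p
  · exact le_antisymm (le_main h h' hu hp ⟨hv, hr⟩) (le_main h' h hu hp ⟨hv, hr⟩)
  · push Not at hr
    obtain ⟨c, rfl⟩ := hr
    have key : ∀ σ : (Fin 6 → ℂ) → (Fin 6 → ℂ) → ℝ, (ZD u ⊥).IsHypMetric σ →
        σ p (c • p) = 0 := by
      intro σ hσ
      have hz : Tan u p 0 := by
        intro j; simp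
      have e1 := hσ.radial p (mem_cone.2 hp) 0 (mem_tangent.2 hz) c
      have e2 := hσ.smul p (mem_cone.2 hp) 0 (mem_tangent.2 hz) 0
      rw [zero_add] at e1
      rw [e1]
      simpa using e2
    rw [key ρ h, key ρ' h']

end Pool.Agent.R403.IS
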