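import Pool.Agent.R403.IS.XSide
import Pool.Agent.R403.IS.MetricUnique

/-!
# `X_u` and `Y_u` are isospectral for `|u| = 1`
-/

set_option autoImplicit false

open scoped Topology ComplexConjugate
open Matrix Complex Finset Laplacian

noncomputable section

namespace Pool.Agent.R403.IS

/-- metrics as functions -/
abbrev MM := (Fin 6 → ℂ) → (Fin 6 → ℂ) → ℝ

/-- the Laplacian commutes with complex conjugation -/
lemma laplacian_conj {F : Type*} [NormedAddCommGroup F] [NormedSpace ℝ F] (f : ℂ → F) (t : ℂ) :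
    (Δ (fun t => f (conj t))) t = (Δ f) (conj t) := by
  rw [InnerProductSpace.laplacian_eq_iteratedFDeriv_complexPlane,
    InnerProductSpace.laplacian_eq_iteratedFDeriv_complexPlane]
  have h1 : iteratedFDeriv ℝ 2 (fun t => f (conj t)) t =
      (iteratedFDeriv ℝ 2 f (conj t)).compContinuousLinearMap
        fun _ => ((conjCLE : ℂ ≃L[ℝ] ℂ) : ℂ →L[ℝ] ℂ) := by
    have := ContinuousLinearEquiv.iteratedFDerivWithin_comp_right (conjCLE : ℂ ≃L[ℝ] ℂ) f
      (s := Set.univ) uniqueDiffOn_univ (x := t) (Set.mem_univ _) 2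
    simp only [Set.preimage_univ, iteratedFDerivWithin_univ] at this
    exact this
  simp only [h1, ContinuousMultilinearMap.compContinuousLinearMap_apply]
  congr 1
  · congr 1
    funext i
    fin_cases i <;> simp
  · have h2 : (fun i : Fin 2 => ((conjCLE : ℂ ≃L[ℝ] ℂ) : ℂ →L[ℝ] ℂ) (![I, I] i)) =
        fun i => (-1 : ℝ) • (![I, I] : Fin 2 → ℂ) i := by
      funext i
      fin_cases i <;> simp
    rw [h2, ContinuousMultilinearMap.map_smul_univ]
    simp

section basic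

variable {u : ℂ} {H H' : Subgroup (GL (Fin 6) ℂ)}

lemma arc_change {U : Set ℂ} {φ : ℂ → Fin 6 → ℂ} (h : (ZD u H).IsArc U φ) :
    (ZD u H').IsArc U φ where
  isOpen := h.isOpen
  holo := h.holo
  mem := h.mem
  immersed := h.immersed

lemma metric_bot {ρ : MM} (h : (ZD u H).IsHypMetric ρ) : (ZD u ⊥).IsHypMetric ρ where
  pos := h.pos
  smul := h.smul
  radial := h.radial
  scale := h.scale
  inv := by
    intro g hg p _ v _
    rw [Subgroup.mem_bot.1 hg]
    simp [act]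
  smooth := fun U φ hφ => h.smooth U φ (arc_change hφ)
  curvature := fun U φ hφ => h.curvature U φ (arc_change hφ)

end basic

section mon

variable {u' u : ℂ} (g : Mon u' u)

lemma metric_pull {ρ : MM} (h : (ZD u ⊥).IsHypMetric ρ) :
    (ZD u' ⊥).IsHypMetric (fun p v => ρ (g.lin p) (g.lin v)) where
  pos := by
    intro p hp v hv hne
    refine h.pos _ (mem_cone.2 (g.onZ (mem_cone.1 hp))) _ (mem_tangent.2 (g.tan (mem_tangent.1 hv)))
      fun c hc => ?_
    rw [← map_smul] at hc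
    exact hne c (g.lin_inj hc)
  smul := by
    intro p hp v hv c
    simp only [map_smul]
    exact h.smul _ (mem_cone.2 (g.onZ (mem_cone.1 hp))) _
      (mem_tangent.2 (g.tan (mem_tangent.1 hv))) c
  radial := by
    intro p hp v hv c
    simp only [map_add, map_smul]
    exact h.radial _ (mem_cone.2 (g.onZ (mem_cone.1 hp))) _
      (mem_tangent.2 (g.tan (mem_tangent.1 hv))) c
  scale := by
    intro p hp v hv c hc
    simp only [map_smul]
    exact h.scale _ (mem_cone.2 (g.onZ (mem_cone.1 hp))) _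
      (mem_tangent.2 (g.tan (mem_tangent.1 hv))) c hc
  inv := by
    intro g' hg p _ v _
    rw [Subgroup.mem_bot.1 hg]
    simp [act]
  smooth := by
    intro U φ hφ
    refine (h.smooth U _ (g.arc hφ ⊥)).congr fun t ht => ?_
    rw [g.deriv_arc hφ ht]
  curvature := by
    intro U φ hφ t ht
    have h1 := h.curvature U _ (g.arc hφ ⊥) t ht
    rw [g.deriv_arc hφ ht] at h1
    rw [← h1]
    refine Filter.EventuallyEq.eq_of_nhds (InnerProductSpace.laplacian_congr_nhds ?_)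
    filter_upwards [hφ.isOpen.mem_nhds ht] with s hs
    rw [g.deriv_arc hφ hs]

lemma eig_pull {ρ : MM} {lam : ℝ} {f : (Fin 6 → ℂ) → ℂ} (hu' : Adm u')
    (h : (ZD u ⊥).IsEigenfunction ρ lam f) :
    (ZD u' ⊥).IsEigenfunction (fun p v => ρ (g.lin p) (g.lin v)) lam (fun p => f (g.lin p)) where
  supp := by
    intro p hp
    refine h.supp _ fun hc => hp ?_
    rw [mem_cone] at hc ⊢
    exact (g.onZ_iff hu').1 hc
  scale := by
    intro p hp c hc
    simp only [map_smul]
    exact h.scale _ (mem_cone.2 (g.onZ (mem_cone.1 hp))) c hc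
  inv := by
    intro g' hg p _
    rw [Subgroup.mem_bot.1 hg]
    simp [act]
  smooth := fun U φ hφ => h.smooth U _ (g.arc hφ ⊥)
  eqn := by
    intro U φ hφ t ht
    have h1 := h.eqn U _ (g.arc hφ ⊥) t ht
    rw [g.deriv_arc hφ ht] at h1
    exact h1

end mon

section conjugation

variable {u : ℂ}

/-- complex conjugation of vectors -/
def cj (p : Fin 6 → ℂ) : Fin 6 → ℂ := fun i => conj (p i)

lemma cj_cj (p : Fin 6 → ℂ) : cj (cj p) = p := by
  funext i; simp [cj]

lemma cj_onZ {p : Fin 6 → ℂ} (hp : OnZ u p) : OnZ (conj u) (cj p) := by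
  refine ⟨fun h => hp.1 ?_, fun j => ?_⟩
  · funext i
    have := congrFun h i
    simpa [cj] using this
  · have h1 := congrArg conj (hp.2 j)
    simp only [map_pow, map_add, map_mul] at h1
    simp only [cj]
    rw [h1]
    congr 2
    · fin_cases j <;> simp [al]
    · fin_cases j <;> simp [be]

lemma cj_tan {p v : Fin 6 → ℂ} (hv : Tan u p v) : Tan (conj u) (cj p) (cj v) := by
  intro j
  have h1 := congrArg conj (hv j)
  simp only [map_add, map_mul] at h1
  simp only [cj]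
  rw [h1]
  congr 2
  · fin_cases j <;> simp [al]
  · fin_cases j <;> simp [be]

lemma cj_onZ_iff {p : Fin 6 → ℂ} : OnZ (conj u) (cj p) ↔ OnZ u p :=
  ⟨fun h => by have := cj_onZ h; rwa [conj_conj, cj_cj] at this, cj_onZ⟩

lemma cj_smul (c : ℂ) (p : Fin 6 → ℂ) : cj (c • p) = conj c • cj p := by
  funext i; simp [cj]

lemma cj_add (p q : Fin 6 → ℂ) : cj (p + q) = cj p + cj q := by
  funext i; simp [cj]

lemma cj_hasDerivAt {φ : ℂ → Fin 6 → ℂ} {φ' : Fin 6 → ℂ} {t : ℂ}
    (h : HasDerivAt φ φ' (conj t)) : HasDerivAt (fun t => cj (φ (conj t))) (cj φ') t := by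
  rw [hasDerivAt_pi]
  intro i
  have h1 := hasDerivAt_pi.1 h i
  have h2 := h1.conj_conj
  simp only [conj_conj] at h2
  exact h2

/-- the conjugate arc -/
lemma cj_arc {U : Set ℂ} {φ : ℂ → Fin 6 → ℂ} (h : (ZD u ⊥).IsArc U φ) :
    (ZD (conj u) ⊥).IsArc (conj ⁻¹' U) (fun t => cj (φ (conj t))) ∧
      ∀ t ∈ conj ⁻¹' U, deriv (fun t => cj (φ (conj t))) t = cj (deriv φ (conj t)) := by
  have hd : ∀ t ∈ conj ⁻¹' U, HasDerivAt (fun t => cj (φ (conj t))) (cj (deriv φ (conj t))) t := by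
    intro t ht
    exact cj_hasDerivAt ((h.holo _ ht).differentiableAt (h.isOpen.mem_nhds ht)).hasDerivAt
  refine ⟨⟨h.isOpen.preimage continuous_conj, fun t ht => (hd t ht).differentiableAt.differentiableWithinAt,
    fun t ht => mem_cone.2 (cj_onZ (mem_cone.1 (h.mem _ ht))), ?_⟩, fun t ht => (hd t ht).deriv⟩
  intro t ht c hc
  rw [(hd t ht).deriv] at hc
  have h1 := congrArg cj hc
  rw [cj_smul, cj_cj, cj_cj] at h1
  exact h.immersed _ ht _ h1

lemma metric_cj {ρ : MM} (h : (ZD (conj u) ⊥).IsHypMetric ρ) :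
    (ZD u ⊥).IsHypMetric (fun p v => ρ (cj p) (cj v)) where
  pos := by
    intro p hp v hv hne
    refine h.pos _ (mem_cone.2 (cj_onZ (mem_cone.1 hp))) _
      (mem_tangent.2 (cj_tan (mem_tangent.1 hv))) fun c hc => ?_
    have h1 := congrArg cj hc
    rw [cj_smul, cj_cj, cj_cj] at h1
    exact hne _ h1
  smul := by
    intro p hp v hv c
    rw [cj_smul, h.smul _ (mem_cone.2 (cj_onZ (mem_cone.1 hp))) _
      (mem_tangent.2 (cj_tan (mem_tangent.1 hv)))]
    simp
  radial := by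
    intro p hp v hv c
    rw [cj_add, cj_smul, h.radial _ (mem_cone.2 (cj_onZ (mem_cone.1 hp))) _
      (mem_tangent.2 (cj_tan (mem_tangent.1 hv)))]
  scale := by
    intro p hp v hv c hc
    rw [cj_smul, cj_smul, h.scale _ (mem_cone.2 (cj_onZ (mem_cone.1 hp))) _
      (mem_tangent.2 (cj_tan (mem_tangent.1 hv))) _ (by simpa using hc)]
  inv := by
    intro g' hg p _ v _
    rw [Subgroup.mem_bot.1 hg]
    simp [act]
  smooth := by
    intro U φ hφ
    obtain ⟨ha, hd⟩ := cj_arc hφ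
    have h1 := h.smooth _ _ ha
    have h2 : ContDiffOn ℝ (⊤ : ℕ∞) (fun t : ℂ => (conj t : ℂ)) U :=
      (conjCLE : ℂ ≃L[ℝ] ℂ).contDiff.contDiffOn
    have h3 := h1.comp h2 (fun t ht => by simpa using ht)
    refine h3.congr fun t ht => ?_
    simp only [Function.comp_apply]
    rw [hd (conj t) (by simpa using ht)]
    simp
  curvature := by
    intro U φ hφ t ht
    obtain ⟨ha, hd⟩ := cj_arc hφ
    have ht' : conj t ∈ conj ⁻¹' U := by simpa using ht
    have h1 := h.curvature _ _ ha (conj t) ht'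
    rw [← laplacian_conj] at h1
    rw [hd _ ht', conj_conj] at h1
    rw [← h1]
    refine Filter.EventuallyEq.eq_of_nhds (InnerProductSpace.laplacian_congr_nhds ?_)
    filter_upwards [hφ.isOpen.mem_nhds ht] with s hs
    rw [hd (conj s) (by simpa using hs), conj_conj]

lemma eig_cj {ρ : MM} {lam : ℝ} {f : (Fin 6 → ℂ) → ℂ}
    (h : (ZD (conj u) ⊥).IsEigenfunction ρ lam f) :
    (ZD u ⊥).IsEigenfunction (fun p v => ρ (cj p) (cj v)) lam (fun p => f (cj p)) where
  supp := by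
    intro p hp
    refine h.supp _ fun hc => hp ?_
    rw [mem_cone] at hc ⊢
    exact cj_onZ_iff.1 hc
  scale := by
    intro p hp c hc
    rw [cj_smul]
    exact h.scale _ (mem_cone.2 (cj_onZ (mem_cone.1 hp))) _ (by simpa using hc)
  inv := by
    intro g' hg p _
    rw [Subgroup.mem_bot.1 hg]
    simp [act]
  smooth := by
    intro U φ hφ
    obtain ⟨ha, hd⟩ := cj_arc hφ
    have h1 := h.smooth _ _ ha
    have h2 : ContDiffOn ℝ (⊤ : ℕ∞) (fun t : ℂ => (conj t : ℂ)) U :=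
      (conjCLE : ℂ ≃L[ℝ] ℂ).contDiff.contDiffOn
    have h3 := h1.comp h2 (fun t ht => by simpa using ht)
    refine h3.congr fun t ht => ?_
    simp
  eqn := by
    intro U φ hφ t ht
    obtain ⟨ha, hd⟩ := cj_arc hφ
    have ht' : conj t ∈ conj ⁻¹' U := by simpa using ht
    have h1 := h.eqn _ _ ha (conj t) ht'
    rw [← laplacian_conj, hd _ ht'] at h1
    simp only [conj_conj] at h1
    exact h1

end conjugation

section symmetries

variable {u r : ℂ}

/-- the holomorphic symmetry -/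
def mu (hr : r ^ 2 = u) (hr0 : r ≠ 0) : Mon u u where
  π := Equiv.swap 0 1 * (Equiv.swap 2 4 * Equiv.swap 3 5)
  a := ![r, 1, I, 1, I * r, r]
  A := 0
  B := u
  C := 1
  D := 0
  h1 := by
    rw [forall_fin6]
    refine ⟨?_, ?_, ?_, ?_, ?_, ?_⟩ <;> simp [al, be, Equiv.swap_apply_def, hr, mul_pow]
  h2 := by
    rw [forall_fin6]
    refine ⟨?_, ?_, ?_, ?_, ?_, ?_⟩ <;> simp [al, be, Equiv.swap_apply_def, hr, mul_pow]
  ha := by
    rw [forall_fin6]
    simp [hr0]

/-- the holomorphic part of the antiholomorphic symmetry -/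
def xiM (hr : r ^ 2 = u) (hr0 : r ≠ 0) (hu : u * conj u = 1) : Mon (conj u) u where
  π := Equiv.swap 0 1
  a := ![1, 1, I, 1, I * r, r]
  A := 0
  B := 1
  C := 1
  D := 0
  h1 := by
    rw [forall_fin6]
    refine ⟨?_, ?_, ?_, ?_, ?_, ?_⟩ <;> simp [al, be, Equiv.swap_apply_def, hr, mul_pow]
  h2 := by
    rw [forall_fin6]
    refine ⟨?_, ?_, ?_, ?_, ?_, ?_⟩ <;> simp [al, be, Equiv.swap_apply_def, hr, mul_pow, hu]
  ha := by
    rw [forall_fin6]
    simp [hr0]

/-- the antiholomorphic symmetry -/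
def xi (hr : r ^ 2 = u) (hr0 : r ≠ 0) (hu : u * conj u = 1) (p : Fin 6 → ℂ) : Fin 6 → ℂ :=
  (xiM hr hr0 hu).lin (cj p)

lemma xi_xi (hr : r ^ 2 = u) (hr0 : r ≠ 0) (hu : u * conj u = 1) (hrr : r * conj r = 1)
    (p : Fin 6 → ℂ) : xi hr hr0 hu (xi hr hr0 hu p) = p := by
  funext i
  revert i
  rw [forall_fin6]
  have h1 : I * r * (-(I * (conj r))) = 1 := by
    linear_combination -(r * conj r) * I_mul_I + hrr
  refine ⟨?_, ?_, ?_, ?_, ?_, ?_⟩
  · simp [xi, xiM, Mon.lin, cj, Equiv.swap_apply_def]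
  · simp [xi, xiM, Mon.lin, cj, Equiv.swap_apply_def]
  · simp [xi, xiM, Mon.lin, cj, Equiv.swap_apply_def, ← mul_assoc]
  · simp [xi, xiM, Mon.lin, cj, Equiv.swap_apply_def]
  · simp [xi, xiM, Mon.lin, cj, Equiv.swap_apply_def]
    linear_combination p 4 * h1
  · simp [xi, xiM, Mon.lin, cj, Equiv.swap_apply_def]
    linear_combination p 5 * hrr

lemma xi_sa (hr : r ^ 2 = u) (hr0 : r ≠ 0) (hu : u * conj u = 1) (e : Sg) (p : Fin 6 → ℂ) :
    xi hr hr0 hu (sa e p) = sa (sp (Equiv.swap 0 1) e) (xi hr hr0 hu p) := by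
  have h1 : cj (sa e p) = sa e (cj p) := by
    funext i
    simp [cj, sa]
  unfold xi
  rw [h1, lin_sa]
  rfl

lemma mu_inv_sa (hr : r ^ 2 = u) (hr0 : r ≠ 0) (hu : Adm u) (e : Sg) (p : Fin 6 → ℂ) :
    ((mu hr hr0).inv hu).lin (sa e p) = sa (sp (mu hr hr0).π e) (((mu hr hr0).inv hu).lin p) := by
  rw [lin_sa]
  congr 1
  funext i
  unfold sp
  congr 1
  revert i
  change ∀ i, (Equiv.swap 0 1 * (Equiv.swap 2 4 * Equiv.swap 3 5) : Equiv.Perm (Fin 6)).symm i =
    (Equiv.swap 0 1 * (Equiv.swap 2 4 * Equiv.swap 3 5) : Equiv.Perm (Fin 6)) i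
  decide

end symmetries

section eigen

variable {u : ℂ}

/-- functions of the point -/
abbrev Fn := (Fin 6 → ℂ) → ℂ

/-- sign changes acting on functions -/
def rE : Sg →* Module.End ℂ Fn where
  toFun e :=
    { toFun := fun f p => f (sa e p)
      map_add' := fun _ _ => rfl
      map_smul' := fun _ _ => rfl }
  map_one' := by
    ext f p
    simp [sa_one]
  map_mul' a b := by
    ext f p
    simp [mul_comm a b, sa_mul]

lemma rE_apply (e : Sg) (f : Fn) (p : Fin 6 → ℂ) : rE e f p = f (sa e p) := rfl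

lemma eig_congr {ρ ρ' : MM} {lam : ℝ} {f : Fn} {H : Subgroup (GL (Fin 6) ℂ)}
    (h : (ZD u H).IsEigenfunction ρ lam f)
    (hρ : ∀ p v, OnZ u p → Tan u p v → ρ p v = ρ' p v) :
    (ZD u H).IsEigenfunction ρ' lam f where
  supp := h.supp
  scale := h.scale
  inv := h.inv
  smooth := h.smooth
  eqn := by
    intro U φ hφ t ht
    rw [h.eqn U φ hφ t ht, hρ _ _ (mem_cone.1 (hφ.mem t ht)) (arc_tan hφ ht)]

lemma eig_iff {ρ : MM} {lam : ℝ} {f : Fn} {T : Subgroup Sg} :
    (ZD u (T.map dg)).IsEigenfunction ρ lam f ↔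
      (ZD u ⊥).IsEigenfunction ρ lam f ∧ ∀ e ∈ T, rE e f = f := by
  constructor
  · intro h
    refine ⟨⟨h.supp, h.scale, ?_, fun U φ hφ => h.smooth U φ (arc_change hφ),
      fun U φ hφ => h.eqn U φ (arc_change hφ)⟩, ?_⟩
    · intro g hg p _
      rw [Subgroup.mem_bot.1 hg]
      simp [act]
    · intro e he
      funext p
      rw [rE_apply]
      by_cases hp : OnZ u p
      · have := h.inv (dg e) (Subgroup.mem_map_of_mem _ he) p (mem_cone.2 hp)
        rwa [act_dg] at this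
      · rw [h.supp p (by rwa [mem_cone]), h.supp (sa e p) (by rwa [mem_cone, sa_onZ_iff])]
  · rintro ⟨h, h2⟩
    refine ⟨h.supp, h.scale, ?_, fun U φ hφ => h.smooth U φ (arc_change hφ),
      fun U φ hφ => h.eqn U φ (arc_change hφ)⟩
    intro g hg p _
    obtain ⟨e, he, rfl⟩ := Subgroup.mem_map.1 hg
    rw [act_dg]
    exact congrFun (h2 e he) p

variable {ρ : MM} {lam : ℝ}

lemma eig_mon (hu : Adm u) (hρ : (ZD u ⊥).IsHypMetric ρ) (g : Mon u u) {f : Fn}
    (h : (ZD u ⊥).IsEigenfunction ρ lam f) :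
    (ZD u ⊥).IsEigenfunction ρ lam (fun p => f (g.lin p)) :=
  eig_congr (eig_pull g hu h) fun _ _ hp hv => metric_unique hu (metric_pull g hρ) hρ hp hv

lemma eig_xi (hu : Adm u) (hρ : (ZD u ⊥).IsHypMetric ρ) {r : ℂ} (hr : r ^ 2 = u) (hr0 : r ≠ 0)
    (huu : u * conj u = 1) (hu' : Adm (conj u)) {f : Fn}
    (h : (ZD u ⊥).IsEigenfunction ρ lam f) :
    (ZD u ⊥).IsEigenfunction ρ lam (fun p => f (xi hr hr0 huu p)) :=
  eig_congr (eig_cj (eig_pull (xiM hr hr0 huu) hu' h)) fun _ _ hp hv =>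
    metric_unique hu (metric_cj (metric_pull (xiM hr hr0 huu) hρ)) hρ hp hv

lemma eig_proj (hu : Adm u) (hρ : (ZD u ⊥).IsHypMetric ρ) {f : Fn}
    (h : (ZD u ⊥).IsEigenfunction ρ lam f) (W : Finset (Fin 6)) :
    (ZD u ⊥).IsEigenfunction ρ lam (proj rE W f) := by
  have : proj rE W f ∈ (ZD u ⊥).eigenspace ρ lam := by
    unfold proj
    refine Submodule.smul_mem _ _ (Submodule.sum_mem _ fun e _ => Submodule.smul_mem _ _ ?_)
    exact eig_mon hu hρ (sMon u e) h
  exact this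

end eigen

section matching

variable {u : ℂ}

/-- data matching the components of two quotients -/
structure Match (ρ : MM) (lam : ℝ) (u : ℂ) (W W' : Fin 8 → Finset (Fin 6)) where
  G : Fin 8 → (Fin 6 → ℂ) → (Fin 6 → ℂ)
  G' : Fin 8 → (Fin 6 → ℂ) → (Fin 6 → ℂ)
  π : Fin 8 → Equiv.Perm (Fin 6)
  GG' : ∀ i p, G i (G' i p) = p
  G'G : ∀ i p, G' i (G i p) = p
  sG : ∀ i e p, G i (sa e p) = sa (sp (π i) e) (G i p)
  sG' : ∀ i e p, G' i (sa e p) = sa (sp (π i) e) (G' i p)
  cW : ∀ i e, chr (W i) (sp (π i) e) = chr (W' i) e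
  cW' : ∀ i e, chr (W' i) (sp (π i) e) = chr (W i) e
  eG : ∀ i f, (ZD u ⊥).IsEigenfunction ρ lam f → (ZD u ⊥).IsEigenfunction ρ lam (fun p => f (G i p))
  eG' : ∀ i f, (ZD u ⊥).IsEigenfunction ρ lam f →
    (ZD u ⊥).IsEigenfunction ρ lam (fun p => f (G' i p))

/-- the inverse matching -/
def Match.symm {ρ : MM} {lam : ℝ} {u : ℂ} {W W' : Fin 8 → Finset (Fin 6)}
    (M : Match ρ lam u W W') : Match ρ lam u W' W where
  G := M.G'
  G' := M.G
  π := M.π
  GG' := M.G'G
  G'G := M.GG'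
  sG := M.sG'
  sG' := M.sG
  cW := M.cW'
  cW' := M.cW
  eG := M.eG'
  eG' := M.eG

/-- composition with a map of points -/
def comp (G : (Fin 6 → ℂ) → (Fin 6 → ℂ)) : Fn →ₗ[ℂ] Fn where
  toFun f p := f (G p)
  map_add' _ _ := rfl
  map_smul' _ _ := rfl

/-- the projection as a linear map -/
def projL (W : Finset (Fin 6)) : Fn →ₗ[ℂ] Fn where
  toFun f := proj rE W f
  map_add' := proj_add rE W
  map_smul' := proj_smul rE W

/-- the transplantation -/
def Match.T {ρ : MM} {lam : ℝ} {u : ℂ} {W W' : Fin 8 → Finset (Fin 6)}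
    (M : Match ρ lam u W W') : Fn →ₗ[ℂ] Fn := ∑ i, comp (M.G i) ∘ₗ projL (W i)

lemma Match.T_apply {ρ : MM} {lam : ℝ} {u : ℂ} {W W' : Fin 8 → Finset (Fin 6)}
    (M : Match ρ lam u W W') (f : Fn) : M.T f = ∑ i, comp (M.G i) (proj rE (W i) f) := by
  simp [Match.T, projL, LinearMap.sum_apply]

lemma Match.char {ρ : MM} {lam : ℝ} {u : ℂ} {W W' : Fin 8 → Finset (Fin 6)}
    (M : Match ρ lam u W W') (f : Fn) (i : Fin 8) (e : Sg) :
    rE e (comp (M.G i) (proj rE (W i) f)) = chr (W' i) e • comp (M.G i) (proj rE (W i) f) := by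
  funext p
  have h1 := congrFun (r_proj rE (W i) f (sp (M.π i) e)) (M.G i p)
  rw [rE_apply] at h1
  change proj rE (W i) f (M.G i (sa e p)) = _
  rw [M.sG, h1, M.cW]
  rfl

lemma Match.inv_aux {ρ : MM} {lam : ℝ} {u : ℂ} {W W' : Fin 8 → Finset (Fin 6)}
    (M : Match ρ lam u W W') (hW' : Function.Injective W') {f : Fn}
    (hf : ∑ i, proj rE (W i) f = f) : M.symm.T (M.T f) = f := by
  rw [Match.T_apply, Match.T_apply]
  have h1 : ∀ j, proj rE (W' j) (∑ i, comp (M.G i) (proj rE (W i) f)) =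
      comp (M.G j) (proj rE (W j) f) := by
    intro j
    rw [proj_sum, Finset.sum_eq_single j]
    · exact proj_self rE (M.char f j)
    · intro i _ hij
      exact proj_other rE (fun h => hij (hW' h.symm)) (M.char f i)
    · intro h
      exact absurd (mem_univ j) h
  have h2 : ∀ j, comp (M.symm.G j) (proj rE (W' j) (∑ i, comp (M.G i) (proj rE (W i) f))) =
      proj rE (W j) f := by
    intro j
    rw [h1 j]
    funext p
    change proj rE (W j) f (M.G j (M.G' j p)) = _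
    rw [M.GG']
  rw [sum_congr rfl fun j _ => h2 j, hf]

lemma Match.T_mem {ρ : MM} {lam : ℝ} {u : ℂ} {W W' : Fin 8 → Finset (Fin 6)}
    (M : Match ρ lam u W W') (hu : Adm u) (hρ : (ZD u ⊥).IsHypMetric ρ) {T : Subgroup Sg}
    (hT : ∀ i, ∀ e ∈ T, chr (W' i) e = 1) {f : Fn}
    (hf : (ZD u ⊥).IsEigenfunction ρ lam f) :
    (ZD u (T.map dg)).IsEigenfunction ρ lam (M.T f) := by
  rw [eig_iff, Match.T_apply]
  refine ⟨?_, ?_⟩
  · have : ∑ i, comp (M.G i) (proj rE (W i) f) ∈ (ZD u ⊥).eigenspace ρ lam :=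
      Submodule.sum_mem _ fun i _ => M.eG i _ (eig_proj hu hρ hf _)
    exact this
  · intro e he
    rw [map_sum]
    refine sum_congr rfl fun i _ => ?_
    rw [M.char, hT i e he, one_smul]

lemma chrA : ∀ i, ∀ e ∈ SA, ∏ j ∈ WA i, e j = 1 := by decide +kernel
lemma chrB : ∀ i, ∀ e ∈ SB, ∏ j ∈ WB i, e j = 1 := by decide +kernel

/-- the permutations of the matching -/
def pM : Fin 8 → Equiv.Perm (Fin 6) :=
  ![1, 1, 1, 1, Equiv.swap 0 1 * (Equiv.swap 2 4 * Equiv.swap 3 5),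
    Equiv.swap 0 1 * (Equiv.swap 2 4 * Equiv.swap 3 5), Equiv.swap 0 1, Equiv.swap 0 1]

lemma pM_A : ∀ i, ∀ e : Sg, ∏ j ∈ WA i, sp (pM i) e j = ∏ j ∈ WB i, e j := by decide +kernel
lemma pM_B : ∀ i, ∀ e : Sg, ∏ j ∈ WB i, sp (pM i) e j = ∏ j ∈ WA i, e j := by decide +kernel

/-- the matching of `X_u` and `Y_u` -/
def theMatch (hu : Adm u) (hu' : Adm (conj u)) {r : ℂ} (hr : r ^ 2 = u) (hr0 : r ≠ 0)
    (huu : u * conj u = 1) (hrr : r * conj r = 1) {ρ : MM} (hρ : (ZD u ⊥).IsHypMetric ρ)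
    (lam : ℝ) : Match ρ lam u WA WB where
  G := ![id, id, id, id, (mu hr hr0).lin, (mu hr hr0).lin, xi hr hr0 huu, xi hr hr0 huu]
  G' := ![id, id, id, id, ((mu hr hr0).inv hu).lin, ((mu hr hr0).inv hu).lin,
    xi hr hr0 huu, xi hr hr0 huu]
  π := pM
  GG' := by
    intro i p
    fin_cases i
    · rfl
    · rfl
    · rfl
    · rfl
    · exact (mu hr hr0).lin_inv hu p
    · exact (mu hr hr0).lin_inv hu p
    · exact xi_xi hr hr0 huu hrr p
    · exact xi_xi hr hr0 huu hrr p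
  G'G := by
    intro i p
    fin_cases i
    · rfl
    · rfl
    · rfl
    · rfl
    · exact (mu hr hr0).inv_lin hu p
    · exact (mu hr hr0).inv_lin hu p
    · exact xi_xi hr hr0 huu hrr p
    · exact xi_xi hr hr0 huu hrr p
  sG := by
    intro i e p
    fin_cases i
    · rfl
    · rfl
    · rfl
    · rfl
    · exact lin_sa (mu hr hr0) e p
    · exact lin_sa (mu hr hr0) e p
    · exact xi_sa hr hr0 huu e p
    · exact xi_sa hr hr0 huu e p
  sG' := by
    intro i e p
    fin_cases i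
    · rfl
    · rfl
    · rfl
    · rfl
    · exact mu_inv_sa hr hr0 hu e p
    · exact mu_inv_sa hr hr0 hu e p
    · exact xi_sa hr hr0 huu e p
    · exact xi_sa hr hr0 huu e p
  cW := by
    intro i e
    unfold chr
    rw [pM_A]
  cW' := by
    intro i e
    unfold chr
    rw [pM_B]
  eG := by
    intro i f hf
    fin_cases i
    · exact hf
    · exact hf
    · exact hf
    · exact hf
    · exact eig_mon hu hρ (mu hr hr0) hf
    · exact eig_mon hu hρ (mu hr hr0) hf
    · exact eig_xi hu hρ hr hr0 huu hu' hf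
    · exact eig_xi hu hρ hr hr0 huu hu' hf
  eG' := by
    intro i f hf
    fin_cases i
    · exact hf
    · exact hf
    · exact hf
    · exact hf
    · exact eig_mon hu hρ ((mu hr hr0).inv hu) hf
    · exact eig_mon hu hρ ((mu hr hr0).inv hu) hf
    · exact eig_xi hu hρ hr hr0 huu hu' hf
    · exact eig_xi hu hρ hr hr0 huu hu' hf

/-- **`X_u` and `Y_u` are isospectral** for `|u| = 1` -/
theorem isospectral {u : ℂ} (hu : Adm u) (huu : u * conj u = 1) : Isospectral (XD u) (YD u) := by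
  intro ρ₁ ρ₂ h₁ h₂ lam
  obtain ⟨r, hr⟩ := IsAlgClosed.exists_pow_nat_eq u two_pos
  have hr0 : r ≠ 0 := by
    rintro rfl
    apply hu.1
    rw [← hr]; simp
  have hrr : r * conj r = 1 := by
    have h1 : (r * conj r) ^ 2 = 1 := by
      rw [mul_pow, ← map_pow, hr, huu]
    have h2 : r * conj r = ((normSq r : ℝ) : ℂ) := mul_conj r
    rw [h2] at h1 ⊢
    have h3 : (normSq r) ^ 2 = 1 := by exact_mod_cast h1
    have h4 : 0 ≤ normSq r := normSq_nonneg r
    have h5 : normSq r = 1 := by nlinarith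
    rw [h5]; simp
  have hu' : Adm (conj u) := by
    obtain ⟨a, b, c⟩ := hu
    refine ⟨?_, ?_, ?_⟩
    · simpa using a
    · intro h
      apply b
      have := congrArg conj h
      simpa using this
    · intro h
      apply c
      have := congrArg conj h
      simpa using this
  have hb1 : (ZD u ⊥).IsHypMetric ρ₁ := metric_bot h₁
  have hb2 : (ZD u ⊥).IsHypMetric ρ₂ := metric_bot h₂
  have heq : ∀ p v, OnZ u p → Tan u p v → ρ₁ p v = ρ₂ p v := fun p v hp hv =>
    metric_unique hu hb1 hb2 hp hv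
  set M := theMatch hu hu' hr hr0 huu hrr hb1 lam with hM
  have hTA : ∀ i, ∀ e ∈ SA, chr (WA i) e = 1 := by
    intro i e he
    simp only [chr, chrA i e he]
    simp
  have hTB : ∀ i, ∀ e ∈ SB, chr (WB i) e = 1 := by
    intro i e he
    simp only [chr, chrB i e he]
    simp
  have hX : ∀ f ∈ (XD u).eigenspace ρ₁ lam, M.T f ∈ (YD u).eigenspace ρ₂ lam := by
    intro f hf
    have h1 := (eig_iff.1 hf).1
    exact eig_congr (M.T_mem hu hb1 hTB h1) heq
  have hY : ∀ f ∈ (YD u).eigenspace ρ₂ lam, M.symm.T f ∈ (XD u).eigenspace ρ₁ lam := by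
    intro f hf
    have h1 := (eig_iff.1 hf).1
    have h2 := eig_congr h1 (ρ' := ρ₁) fun p v hp hv => (heq p v hp hv).symm
    exact M.symm.T_mem hu hb1 hTA h2
  refine ⟨LinearEquiv.ofLinearMap (M.T.restrict hX) (M.symm.T.restrict hY) ?_ ?_⟩
  · ext1 f
    apply Subtype.ext
    have h1 := (eig_iff.1 f.2).2
    have h2 : ∑ i, proj rE (WB i) (f : Fn) = f := sum_proj rE SB WB sumB cardB h1
    exact M.symm.inv_aux WA_inj h2
  · ext1 f
    apply Subtype.ext
    have h1 := (eig_iff.1 f.2).2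
    have h2 : ∑ i, proj rE (WA i) (f : Fn) = f := sum_proj rE SA WA sumA cardA h1
    exact M.inv_aux WB_inj h2

end matching

end Pool.Agent.R403.IS
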