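import Pool.Agent.R403.IS.Dual

/-!
# Integration along loops
-/

set_option autoImplicit false

open scoped Topology
open Matrix Complex Finset MeasureTheory

noncomputable section

namespace Pool.Agent.R403.IS

variable {u : ℂ}

/-- the integral of a form along a path -/
def per (w : FF) (γ : ℝ → Fin 6 → ℂ) : ℂ := ∫ s in (0 : ℝ)..1, w (γ s) (deriv γ s)

lemma path_tan {γ : ℝ → Fin 6 → ℂ} (hγ : Differentiable ℝ γ) (hm : ∀ s, OnZ u (γ s)) (s : ℝ) :
    Tan u (γ s) (deriv γ s) := by
  intro j
  have h2 : ∀ j, HasDerivAt (fun s => γ s j) (deriv γ s j) s := hasDerivAt_pi.1 (hγ s).hasDerivAt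
  have h3 := (h2 j).fun_pow 2
  have h4 := (((h2 0).fun_pow 2).const_mul (al j)).add (((h2 1).fun_pow 2).const_mul (be u j))
  have h5 : (fun s => γ s j ^ 2) =
      (fun s => al j * γ s 0 ^ 2) + (fun s => be u j * γ s 1 ^ 2) := by
    funext s
    exact (hm s).2 j
  rw [h5] at h3
  have h6 := h4.unique h3
  simp at h6
  linear_combination -h6 / 2

/-- the basic differential is continuous along `C¹` paths -/
lemma eta_continuous (hu : Adm u) {γ : ℝ → Fin 6 → ℂ} (hγ : ContDiff ℝ 1 γ)
    (hm : ∀ s, OnZ u (γ s)) : Continuous fun s => eta u (γ s) (deriv γ s) := by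
  have hd : Differentiable ℝ γ := hγ.differentiable one_ne_zero
  have hc' : Continuous (deriv γ) := hγ.continuous_deriv_one
  rw [continuous_iff_continuousAt]
  intro s
  obtain ⟨k, m, h⟩ := (hm s).exists_good hu
  have h1 : ∀ᶠ r in 𝓝 s, eta u (γ r) (deriv γ r) =
      (γ r m * deriv γ r k - γ r k * deriv γ r m) / (DD u k m * P2 (γ r) k m) := by
    filter_upwards [hγ.continuous.continuousAt.eventually h.eventually] with r hr
    have hg := hr (hm r)
    have h3 := eta_eq hu (hm r) (path_tan hd hm r) h.km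
    have h4 : P2 (γ r) k m ≠ 0 := P2_ne hg.ne
    have h5 := hg.Dkm
    field_simp
    linear_combination h3
  refine ContinuousAt.congr ?_ (h1.mono fun _ h => h.symm)
  have cj : ∀ j, ContinuousAt (fun r => γ r j) s := fun j =>
    ((continuous_apply j).comp hγ.continuous).continuousAt
  have cj' : ∀ j, ContinuousAt (fun r => deriv γ r j) s := fun j =>
    ((continuous_apply j).comp hc').continuousAt
  have cP : ContinuousAt (fun r => P2 (γ r) k m) s := by
    unfold P2
    exact tendsto_finsetProd _ fun j _ => cj j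
  refine (((cj m).mul (cj' k)).sub ((cj k).mul (cj' m))).div (continuousAt_const.mul cP) ?_
  exact mul_ne_zero h.Dkm (P2_ne h.ne)

lemma PS_continuous (S : Finset (Fin 6)) : Continuous (PS S) := by
  unfold PS
  exact continuous_finsetProd _ fun i _ => continuous_apply i

lemma QQ_continuous (a b : ℂ) : Continuous (QQ a b) := by
  unfold QQ
  fun_prop

lemma Fm_continuous (hu : Adm u) {P : (Fin 6 → ℂ) → ℂ} (hP : Continuous P)
    {γ : ℝ → Fin 6 → ℂ} (hγ : ContDiff ℝ 1 γ) (hm : ∀ s, OnZ u (γ s)) :
    Continuous fun s => Fm u P (γ s) (deriv γ s) := by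
  have h1 : (fun s => Fm u P (γ s) (deriv γ s)) = fun s => P (γ s) * eta u (γ s) (deriv γ s) := by
    funext s
    exact Fm_eq (hm s) (path_tan (hγ.differentiable one_ne_zero) hm s)
  rw [h1]
  exact (hP.comp hγ.continuous).mul (eta_continuous hu hγ hm)

/-- forms in the span of the explicit ones are continuous along paths -/
lemma span_continuous (hu : Adm u) {w : FF} (hw : w ∈ Submodule.span ℂ (GS u))
    {γ : ℝ → Fin 6 → ℂ} (hγ : ContDiff ℝ 1 γ) (hm : ∀ s, OnZ u (γ s)) :
    Continuous fun s => w (γ s) (deriv γ s) := by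
  induction hw using Submodule.span_induction with
  | mem w hw =>
    rcases hw with ⟨S, rfl⟩ | hw
    · exact Fm_continuous hu (PS_continuous S) hγ hm
    · rcases hw with rfl | hw
      · exact Fm_continuous hu (QQ_continuous _ _) hγ hm
      · rw [Set.mem_singleton_iff.1 hw]
        exact Fm_continuous hu (QQ_continuous _ _) hγ hm
  | zero => exact continuous_const
  | add x y _ _ hx hy => exact hx.add hy
  | smul a x _ hx => exact continuous_const.mul hx

lemma Y_mem_span (hu : Adm u) {w : FF} (hw : (YD u).IsForm w) : w ∈ Submodule.span ℂ (GS u) := by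
  rw [← decompB hw]
  exact Submodule.sum_mem _ fun i _ =>
    char_mem_span hu (proj_isForm hu hw _) (proj_hasChar _ _) (cardWB i)

/-- loops on `Z_u` -/
def ZLoop (u : ℂ) (γ : ℝ → Fin 6 → ℂ) : Prop := (ZD u ⊥).IsLoop γ

lemma ZLoop.on {γ : ℝ → Fin 6 → ℂ} (h : ZLoop u γ) (s : ℝ) : OnZ u (γ s) := mem_cone.1 (h.mem s)

lemma ZLoop.toY {γ : ℝ → Fin 6 → ℂ} (h : ZLoop u γ) (H : Subgroup (GL (Fin 6) ℂ)) :
    (ZD u H).IsLoop γ where
  smooth := h.smooth
  mem := fun s => mem_cone.2 (h.on s)
  closed := by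
    obtain ⟨g, hg, c, hc, he⟩ := h.closed
    have : g = 1 := Subgroup.mem_bot.1 hg
    exact ⟨g, by rw [this]; exact one_mem _, c, hc, he⟩

/-- the integration functional of a loop of `Z_u` -/
lemma exists_functional (hu : Adm u) {γ : ℝ → Fin 6 → ℂ} (h : ZLoop u γ) :
    ∃ l ∈ (YD u).periodLattice, ∀ w : (YD u).Omega, l w = per w γ := by
  have hint : ∀ w : (YD u).Omega, IntervalIntegrable (fun s => (w : FF) (γ s) (deriv γ s)) volume
      0 1 := fun w => (span_continuous hu (Y_mem_span hu w.2) h.smooth h.on).intervalIntegrable _ _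
  refine ⟨{ toFun := fun w => per w γ, map_add' := ?_, map_smul' := ?_ }, ?_, fun w => rfl⟩
  · intro w w'
    exact intervalIntegral.integral_add (hint w) (hint w')
  · intro c w
    exact intervalIntegral.integral_const_mul c _
  · exact AddSubgroup.subset_closure ⟨γ, h.toY _, fun w => rfl⟩

/-- doubling a loop of `Y_u` gives a loop of `Z_u` -/
lemma double (hu : Adm u) {γ : ℝ → Fin 6 → ℂ} (h : (YD u).IsLoop γ) {w : FF}
    (hw : (YD u).IsForm w) : ∃ δ, ZLoop u δ ∧ per w δ = 2 * per w γ := by
  obtain ⟨g, hg, c, hc, he⟩ := h.closed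
  obtain ⟨e, heT, rfl⟩ := Subgroup.mem_map.1 hg
  rw [act_dg] at he
  have hon : ∀ s, OnZ u (γ s) := fun s => mem_cone.1 (h.mem s)
  set S : ℝ → ℝ := Real.smoothTransition with hS
  have hSd : ContDiff ℝ 1 S := Real.smoothTransition.contDiff
  -- the linear map `c e`
  set A : (Fin 6 → ℂ) → (Fin 6 → ℂ) := fun p => c • sa e p with hA
  have hAe : ∀ p, A p = c • (sMon u e).lin p := fun p => rfl
  set δ : ℝ → Fin 6 → ℂ := fun s => γ (S (2 * s)) + A (γ (S (2 * s - 1))) - A (γ 0) with hδ
  have hS0 : ∀ x ≤ 0, S x = 0 := fun x hx => Real.smoothTransition.zero_of_nonpos hx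
  have hS1 : ∀ x, 1 ≤ x → S x = 1 := fun x hx => Real.smoothTransition.one_of_one_le hx
  have hleft : ∀ s ≤ (1 / 2 : ℝ), δ s = γ (S (2 * s)) := by
    intro s hs
    simp only [hδ]
    rw [hS0 (2 * s - 1) (by linarith)]
    simp
  have hright : ∀ s, (1 / 2 : ℝ) ≤ s → δ s = A (γ (S (2 * s - 1))) := by
    intro s hs
    simp only [hδ]
    rw [hS1 (2 * s) (by linarith), he]
    simp [hA]
  have hAon : ∀ p, OnZ u p → OnZ u (A p) := fun p hp => (sa_onZ e hp).smul hc
  have hAd : ∀ {φ : ℝ → Fin 6 → ℂ} {φ' : Fin 6 → ℂ} {t : ℝ}, HasDerivAt φ φ' t →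
      HasDerivAt (fun t => A (φ t)) (A φ') t := by
    intro φ φ' t hφ
    exact ((sMon u e).hasDerivAt_real hφ).const_smul c
  have hAc : ContDiff ℝ 1 A := by
    rw [contDiff_pi]
    intro i
    have : (fun p : Fin 6 → ℂ => A p i) = fun p => c * (((e i : ℤ) : ℂ) * p i) := by
      funext p; simp [hA, sa]
    rw [this]
    fun_prop
  have hδc : ContDiff ℝ 1 δ := by
    have h1 : ContDiff ℝ 1 fun s : ℝ => γ (S (2 * s)) := h.smooth.comp (hSd.comp (by fun_prop))
    have h2 : ContDiff ℝ 1 fun s : ℝ => A (γ (S (2 * s - 1))) :=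
      hAc.comp (h.smooth.comp (hSd.comp (by fun_prop)))
    exact (h1.add h2).sub contDiff_const
  refine ⟨δ, ⟨hδc, ?_, 1, one_mem _, c ^ 2, pow_ne_zero 2 hc, ?_⟩, ?_⟩
  · intro s
    rw [mem_cone]
    rcases le_total s (1 / 2) with hs | hs
    · rw [hleft s hs]; exact hon _
    · rw [hright s hs]; exact hAon _ (hon _)
  · rw [hright 1 (by norm_num), hleft 0 (by norm_num), hS1 (2 * 1 - 1) (by norm_num),
      hS0 (2 * 0) (by norm_num), he]
    have : act (1 : GL (Fin 6) ℂ) (γ 0) = γ 0 := by simp [act]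
    rw [this]
    funext i
    have h1 := unit_sq (e i)
    simp only [hA, sa, Pi.smul_apply, smul_eq_mul]
    linear_combination c ^ 2 * γ 0 i * h1
  · -- the integral
    have hcont : Continuous fun s => w (γ s) (deriv γ s) :=
      span_continuous hu (Y_mem_span hu hw) h.smooth hon
    have hδcont : Continuous fun s => w (δ s) (deriv δ s) := by
      refine span_continuous hu (Y_mem_span hu hw) hδc fun s => ?_
      rcases le_total s (1 / 2) with hs | hs
      · rw [hleft s hs]; exact hon _
      · rw [hright s hs]; exact hAon _ (hon _)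
    have hγd : ∀ t, HasDerivAt γ (deriv γ t) t := fun t =>
      (h.smooth.differentiable one_ne_zero t).hasDerivAt
    have hSdd : ∀ t, HasDerivAt S (deriv S t) t := fun t =>
      (hSd.differentiable one_ne_zero t).hasDerivAt
    have htan : ∀ t, Tan u (γ t) (deriv γ t) := path_tan (h.smooth.differentiable one_ne_zero) hon
    have hreal : ∀ (x : ℝ) (v : Fin 6 → ℂ), x • v = (x : ℂ) • v := fun x v => by
      funext i; simp
    have d1 : ∀ s < (1 / 2 : ℝ), w (δ s) (deriv δ s) =
        (2 * deriv S (2 * s) : ℝ) • w (γ (S (2 * s))) (deriv γ (S (2 * s))) := by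
      intro s hs
      have e1 : HasDerivAt (fun s : ℝ => S (2 * s)) (deriv S (2 * s) * 2) s := by
        have h2 : HasDerivAt (fun s : ℝ => 2 * s) 2 s := by
          simpa using (hasDerivAt_id s).const_mul (2 : ℝ)
        exact (hSdd (2 * s)).comp s h2
      have e2 : HasDerivAt (fun s : ℝ => γ (S (2 * s)))
          ((deriv S (2 * s) * 2) • deriv γ (S (2 * s))) s := (hγd _).scomp s e1
      have e3 : δ =ᶠ[𝓝 s] fun s : ℝ => γ (S (2 * s)) := by
        filter_upwards [eventually_lt_nhds hs] with r hr using hleft r hr.le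
      have e4 := (e2.congr_of_eventuallyEq e3).deriv
      rw [e4, hleft s hs.le, hreal, hw.smul _ (mem_cone.2 (hon _)) _ (mem_tangent.2 (htan _))]
      simp only [real_smul]
      push_cast
      ring
    have d2 : ∀ s > (1 / 2 : ℝ), w (δ s) (deriv δ s) =
        (2 * deriv S (2 * s - 1) : ℝ) • w (γ (S (2 * s - 1))) (deriv γ (S (2 * s - 1))) := by
      intro s hs
      have e1 : HasDerivAt (fun s : ℝ => S (2 * s - 1)) (deriv S (2 * s - 1) * 2) s := by
        have h2 : HasDerivAt (fun s : ℝ => 2 * s - 1) 2 s := by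
          simpa using ((hasDerivAt_id s).const_mul (2 : ℝ)).sub_const 1
        exact (hSdd (2 * s - 1)).comp s h2
      have e2 : HasDerivAt (fun s : ℝ => γ (S (2 * s - 1)))
          ((deriv S (2 * s - 1) * 2) • deriv γ (S (2 * s - 1))) s := (hγd _).scomp s e1
      have e3 : δ =ᶠ[𝓝 s] fun s : ℝ => A (γ (S (2 * s - 1))) := by
        filter_upwards [eventually_gt_nhds hs] with r hr using hright r hr.le
      have e4 := ((hAd e2).congr_of_eventuallyEq e3).deriv
      have e5 : w (A (γ (S (2 * s - 1)))) (A (deriv γ (S (2 * s - 1)))) =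
          w (γ (S (2 * s - 1))) (deriv γ (S (2 * s - 1))) := by
        simp only [hA]
        rw [hw.scale _ (mem_cone.2 (sa_onZ e (hon _))) _ (mem_tangent.2 (sa_tan e (htan _))) c hc]
        have := hw.inv (dg e) (Subgroup.mem_map_of_mem _ heT) _ (mem_cone.2 (hon (S (2 * s - 1)))) _
          (mem_tangent.2 (htan _))
        rwa [act_dg, act_dg] at this
      have e6 : A ((deriv S (2 * s - 1) * 2) • deriv γ (S (2 * s - 1))) =
          ((deriv S (2 * s - 1) * 2 : ℝ) : ℂ) • A (deriv γ (S (2 * s - 1))) := by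
        funext i
        simp [hA, sa]
        ring
      rw [e4, hright s hs.le, e6, hw.smul _ (mem_cone.2 (hAon _ (hon _))) _
        (mem_tangent.2 ((sa_tan e (htan _)).smul_smul c)), e5]
      simp only [real_smul]
      push_cast
      ring
    set G : ℝ → ℂ := fun x => deriv S x • w (γ (S x)) (deriv γ (S x)) with hG
    have hGc : Continuous G := (hSd.continuous_deriv_one).smul (hcont.comp hSd.continuous)
    have hsub : ∫ s in (0 : ℝ)..1, G s = per w γ := by
      have h1 := intervalIntegral.integral_deriv_smul_comp (a := 0) (b := 1) (f := S)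
        (f' := deriv S) (g := fun s => w (γ s) (deriv γ s)) (fun t _ => hSdd t)
        (hSd.continuous_deriv_one).continuousOn hcont
      rw [hS0 0 le_rfl, hS1 1 le_rfl] at h1
      exact h1
    have i1 : ∫ s in (0 : ℝ)..(1 / 2), w (δ s) (deriv δ s) = per w γ := by
      have e1 : ∫ s in (0 : ℝ)..(1 / 2), w (δ s) (deriv δ s) =
          ∫ s in (0 : ℝ)..(1 / 2), (2 : ℝ) • G (2 * s) := by
        refine intervalIntegral.integral_congr_ae ?_
        filter_upwards [compl_mem_ae_iff.2 (measure_singleton (1 / 2 : ℝ))] with s hs hs2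
        rw [Set.uIoc_of_le (by norm_num)] at hs2
        have hlt : s < 1 / 2 := lt_of_le_of_ne hs2.2 hs
        rw [d1 s hlt]
        simp only [hG, smul_smul]
      rw [e1, intervalIntegral.integral_smul, intervalIntegral.smul_integral_comp_mul_left]
      norm_num
      exact hsub
    have i2 : ∫ s in (1 / 2 : ℝ)..1, w (δ s) (deriv δ s) = per w γ := by
      have e1 : ∫ s in (1 / 2 : ℝ)..1, w (δ s) (deriv δ s) =
          ∫ s in (1 / 2 : ℝ)..1, (2 : ℝ) • G (2 * s - 1) := by
        refine intervalIntegral.integral_congr_ae ?_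
        filter_upwards with s hs2
        rw [Set.uIoc_of_le (by norm_num)] at hs2
        rw [d2 s hs2.1]
        simp only [hG, smul_smul]
      rw [e1, intervalIntegral.integral_smul, intervalIntegral.smul_integral_comp_mul_sub]
      norm_num
      exact hsub
    have i3 : per w δ = (∫ s in (0 : ℝ)..(1 / 2), w (δ s) (deriv δ s)) +
        ∫ s in (1 / 2 : ℝ)..1, w (δ s) (deriv δ s) :=
      (intervalIntegral.integral_add_adjacent_intervals (hδcont.intervalIntegrable _ _)
        (hδcont.intervalIntegrable _ _)).symm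
    rw [i3, i1, i2]
    ring

end Pool.Agent.R403.IS
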