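import Pool.Agent.R403.IS.Eta

/-!
# Monomial maps between the curves `Z_u`
-/

set_option autoImplicit false

open scoped Topology
open Matrix Complex Finset

noncomputable section

namespace Pool.Agent.R403.IS

/-- monomial maps `Z_{u'} → Z_u` -/
structure Mon (u' u : ℂ) where
  π : Equiv.Perm (Fin 6)
  a : Fin 6 → ℂ
  A : ℂ
  B : ℂ
  C : ℂ
  D : ℂ
  h1 : ∀ i, al i * A + be u i * C = a i ^ 2 * al (π i)
  h2 : ∀ i, al i * B + be u i * D = a i ^ 2 * be u' (π i)
  ha : ∀ i, a i ≠ 0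

namespace Mon

variable {u' u : ℂ} (g : Mon u' u)

/-- the linear map -/
def lin : (Fin 6 → ℂ) →ₗ[ℂ] (Fin 6 → ℂ) where
  toFun p := fun i => g.a i * p (g.π i)
  map_add' p q := by funext i; simp [mul_add]
  map_smul' c p := by funext i; simp [mul_left_comm]

@[simp] lemma lin_apply (p : Fin 6 → ℂ) (i : Fin 6) : g.lin p i = g.a i * p (g.π i) := rfl

lemma lin_inj : Function.Injective g.lin := by
  intro p q h
  funext i
  have h1 := congrFun h (g.π.symm i)
  simp only [lin_apply, Equiv.apply_symm_apply] at h1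
  exact mul_left_cancel₀ (g.ha _) h1

lemma sq_eq {p : Fin 6 → ℂ} (hp : OnZ u' p) (i : Fin 6) :
    g.lin p i ^ 2 = al i * (g.A * p 0 ^ 2 + g.B * p 1 ^ 2) +
      be u i * (g.C * p 0 ^ 2 + g.D * p 1 ^ 2) := by
  rw [lin_apply, mul_pow, hp.2 (g.π i)]
  linear_combination -(p 0 ^ 2) * g.h1 i - (p 1 ^ 2) * g.h2 i

lemma onZ {p : Fin 6 → ℂ} (hp : OnZ u' p) : OnZ u (g.lin p) := by
  refine ⟨fun h => hp.1 ?_, fun j => ?_⟩
  · apply g.lin_inj
    rw [h, map_zero]
  · rw [g.sq_eq hp, g.sq_eq hp, g.sq_eq hp]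
    simp [al, be]

lemma mul_eq {p v : Fin 6 → ℂ} (hv : Tan u' p v) (i : Fin 6) :
    g.lin p i * g.lin v i = al i * (g.A * (p 0 * v 0) + g.B * (p 1 * v 1)) +
      be u i * (g.C * (p 0 * v 0) + g.D * (p 1 * v 1)) := by
  have h := hv (g.π i)
  have e : g.lin p i * g.lin v i = g.a i ^ 2 * (p (g.π i) * v (g.π i)) := by
    simp only [lin_apply]; ring
  rw [e, h]
  linear_combination -(p 0 * v 0) * g.h1 i - (p 1 * v 1) * g.h2 i

lemma tan {p v : Fin 6 → ℂ} (hv : Tan u' p v) : Tan u (g.lin p) (g.lin v) := by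
  intro j
  rw [g.mul_eq hv, g.mul_eq hv, g.mul_eq hv]
  simp [al, be]

/-- the factor by which the basic differential is multiplied -/
def fac : ℂ := (g.A * g.D - g.B * g.C) / ∏ i, g.a i

lemma P2_lin (p : Fin 6 → ℂ) {i j : Fin 6} (hij : i ≠ j) :
    P2 (g.lin p) i j * (g.a i * g.a j) = (∏ l, g.a l) * P2 p (g.π i) (g.π j) := by
  have h1 : P2 (g.lin p) i j = P2 g.a i j * P2 p (g.π i) (g.π j) := by
    unfold P2
    simp only [lin_apply, prod_mul_distrib]
    congr 1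
    refine prod_bij (fun l _ => g.π l) ?_ ?_ ?_ ?_
    · intro l hl
      simp only [mem_filter, mem_univ, true_and] at hl ⊢
      exact ⟨fun h => hl.1 (g.π.injective h), fun h => hl.2 (g.π.injective h)⟩
    · intro l _ l' _ h
      exact g.π.injective h
    · intro l hl
      simp only [mem_filter, mem_univ, true_and] at hl
      refine ⟨g.π.symm l, ?_, by simp⟩
      simp only [mem_filter, mem_univ, true_and]
      refine ⟨fun h => hl.1 ?_, fun h => hl.2 ?_⟩
      · rw [← h]; simp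
      · rw [← h]; simp
    · intro l _; rfl
  have h2 : P2 g.a i j * (g.a j * g.a i) = ∏ l, g.a l := by
    rw [← mul_assoc, P2_mul _ hij, P1_mul]
  rw [h1, ← h2]
  ring

lemma DD_rel (i j : Fin 6) : g.a i ^ 2 * g.a j ^ 2 * DD u' (g.π i) (g.π j) =
    (g.A * g.D - g.B * g.C) * DD u i j := by
  have a1 := g.h1 i
  have a2 := g.h1 j
  have b1 := g.h2 i
  have b2 := g.h2 j
  have e : g.a i ^ 2 * g.a j ^ 2 * DD u' (g.π i) (g.π j) =
      (g.a i ^ 2 * al (g.π i)) * (g.a j ^ 2 * be u' (g.π j)) -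
      (g.a j ^ 2 * al (g.π j)) * (g.a i ^ 2 * be u' (g.π i)) := by
    unfold DD; ring
  rw [e, ← a1, ← a2, ← b1, ← b2]
  unfold DD
  ring

lemma prod_ne : ∏ l, g.a l ≠ 0 := prod_ne_zero_iff.2 fun i _ => g.ha i

lemma eta_lin (hu : Adm u) (hu' : Adm u') {p v : Fin 6 → ℂ} (hp : OnZ u' p) (hv : Tan u' p v) :
    eta u (g.lin p) (g.lin v) = g.fac * eta u' p v := by
  symm
  refine eta_unique' hu (g.onZ hp) (g.tan hv) fun i j hij => ?_
  have hπ : g.π i ≠ g.π j := fun h => hij (g.π.injective h)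
  have h1 := eta_eq hu' hp hv hπ
  have h2 := g.P2_lin p hij
  have h3 := g.DD_rel i j
  have h4 := g.prod_ne
  have hai := g.ha i
  have haj := g.ha j
  have e1 : g.fac * ∏ l, g.a l = g.A * g.D - g.B * g.C := by
    unfold fac; field_simp
  have e2 : (g.a i * g.a j) * (DD u i j * (g.fac * eta u' p v) * P2 (g.lin p) i j) =
      (g.a i * g.a j) * (g.lin p j * g.lin v i - g.lin p i * g.lin v j) := by
    calc (g.a i * g.a j) * (DD u i j * (g.fac * eta u' p v) * P2 (g.lin p) i j)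
        = DD u i j * g.fac * eta u' p v * (P2 (g.lin p) i j * (g.a i * g.a j)) := by ring
      _ = (g.fac * ∏ l, g.a l) * DD u i j * (eta u' p v * P2 p (g.π i) (g.π j)) := by
          rw [h2]; ring
      _ = g.a i ^ 2 * g.a j ^ 2 * (DD u' (g.π i) (g.π j) * eta u' p v * P2 p (g.π i) (g.π j)) := by
          rw [e1, ← h3]; ring
      _ = g.a i ^ 2 * g.a j ^ 2 * (p (g.π j) * v (g.π i) - p (g.π i) * v (g.π j)) := by rw [h1]
      _ = _ := by simp only [lin_apply]; ring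
  exact mul_left_cancel₀ (mul_ne_zero hai haj) e2

lemma hasDerivAt {φ : ℂ → Fin 6 → ℂ} {φ' : Fin 6 → ℂ} {t : ℂ} (h : HasDerivAt φ φ' t) :
    HasDerivAt (fun t => g.lin (φ t)) (g.lin φ') t := by
  rw [hasDerivAt_pi]
  intro i
  simp only [lin_apply]
  exact (hasDerivAt_pi.1 h (g.π i)).const_mul _

lemma hasDerivAt_real {φ : ℝ → Fin 6 → ℂ} {φ' : Fin 6 → ℂ} {t : ℝ} (h : HasDerivAt φ φ' t) :
    HasDerivAt (fun t => g.lin (φ t)) (g.lin φ') t := by
  rw [hasDerivAt_pi]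
  intro i
  simp only [lin_apply]
  exact (hasDerivAt_pi.1 h (g.π i)).const_mul _

lemma deriv_arc {U : Set ℂ} {φ : ℂ → Fin 6 → ℂ} {H' : Subgroup (GL (Fin 6) ℂ)}
    (hφ : (ZD u' H').IsArc U φ) {t : ℂ} (ht : t ∈ U) :
    deriv (fun t => g.lin (φ t)) t = g.lin (deriv φ t) :=
  (g.hasDerivAt ((hφ.holo t ht).differentiableAt (hφ.isOpen.mem_nhds ht)).hasDerivAt).deriv

lemma arc {U : Set ℂ} {φ : ℂ → Fin 6 → ℂ} {H' : Subgroup (GL (Fin 6) ℂ)}
    (hφ : (ZD u' H').IsArc U φ) (H : Subgroup (GL (Fin 6) ℂ)) :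
    (ZD u H).IsArc U (fun t => g.lin (φ t)) where
  isOpen := hφ.isOpen
  holo := fun t ht => (g.hasDerivAt ((hφ.holo t ht).differentiableAt
    (hφ.isOpen.mem_nhds ht)).hasDerivAt).differentiableAt.differentiableWithinAt
  mem := fun t ht => mem_cone.2 (g.onZ (mem_cone.1 (hφ.mem t ht)))
  immersed := by
    intro t ht c h
    rw [g.deriv_arc hφ ht, ← map_smul] at h
    exact hφ.immersed t ht c (g.lin_inj h)

end Mon

end Pool.Agent.R403.IS
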