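import Pool.Agent.R403.IS.Conn
import Pool.Agent.R403.IS.Eta

/-!
# A holomorphic 1-form on `Z_u` whose periods lie on one real line is zero
-/

set_option autoImplicit false

open scoped Topology
open Matrix Complex

noncomputable section

namespace Pool.Agent.R403.IS

namespace PZ

variable {u : ℂ} {w : (Fin 6 → ℂ) → (Fin 6 → ℂ) → ℂ}

/-- `C¹` paths in the cone, constant outside the unit interval -/
structure FP (u : ℂ) (p q : Fin 6 → ℂ) (γ : ℝ → Fin 6 → ℂ) : Prop where
  smooth : ContDiff ℝ 1 γ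
  on : ∀ s, OnZ u (γ s)
  left : ∀ s ≤ 0, γ s = p
  right : ∀ s, 1 ≤ s → γ s = q

/-- the integral of a form along a path -/
def J (w : (Fin 6 → ℂ) → (Fin 6 → ℂ) → ℂ) (γ : ℝ → Fin 6 → ℂ) : ℂ :=
  ∫ s in (0 : ℝ)..1, w (γ s) (deriv γ s)

lemma path_tan {γ : ℝ → Fin 6 → ℂ} (hγ : Differentiable ℝ γ) (hon : ∀ s, OnZ u (γ s)) (s : ℝ) :
    Tan u (γ s) (deriv γ s) := by
  intro j
  have h1 : HasDerivAt γ (deriv γ s) s := (hγ s).hasDerivAt
  have h2 : ∀ j, HasDerivAt (fun r => γ r j) (deriv γ s j) s := hasDerivAt_pi.1 h1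
  have h3 := (h2 j).fun_pow 2
  have h4 := (((h2 0).fun_pow 2).const_mul (al j)).add (((h2 1).fun_pow 2).const_mul (be u j))
  have h5 : (fun s => γ s j ^ 2) =
      (fun s => al j * γ s 0 ^ 2) + (fun s => be u j * γ s 1 ^ 2) := by
    funext s
    exact (hon s).2 j
  rw [← h5] at h4
  have h6 := h4.unique h3
  simp at h6
  linear_combination -h6 / 2

lemma chart_form (hw : (ZD u ⊥).IsForm w) {p : Fin 6 → ℂ} {k m : Fin 6} (hg : Good u p k m)
    {q v : Fin 6 → ℂ} (hq : OnZ u q) (hqn : q ∈ nb p k m) (hv : Tan u q v) :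
    w q v = (p m * (v k * q m - q k * v m) / q m ^ 2) *
      w (ch u p k m (par p k m q)) (chD u p k m (par p k m q)) := by
  obtain ⟨c1, c2⟩ := hg.cover hq hqn
  set t := par p k m q with ht
  have hc : p m / q m ≠ 0 := div_ne_zero hg.pm hqn.1
  have hg' : Good u (ch u p k m t) k m :=
    ⟨hg.adm, hg.ch_onZ t, hg.km, fun j hj => hg.ch_ne_zero c1 hj⟩
  have h0 := Good.zero_mem_chU (u := u) (p := ch u p k m t) (k := k) (m := m)
  have e1 : w q v = w (ch u p k m t) ((p m / q m) • v) := by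
    rw [c2]
    exact (hw.scale q (mem_cone.2 hq) v (mem_tangent.2 hv) _ hc).symm
  have hv' : Tan u (ch u p k m t) ((p m / q m) • v) := by
    rw [c2]; exact hv.smul_smul _
  have e2 := hg'.tan_eq hv'
  have e3 : chD u (ch u p k m t) k m 0 = chD u p k m t := by
    funext j
    unfold chD
    by_cases hj : j = k
    · rw [if_pos hj, if_pos hj]
    · rw [if_neg hj, if_neg hj, Good.ch_k, Good.ch_zero, add_zero]
  rw [e3] at e2
  have hon := mem_cone (u := u) (H := ⊥).2 (hg.ch_onZ t)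
  have htan := hg.tan_chD c1
  rw [e1, e2, hw.add _ hon _ (mem_tangent.2 ((hg.ch_onZ t).tan_self.smul _)) _
    (mem_tangent.2 (htan.smul _)), hw.smul _ hon _ (mem_tangent.2 (hg.ch_onZ t).tan_self),
    hw.smul _ hon _ (mem_tangent.2 htan), hw.radial _ hon, mul_zero, zero_add]
  congr 1
  rw [hg.ch_m]
  have e4 : ch u p k m t k = (p m / q m) * q k := by
    rw [c2]; rfl
  rw [e4]
  simp only [Pi.smul_apply, smul_eq_mul]
  have := hg.pm
  have := hqn.1
  field_simp

lemma continuousAt_g (hw : (ZD u ⊥).IsForm w) {p : Fin 6 → ℂ} {k m : Fin 6} (hg : Good u p k m)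
    {t : ℂ} (ht : t ∈ chU u p k m) :
    ContinuousAt (fun t => w (ch u p k m t) (chD u p k m t)) t := by
  have h1 := (hw.holo _ _ (hg.isArc ⊥)).continuousOn.continuousAt (Good.isOpen_chU.mem_nhds ht)
  refine h1.congr ?_
  filter_upwards [Good.isOpen_chU.mem_nhds ht] with s hs
  rw [hg.deriv_ch hs]

lemma continuousAt_par {p : Fin 6 → ℂ} {k m : Fin 6} (hm : p m ≠ 0) :
    ContinuousAt (par p k m) p := by
  unfold par
  have c1 : ContinuousAt (fun r : Fin 6 → ℂ => r m) p := (continuous_apply m).continuousAt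
  have c2 : ContinuousAt (fun r : Fin 6 → ℂ => r k) p := (continuous_apply k).continuousAt
  exact ((continuousAt_const.div c1 hm).mul c2).sub continuousAt_const

lemma par_self {p : Fin 6 → ℂ} {k m : Fin 6} (hm : p m ≠ 0) : par p k m p = 0 := by
  unfold par
  rw [div_self hm]
  ring

lemma cont_form (hu : Adm u) (hw : (ZD u ⊥).IsForm w) {γ : ℝ → Fin 6 → ℂ} (hγ : ContDiff ℝ 1 γ)
    (hon : ∀ s, OnZ u (γ s)) : Continuous fun s => w (γ s) (deriv γ s) := by
  rw [continuous_iff_continuousAt]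
  intro s
  obtain ⟨k, m, hg⟩ := (hon s).exists_good hu
  have hc : Continuous γ := hγ.continuous
  have hd : Continuous (deriv γ) := hγ.continuous_deriv le_rfl
  have hpar : ContinuousAt (fun r => par (γ s) k m (γ r)) s :=
    ContinuousAt.comp (g := par (γ s) k m) (continuousAt_par hg.pm) hc.continuousAt
  have h1 : ContinuousAt (fun r => (γ s m * (deriv γ r k * γ r m - γ r k * deriv γ r m) /
      γ r m ^ 2) * w (ch u (γ s) k m (par (γ s) k m (γ r)))
        (chD u (γ s) k m (par (γ s) k m (γ r)))) s := by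
    have cj : ∀ j, Continuous fun r => γ r j := fun j => (continuous_apply j).comp hc
    have dj : ∀ j, Continuous fun r => deriv γ r j := fun j => (continuous_apply j).comp hd
    refine ContinuousAt.mul ?_ ?_
    · refine ContinuousAt.div ?_ ((cj m).pow 2).continuousAt (pow_ne_zero 2 hg.pm)
      exact (continuous_const.mul (((dj k).mul (cj m)).sub ((cj k).mul (dj m)))).continuousAt
    · have h0 := Good.zero_mem_chU (u := u) (p := γ s) (k := k) (m := m)
      have h2 := continuousAt_g hw hg h0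
      rw [← par_self (k := k) hg.pm] at h2
      exact ContinuousAt.comp (g := fun t => w (ch u (γ s) k m t) (chD u (γ s) k m t)) h2 hpar
  refine h1.congr ?_
  have h2 : ∀ᶠ r in 𝓝 s, γ r ∈ nb (γ s) k m :=
    hc.continuousAt.eventually (Good.nb_nhds hg.mem_nb)
  filter_upwards [h2] with r hr
  exact (chart_form hw hg (hon r) hr (path_tan (hγ.differentiable (by norm_num)) hon r)).symm

lemma FP.deriv_left {p q : Fin 6 → ℂ} {γ : ℝ → Fin 6 → ℂ} (h : FP u p q γ) {s : ℝ} (hs : s ≤ 0) :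
    deriv γ s = 0 := by
  have h1 := ((h.smooth.differentiable (by norm_num)) s).hasDerivAt.hasDerivWithinAt (s := Set.Iic s)
  have h2 : HasDerivWithinAt γ 0 (Set.Iic s) s := by
    refine (hasDerivWithinAt_const s (Set.Iic s) p).congr (fun r hr => ?_) (h.left s hs)
    exact h.left r (le_trans hr hs)
  exact (uniqueDiffWithinAt_Iic s).eq_deriv _ h1 h2

lemma FP.deriv_right {p q : Fin 6 → ℂ} {γ : ℝ → Fin 6 → ℂ} (h : FP u p q γ) {s : ℝ} (hs : 1 ≤ s) :
    deriv γ s = 0 := by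
  have h1 := ((h.smooth.differentiable (by norm_num)) s).hasDerivAt.hasDerivWithinAt (s := Set.Ici s)
  have h2 : HasDerivWithinAt γ 0 (Set.Ici s) s := by
    refine (hasDerivWithinAt_const s (Set.Ici s) q).congr (fun r hr => ?_) (h.right s hs)
    exact h.right r (le_trans hs hr)
  exact (uniqueDiffWithinAt_Ici s).eq_deriv _ h1 h2

lemma trans (hu : Adm u) (hw : (ZD u ⊥).IsForm w) {p q r : Fin 6 → ℂ} {γ₁ γ₂ : ℝ → Fin 6 → ℂ}
    (h₁ : FP u p q γ₁) (h₂ : FP u q r γ₂) :
    ∃ γ, FP u p r γ ∧ J w γ = J w γ₁ + J w γ₂ := by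
  set γ : ℝ → Fin 6 → ℂ := fun s => γ₁ (2 * s) + γ₂ (2 * s - 1) - q with hγ
  have e1 : ∀ s ≤ 1 / 2, γ s = γ₁ (2 * s) := by
    intro s hs
    simp only [hγ]
    rw [h₂.left (2 * s - 1) (by linarith)]
    simp
  have e2 : ∀ s, 1 / 2 ≤ s → γ s = γ₂ (2 * s - 1) := by
    intro s hs
    simp only [hγ]
    rw [h₁.right (2 * s) (by linarith)]
    simp
  have hsm : ContDiff ℝ 1 γ := by
    have a1 : ContDiff ℝ 1 (fun s : ℝ => 2 * s) := by fun_prop
    have a2 : ContDiff ℝ 1 (fun s : ℝ => 2 * s - 1) := by fun_prop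
    exact ((h₁.smooth.comp a1).add (h₂.smooth.comp a2)).sub contDiff_const
  have hon : ∀ s, OnZ u (γ s) := by
    intro s
    rcases le_total s (1 / 2) with hs | hs
    · rw [e1 s hs]; exact h₁.on _
    · rw [e2 s hs]; exact h₂.on _
  have hd : ∀ s, deriv γ s = (2 : ℝ) • deriv γ₁ (2 * s) + (2 : ℝ) • deriv γ₂ (2 * s - 1) := by
    intro s
    have d1 := ((h₁.smooth.differentiable (by norm_num)) (2 * s)).hasDerivAt
    have d2 := ((h₂.smooth.differentiable (by norm_num)) (2 * s - 1)).hasDerivAt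
    have l1 : HasDerivAt (fun s : ℝ => 2 * s) 2 s := by
      simpa using (hasDerivAt_id s).const_mul (2 : ℝ)
    have l2 : HasDerivAt (fun s : ℝ => 2 * s - 1) 2 s := l1.sub_const 1
    have c1 := d1.scomp s l1
    have c2 := d2.scomp s l2
    exact ((c1.add c2).sub_const q).deriv
  have d1 : ∀ s ≤ 1 / 2, deriv γ s = (2 : ℂ) • deriv γ₁ (2 * s) := by
    intro s hs
    rw [hd, h₂.deriv_left (by linarith : 2 * s - 1 ≤ 0), smul_zero, add_zero]
    ext j; simp
  have d2 : ∀ s, 1 / 2 ≤ s → deriv γ s = (2 : ℂ) • deriv γ₂ (2 * s - 1) := by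
    intro s hs
    rw [hd, h₁.deriv_right (by linarith : 1 ≤ 2 * s), smul_zero, zero_add]
    ext j; simp
  refine ⟨γ, ⟨hsm, hon, ?_, ?_⟩, ?_⟩
  · intro s hs
    rw [e1 s (by linarith)]
    exact h₁.left _ (by linarith)
  · intro s hs
    rw [e2 s (by linarith)]
    exact h₂.right _ (by linarith)
  · have hc := cont_form hu hw hsm hon
    unfold J
    rw [← intervalIntegral.integral_add_adjacent_intervals
      (hc.intervalIntegrable 0 (1 / 2)) (hc.intervalIntegrable (1 / 2) 1)]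
    congr 1
    · have i1 : ∫ s in (0 : ℝ)..(1 / 2), w (γ s) (deriv γ s) =
          ∫ s in (0 : ℝ)..(1 / 2), (fun x => 2 * w (γ₁ x) (deriv γ₁ x)) (2 * s) := by
        apply intervalIntegral.integral_congr
        intro s hs
        rw [Set.uIcc_of_le (by norm_num)] at hs
        simp only
        rw [e1 s hs.2, d1 s hs.2]
        exact hw.smul _ (mem_cone.2 (h₁.on _)) _
          (mem_tangent.2 (path_tan (h₁.smooth.differentiable (by norm_num)) h₁.on _)) _
      have i2 := intervalIntegral.integral_comp_mul_left (a := 0) (b := 1 / 2)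
        (fun x => 2 * w (γ₁ x) (deriv γ₁ x)) (by norm_num : (2 : ℝ) ≠ 0)
      refine (i1.trans i2).trans ?_
      rw [intervalIntegral.integral_const_mul]
      norm_num
      ring
    · have i1 : ∫ s in (1 / 2 : ℝ)..1, w (γ s) (deriv γ s) =
          ∫ s in (1 / 2 : ℝ)..1, (fun x => 2 * w (γ₂ x) (deriv γ₂ x)) (2 * s - 1) := by
        apply intervalIntegral.integral_congr
        intro s hs
        rw [Set.uIcc_of_le (by norm_num)] at hs
        simp only
        rw [e2 s hs.1, d2 s hs.1]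
        exact hw.smul _ (mem_cone.2 (h₂.on _)) _
          (mem_tangent.2 (path_tan (h₂.smooth.differentiable (by norm_num)) h₂.on _)) _
      have i2 := intervalIntegral.integral_comp_mul_sub (a := 1 / 2) (b := 1)
        (fun x => 2 * w (γ₂ x) (deriv γ₂ x)) (by norm_num : (2 : ℝ) ≠ 0) 1
      refine (i1.trans i2).trans ?_
      rw [intervalIntegral.integral_const_mul]
      norm_num
      ring

lemma symm (hw : (ZD u ⊥).IsForm w) {p q : Fin 6 → ℂ} {γ : ℝ → Fin 6 → ℂ}
    (h : FP u p q γ) : ∃ γ', FP u q p γ' ∧ J w γ' = - J w γ := by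
  have hd : ∀ s, deriv (fun s => γ (1 - s)) s = (-1 : ℂ) • deriv γ (1 - s) := by
    intro s
    have d1 := ((h.smooth.differentiable (by norm_num)) (1 - s)).hasDerivAt
    have l1 : HasDerivAt (fun s : ℝ => 1 - s) (-1) s := by
      simpa using (hasDerivAt_id s).const_sub (1 : ℝ)
    have c1 := d1.scomp s l1
    have c2 := c1.deriv
    change deriv (γ ∘ fun s => 1 - s) s = _
    rw [c2]
    ext j; simp
  refine ⟨fun s => γ (1 - s), ⟨?_, fun s => h.on _, ?_, ?_⟩, ?_⟩
  · have a1 : ContDiff ℝ 1 (fun s : ℝ => 1 - s) := by fun_prop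
    exact h.smooth.comp a1
  · intro s hs
    exact h.right _ (by linarith)
  · intro s hs
    exact h.left _ (by linarith)
  · unfold J
    have i1 : ∫ s in (0 : ℝ)..1, w (γ (1 - s)) (deriv (fun s => γ (1 - s)) s) =
        ∫ s in (0 : ℝ)..1, (fun x => -w (γ x) (deriv γ x)) (1 - s) := by
      apply intervalIntegral.integral_congr
      intro s _
      simp only
      rw [hd, hw.smul _ (mem_cone.2 (h.on _)) _
          (mem_tangent.2 (path_tan (h.smooth.differentiable (by norm_num)) h.on _))]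
      ring
    have i2 := intervalIntegral.integral_comp_sub_left (a := 0) (b := 1)
      (fun x => -w (γ x) (deriv γ x)) 1
    refine (i1.trans i2).trans ?_
    rw [intervalIntegral.integral_neg]
    norm_num

/-- the chart paths -/
lemma chart_path (hu : Adm u) (hw : (ZD u ⊥).IsForm w) {p : Fin 6 → ℂ} {k m : Fin 6}
    (hg : Good u p k m) {r : ℝ} (hr : Metric.ball (0 : ℂ) r ⊆ chU u p k m) {F : ℂ → ℂ}
    (hF : ∀ t ∈ Metric.ball (0 : ℂ) r, HasDerivAt F (w (ch u p k m t) (chD u p k m t)) t)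
    (hF0 : F 0 = 0) {τ : ℂ} (hτ : τ ∈ Metric.ball (0 : ℂ) r) (L : ℂ) :
    ∃ σ, FP u p (exp L • ch u p k m τ) σ ∧ J w σ = F τ := by
  set S : ℝ → ℝ := Real.smoothTransition with hS
  have hSc : ContDiff ℝ 1 S := Real.smoothTransition.contDiff
  have hb : ∀ s, (S s : ℂ) * τ ∈ Metric.ball (0 : ℂ) r := by
    intro s
    rw [mem_ball_zero_iff] at hτ ⊢
    rw [norm_mul, Complex.norm_real, Real.norm_eq_abs,
      abs_of_nonneg (Real.smoothTransition.nonneg s)]
    have := Real.smoothTransition.le_one s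
    nlinarith [norm_nonneg τ, Real.smoothTransition.nonneg s]
  have hbU : ∀ s, (S s : ℂ) * τ ∈ chU u p k m := fun s => hr (hb s)
  set σ : ℝ → Fin 6 → ℂ := fun s => exp ((S s : ℂ) * L) • ch u p k m ((S s : ℂ) * τ) with hσ
  have hdS : ∀ s, HasDerivAt S (deriv S s) s := fun s =>
    ((hSc.differentiable (by norm_num)) s).hasDerivAt
  set Sd : ℝ → ℝ := deriv S with hSd
  have hdSc : ∀ s, HasDerivAt (fun s => (S s : ℂ)) (Sd s : ℂ) s := fun s =>
    (hdS s).ofReal_comp
  have hdl : ∀ (a : ℂ) s, HasDerivAt (fun s => (S s : ℂ) * a) ((Sd s : ℂ) * a) s := fun a s =>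
    (hdSc s).mul_const a
  have hlin : ∀ a : ℂ, ContDiff ℝ 1 (fun s => (S s : ℂ) * a) := by
    intro a
    exact ((Complex.ofRealCLM.contDiff.comp hSc).mul contDiff_const)
  have hsm : ContDiff ℝ 1 σ := by
    have s1 : ContDiff ℝ 1 (fun s => exp ((S s : ℂ) * L)) := (hlin L).cexp
    have s2 : ContDiff ℝ 1 (fun s => ch u p k m ((S s : ℂ) * τ)) := by
      rw [contDiff_iff_contDiffAt]
      intro s
      have h1 : AnalyticAt ℂ (ch u p k m) ((S s : ℂ) * τ) := by
        have : DifferentiableOn ℂ (ch u p k m) (chU u p k m) := fun t ht =>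
          (Good.differentiableAt_ch ht).differentiableWithinAt
        exact this.analyticAt (Good.isOpen_chU.mem_nhds (hbU s))
      have h2 : ContDiffAt ℝ 1 (ch u p k m) ((S s : ℂ) * τ) := h1.contDiffAt.restrict_scalars ℝ
      exact ContDiffAt.comp (g := ch u p k m) s h2 (hlin τ).contDiffAt
    rw [contDiff_pi]
    intro j
    exact s1.mul (contDiff_pi.1 s2 j)
  have hon : ∀ s, OnZ u (σ s) := fun s => (hg.ch_onZ _).smul (exp_ne_zero _)
  have hd : ∀ s, deriv σ s = exp ((S s : ℂ) * L) • (((Sd s : ℂ) * L) •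
      ch u p k m ((S s : ℂ) * τ) + ((Sd s : ℂ) * τ) • chD u p k m ((S s : ℂ) * τ)) := by
    intro s
    have d1 : HasDerivAt (fun s => exp ((S s : ℂ) * L))
        (exp ((S s : ℂ) * L) * ((Sd s : ℂ) * L)) s := (hdl L s).cexp
    have d2 : HasDerivAt (fun s => ch u p k m ((S s : ℂ) * τ))
        (((Sd s : ℂ) * τ) • chD u p k m ((S s : ℂ) * τ)) s :=
      HasDerivAt.scomp (g₁ := ch u p k m) s (hg.hasDerivAt_ch (hbU s)) (hdl τ s)
    have d3 := (d1.smul d2).deriv
    change deriv σ s = _ at d3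
    rw [d3]
    ext j
    simp
    ring
  have hval : ∀ s, w (σ s) (deriv σ s) = ((Sd s : ℂ) * τ) *
      w (ch u p k m ((S s : ℂ) * τ)) (chD u p k m ((S s : ℂ) * τ)) := by
    intro s
    have hon' := hg.ch_onZ (t := (S s : ℂ) * τ)
    have hc' := mem_cone (u := u) (H := ⊥).2 hon'
    have ht1 := hon'.tan_self
    have ht2 := hg.tan_chD (hbU s)
    rw [hd s]
    simp only [hσ]
    rw [hw.scale _ hc' _ (mem_tangent.2 ((ht1.smul _).add (ht2.smul _))) _ (exp_ne_zero _),
      hw.add _ hc' _ (mem_tangent.2 (ht1.smul _)) _ (mem_tangent.2 (ht2.smul _)),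
      hw.smul _ hc' _ (mem_tangent.2 ht1), hw.smul _ hc' _ (mem_tangent.2 ht2), hw.radial _ hc']
    ring
  refine ⟨σ, ⟨hsm, hon, ?_, ?_⟩, ?_⟩
  · intro s hs
    simp only [hσ, hS, Real.smoothTransition.zero_of_nonpos hs]
    simp [Good.ch_zero]
  · intro s hs
    simp only [hσ, hS, Real.smoothTransition.one_of_one_le hs]
    simp
  · unfold J
    have hc := cont_form hu hw hsm hon
    have h1 : ∀ s ∈ Set.uIcc (0 : ℝ) 1, HasDerivAt (fun s => F ((S s : ℂ) * τ))
        (w (σ s) (deriv σ s)) s := by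
      intro s _
      have h3 := HasDerivAt.scomp (g₁ := F) s (hF _ (hb s)) (hdl τ s)
      rw [hval s]
      exact h3
    rw [intervalIntegral.integral_eq_sub_of_hasDerivAt h1 (hc.intervalIntegrable 0 1)]
    simp [hS, hF0]

/-- a ball in the chart and a primitive on it -/
lemma exists_prim (hw : (ZD u ⊥).IsForm w) {p : Fin 6 → ℂ} {k m : Fin 6} (hg : Good u p k m) :
    ∃ r > 0, Metric.ball (0 : ℂ) r ⊆ chU u p k m ∧ ∃ F : ℂ → ℂ, F 0 = 0 ∧
      ∀ t ∈ Metric.ball (0 : ℂ) r, HasDerivAt F (w (ch u p k m t) (chD u p k m t)) t := by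
  obtain ⟨r, hr, hb⟩ := Metric.isOpen_iff.1 (Good.isOpen_chU (u := u) (p := p) (k := k) (m := m)) 0
    Good.zero_mem_chU
  refine ⟨r, hr, hb, ?_⟩
  have h1 : DifferentiableOn ℂ (fun t => w (ch u p k m t) (chD u p k m t))
      (Metric.ball (0 : ℂ) r) := by
    refine ((hw.holo _ _ (hg.isArc ⊥)).mono hb).congr ?_
    intro t ht
    rw [hg.deriv_ch (hb ht)]
  exact h1.isExactOn_ball.with_val_at 0 0

lemma local_path (hu : Adm u) (hw : (ZD u ⊥).IsForm w) {p : Fin 6 → ℂ} {k m : Fin 6}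
    (hg : Good u p k m) {r : ℝ} (hr : Metric.ball (0 : ℂ) r ⊆ chU u p k m) {F : ℂ → ℂ}
    (hF : ∀ t ∈ Metric.ball (0 : ℂ) r, HasDerivAt F (w (ch u p k m t) (chD u p k m t)) t)
    (hF0 : F 0 = 0) {q : Fin 6 → ℂ} (hq : OnZ u q) (hqn : q ∈ nb p k m)
    (hqr : par p k m q ∈ Metric.ball (0 : ℂ) r) :
    ∃ σ, FP u p q σ ∧ J w σ = F (par p k m q) := by
  obtain ⟨σ, h1, h2⟩ := chart_path hu hw hg hr hF hF0 hqr (log (q m / p m))
  refine ⟨σ, ?_, h2⟩
  have e1 : exp (log (q m / p m)) • ch u p k m (par p k m q) = q := by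
    rw [exp_log (div_ne_zero hqn.1 hg.pm), (hg.cover hq hqn).2, smul_smul]
    have := hg.pm
    have := hqn.1
    have e2 : q m / p m * (p m / q m) = 1 := by field_simp
    rw [e2, one_smul]
  rwa [e1] at h1

lemma near (hu : Adm u) (hw : (ZD u ⊥).IsForm w) {p : Fin 6 → ℂ} {k m : Fin 6}
    (hg : Good u p k m) {r : ℝ} (hr0 : 0 < r) (hr : Metric.ball (0 : ℂ) r ⊆ chU u p k m)
    {F : ℂ → ℂ}
    (hF : ∀ t ∈ Metric.ball (0 : ℂ) r, HasDerivAt F (w (ch u p k m t) (chD u p k m t)) t)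
    (hF0 : F 0 = 0) :
    ∀ᶠ q in 𝓝[SZ u] p, ∃ σ, FP u p q σ ∧ J w σ = F (par p k m q) := by
  have h1 : nb p k m ∈ 𝓝[SZ u] p := nhdsWithin_le_nhds (Good.nb_nhds hg.mem_nb)
  have h2 : ∀ᶠ q in 𝓝[SZ u] p, par p k m q ∈ Metric.ball (0 : ℂ) r := by
    apply nhdsWithin_le_nhds
    apply (continuousAt_par (k := k) hg.pm).eventually
    rw [par_self hg.pm]
    exact Metric.ball_mem_nhds _ hr0
  filter_upwards [h1, h2, self_mem_nhdsWithin] with q a b c
  exact local_path hu hw hg hr hF hF0 c a b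

lemma reach (hu : Adm u) (hw : (ZD u ⊥).IsForm w) {p q : Fin 6 → ℂ} (hp : OnZ u p)
    (hq : OnZ u q) : ∃ γ, FP u p q γ := by
  refine (isConnected_SZ hu).isPreconnected.induction₂ (fun p q => ∃ γ, FP u p q γ)
    ?_ ?_ ?_ hp hq
  · intro x hx
    obtain ⟨k, m, hg⟩ := OnZ.exists_good hu hx
    obtain ⟨r, hr, hb, F, hF0, hF⟩ := exists_prim hw hg
    filter_upwards [near hu hw hg hr hb hF hF0] with q hq
    obtain ⟨σ, hσ, -⟩ := hq
    exact ⟨σ, hσ⟩
  · rintro x y z - - - ⟨α, hα⟩ ⟨β, hβ⟩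
    obtain ⟨γ, hγ, -⟩ := trans hu hw hα hβ
    exact ⟨γ, hγ⟩
  · rintro x y - - ⟨α, hα⟩
    obtain ⟨γ, hγ, -⟩ := symm hw hα
    exact ⟨γ, hγ⟩

/-- a continuous scale invariant function on the cone attains its maximum -/
lemma exists_max {Q : (Fin 6 → ℂ) → ℝ}
    (hQs : ∀ p, OnZ u p → ∀ c : ℂ, c ≠ 0 → Q (c • p) = Q p)
    (hcont : ∀ p, OnZ u p → ContinuousWithinAt Q (SZ u) p) :
    ∃ p₀, OnZ u p₀ ∧ ∀ q, OnZ u q → Q q ≤ Q p₀ := by
  set K : Set (Fin 6 → ℂ) := {p | OnZ u p ∧ ‖p‖ = 1} with hK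
  have hKc : IsCompact K := by
    apply Metric.isCompact_of_isClosed_isBounded
    · have : K = {p : Fin 6 → ℂ | (∀ j, p j ^ 2 = al j * p 0 ^ 2 + be u j * p 1 ^ 2)} ∩
          {p | ‖p‖ = 1} := by
        ext p
        simp only [hK, OnZ, Set.mem_inter_iff, Set.mem_ofPred_eq]
        constructor
        · rintro ⟨⟨a, b⟩, c⟩
          exact ⟨b, c⟩
        · rintro ⟨b, c⟩
          refine ⟨⟨?_, b⟩, c⟩
          rintro rfl
          simp at c
      rw [this]
      refine IsClosed.inter ?_ ?_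
      · have : {p : Fin 6 → ℂ | (∀ j, p j ^ 2 = al j * p 0 ^ 2 + be u j * p 1 ^ 2)} =
            ⋂ j, {p : Fin 6 → ℂ | p j ^ 2 = al j * p 0 ^ 2 + be u j * p 1 ^ 2} := by
          ext p; simp
        rw [this]
        refine isClosed_iInter fun j => isClosed_eq (by fun_prop) (by fun_prop)
      · exact isClosed_eq continuous_norm continuous_const
    · refine (Metric.isBounded_sphere (x := (0 : Fin 6 → ℂ)) (r := 1)).subset ?_
      intro p hp
      simpa using hp.2
  have hnorm : ∀ p, OnZ u p → (((‖p‖⁻¹ : ℝ) : ℂ)) • p ∈ K ∧ (((‖p‖⁻¹ : ℝ) : ℂ)) ≠ 0 := by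
    intro p hp
    have h1 : 0 < ‖p‖ := norm_pos_iff.2 hp.1
    have h2 : (((‖p‖⁻¹ : ℝ) : ℂ)) ≠ 0 := by
      rw [Complex.ofReal_ne_zero]
      positivity
    refine ⟨⟨hp.smul h2, ?_⟩, h2⟩
    rw [norm_smul, Complex.norm_real, norm_inv, norm_norm]
    exact inv_mul_cancel₀ h1.ne'
  obtain ⟨p, hp⟩ := exists_onZ u
  have hKn : K.Nonempty := ⟨_, (hnorm p hp).1⟩
  have hQc : ContinuousOn Q K := fun q hq => (hcont q hq.1).mono fun r hr => hr.1
  obtain ⟨p₀, hp₀, hmax⟩ := hKc.exists_isMaxOn hKn hQc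
  refine ⟨p₀, hp₀.1, ?_⟩
  intro q hq
  have h1 := hmax (hnorm q hq).1
  have h2 := hQs q hq _ (hnorm q hq).2
  simp only [Set.mem_ofPred_eq] at h1
  rw [h2] at h1
  exact h1

end PZ

open PZ in
/-- TASK C -/
theorem form_eq_zero {u : ℂ} (hu : Adm u) {w : (Fin 6 → ℂ) → (Fin 6 → ℂ) → ℂ}
    (hw : (ZD u ⊥).IsForm w) {c : ℂ} (hc : c ≠ 0)
    (h : ∀ γ : ℝ → Fin 6 → ℂ, (ZD u ⊥).IsLoop γ →
      (c * ∫ s in (0 : ℝ)..1, w (γ s) (deriv γ s)).im = 0) : w = 0 := by
  obtain ⟨b, hb⟩ := exists_onZ u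
  have hex : ∀ q, OnZ u q → ∃ γ, FP u b q γ := fun q hq => reach hu hw hb hq
  choose! Γ hΓ using hex
  set V : (Fin 6 → ℂ) → ℝ := fun q => (c * J w (Γ q)).im with hV
  have key : ∀ p q σ, OnZ u p → OnZ u q → FP u p q σ → V q = V p + (c * J w σ).im := by
    intro p q σ hp hq hσ
    obtain ⟨α, hα, jα⟩ := trans hu hw (hΓ p hp) hσ
    obtain ⟨β, hβ, jβ⟩ := symm hw (hΓ q hq)
    obtain ⟨δ, hδ, jδ⟩ := trans hu hw hα hβ
    have hl : (ZD u ⊥).IsLoop δ := by
      refine ⟨hδ.smooth, fun s => mem_cone.2 (hδ.on s), 1, Subgroup.mem_bot.2 rfl, 1, one_ne_zero, ?_⟩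
      rw [hδ.left 0 le_rfl, hδ.right 1 le_rfl]
      simp [act]
    have h1 := h δ hl
    change (c * J w δ).im = 0 at h1
    rw [jδ, jα, jβ] at h1
    have h2 : c * (J w (Γ p) + J w σ + -J w (Γ q)) =
        c * J w (Γ p) + c * J w σ - c * J w (Γ q) := by ring
    rw [h2, sub_im, add_im] at h1
    simp only [hV]
    linarith
  have hVs : ∀ p, OnZ u p → ∀ a : ℂ, a ≠ 0 → V (a • p) = V p := by
    intro p hp a ha
    obtain ⟨k, m, hg⟩ := hp.exists_good hu
    obtain ⟨r, hr, hb, F, hF0, hF⟩ := exists_prim hw hg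
    obtain ⟨σ, h1, h2⟩ := chart_path hu hw hg hb hF hF0 (Metric.mem_ball_self hr) (log a)
    rw [exp_log ha, Good.ch_zero] at h1
    rw [key p (a • p) σ hp (hp.smul ha) h1, h2, hF0]
    simp
  have hVn : ∀ p, OnZ u p → ∀ k m, Good u p k m → ∃ r > 0, ∃ F : ℂ → ℂ, F 0 = 0 ∧
      (∀ t ∈ Metric.ball (0 : ℂ) r, HasDerivAt F (w (ch u p k m t) (chD u p k m t)) t) ∧
      (∀ t ∈ Metric.ball (0 : ℂ) r, V (ch u p k m t) = V p + (c * F t).im) ∧
      ∀ᶠ q in 𝓝[SZ u] p, V q = V p + (c * F (par p k m q)).im := by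
    intro p hp k m hg
    obtain ⟨r, hr, hb, F, hF0, hF⟩ := exists_prim hw hg
    refine ⟨r, hr, F, hF0, hF, ?_, ?_⟩
    · intro t ht
      obtain ⟨σ, h1, h2⟩ := chart_path hu hw hg hb hF hF0 ht 0
      rw [exp_zero, one_smul] at h1
      rw [key p _ σ hp (hg.ch_onZ t) h1, h2]
    · filter_upwards [near hu hw hg hr hb hF hF0, self_mem_nhdsWithin] with q hq hon
      obtain ⟨σ, h1, h2⟩ := hq
      rw [key p q σ hp hon h1, h2]
  have hpar : ∀ p, OnZ u p → ∀ k m, Good u p k m →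
      Filter.Tendsto (par p k m) (𝓝[SZ u] p) (𝓝 0) := by
    intro p hp k m hg
    have := (continuousAt_par (k := k) hg.pm).tendsto
    rw [par_self hg.pm] at this
    exact this.mono_left nhdsWithin_le_nhds
  have hcont : ∀ p, OnZ u p → ContinuousWithinAt V (SZ u) p := by
    intro p hp
    obtain ⟨k, m, hg⟩ := hp.exists_good hu
    obtain ⟨r, hr, F, hF0, hF, -, hn⟩ := hVn p hp k m hg
    have h1 : ContinuousAt (fun t => V p + (c * F t).im) 0 := by
      have := (hF 0 (Metric.mem_ball_self hr)).continuousAt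
      exact continuousAt_const.add (Complex.continuous_im.continuousAt.comp
        (continuousAt_const.mul this))
    have h2 := h1.tendsto.comp (hpar p hp k m hg)
    have h3 : V p + (c * F 0).im = V p := by rw [hF0]; simp
    rw [h3] at h2
    exact h2.congr' (by filter_upwards [hn] with q hq using hq.symm)
  obtain ⟨p₀, hp₀, hmax⟩ := exists_max hVs hcont
  -- at the maximum points
  have hat : ∀ p, OnZ u p → V p = V p₀ → (∀ᶠ q in 𝓝[SZ u] p, V q = V p₀) ∧
      ∀ k m, Good u p k m → w p (chD u p k m 0) = 0 := by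
    intro p hp hpm
    have hloc : ∀ k m, Good u p k m → (∀ᶠ q in 𝓝[SZ u] p, V q = V p₀) ∧
        w p (chD u p k m 0) = 0 := by
      intro k m hg
      obtain ⟨r, hr, F, hF0, hF, hc1, hc2⟩ := hVn p hp k m hg
      have hball : Metric.ball (0 : ℂ) r ∈ 𝓝 (0 : ℂ) := Metric.ball_mem_nhds _ hr
      set G : ℂ → ℂ := fun t => exp (-I * (c * F t)) with hG
      have hGn : ∀ t, ‖G t‖ = Real.exp ((c * F t).im) := by
        intro t
        simp only [hG]
        rw [norm_exp]
        congr 1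
        simp
      have hGd : ∀ t ∈ Metric.ball (0 : ℂ) r, HasDerivAt G
          (exp (-I * (c * F t)) * (-I * (c * w (ch u p k m t) (chD u p k m t)))) t := by
        intro t ht
        exact (((hF t ht).const_mul c).const_mul (-I)).cexp
      have hle : ∀ t ∈ Metric.ball (0 : ℂ) r, (c * F t).im ≤ 0 := by
        intro t ht
        have h1 := hc1 t ht
        have h2 := hmax _ (hg.ch_onZ t)
        rw [h1, hpm] at h2
        linarith
      have hlm : IsLocalMax (norm ∘ G) 0 := by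
        have : ∀ᶠ t in 𝓝 (0 : ℂ), (norm ∘ G) t ≤ (norm ∘ G) 0 := by
          filter_upwards [hball] with t ht
          simp only [Function.comp_apply, hGn, hF0]
          simpa using hle t ht
        exact this
      have hconst : ∀ᶠ t in 𝓝 (0 : ℂ), G t = G 0 := by
        apply Complex.eventually_eq_of_isLocalMax_norm _ hlm
        filter_upwards [hball] with t ht
        exact (hGd t ht).differentiableAt
      constructor
      · have h1 : ∀ᶠ t in 𝓝 (0 : ℂ), (c * F t).im = 0 := by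
          filter_upwards [hconst] with t ht
          have h2 := congrArg norm ht
          rw [hGn, hGn, hF0] at h2
          simpa using h2
        have h3 := (hpar p hp k m hg).eventually h1
        filter_upwards [h3, hc2] with q a1 a2
        rw [a2, a1, hpm, add_zero]
      · have h1 : deriv G 0 = 0 := by
          have : G =ᶠ[𝓝 0] fun _ => G 0 := hconst
          rw [this.deriv_eq]
          simp
        rw [(hGd 0 (Metric.mem_ball_self hr)).deriv, Good.ch_zero] at h1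
        have h2 := (mul_eq_zero.1 h1).resolve_left (exp_ne_zero _)
        have h3 := (mul_eq_zero.1 h2).resolve_left (neg_ne_zero.2 I_ne_zero)
        exact (mul_eq_zero.1 h3).resolve_left hc
    obtain ⟨k, m, hg⟩ := hp.exists_good hu
    exact ⟨(hloc k m hg).1, fun k m hg => (hloc k m hg).2⟩
  have hall : ∀ p, OnZ u p → V p = V p₀ := by
    intro p hp
    have := (isConnected_SZ hu).isPreconnected.induction₂
      (fun x y => V x = V p₀ ↔ V y = V p₀) ?_ ?_ ?_ hp₀ hp
    · exact this.1 rfl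
    · intro x hx
      by_cases hxm : V x = V p₀
      · filter_upwards [(hat x hx hxm).1] with y hy
        exact ⟨fun _ => hy, fun _ => hxm⟩
      · have := (hcont x hx).eventually_ne hxm
        filter_upwards [this] with y hy
        exact ⟨fun h => absurd h hxm, fun h => absurd h hy⟩
    · intro x y z _ _ _ a b
      exact a.trans b
    · intro x y _ _ a
      exact a.symm
  funext p v
  by_cases hpv : OnZ u p ∧ Tan u p v
  · obtain ⟨hp, hv⟩ := hpv
    obtain ⟨k, m, hg⟩ := hp.exists_good hu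
    have h1 := (hat p hp (hall p hp)).2 k m hg
    have h0 := Good.zero_mem_chU (u := u) (p := p) (k := k) (m := m)
    have htan := hg.tan_chD h0
    rw [Good.ch_zero] at htan
    have hcn := mem_cone (u := u) (H := ⊥).2 hp
    rw [hg.tan_eq hv, hw.add _ hcn _ (mem_tangent.2 (hp.tan_self.smul _)) _
      (mem_tangent.2 (htan.smul _)), hw.smul _ hcn _ (mem_tangent.2 hp.tan_self),
      hw.smul _ hcn _ (mem_tangent.2 htan), hw.radial _ hcn, h1]
    simp
  · have : ¬ (p ∈ (ZD u ⊥).cone ∧ v ∈ (ZD u ⊥).tangent p) := by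
      rw [mem_cone, mem_tangent]; exact hpv
    rw [hw.supp p v this]
    rfl

end Pool.Agent.R403.IS
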