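import Mathlib
import Pool.Agent.Helper487.ECM.Addition
import Pool.Agent.W520.Lift
import Pool.Agent.R403.IS.HalfFacts

/-!
Periods of the invariant differential of a Weierstrass curve over closed paths which may pass
through the point at infinity; half periods.
-/

set_option autoImplicit false

open Set Filter Topology
open scoped PeriodPair ComplexConjugate

namespace Pool.Agent.R403.IS

/-! ### half periods -/

theorem notMem_half3 (L : PeriodPair) : (L.ω₁ + L.ω₂) / 2 ∉ L.lattice := by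
  have h1 := (L.mul_ω₁_add_mul_ω₂_mem_lattice (α := 1 / 2) (β := 1 / 2)).not.mpr (by norm_num)
  intro h2
  apply h1
  convert h2 using 1
  push_cast
  ring

theorem deriv_half (L : PeriodPair) {w : ℂ} (hw : w ∈ L.lattice) :
    ℘'[L] (w / 2) = 0 := by
  have h3 : ℘'[L] (w / 2) = ℘'[L] (-(w / 2)) := by
    have h4 := L.derivWeierstrassP_add_coe (-(w / 2)) ⟨w, hw⟩
    rw [← h4]
    congr 1
    simp only
    ring
  rw [L.derivWeierstrassP_neg] at h3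
  have h5 : (2 : ℂ) * ℘'[L] (w / 2) = 0 := by linear_combination h3
  exact (mul_eq_zero.1 h5).resolve_left two_ne_zero

theorem root_half (L : PeriodPair) {w : ℂ} (hw : w ∈ L.lattice) (hw2 : w / 2 ∉ L.lattice) :
    4 * ℘[L] (w / 2) ^ 3 - L.g₂ * ℘[L] (w / 2) - L.g₃ = 0 := by
  have h1 := L.derivWeierstrassP_sq (w / 2) hw2
  rw [deriv_half L hw] at h1
  linear_combination -h1

theorem half_facts_all (L : PeriodPair) {e₁ e₂ e₃ : ℂ} (h₁ : e₁ = ℘[L] (L.ω₁ / 2))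
    (h₂ : e₂ = ℘[L] (L.ω₂ / 2)) (h₃ : e₃ = ℘[L] ((L.ω₁ + L.ω₂) / 2)) :
    (e₁ ≠ e₂ ∧ e₁ ≠ e₃ ∧ e₂ ≠ e₃ ∧ e₁ + e₂ + e₃ = 0) ∧
      L.g₂ = 4 * (e₁ ^ 2 + e₁ * e₂ + e₂ ^ 2) ∧ L.g₃ = -4 * e₁ * e₂ * (e₁ + e₂) := by
  have m1 : L.ω₁ / 2 ∉ L.lattice := L.ω₁_div_two_notMem_lattice
  have m2 : L.ω₂ / 2 ∉ L.lattice := L.ω₂_div_two_notMem_lattice
  have m3 := notMem_half3 L
  have d12 : e₁ ≠ e₂ := by
    rw [h₁, h₂]
    intro he
    rcases Wg.wp_inj L _ _ m1 m2 he with h | h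
    · apply m3
      have := add_mem h L.ω₂_mem_lattice
      convert this using 1
      ring
    · apply m3
      convert h using 1
      ring
  have d13 : e₁ ≠ e₃ := by
    rw [h₁, h₃]
    intro he
    rcases Wg.wp_inj L _ _ m1 m3 he with h | h
    · apply m2
      have := neg_mem h
      convert this using 1
      ring
    · apply m2
      have := sub_mem h L.ω₁_mem_lattice
      convert this using 1
      ring
  have d23 : e₂ ≠ e₃ := by
    rw [h₂, h₃]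
    intro he
    rcases Wg.wp_inj L _ _ m2 m3 he with h | h
    · apply m1
      have := neg_mem h
      convert this using 1
      ring
    · apply m1
      have := sub_mem h L.ω₂_mem_lattice
      convert this using 1
      ring
  have r1 := root_half L L.ω₁_mem_lattice m1
  have r2 := root_half L L.ω₂_mem_lattice m2
  have r3 := root_half L (L.lattice.add_mem L.ω₁_mem_lattice L.ω₂_mem_lattice) m3
  rw [← h₁] at r1
  rw [← h₂] at r2
  rw [← h₃] at r3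
  have s12 : 4 * (e₁ ^ 2 + e₁ * e₂ + e₂ ^ 2) = L.g₂ := by
    have h1 : (e₁ - e₂) * (4 * (e₁ ^ 2 + e₁ * e₂ + e₂ ^ 2) - L.g₂) = 0 := by
      linear_combination r1 - r2
    exact sub_eq_zero.1 ((mul_eq_zero.1 h1).resolve_left (sub_ne_zero.2 d12))
  have s13 : 4 * (e₁ ^ 2 + e₁ * e₃ + e₃ ^ 2) = L.g₂ := by
    have h1 : (e₁ - e₃) * (4 * (e₁ ^ 2 + e₁ * e₃ + e₃ ^ 2) - L.g₂) = 0 := by
      linear_combination r1 - r3
    exact sub_eq_zero.1 ((mul_eq_zero.1 h1).resolve_left (sub_ne_zero.2 d13))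
  have s : e₁ + e₂ + e₃ = 0 := by
    have h1 : (e₂ - e₃) * (e₁ + e₂ + e₃) = 0 := by linear_combination (s12 - s13) / 4
    exact (mul_eq_zero.1 h1).resolve_left (sub_ne_zero.2 d23)
  exact ⟨⟨d12, d13, d23, s⟩, s12.symm, by linear_combination -r1 + e₁ * s12⟩

/-! ### translation by a half period -/

theorem wp_eq_half (L : PeriodPair) {z : ℂ} (hz : z + L.ω₁ / 2 ∈ L.lattice) :
    ℘[L] z = ℘[L] (L.ω₁ / 2) := by
  have h1 := L.weierstrassP_add_coe (-(L.ω₁ / 2)) ⟨z + L.ω₁ / 2, hz⟩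
  have h2 : -(L.ω₁ / 2) + ((⟨z + L.ω₁ / 2, hz⟩ : L.lattice) : ℂ) = z := by
    simp only
    ring
  rw [h2, L.weierstrassP_neg] at h1
  exact h1

theorem wp_ne_half (L : PeriodPair) {z : ℂ} (hz : z ∉ L.lattice)
    (hz2 : z + L.ω₁ / 2 ∉ L.lattice) : ℘[L] z ≠ ℘[L] (L.ω₁ / 2) := by
  intro he
  rcases Wg.wp_inj L _ _ hz L.ω₁_div_two_notMem_lattice he with h | h
  · apply hz2
    have := add_mem h L.ω₁_mem_lattice
    convert this using 1
    ring
  · exact hz2 h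

theorem wp_add_half (L : PeriodPair) {e₁ e₂ e₃ : ℂ} (h₁ : e₁ = ℘[L] (L.ω₁ / 2))
    (h₂ : e₂ = ℘[L] (L.ω₂ / 2)) (h₃ : e₃ = ℘[L] ((L.ω₁ + L.ω₂) / 2)) {z : ℂ}
    (hz : z ∉ L.lattice) (hz2 : z + L.ω₁ / 2 ∉ L.lattice) :
    ℘[L] (z + L.ω₁ / 2) = e₁ + (e₁ - e₂) * (e₁ - e₃) / (℘[L] z - e₁) := by
  obtain ⟨⟨-, -, -, hs⟩, g2, g3⟩ := half_facts_all L h₁ h₂ h₃
  have hne := wp_ne_half L hz hz2
  rw [← h₁] at hne
  have m1 : L.ω₁ / 2 ∉ L.lattice := L.ω₁_div_two_notMem_lattice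
  have hnz : -z ∉ L.lattice := fun hc => hz (by simpa using neg_mem hc)
  have ha := Helper487.ECM.add_formula L (c := z + L.ω₁ / 2) (w := -z) hz2 hnz
    (by
      have : z + L.ω₁ / 2 + -z = L.ω₁ / 2 := by ring
      rw [this]
      exact m1)
  have e : z + L.ω₁ / 2 + -z = L.ω₁ / 2 := by ring
  rw [e, Helper487.ECM.wp_zero_eq, Helper487.ECM.wp_one_eq, L.weierstrassP_neg,
    deriv_half L L.ω₁_mem_lattice, ← h₁] at ha
  have h3 : ℘[L] z - e₁ ≠ 0 := sub_ne_zero.2 hne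
  have h4 : (℘[L] z - e₁) * ((℘[L] (z + L.ω₁ / 2) - e₁) * (℘[L] z - e₁) -
      (e₁ - e₂) * (e₁ - e₃)) = 0 := by
    have e3 : e₃ = -(e₁ + e₂) := by linear_combination hs
    rw [g2, g3] at ha
    rw [e3]
    linear_combination -ha / 4
  have h5 := (mul_eq_zero.1 h4).resolve_left h3
  have h6 : ℘[L] (z + L.ω₁ / 2) - e₁ = (e₁ - e₂) * (e₁ - e₃) / (℘[L] z - e₁) := by
    rw [eq_div_iff h3]
    linear_combination h5
  linear_combination h6

theorem deriv_add_half (L : PeriodPair) {e₁ e₂ e₃ : ℂ} (h₁ : e₁ = ℘[L] (L.ω₁ / 2))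
    (h₂ : e₂ = ℘[L] (L.ω₂ / 2)) (h₃ : e₃ = ℘[L] ((L.ω₁ + L.ω₂) / 2)) {z : ℂ}
    (hz : z ∉ L.lattice) (hz2 : z + L.ω₁ / 2 ∉ L.lattice) :
    ℘'[L] (z + L.ω₁ / 2) = -((e₁ - e₂) * (e₁ - e₃) * ℘'[L] z / (℘[L] z - e₁) ^ 2) := by
  have hne := wp_ne_half L hz hz2
  rw [← h₁] at hne
  have h3 : ℘[L] z - e₁ ≠ 0 := sub_ne_zero.2 hne
  have hop : IsOpen (L.lattice : Set ℂ)ᶜ := L.isClosed_lattice.isOpen_compl
  have h4 : HasDerivAt (fun w => ℘[L] (w + L.ω₁ / 2)) (℘'[L] (z + L.ω₁ / 2)) z := by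
    have := (Wg.wp_inj_hasDeriv L _ hz2).comp_add_const z (L.ω₁ / 2)
    exact this
  have h5 : HasDerivAt (fun w => e₁ + (e₁ - e₂) * (e₁ - e₃) / (℘[L] w - e₁))
      (-((e₁ - e₂) * (e₁ - e₃) * ℘'[L] z / (℘[L] z - e₁) ^ 2)) z := by
    have h6 := (Wg.wp_inj_hasDeriv L _ hz).sub_const e₁
    have h7 := ((hasDerivAt_const z ((e₁ - e₂) * (e₁ - e₃))).div h6 h3).const_add e₁
    refine h7.congr_deriv ?_
    ring
  refine h4.unique (h5.congr_of_eventuallyEq ?_)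
  have hc : ContinuousAt (fun w : ℂ => w + L.ω₁ / 2) z := by fun_prop
  filter_upwards [hop.mem_nhds hz, hc.eventually (hop.mem_nhds hz2)] with w hw hw2
  exact wp_add_half L h₁ h₂ h₃ hw hw2

/-! ### lifting -/

/-- `z` is a point over the affine point `(x, y)` of the cubic. -/
def Over (L : PeriodPair) (z x y : ℂ) : Prop := z ∉ L.lattice ∧ ℘[L] z = x ∧ ℘'[L] z = y

theorem lift_right (L : PeriodPair) {x y q u : ℝ → ℂ} {a b : ℝ} (hq : Continuous q)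
    (hud : ∀ s, HasDerivAt u (q s) s)
    (hx : ∀ s ∈ Icc a b, HasDerivAt x (y s * q s) s)
    (hy : ∀ s ∈ Icc a b, HasDerivAt y ((6 * x s ^ 2 - L.g₂ / 2) * q s) s)
    (h0 : Over L (u a) (x a) (y a)) : ∀ s ∈ Icc a b, Over L (u s) (x s) (y s) := by
  rcases lt_or_ge b a with hba | hab
  · intro s hs
    exact absurd (hs.1.trans hs.2) (not_le.2 hba)
  have huc : Continuous u := continuous_iff_continuousAt.2 fun s => (hud s).continuousAt
  have hxc : ContinuousOn x (Icc a b) := fun s hs => (hx s hs).continuousAt.continuousWithinAt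
  have hyc : ContinuousOn y (Icc a b) := fun s hs => (hy s hs).continuousAt.continuousWithinAt
  have hop : IsOpen (L.lattice : Set ℂ)ᶜ := L.isClosed_lattice.isOpen_compl
  set G : Set ℝ := {s | u s ∉ L.lattice ∧ L.weierstrassP (u s) = x s ∧
    L.derivWeierstrassP (u s) = y s} with hG
  have h0G : a ∈ G := h0
  have hcl : IsClosed (G ∩ Icc a b) := by
    refine isClosed_of_closure_subset fun s hs => ?_
    have hsI : s ∈ Icc a b := by
      have := closure_mono (inter_subset_right : G ∩ Icc a b ⊆ Icc a b) hs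
      rwa [isClosed_Icc.closure_eq] at this
    have hne : (𝓝[G ∩ Icc a b] s).NeBot := mem_closure_iff_nhdsWithin_neBot.1 hs
    have hxt : Tendsto x (𝓝[G ∩ Icc a b] s) (𝓝 (x s)) :=
      (hxc s hsI).tendsto.mono_left (nhdsWithin_mono _ inter_subset_right)
    have hyt : Tendsto y (𝓝[G ∩ Icc a b] s) (𝓝 (y s)) :=
      (hyc s hsI).tendsto.mono_left (nhdsWithin_mono _ inter_subset_right)
    have hut : Tendsto u (𝓝[G ∩ Icc a b] s) (𝓝 (u s)) :=
      huc.continuousAt.tendsto.mono_left nhdsWithin_le_nhds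
    have hin : ∀ᶠ t in 𝓝[G ∩ Icc a b] s, t ∈ G := by
      filter_upwards [self_mem_nhdsWithin] with t ht using ht.1
    have hus : u s ∉ L.lattice := by
      intro hc
      have h1 : Tendsto u (𝓝[G ∩ Icc a b] s) (𝓝[≠] (u s)) := by
        refine tendsto_nhdsWithin_iff.2 ⟨hut, ?_⟩
        filter_upwards [hin] with t ht heq
        exact ht.1 (by rw [show u t = u s from heq]; exact hc)
      have h2 := (W520.tendsto_wp_cobounded L hc).comp h1
      have h3 : Tendsto (L.weierstrassP ∘ u) (𝓝[G ∩ Icc a b] s) (𝓝 (x s)) := by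
        refine hxt.congr' ?_
        filter_upwards [hin] with t ht using ht.2.1.symm
      have h4 := tendsto_norm_cobounded_atTop.comp h2
      have h5 := h3.norm
      exact not_tendsto_nhds_of_tendsto_atTop h4 _ h5
    refine ⟨⟨hus, ?_, ?_⟩, hsI⟩
    · have h1 : ContinuousAt L.weierstrassP (u s) :=
        (L.analyticOnNhd_weierstrassP _ hus).continuousAt
      have h2 : Tendsto (fun t => L.weierstrassP (u t)) (𝓝[G ∩ Icc a b] s)
        (𝓝 (L.weierstrassP (u s))) := h1.tendsto.comp hut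
      refine tendsto_nhds_unique h2 (hxt.congr' ?_)
      filter_upwards [hin] with t ht using ht.2.1.symm
    · have h1 : ContinuousAt L.derivWeierstrassP (u s) :=
        (L.analyticOnNhd_derivWeierstrassP _ hus).continuousAt
      have h2 : Tendsto (fun t => L.derivWeierstrassP (u t)) (𝓝[G ∩ Icc a b] s)
        (𝓝 (L.derivWeierstrassP (u s))) := h1.tendsto.comp hut
      refine tendsto_nhds_unique h2 (hyt.congr' ?_)
      filter_upwards [hin] with t ht using ht.2.2.symm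
  have hopen : ∀ s ∈ G ∩ Ico a b, G ∈ 𝓝[>] s := by
    rintro s ⟨hsG, hs0, hs1⟩
    have hev : ∀ᶠ t in 𝓝 s, u t ∉ L.lattice ∧ t < b :=
      (huc.continuousAt.eventually (hop.mem_nhds hsG.1)).and (eventually_lt_nhds hs1)
    obtain ⟨ε, hε, hball⟩ := Metric.eventually_nhds_iff.1 hev
    set c : ℝ := s + ε / 2 with hc
    have hsb : s < c := by linarith
    have hin : ∀ t ∈ Icc s c, u t ∉ L.lattice ∧ t < b := by
      intro t ht
      refine hball ?_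
      rw [Real.dist_eq, abs_lt]
      constructor <;> linarith [ht.1, ht.2]
    have hIcc : Icc s c ⊆ Icc a b := fun t ht => ⟨hs0.trans ht.1, (hin t ht).2.le⟩
    set D : ℝ → ℂ × ℂ := fun t => (x t - L.weierstrassP (u t), y t - L.derivWeierstrassP (u t))
      with hD
    set D' : ℝ → ℂ × ℂ := fun t => ((D t).2 * q t,
      (6 * (x t + L.weierstrassP (u t))) * (D t).1 * q t) with hD'
    have hPd : ∀ t ∈ Icc s c, HasDerivAt (fun t => L.weierstrassP (u t))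
        (L.derivWeierstrassP (u t) * q t) t := by
      intro t ht
      have h1 := Wg.wp_inj_hasDeriv L (u t) (hin t ht).1
      exact h1.comp_of_eq t (hud t) rfl
    have hPd' : ∀ t ∈ Icc s c, HasDerivAt (fun t => L.derivWeierstrassP (u t))
        ((6 * L.weierstrassP (u t) ^ 2 - L.g₂ / 2) * q t) t := by
      intro t ht
      have h1 := Wg.wp_inj_hasDeriv' L (u t) (hin t ht).1
      rw [Wg.wp_inj_ode L (u t) (hin t ht).1] at h1
      exact h1.comp_of_eq t (hud t) rfl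
    have hPc : ContinuousOn (fun t => L.weierstrassP (u t)) (Icc s c) :=
      fun t ht => (hPd t ht).continuousAt.continuousWithinAt
    have hPc' : ContinuousOn (fun t => L.derivWeierstrassP (u t)) (Icc s c) :=
      fun t ht => (hPd' t ht).continuousAt.continuousWithinAt
    have hDc : ContinuousOn D (Icc s c) :=
      ((hxc.mono hIcc).sub hPc).prodMk ((hyc.mono hIcc).sub hPc')
    have hDd : ∀ t ∈ Ico s c, HasDerivWithinAt D (D' t) (Ici t) t := by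
      intro t ht
      have ht' : t ∈ Icc s c := ⟨ht.1, ht.2.le⟩
      have ht1 : t ∈ Icc a b := hIcc ht'
      have e3 := ((hx t ht1).sub (hPd t ht')).hasDerivWithinAt (s := Ici t)
      have e4 := ((hy t ht1).sub (hPd' t ht')).hasDerivWithinAt (s := Ici t)
      refine (e3.prodMk e4).congr_deriv ?_
      simp only [hD', hD]
      ext <;> ring
    obtain ⟨K1, hK1⟩ := isCompact_Icc.exists_bound_of_continuousOn
      (hq.continuousOn (s := Icc s c))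
    obtain ⟨K2, hK2⟩ := isCompact_Icc.exists_bound_of_continuousOn
      (((hxc.mono hIcc).add hPc).const_smul (6 : ℂ))
    have hK1' : ∀ t ∈ Icc s c, ‖q t‖ ≤ max K1 0 := fun t ht => (hK1 t ht).trans (le_max_left _ _)
    have hK2' : ∀ t ∈ Icc s c, ‖6 * (x t + L.weierstrassP (u t))‖ ≤ max K2 0 :=
      fun t ht => by
        have := (hK2 t ht).trans (le_max_left _ 0)
        simpa [smul_eq_mul] using this
    have hbd : ∀ t ∈ Ico s c, ‖D' t‖ ≤ ((max K2 0 + 1) * max K1 0) * ‖D t‖ := by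
      intro t ht
      have ht' : t ∈ Icc s c := ⟨ht.1, ht.2.le⟩
      have n1 : ‖(D t).1‖ ≤ ‖D t‖ := norm_fst_le _
      have n2 : ‖(D t).2‖ ≤ ‖D t‖ := norm_snd_le _
      have k1 := hK1' t ht'
      have k2 := hK2' t ht'
      have p1 : 0 ≤ max K1 0 := le_max_right _ _
      have p2 : 0 ≤ max K2 0 := le_max_right _ _
      have p3 : 0 ≤ ‖D t‖ := norm_nonneg _
      rw [Prod.norm_def]
      refine max_le ?_ ?_
      · simp only [hD', norm_mul]
        calc ‖(D t).2‖ * ‖q t‖ ≤ ‖D t‖ * max K1 0 := by gcongr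
          _ ≤ ((max K2 0 + 1) * max K1 0) * ‖D t‖ := by nlinarith [mul_nonneg (mul_nonneg p2 p1) p3]
      · simp only [hD']
        rw [norm_mul, norm_mul]
        calc ‖6 * (x t + L.weierstrassP (u t))‖ * ‖(D t).1‖ * ‖q t‖
            ≤ max K2 0 * ‖D t‖ * max K1 0 := by gcongr
          _ ≤ ((max K2 0 + 1) * max K1 0) * ‖D t‖ := by nlinarith [mul_nonneg p1 p3]
    have hD0 : D s = 0 := by
      simp only [hD, hsG.2.1, hsG.2.2, sub_self]
      rfl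
    have hz := eq_zero_of_abs_deriv_le_mul_abs_self_of_eq_zero_right hDc hDd hD0 hbd
    have : Ioc s c ∈ 𝓝[>] s := Ioc_mem_nhdsGT hsb
    refine mem_of_superset this fun t ht => ?_
    have ht' : t ∈ Icc s c := ⟨ht.1.le, ht.2⟩
    have h1 := hz t ht'
    have h2 : x t - L.weierstrassP (u t) = 0 := congrArg Prod.fst h1
    have h3 : y t - L.derivWeierstrassP (u t) = 0 := congrArg Prod.snd h1
    exact ⟨(hin t ht').1, (sub_eq_zero.1 h2).symm, (sub_eq_zero.1 h3).symm⟩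
  exact fun s hs => hcl.Icc_subset_of_forall_mem_nhdsWithin h0G hopen hs

theorem lift_ball (L : PeriodPair) {x y q u : ℝ → ℂ} {r ε : ℝ} (hq : Continuous q)
    (hud : ∀ s, HasDerivAt u (q s) s)
    (hx : ∀ s, |s - r| < ε → HasDerivAt x (y s * q s) s)
    (hy : ∀ s, |s - r| < ε → HasDerivAt y ((6 * x s ^ 2 - L.g₂ / 2) * q s) s)
    {a s : ℝ} (ha : |a - r| < ε) (hs : |s - r| < ε)
    (h0 : Over L (u a) (x a) (y a)) : Over L (u s) (x s) (y s) := by
  rw [abs_lt] at ha hs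
  rcases le_total a s with h | h
  · refine lift_right L (a := a) (b := s) hq hud (fun t ht => hx t ?_) (fun t ht => hy t ?_) h0 s
      ⟨h, le_rfl⟩
    · rw [abs_lt]; constructor <;> linarith [ht.1, ht.2]
    · rw [abs_lt]; constructor <;> linarith [ht.1, ht.2]
  · have h1 := lift_right L (x := fun t => x (-t)) (y := fun t => y (-t)) (q := fun t => -q (-t))
      (u := fun t => u (-t)) (a := -a) (b := -s) (by fun_prop)
      (fun t => by
        have := (hud (-t)).scomp t (hasDerivAt_neg t)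
        refine this.congr_deriv ?_
        simp)
      (fun t ht => by
        have hb : |(-t) - r| < ε := by
          rw [abs_lt]; constructor <;> linarith [ht.1, ht.2]
        have := (hx (-t) hb).scomp t (hasDerivAt_neg t)
        refine this.congr_deriv ?_
        simp)
      (fun t ht => by
        have hb : |(-t) - r| < ε := by
          rw [abs_lt]; constructor <;> linarith [ht.1, ht.2]
        have := (hy (-t) hb).scomp t (hasDerivAt_neg t)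
        refine this.congr_deriv ?_
        simp)
      (by simpa using h0) (-s) ⟨by linarith, le_rfl⟩
    simpa using h1

/-! ### the two charts -/

theorem chart_deriv {A B C D : ℝ → ℂ} {A' B' C' D' : ℂ} {s : ℝ} (hA : HasDerivAt A A' s)
    (hB : HasDerivAt B B' s) (hC : HasDerivAt C C' s) (hD : HasDerivAt D D' s)
    (hne : A s ≠ 0) (k e : ℂ) :
    HasDerivAt (fun t => k * (B t / A t) ^ 2 + e)
      (k * (2 * (B s / A s) * ((B' * A s - B s * A') / A s ^ 2))) s ∧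
    HasDerivAt (fun t => k * (B t * C t * D t / A t ^ 3))
      (k * ((((B' * C s + B s * C') * D s + B s * C s * D') * A s ^ 3 -
        B s * C s * D s * (3 * A s ^ 2 * A')) / (A s ^ 3) ^ 2)) s := by
  constructor
  · have h1 := (((hB.div hA hne).pow 2).const_mul k).add_const e
    refine h1.congr_deriv ?_
    simp
  · have h1 := (((hB.mul hC).mul hD).div (hA.pow 3) (pow_ne_zero 3 hne)).const_mul k
    refine h1.congr_deriv ?_
    simp

theorem alg1 {A B C D A' B' C' D' q e₁ e₂ e₃ g : ℂ} (hA : A ≠ 0) (hs : e₁ + e₂ + e₃ = 0)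
    (hg : g = 4 * (e₁ ^ 2 + e₁ * e₂ + e₂ ^ 2)) (h3 : B ^ 2 - C ^ 2 = (e₂ - e₁) * A ^ 2)
    (h4 : B ^ 2 - D ^ 2 = (e₃ - e₁) * A ^ 2) (d2 : A * B' - B * A' = q * (C * D))
    (d3 : A * C' - C * A' = q * (B * D)) (d4 : A * D' - D * A' = q * (B * C)) :
    2 * (B / A) * ((B' * A - B * A') / A ^ 2) = 2 * (B * C * D / A ^ 3) * q ∧
    2 * ((((B' * C + B * C') * D + B * C * D') * A ^ 3 -
        B * C * D * (3 * A ^ 2 * A')) / (A ^ 3) ^ 2) =
      (6 * ((B / A) ^ 2 + e₁) ^ 2 - g / 2) * q := by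
  constructor
  · have : B' * A - B * A' = q * (C * D) := by linear_combination d2
    rw [this]
    field_simp
  · have hN : ((B' * C + B * C') * D + B * C * D') * A ^ 3 -
        B * C * D * (3 * A ^ 2 * A') =
        A ^ 2 * (q * (C ^ 2 * D ^ 2 + B ^ 2 * D ^ 2 + B ^ 2 * C ^ 2)) := by
      linear_combination A ^ 2 * (C * D * d2 + B * D * d3 + B * C * d4)
    have hC : C ^ 2 = B ^ 2 - (e₂ - e₁) * A ^ 2 := by linear_combination -h3
    have hD : D ^ 2 = B ^ 2 - (e₃ - e₁) * A ^ 2 := by linear_combination -h4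
    have he : e₃ = -(e₁ + e₂) := by linear_combination hs
    have key : 2 * (C ^ 2 * D ^ 2 + B ^ 2 * D ^ 2 + B ^ 2 * C ^ 2) =
        6 * (B ^ 2 + e₁ * A ^ 2) ^ 2 - g / 2 * A ^ 4 := by
      rw [hC, hD, hg, he]
      ring
    have h6 : (6 * ((B / A) ^ 2 + e₁) ^ 2 - g / 2) * A ^ 4 =
        6 * (B ^ 2 + e₁ * A ^ 2) ^ 2 - g / 2 * A ^ 4 := by
      field_simp
    rw [hN]
    have hA4 : A ^ 4 ≠ 0 := pow_ne_zero 4 hA
    have h7 : 2 * (A ^ 2 * (q * (C ^ 2 * D ^ 2 + B ^ 2 * D ^ 2 + B ^ 2 * C ^ 2)) / (A ^ 3) ^ 2) =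
        2 * (C ^ 2 * D ^ 2 + B ^ 2 * D ^ 2 + B ^ 2 * C ^ 2) * q / A ^ 4 := by
      field_simp
    rw [h7, key, ← h6]
    field_simp

theorem alg2 {A B C D A' B' C' D' q e₁ e₂ e₃ g : ℂ} (hB : B ≠ 0) (hs : e₁ + e₂ + e₃ = 0)
    (hg : g = 4 * (e₁ ^ 2 + e₁ * e₂ + e₂ ^ 2)) (h3 : B ^ 2 - C ^ 2 = (e₂ - e₁) * A ^ 2)
    (h4 : B ^ 2 - D ^ 2 = (e₃ - e₁) * A ^ 2) (d2 : A * B' - B * A' = q * (C * D))
    (d23 : B * C' - C * B' = (e₂ - e₁) * q * (A * D))
    (d24 : B * D' - D * B' = (e₃ - e₁) * q * (A * C)) :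
    ((e₁ - e₂) * (e₁ - e₃)) * (2 * (A / B) * ((A' * B - A * B') / B ^ 2)) =
      -(2 * ((e₁ - e₂) * (e₁ - e₃))) * (A * C * D / B ^ 3) * q ∧
    -(2 * ((e₁ - e₂) * (e₁ - e₃))) * ((((A' * C + A * C') * D + A * C * D') * B ^ 3 -
        A * C * D * (3 * B ^ 2 * B')) / (B ^ 3) ^ 2) =
      (6 * (((e₁ - e₂) * (e₁ - e₃)) * (A / B) ^ 2 + e₁) ^ 2 - g / 2) * q := by
  constructor
  · have : A' * B - A * B' = -(q * (C * D)) := by linear_combination -d2
    rw [this]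
    field_simp
  · have hN : ((A' * C + A * C') * D + A * C * D') * B ^ 3 -
        A * C * D * (3 * B ^ 2 * B') =
        -(B ^ 2 * (q * (C ^ 2 * D ^ 2 - (e₂ - e₁) * A ^ 2 * D ^ 2 - (e₃ - e₁) * A ^ 2 * C ^ 2))) := by
      linear_combination B ^ 2 * (-C * D * d2 + A * D * d23 + A * C * d24)
    have hC : C ^ 2 = B ^ 2 - (e₂ - e₁) * A ^ 2 := by linear_combination -h3
    have hD : D ^ 2 = B ^ 2 - (e₃ - e₁) * A ^ 2 := by linear_combination -h4
    have he : e₃ = -(e₁ + e₂) := by linear_combination hs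
    have key : 2 * ((e₁ - e₂) * (e₁ - e₃)) *
        (C ^ 2 * D ^ 2 - (e₂ - e₁) * A ^ 2 * D ^ 2 - (e₃ - e₁) * A ^ 2 * C ^ 2) =
        6 * (((e₁ - e₂) * (e₁ - e₃)) * A ^ 2 + e₁ * B ^ 2) ^ 2 - g / 2 * B ^ 4 := by
      rw [hC, hD, hg, he]
      ring
    have h6 : (6 * (((e₁ - e₂) * (e₁ - e₃)) * (A / B) ^ 2 + e₁) ^ 2 - g / 2) * B ^ 4 =
        6 * (((e₁ - e₂) * (e₁ - e₃)) * A ^ 2 + e₁ * B ^ 2) ^ 2 - g / 2 * B ^ 4 := by
      field_simp
    rw [hN]
    have hB4 : B ^ 4 ≠ 0 := pow_ne_zero 4 hB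
    have h7 : -(2 * ((e₁ - e₂) * (e₁ - e₃))) * (-(B ^ 2 * (q *
        (C ^ 2 * D ^ 2 - (e₂ - e₁) * A ^ 2 * D ^ 2 - (e₃ - e₁) * A ^ 2 * C ^ 2))) / (B ^ 3) ^ 2) =
        2 * ((e₁ - e₂) * (e₁ - e₃)) *
        (C ^ 2 * D ^ 2 - (e₂ - e₁) * A ^ 2 * D ^ 2 - (e₃ - e₁) * A ^ 2 * C ^ 2) * q / B ^ 4 := by
      field_simp
    rw [h7, key, ← h6]
    field_simp

/-- TASK A -/
theorem period_mem (L : PeriodPair) {e₁ e₂ e₃ : ℂ} (h₁ : e₁ = ℘[L] (L.ω₁ / 2))
    (h₂ : e₂ = ℘[L] (L.ω₂ / 2)) (h₃ : e₃ = ℘[L] ((L.ω₁ + L.ω₂) / 2))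
    {X₁ X₂ X₃ X₄ q : ℝ → ℂ} (hX₁ : Differentiable ℝ X₁) (hX₂ : Differentiable ℝ X₂)
    (hX₃ : Differentiable ℝ X₃) (hX₄ : Differentiable ℝ X₄) (hq : Continuous q)
    (hnz : ∀ s, X₁ s ≠ 0 ∨ X₂ s ≠ 0)
    (h3 : ∀ s, X₂ s ^ 2 - X₃ s ^ 2 = (e₂ - e₁) * X₁ s ^ 2)
    (h4 : ∀ s, X₂ s ^ 2 - X₄ s ^ 2 = (e₃ - e₁) * X₁ s ^ 2)
    (d2 : ∀ s, X₁ s * deriv X₂ s - X₂ s * deriv X₁ s = q s * (X₃ s * X₄ s))
    (d3 : ∀ s, X₁ s * deriv X₃ s - X₃ s * deriv X₁ s = q s * (X₂ s * X₄ s))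
    (d4 : ∀ s, X₁ s * deriv X₄ s - X₄ s * deriv X₁ s = q s * (X₂ s * X₃ s))
    (d23 : ∀ s, X₂ s * deriv X₃ s - X₃ s * deriv X₂ s = (e₂ - e₁) * q s * (X₁ s * X₄ s))
    (d24 : ∀ s, X₂ s * deriv X₄ s - X₄ s * deriv X₂ s = (e₃ - e₁) * q s * (X₁ s * X₃ s))
    {c : ℂ} (c1 : X₁ 1 = c * X₁ 0) (c2 : X₂ 1 = c * X₂ 0) (c3 : X₃ 1 = c * X₃ 0)
    (c4 : X₄ 1 = c * X₄ 0) :
    ∫ s in (0 : ℝ)..1, q s ∈ L.lattice := by
  obtain ⟨⟨n12, n13, n23, hs⟩, g2, g3⟩ := half_facts_all L h₁ h₂ h₃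
  set κ : ℂ := (e₁ - e₂) * (e₁ - e₃) with hκ
  have hκ0 : κ ≠ 0 := mul_ne_zero (sub_ne_zero.2 n12) (sub_ne_zero.2 n13)
  have he3 : e₃ = -(e₁ + e₂) := by linear_combination hs
  set x1 : ℝ → ℂ := fun t => 1 * (X₂ t / X₁ t) ^ 2 + e₁ with hx1
  set y1 : ℝ → ℂ := fun t => 2 * (X₂ t * X₃ t * X₄ t / X₁ t ^ 3) with hy1
  set x2 : ℝ → ℂ := fun t => κ * (X₁ t / X₂ t) ^ 2 + e₁ with hx2
  set y2 : ℝ → ℂ := fun t => -(2 * κ) * (X₁ t * X₃ t * X₄ t / X₂ t ^ 3) with hy2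
  -- the differential equations in the charts
  have hode1 : ∀ s, X₁ s ≠ 0 → HasDerivAt x1 (y1 s * q s) s ∧
      HasDerivAt y1 ((6 * x1 s ^ 2 - L.g₂ / 2) * q s) s := by
    intro s hs0
    obtain ⟨a1, a2⟩ := alg1 hs0 hs g2 (h3 s) (h4 s) (d2 s) (d3 s) (d4 s)
    refine ⟨?_, ?_⟩
    · have := (chart_deriv (hX₁ s).hasDerivAt (hX₂ s).hasDerivAt (hX₃ s).hasDerivAt
        (hX₄ s).hasDerivAt hs0 1 e₁).1
      refine this.congr_deriv ?_
      rw [one_mul, a1]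
    · have := (chart_deriv (hX₁ s).hasDerivAt (hX₂ s).hasDerivAt (hX₃ s).hasDerivAt
        (hX₄ s).hasDerivAt hs0 2 e₁).2
      refine this.congr_deriv ?_
      rw [a2]
      simp only [hx1, one_mul]
  have hode2 : ∀ s, X₂ s ≠ 0 → HasDerivAt x2 (y2 s * q s) s ∧
      HasDerivAt y2 ((6 * x2 s ^ 2 - L.g₂ / 2) * q s) s := by
    intro s hs0
    obtain ⟨a1, a2⟩ := alg2 hs0 hs g2 (h3 s) (h4 s) (d2 s) (d23 s) (d24 s)
    refine ⟨?_, ?_⟩
    · have := (chart_deriv (hX₂ s).hasDerivAt (hX₁ s).hasDerivAt (hX₃ s).hasDerivAt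
        (hX₄ s).hasDerivAt hs0 κ e₁).1
      refine this.congr_deriv ?_
      rw [a1]
    · have := (chart_deriv (hX₂ s).hasDerivAt (hX₁ s).hasDerivAt (hX₃ s).hasDerivAt
        (hX₄ s).hasDerivAt hs0 (-(2 * κ)) e₁).2
      refine this.congr_deriv ?_
      rw [a2]
  -- curve equations
  have hcur1 : ∀ s, X₁ s ≠ 0 → y1 s ^ 2 = 4 * x1 s ^ 3 - L.g₂ * x1 s - L.g₃ := by
    intro s hs0
    have hC : X₃ s ^ 2 = X₂ s ^ 2 - (e₂ - e₁) * X₁ s ^ 2 := by linear_combination -(h3 s)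
    have hD : X₄ s ^ 2 = X₂ s ^ 2 - (e₃ - e₁) * X₁ s ^ 2 := by linear_combination -(h4 s)
    have e : y1 s ^ 2 = 4 * (X₂ s ^ 2 * X₃ s ^ 2 * X₄ s ^ 2) / X₁ s ^ 6 := by
      simp only [hy1]
      field_simp
      ring
    rw [e, hC, hD, g2, g3, he3]
    simp only [hx1]
    field_simp
    ring
  have hcur2 : ∀ s, X₂ s ≠ 0 → y2 s ^ 2 = 4 * x2 s ^ 3 - L.g₂ * x2 s - L.g₃ := by
    intro s hs0
    have hC : X₃ s ^ 2 = X₂ s ^ 2 - (e₂ - e₁) * X₁ s ^ 2 := by linear_combination -(h3 s)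
    have hD : X₄ s ^ 2 = X₂ s ^ 2 - (e₃ - e₁) * X₁ s ^ 2 := by linear_combination -(h4 s)
    have e : y2 s ^ 2 = 4 * κ ^ 2 * (X₁ s ^ 2 * X₃ s ^ 2 * X₄ s ^ 2) / X₂ s ^ 6 := by
      simp only [hy2]
      field_simp
      ring
    rw [e, hC, hD, g2, g3]
    simp only [hx2]
    rw [hκ, he3]
    field_simp
    ring
  -- starting point
  have hstart : ∃ u0 : ℂ, (X₁ 0 ≠ 0 ∧ Over L u0 (x1 0) (y1 0)) ∨
      (X₂ 0 ≠ 0 ∧ Over L (u0 + L.ω₁ / 2) (x2 0) (y2 0)) := by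
    rcases hnz 0 with h0 | h0
    · obtain ⟨w, hw, hw1, hw2⟩ := W520.exists_point L _ _ (hcur1 0 h0)
      exact ⟨w, Or.inl ⟨h0, hw, hw1, hw2⟩⟩
    · obtain ⟨w, hw, hw1, hw2⟩ := W520.exists_point L _ _ (hcur2 0 h0)
      refine ⟨w - L.ω₁ / 2, Or.inr ⟨h0, ?_⟩⟩
      rw [sub_add_cancel]
      exact ⟨hw, hw1, hw2⟩
  obtain ⟨u0, hu0⟩ := hstart
  set u : ℝ → ℂ := fun s => u0 + ∫ t in (0 : ℝ)..s, q t with hu
  have hud : ∀ s, HasDerivAt u (q s) s := fun s =>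
    (intervalIntegral.integral_hasDerivAt_right (hq.intervalIntegrable _ _)
      (hq.stronglyMeasurableAtFilter _ _) hq.continuousAt).const_add u0
  have hu00 : u 0 = u0 := by simp [hu]
  have hu11 : u 1 - u 0 = ∫ s in (0 : ℝ)..1, q s := by simp [hu]
  -- conversions
  have conv12 : ∀ s, X₁ s ≠ 0 → X₂ s ≠ 0 → Over L (u s) (x1 s) (y1 s) →
      Over L (u s + L.ω₁ / 2) (x2 s) (y2 s) := by
    rintro s a1 a2 ⟨b1, b2, b3⟩
    have hne : ℘[L] (u s) - e₁ = (X₂ s / X₁ s) ^ 2 := by rw [b2]; simp [hx1]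
    have hne0 : (X₂ s / X₁ s) ^ 2 ≠ 0 := pow_ne_zero 2 (div_ne_zero a2 a1)
    have hzh : u s + L.ω₁ / 2 ∉ L.lattice := by
      intro hc
      have := wp_eq_half L hc
      rw [← h₁] at this
      rw [this, sub_self] at hne
      exact hne0 hne.symm
    refine ⟨hzh, ?_, ?_⟩
    · rw [wp_add_half L h₁ h₂ h₃ b1 hzh, hne]
      simp only [hx2, hκ]
      field_simp
      ring
    · rw [deriv_add_half L h₁ h₂ h₃ b1 hzh, hne, b3]
      simp only [hy2, hy1, hκ]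
      field_simp
  have conv21 : ∀ s, X₁ s ≠ 0 → X₂ s ≠ 0 → Over L (u s + L.ω₁ / 2) (x2 s) (y2 s) →
      Over L (u s) (x1 s) (y1 s) := by
    rintro s a1 a2 ⟨b1, b2, b3⟩
    have hne : ℘[L] (u s + L.ω₁ / 2) - e₁ = κ * (X₁ s / X₂ s) ^ 2 := by rw [b2]; simp [hx2]
    have hne0 : κ * (X₁ s / X₂ s) ^ 2 ≠ 0 :=
      mul_ne_zero hκ0 (pow_ne_zero 2 (div_ne_zero a1 a2))
    have hzh : u s + L.ω₁ / 2 + L.ω₁ / 2 ∉ L.lattice := by
      intro hc
      have := wp_eq_half L hc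
      rw [← h₁] at this
      rw [this, sub_self] at hne
      exact hne0 hne.symm
    have e1 : u s + L.ω₁ / 2 + L.ω₁ / 2 = u s + ((⟨L.ω₁, L.ω₁_mem_lattice⟩ : L.lattice) : ℂ) := by
      simp only
      ring
    refine ⟨?_, ?_, ?_⟩
    · intro hc
      apply hzh
      rw [e1]
      exact add_mem hc L.ω₁_mem_lattice
    · rw [← L.weierstrassP_add_coe (u s) ⟨L.ω₁, L.ω₁_mem_lattice⟩, ← e1,
        wp_add_half L h₁ h₂ h₃ b1 hzh, hne]
      simp only [hx1, ← hκ]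
      field_simp
      ring
    · rw [← L.derivWeierstrassP_add_coe (u s) ⟨L.ω₁, L.ω₁_mem_lattice⟩, ← e1,
        deriv_add_half L h₁ h₂ h₃ b1 hzh, hne, b3]
      simp only [hy2, hy1, ← hκ]
      field_simp
  -- the set where the lift is correct
  set T : Set ℝ := {s | (X₁ s ≠ 0 ∧ Over L (u s) (x1 s) (y1 s)) ∨
    (X₂ s ≠ 0 ∧ Over L (u s + L.ω₁ / 2) (x2 s) (y2 s))} with hT
  have hT1 : ∀ s, X₁ s ≠ 0 → (s ∈ T ↔ Over L (u s) (x1 s) (y1 s)) := by
    intro s h1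
    constructor
    · rintro (h | h)
      · exact h.2
      · exact conv21 s h1 h.1 h.2
    · exact fun h => Or.inl ⟨h1, h⟩
  have hT2 : ∀ s, X₂ s ≠ 0 → (s ∈ T ↔ Over L (u s + L.ω₁ / 2) (x2 s) (y2 s)) := by
    intro s h1
    constructor
    · rintro (h | h)
      · exact conv12 s h.1 h1 h.2
      · exact h.2
    · exact fun h => Or.inr ⟨h1, h⟩
  have hud' : ∀ s, HasDerivAt (fun t => u t + L.ω₁ / 2) (q s) s :=
    fun s => (hud s).add_const _
  have hloc : ∀ r : ℝ, ∃ ε > 0, ∀ a s : ℝ, |a - r| < ε → |s - r| < ε → a ∈ T → s ∈ T := by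
    intro r
    rcases hnz r with h0 | h0
    · obtain ⟨ε, hε, hb⟩ := Metric.eventually_nhds_iff.1
        ((hX₁.continuous.continuousAt (x := r)).eventually (isOpen_ne.mem_nhds h0))
      have hb' : ∀ s, |s - r| < ε → X₁ s ≠ 0 := fun s hs => hb (by rwa [Real.dist_eq])
      refine ⟨ε, hε, fun a s ha hs haT => ?_⟩
      rw [hT1 s (hb' s hs)]
      exact lift_ball L hq hud (fun t ht => (hode1 t (hb' t ht)).1)
        (fun t ht => (hode1 t (hb' t ht)).2) ha hs ((hT1 a (hb' a ha)).1 haT)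
    · obtain ⟨ε, hε, hb⟩ := Metric.eventually_nhds_iff.1
        ((hX₂.continuous.continuousAt (x := r)).eventually (isOpen_ne.mem_nhds h0))
      have hb' : ∀ s, |s - r| < ε → X₂ s ≠ 0 := fun s hs => hb (by rwa [Real.dist_eq])
      refine ⟨ε, hε, fun a s ha hs haT => ?_⟩
      rw [hT2 s (hb' s hs)]
      exact lift_ball L (u := fun t => u t + L.ω₁ / 2) hq hud'
        (fun t ht => (hode2 t (hb' t ht)).1)
        (fun t ht => (hode2 t (hb' t ht)).2) ha hs ((hT2 a (hb' a ha)).1 haT)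
  have hclop : IsClopen T := by
    constructor
    · rw [← isOpen_compl_iff, Metric.isOpen_iff]
      intro r hr
      obtain ⟨ε, hε, hb⟩ := hloc r
      refine ⟨ε, hε, fun a ha haT => hr ?_⟩
      rw [Metric.mem_ball, Real.dist_eq] at ha
      exact hb a r ha (by simpa using hε) haT
    · rw [Metric.isOpen_iff]
      intro r hr
      obtain ⟨ε, hε, hb⟩ := hloc r
      refine ⟨ε, hε, fun a ha => ?_⟩
      rw [Metric.mem_ball, Real.dist_eq] at ha
      exact hb r a (by simpa using hε) ha hr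
  have h0T : (0 : ℝ) ∈ T := by
    show (X₁ 0 ≠ 0 ∧ Over L (u 0) (x1 0) (y1 0)) ∨
      (X₂ 0 ≠ 0 ∧ Over L (u 0 + L.ω₁ / 2) (x2 0) (y2 0))
    rw [hu00]
    exact hu0
  have huniv : T = univ := hclop.eq_univ ⟨0, h0T⟩
  have h1T : (1 : ℝ) ∈ T := huniv ▸ mem_univ _
  have hc0 : c ≠ 0 := by
    rintro rfl
    rcases hnz 1 with h | h
    · exact h (by rw [c1, zero_mul])
    · exact h (by rw [c2, zero_mul])
  rw [← hu11]
  rcases hnz 0 with h0 | h0
  · have h1 : X₁ 1 ≠ 0 := by rw [c1]; exact mul_ne_zero hc0 h0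
    obtain ⟨a1, a2, a3⟩ := (hT1 0 h0).1 h0T
    obtain ⟨b1, b2, b3⟩ := (hT1 1 h1).1 h1T
    refine Wg.wp_inj_key L _ _ b1 a1 ?_ ?_
    · show ℘[L] (u 1) = ℘[L] (u 0)
      rw [a2, b2]
      simp only [hx1]
      rw [c1, c2, mul_div_mul_left _ _ hc0]
    · show ℘'[L] (u 1) = ℘'[L] (u 0)
      rw [a3, b3]
      simp only [hy1]
      rw [c1, c2, c3, c4]
      field_simp
  · have h1 : X₂ 1 ≠ 0 := by rw [c2]; exact mul_ne_zero hc0 h0
    obtain ⟨a1, a2, a3⟩ := (hT2 0 h0).1 h0T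
    obtain ⟨b1, b2, b3⟩ := (hT2 1 h1).1 h1T
    have := Wg.wp_inj_key L _ _ b1 a1 ?_ ?_
    · convert this using 1
      ring
    · show ℘[L] (u 1 + L.ω₁ / 2) = ℘[L] (u 0 + L.ω₁ / 2)
      rw [a2, b2]
      simp only [hx2]
      rw [c1, c2, mul_div_mul_left _ _ hc0]
    · show ℘'[L] (u 1 + L.ω₁ / 2) = ℘'[L] (u 0 + L.ω₁ / 2)
      rw [a3, b3]
      simp only [hy2]
      rw [c1, c2, c3, c4]
      field_simp

end Pool.Agent.R403.IS
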