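import Pool.Agent.R403.IS.Loops

/-!
# The Jacobian of `X_u` has an automorphism of square `-1`
-/

set_option autoImplicit false

open scoped Topology
open Matrix Complex Finset MeasureTheory

noncomputable section

namespace Pool.Agent.R403.IS

section push

variable {u' u : ℂ} (g : Mon u' u) (hu' : Adm u') {H H' : Subgroup (GL (Fin 6) ℂ)}
  (hH : ∀ h' ∈ H', ∃ h ∈ H, ∀ p, g.lin (act h' p) = act h (g.lin p))

/-- pull back on forms -/
def pullO : (ZD u H).Omega →ₗ[ℂ] (ZD u' H').Omega where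
  toFun w := ⟨pull g w, pull_isForm g hu' w.2 hH⟩
  map_add' _ _ := rfl
  map_smul' _ _ := rfl

lemma lin_contDiff : ContDiff ℝ 1 g.lin := by
  rw [contDiff_pi]
  intro i
  simp only [Mon.lin_apply]
  fun_prop

include hH in
lemma loop_map {γ : ℝ → Fin 6 → ℂ} (h : (ZD u' H').IsLoop γ) :
    (ZD u H).IsLoop (fun s => g.lin (γ s)) where
  smooth := (lin_contDiff g).comp h.smooth
  mem := fun s => mem_cone.2 (g.onZ (mem_cone.1 (h.mem s)))
  closed := by
    obtain ⟨h', hh', c, hc, he⟩ := h.closed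
    obtain ⟨h1, hh1, he1⟩ := hH h' hh'
    refine ⟨h1, hh1, c, hc, ?_⟩
    simp only [he, map_smul, he1]

lemma per_map (w : FF) {γ : ℝ → Fin 6 → ℂ} (h : ContDiff ℝ 1 γ) :
    per (pull g w) γ = per w (fun s => g.lin (γ s)) := by
  unfold per pull
  refine intervalIntegral.integral_congr fun s _ => ?_
  have := (g.hasDerivAt_real ((h.differentiable one_ne_zero s).hasDerivAt)).deriv
  simp only
  rw [this]

lemma pullO_coe (w : (ZD u H).Omega) : ((pullO g hu' hH w : (ZD u' H').Omega) : FF) = pull g w := rfl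

lemma push_mem {l : Module.Dual ℂ (ZD u' H').Omega} (hl : l ∈ (ZD u' H').periodLattice) :
    l ∘ₗ pullO g hu' hH ∈ (ZD u H).periodLattice := by
  unfold CurveData.periodLattice at hl
  induction hl using AddSubgroup.closure_induction with
  | mem l hl =>
    obtain ⟨γ, hγ, hl⟩ := hl
    refine AddSubgroup.subset_closure ⟨fun s => g.lin (γ s), loop_map g hH hγ, fun w => ?_⟩
    rw [LinearMap.comp_apply, hl, pullO_coe]
    exact per_map g w hγ.smooth
  | zero =>
    rw [LinearMap.zero_comp]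
    exact zero_mem _
  | add x y _ _ hx hy =>
    rw [LinearMap.add_comp]
    exact add_mem hx hy
  | neg x _ hx =>
    rw [LinearMap.neg_comp]
    exact neg_mem hx

end push

/-- the automorphism of `X_u` -/
def JJ (u : ℂ) : Mon u u where
  π := Equiv.swap 2 3 * Equiv.swap 4 5
  a := ![I, 1, I, I, I, -I]
  A := -1
  B := 0
  C := 0
  D := 1
  h1 := by
    rw [forall_fin6]
    refine ⟨?_, ?_, ?_, ?_, ?_, ?_⟩ <;> simp [al, Equiv.swap_apply_def]
  h2 := by
    rw [forall_fin6]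
    refine ⟨?_, ?_, ?_, ?_, ?_, ?_⟩ <;> simp [be, Equiv.swap_apply_def]
  ha := by
    rw [forall_fin6]
    simp

/-- the square of `JJ` -/
def eJ : Sg := ![-1, 1, -1, -1, 1, 1]

lemma JJ_sq (u : ℂ) (p : Fin 6 → ℂ) : (JJ u).lin ((JJ u).lin p) = sa eJ p := by
  funext i
  revert i
  rw [forall_fin6]
  refine ⟨?_, ?_, ?_, ?_, ?_, ?_⟩ <;>
    simp [JJ, Mon.lin, sa, eJ, Equiv.swap_apply_def, ← mul_assoc]

/-- permuting a sign vector -/
def sp (π : Equiv.Perm (Fin 6)) (e : Sg) : Sg := fun i => e (π i)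

lemma lin_sa {u' u : ℂ} (g : Mon u' u) (e : Sg) (p : Fin 6 → ℂ) :
    g.lin (sa e p) = sa (sp g.π e) (g.lin p) := by
  funext i
  simp only [Mon.lin_apply, sa, sp]
  ring

lemma compat {u' u : ℂ} (g : Mon u' u) {T T' : Subgroup Sg} (h : ∀ e ∈ T', sp g.π e ∈ T) :
    ∀ h' ∈ T'.map dg, ∃ h ∈ T.map dg, ∀ p, g.lin (act h' p) = act h (g.lin p) := by
  intro h' hh'
  obtain ⟨e, he, rfl⟩ := Subgroup.mem_map.1 hh'
  refine ⟨dg (sp g.π e), Subgroup.mem_map_of_mem _ (h e he), fun p => ?_⟩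
  rw [act_dg, act_dg, lin_sa]

lemma JJ_A : ∀ e ∈ SA, sp (Equiv.swap 2 3 * Equiv.swap 4 5) e ∈ SA := by decide +kernel

lemma chrJ : ∀ i, 3 < #(WA i) → ∏ j ∈ WA i, eJ j = -1 := by decide +kernel

lemma rF_eJ {u : ℂ} (hu : Adm u) {w : FF} (hw : (XD u).IsForm w) : rF eJ w = -w := by
  rw [← decompA hw, map_sum, ← sum_neg_distrib]
  refine sum_congr rfl fun i _ => ?_
  by_cases hc : 3 < #(WA i)
  · rw [r_proj]
    have : chr (WA i) eJ = -1 := by
      simp only [chr, chrJ i hc]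
      simp
    rw [this, neg_one_smul]
  · rw [form_zero hu (proj_isForm hu hw _) (proj_hasChar _ _) (by omega)]
    simp

/-- the endomorphism of square `-1` -/
theorem X_side {u : ℂ} (hu : Adm u) : ∃ R : (XD u).Omega →ₗ[ℂ] (XD u).Omega,
    (∀ w, R (R w) = -w) ∧ ∀ l ∈ (XD u).periodLattice, l ∘ₗ R ∈ (XD u).periodLattice := by
  refine ⟨pullO (JJ u) hu (compat (JJ u) JJ_A), ?_, ?_⟩
  · intro w
    apply Subtype.ext
    have h1 := rF_eJ hu w.2
    change pull (JJ u) (pull (JJ u) w) = -(w : FF)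
    rw [← h1]
    funext p v
    rw [rF_apply, ← JJ_sq, ← JJ_sq]
    rfl
  · intro l hl
    exact push_mem (JJ u) hu (compat (JJ u) JJ_A) hl

/-- transport to `Y_u` under an isogeny -/
theorem transport {u u' : ℂ} (hu : Adm u) (hu' : Adm u') (h : DualIsogenous (YD u) (XD u')) :
    ∃ R : (YD u).Omega →ₗ[ℂ] (YD u).Omega, (∀ w, R (R w) = -w) ∧
      ∃ N : ℕ, 0 < N ∧ ∀ l ∈ (YD u).periodLattice, N • (l ∘ₗ R) ∈ (YD u).periodLattice := by
  obtain ⟨T, hT1, N, hN, hT2⟩ := h
  obtain ⟨R, hR1, hR2⟩ := X_side hu'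
  have hfin := finiteB hu
  -- the operator on the dual
  set Q : Module.Dual ℂ (YD u).Omega →ₗ[ℂ] Module.Dual ℂ (YD u).Omega :=
    (T.symm : _ →ₗ[ℂ] _) ∘ₗ R.dualMap ∘ₗ (T : _ →ₗ[ℂ] _) with hQ
  have hQQ : ∀ l, Q (Q l) = -l := by
    intro l
    simp only [hQ, LinearMap.comp_apply, LinearEquiv.coe_coe, LinearEquiv.apply_symm_apply]
    have : R.dualMap (R.dualMap (T l)) = -T l := by
      ext w
      simp only [LinearMap.dualMap_apply, LinearMap.neg_apply]
      rw [hR1, map_neg]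
    rw [this, map_neg, LinearEquiv.symm_apply_apply]
  set E := Module.evalEquiv ℂ (YD u).Omega with hE
  set RY : (YD u).Omega →ₗ[ℂ] (YD u).Omega :=
    (E.symm : _ →ₗ[ℂ] _) ∘ₗ Q.dualMap ∘ₗ (E : _ →ₗ[ℂ] _) with hRY
  have key : ∀ (l : Module.Dual ℂ (YD u).Omega) w, l (RY w) = (Q l) w := by
    intro l w
    have h1 : E (RY w) = Q.dualMap (E w) := by
      simp only [hRY, LinearMap.comp_apply, LinearEquiv.coe_coe, LinearEquiv.apply_symm_apply]
    have h2 : ∀ w l, (E w) l = l w := fun w l => rfl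
    rw [← h2, h1, LinearMap.dualMap_apply, h2]
  refine ⟨RY, ?_, N, hN, ?_⟩
  · intro w
    rw [← sub_eq_zero, ← Module.forall_dual_apply_eq_zero_iff ℂ]
    intro l
    rw [map_sub, key, key, hQQ, LinearMap.neg_apply, map_neg, sub_self]
  · intro l hl
    have h1 : l ∘ₗ RY = Q l := by
      ext w; exact key l w
    rw [h1]
    obtain ⟨l', hl', he⟩ := hT2 _ (hR2 _ (hT1 l hl))
    have h2 : N • Q l = l' := by
      apply T.injective
      rw [he, map_nsmul]
      congr 1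
      simp only [hQ, LinearMap.comp_apply, LinearEquiv.coe_coe, LinearEquiv.apply_symm_apply]
      rfl
    rw [h2]
    exact hl'

end Pool.Agent.R403.IS
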