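import Pool.Agent.R403.IS.YPer

/-!
# No endomorphism of square `-N ^ 2`, and the counterexample
-/

set_option autoImplicit false

open scoped Topology ComplexConjugate PeriodPair
open Matrix Complex Finset MeasureTheory

noncomputable section

namespace Pool.Agent.R403.IS

variable {L : PeriodPair} {e₁ e₂ e₃ s u r : ℂ}

/-- forms whose periods lie in the rational span of the lattice -/
def HE (L : PeriodPair) (u : ℂ) : Submodule ℚ (YD u).Omega where
  carrier := {w | ∀ l ∈ (YD u).periodLattice, l w ∈ KL L}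
  add_mem' := by
    intro a b ha hb l hl
    rw [map_add]
    exact add_mem (ha l hl) (hb l hl)
  zero_mem' := by
    intro l _
    rw [map_zero]
    exact zero_mem _
  smul_mem' := by
    intro q a ha l hl
    have h1 : l (q • a) = q • l a := map_rat_smul l q a
    rw [h1]
    exact Submodule.smul_mem _ q (ha l hl)

lemma HE_iff (hu : Adm u) (w : (YD u).Omega) : w ∈ HE L u ↔ PK L u (w : FF) := by
  constructor
  · intro h γ hγ
    obtain ⟨l, hl, he⟩ := exists_functional hu hγ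
    rw [← he w]
    exact h l hl
  · intro h l hl
    unfold CurveData.periodLattice at hl
    induction hl using AddSubgroup.closure_induction with
    | mem l hl =>
      obtain ⟨γ, hγ, hl⟩ := hl
      obtain ⟨δ, hδ, he⟩ := double hu hγ w.2
      rw [hl w]
      apply KL_of_two
      have := h δ hδ
      rw [he] at this
      exact this
    | zero => exact zero_mem _
    | add x y _ _ hx hy => exact add_mem hx hy
    | neg x _ hx => exact neg_mem hx

/-- the quadratic forms -/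
def qf (hu : Adm u) (a b : ℂ) : (YD u).Omega := ⟨Fm u (QQ a b), form_other hu prodB a b⟩

lemma qf_add (hu : Adm u) (a b a' b' : ℂ) : qf hu (a + a') (b + b') = qf hu a b + qf hu a' b' := by
  apply Subtype.ext
  funext p v
  change Fm u (QQ (a + a') (b + b')) p v = Fm u (QQ a b) p v + Fm u (QQ a' b') p v
  by_cases hc : OnZ u p ∧ Tan u p v
  · simp only [Fm_eq hc.1 hc.2, QQ]
    ring
  · simp [Fm, hc]

lemma Fm_smul (c : ℂ) (P : (Fin 6 → ℂ) → ℂ) : c • Fm u P = Fm u (fun p => c * P p) := by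
  funext p v
  simp only [Pi.smul_apply, smul_eq_mul]
  by_cases hc : OnZ u p ∧ Tan u p v
  · simp only [Fm_eq hc.1 hc.2]
    ring
  · simp [Fm, hc]

lemma smul_QQ (c a b : ℂ) : c • Fm u (QQ a b) = Fm u (QQ (c * a) (c * b)) := by
  rw [Fm_smul]
  congr 1
  funext p
  simp only [QQ]
  ring

/-- the basic elliptic differential, normalized -/
def w0 (hu : Adm u) (s : ℂ) : (YD u).Omega :=
  ⟨s⁻¹ • Fm u (PS {0, 4}), (YD u).Omega.smul_mem _ (form_pair hu (by decide) pairB')⟩

/-- the part with six sign changes -/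
def NN (L : PeriodPair) (hu : Adm u) : Submodule ℚ (YD u).Omega where
  carrier := {w | w ∈ HE L u ∧ ∃ a b : ℂ, w = qf hu a b}
  add_mem' := by
    rintro w w' ⟨h, a, b, e⟩ ⟨h', a', b', e'⟩
    exact ⟨add_mem h h', a + a', b + b', by rw [e, e', qf_add]⟩
  zero_mem' := by
    refine ⟨zero_mem _, 0, 0, ?_⟩
    apply Subtype.ext
    funext p v
    change (0 : ℂ) = Fm u (QQ 0 0) p v
    by_cases hc : OnZ u p ∧ Tan u p v
    · simp [Fm_eq hc.1 hc.2, QQ]
    · simp [Fm, hc]
  smul_mem' := by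
    rintro q w ⟨h, a, b, e⟩
    refine ⟨Submodule.smul_mem _ q h, q * a, q * b, ?_⟩
    rw [e]
    apply Subtype.ext
    change q • Fm u (QQ a b) = Fm u (QQ (q * a) (q * b))
    rw [← smul_QQ]
    funext p v
    simp [Algebra.smul_def]

lemma w0_mem (D : Dat L e₁ e₂ e₃ s u) : w0 D.adm s ∈ HE L u := by
  rw [HE_iff D.adm]
  intro γ hγ
  exact Submodule.subset_span (omega0_mem D hγ)

lemma Fm04_ne (hu : Adm u) : Fm u (PS {0, 4}) ≠ 0 := by
  intro h
  have h5 : OnZ u ![1, 0, 1, 1, 1, 1] := by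
    refine ⟨fun h => ?_, ?_⟩
    · have := congrFun h 0
      simp at this
    · rw [forall_fin6]
      simp [al, be]
  have h6 : PS {0, 4} (![1, 0, 1, 1, 1, 1] : Fin 6 → ℂ) = 0 := by
    refine cf_unique hu h5 fun v hv => ?_
    have := congrFun (congrFun h ![1, 0, 1, 1, 1, 1]) v
    rw [Fm_eq h5 hv] at this
    rw [this]
    simp
  rw [PS_pair (by decide)] at h6
  simp at h6

lemma w0_ne (D : Dat L e₁ e₂ e₃ s u) : w0 D.adm s ≠ 0 := by
  intro h
  have h1 : s⁻¹ • Fm u (PS {0, 4}) = 0 := congrArg Subtype.val h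
  rcases smul_eq_zero.1 h1 with h2 | h2
  · exact inv_ne_zero D.hs0 h2
  · exact Fm04_ne D.adm h2

/-- rational multiples -/
lemma rat_smul_coe (q : ℚ) (w : (YD u).Omega) :
    ((q • w : (YD u).Omega) : FF) = (q : ℂ) • (w : FF) := by
  funext p v
  change q • ((w : FF) p v) = (q : ℂ) * (w : FF) p v
  rw [Algebra.smul_def]
  simp

lemma coe_add' (w w' : (YD u).Omega) : ((w + w' : (YD u).Omega) : FF) = (w : FF) + w' := rfl

/-- the projections preserve `HE` -/
lemma proj_mem (hu : Adm u) {w : (YD u).Omega} (hw : w ∈ HE L u) (W : Finset (Fin 6)) :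
    (⟨proj rF W w, proj_isForm hu w.2 W⟩ : (YD u).Omega) ∈ HE L u := by
  have h1 : ∀ e : Sg, (⟨rF e w, rF_isForm hu w.2 e⟩ : (YD u).Omega) ∈ HE L u := by
    intro e
    rw [HE_iff hu]
    exact PK_pull (sMon u e) ((HE_iff hu w).1 hw)
  have h2 : (⟨proj rF W w, proj_isForm hu w.2 W⟩ : (YD u).Omega) =
      (1 / 64 : ℚ) • ∑ e : Sg, (((∏ j ∈ W, e j : ℤˣ) : ℤ) : ℚ) •
        (⟨rF e w, rF_isForm hu w.2 e⟩ : (YD u).Omega) := by
    apply Subtype.ext
    rw [rat_smul_coe]
    simp only [Submodule.coe_sum, rat_smul_coe]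
    unfold proj chr
    congr 1
    norm_num
  rw [h2]
  exact Submodule.smul_mem _ _ (Submodule.sum_mem _ fun e _ => Submodule.smul_mem _ _ (h1 e))

lemma univ_sdiff1 : (univ : Finset (Fin 6)) \ {0, 2, 3, 4} = {1, 5} := by decide
lemma univ_sdiff2 : (univ : Finset (Fin 6)) \ {0, 1, 4, 5} = {2, 3} := by decide
lemma univ_sdiff3 : (univ : Finset (Fin 6)) \ {1, 2, 3, 5} = {0, 4} := by decide

/-- decomposition of `HE` -/
lemma HE_decomp (D : Dat L e₁ e₂ e₃ s u) (hu' : Adm (conj u)) (hr : r ^ 2 = u) (hr0 : r ≠ 0)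
    (huu : u * conj u = 1)
    (hcm : ∀ c : ℂ, (∀ z ∈ KL L, c * z ∈ KL L) → ∃ q : ℚ, c = q)
    (hcj : ∀ c : ℂ, (∀ z ∈ KL L, c * conj z ∈ KL L) → c = 0)
    {w : (YD u).Omega} (hw : w ∈ HE L u) :
    ∃ q : ℚ, ∃ n ∈ NN L D.adm, w = q • w0 D.adm s + n := by
  have hu := D.adm
  have hdec := decompB w.2
  rw [Fin.sum_univ_eight] at hdec
  have hpf : ∀ W, (YD u).IsForm (proj rF W w) := fun W => proj_isForm hu w.2 W
  have hPK : ∀ W, PK L u (proj rF W w) := fun W => (HE_iff hu _).1 (proj_mem hu hw W)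
  have z0 : proj rF (WB 0) (w : FF) = 0 := form_zero hu (hpf _) (proj_hasChar _ _) (by decide)
  have z1 : proj rF (WB 1) (w : FF) = 0 := form_zero hu (hpf _) (proj_hasChar _ _) (by decide)
  have z4 : proj rF (WB 4) (w : FF) = 0 := form_zero hu (hpf _) (proj_hasChar _ _) (by decide)
  have z6 : proj rF (WB 6) (w : FF) = 0 := form_zero hu (hpf _) (proj_hasChar _ _) (by decide)
  have z2 : proj rF (WB 2) (w : FF) = 0 := by
    obtain ⟨c, hc⟩ := form_four hu (hpf (WB 2)) (proj_hasChar _ _) (by decide)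
    have e : (univ : Finset (Fin 6)) \ WB 2 = {1, 5} := by decide
    rw [e] at hc
    rw [hc]
    refine comp_0234 D hu' hr hr0 huu hcj ?_ ?_
    · rw [← hc]; exact form_bot (hpf _)
    · rw [← hc]; exact hPK _
  have z5 : proj rF (WB 5) (w : FF) = 0 := by
    obtain ⟨c, hc⟩ := form_four hu (hpf (WB 5)) (proj_hasChar _ _) (by decide)
    have e : (univ : Finset (Fin 6)) \ WB 5 = {2, 3} := by decide
    rw [e] at hc
    rw [hc]
    refine comp_0145 D hcm ?_ ?_
    · rw [← hc]; exact form_bot (hpf _)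
    · rw [← hc]; exact hPK _
  obtain ⟨a, b, h3⟩ := form_six hu (hpf (WB 3)) (proj_hasChar _ _)
  obtain ⟨c, h7⟩ := form_four hu (hpf (WB 7)) (proj_hasChar _ _) (by decide)
  have e7 : (univ : Finset (Fin 6)) \ WB 7 = {0, 4} := by decide
  rw [e7] at h7
  -- `c s` is rational
  have hcs : (c * s) • ((w0 hu s : (YD u).Omega) : FF) = c • Fm u (PS {0, 4}) := by
    change (c * s) • (s⁻¹ • Fm u (PS {0, 4})) = _
    rw [smul_smul]
    congr 1
    have := D.hs0
    field_simp
  obtain ⟨q, hq⟩ : ∃ q : ℚ, c * s = q := by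
    refine ratio_rat hu (form_bot (w0 hu s).2) (fun h => w0_ne D (Subtype.ext h))
      ((HE_iff hu _).1 (w0_mem D)) ?_ hcm
    rw [hcs, ← h7]
    exact hPK _
  refine ⟨q, ⟨proj rF (WB 3) w, hpf _⟩, ⟨proj_mem hu hw _, a, b, Subtype.ext h3⟩, ?_⟩
  apply Subtype.ext
  rw [coe_add', rat_smul_coe, ← hq, hcs, ← h7]
  rw [z0, z1, z2, z4, z5, z6] at hdec
  conv_lhs => rw [← hdec]
  simp only [zero_add, add_zero]
  rw [add_comm]

/-- the operator `κ` on the part with six sign changes -/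
lemma kap_mem (hu : Adm u) {w : (YD u).Omega} (hw : w ∈ NN L hu) :
    ∃ h : (YD u).IsForm (pull (kap u) w), (⟨_, h⟩ : (YD u).Omega) ∈ NN L hu := by
  obtain ⟨h1, a, b, rfl⟩ := hw
  have h2 : pull (kap u) ((qf hu a b : (YD u).Omega) : FF) = Fm u (QQ (-I * a) (I * b)) :=
    kap_QQ hu a b
  have h3 : (YD u).IsForm (pull (kap u) ((qf hu a b : (YD u).Omega) : FF)) := by
    rw [h2]; exact form_other hu prodB _ _
  refine ⟨h3, ?_, -I * a, I * b, Subtype.ext h2⟩
  rw [HE_iff hu]
  exact PK_pull (kap u) ((HE_iff hu _).1 h1)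

/-- `κ` as a rational linear operator -/
def kapN (L : PeriodPair) (hu : Adm u) : NN L hu →ₗ[ℚ] NN L hu where
  toFun w := ⟨⟨pull (kap u) ((w : (YD u).Omega) : FF), (kap_mem hu w.2).1⟩, (kap_mem hu w.2).2⟩
  map_add' _ _ := rfl
  map_smul' _ _ := rfl

lemma kapN_sq (hu : Adm u) (w : NN L hu) : kapN L hu (kapN L hu w) = -w := by
  obtain ⟨h1, a, b, h⟩ := w.2
  apply Subtype.ext
  apply Subtype.ext
  change pull (kap u) (pull (kap u) ((w : (YD u).Omega) : FF)) = -((w : (YD u).Omega) : FF)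
  rw [h]
  change pull (kap u) (pull (kap u) (Fm u (QQ a b))) = -(Fm u (QQ a b))
  have hneg : -(Fm u (QQ a b)) = (-1 : ℂ) • Fm u (QQ a b) := by simp
  rw [kap_QQ hu, kap_QQ hu, hneg, smul_QQ]
  congr 2
  · linear_combination a * I_sq
  · linear_combination b * I_sq

/-- eigenspaces of `μ` on the part with six sign changes are at most one-dimensional -/
lemma eigen_line (hu : Adm u)
    (hcm : ∀ c : ℂ, (∀ z ∈ KL L, c * z ∈ KL L) → ∃ q : ℚ, c = q) (t : ℂ) :
    ∃ g : (YD u).Omega, ∀ a : ℂ, qf hu a (t * a) ∈ HE L u → ∃ q : ℚ, qf hu a (t * a) = q • g := by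
  by_cases h : ∃ a : ℂ, a ≠ 0 ∧ qf hu a (t * a) ∈ HE L u
  · obtain ⟨a₀, ha₀, h0⟩ := h
    refine ⟨qf hu a₀ (t * a₀), fun a ha => ?_⟩
    have hne : ((qf hu a₀ (t * a₀) : (YD u).Omega) : FF) ≠ 0 := by
      intro h1
      have h5 : OnZ u ![1, 0, 1, 1, 1, 1] := by
        refine ⟨fun h => ?_, ?_⟩
        · have := congrFun h 0
          simp at this
        · rw [forall_fin6]
          simp [al, be]
      have h6 : QQ a₀ (t * a₀) (![1, 0, 1, 1, 1, 1] : Fin 6 → ℂ) = 0 := by
        refine cf_unique hu h5 fun v hv => ?_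
        have : Fm u (QQ a₀ (t * a₀)) ![1, 0, 1, 1, 1, 1] v = 0 :=
          congrFun (congrFun h1 ![1, 0, 1, 1, 1, 1]) v
        rw [Fm_eq h5 hv] at this
        rw [this]
        simp
      simp [QQ] at h6
      exact ha₀ h6
    have he : (a / a₀) • ((qf hu a₀ (t * a₀) : (YD u).Omega) : FF) =
        ((qf hu a (t * a) : (YD u).Omega) : FF) := by
      change (a / a₀) • Fm u (QQ a₀ (t * a₀)) = Fm u (QQ a (t * a))
      rw [smul_QQ]
      congr 2 <;> field_simp
    obtain ⟨q, hq⟩ : ∃ q : ℚ, a / a₀ = q := by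
      refine ratio_rat hu (form_bot (qf hu a₀ (t * a₀)).2) hne ((HE_iff hu _).1 h0) ?_ hcm
      rw [he]
      exact (HE_iff hu _).1 ha
    refine ⟨q, ?_⟩
    apply Subtype.ext
    rw [rat_smul_coe, ← hq, he]
  · push Not at h
    refine ⟨0, fun a ha => ⟨0, ?_⟩⟩
    have ha0 : a = 0 := by
      by_contra hne
      exact h a hne ha
    subst ha0
    apply Subtype.ext
    rw [rat_smul_coe]
    change Fm u (QQ 0 (t * 0)) = _
    have : Fm u (QQ 0 (t * 0)) = (0 : ℂ) • Fm u (QQ 0 (t * 0)) := by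
      rw [smul_QQ]
      congr 2 <;> ring
    rw [this]
    simp

lemma NN_finite (hu : Adm u) (hr : r ^ 2 = u) (hr0 : r ≠ 0)
    (hcm : ∀ c : ℂ, (∀ z ∈ KL L, c * z ∈ KL L) → ∃ q : ℚ, c = q) :
    FiniteDimensional ℚ (NN L hu) := by
  obtain ⟨g₁, hg₁⟩ := eigen_line (L := L) hu hcm r
  obtain ⟨g₂, hg₂⟩ := eigen_line (L := L) hu hcm (-r)
  have hle : NN L hu ≤ Submodule.span ℚ {g₁, g₂} := by
    rintro w ⟨h1, a, b, rfl⟩
    have hPK : PK L u (Fm u (QQ a b)) := (HE_iff hu _).1 h1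
    have hmu := PK_pull (mu hr hr0) hPK
    rw [mu_QQ hu] at hmu
    have h2 : qf hu (b / r) (a * r) ∈ HE L u := (HE_iff hu _).2 hmu
    have ep : qf hu (a + b / r) (r * (a + b / r)) = qf hu a b + qf hu (b / r) (a * r) := by
      rw [← qf_add]
      congr 1
      field_simp
      ring
    have em : qf hu (a - b / r) (-r * (a - b / r)) = qf hu a b - qf hu (b / r) (a * r) := by
      rw [eq_sub_iff_add_eq, ← qf_add]
      congr 1
      · ring
      · field_simp
        ring
    obtain ⟨q₁, hq₁⟩ := hg₁ (a + b / r) (by rw [ep]; exact add_mem h1 h2)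
    obtain ⟨q₂, hq₂⟩ := hg₂ (a - b / r) (by rw [em]; exact sub_mem h1 h2)
    have h3 : qf hu a b = (1 / 2 : ℚ) • (q₁ • g₁) + (1 / 2 : ℚ) • (q₂ • g₂) := by
      rw [← hq₁, ← hq₂, ep, em, ← smul_add]
      have : qf hu a b + qf hu (b / r) (a * r) + (qf hu a b - qf hu (b / r) (a * r)) =
          (2 : ℚ) • qf hu a b := by
        rw [two_smul]; abel
      rw [this, smul_smul]
      norm_num
    rw [h3]
    refine add_mem (Submodule.smul_mem _ _ (Submodule.smul_mem _ _ (Submodule.subset_span ?_)))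
      (Submodule.smul_mem _ _ (Submodule.smul_mem _ _ (Submodule.subset_span ?_))) <;> simp
  have : FiniteDimensional ℚ (Submodule.span ℚ ({g₁, g₂} : Set (YD u).Omega)) :=
    FiniteDimensional.span_of_finite ℚ (Set.toFinite _)
  exact Submodule.finiteDimensional_of_le hle

/-- the elliptic differential is independent of the part with six sign changes -/
lemma disjoint_w0 (D : Dat L e₁ e₂ e₃ s u) :
    Submodule.span ℚ {w0 D.adm s} ⊓ NN L D.adm = ⊥ := by
  rw [eq_bot_iff]
  rintro w ⟨h1, h2, a, b, h3⟩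
  obtain ⟨q, rfl⟩ := Submodule.mem_span_singleton.1 h1
  have h4 : ∀ p, OnZ u p → (q : ℂ) * (s⁻¹ * (p 0 * p 4)) = a * p 0 ^ 2 + b * p 1 ^ 2 := by
    intro p hp
    refine cf_unique D.adm hp fun v hv => ?_
    have h5 := congrFun (congrFun (congrArg Subtype.val h3) p) v
    rw [rat_smul_coe] at h5
    change (q : ℂ) * (s⁻¹ * Fm u (PS {0, 4}) p v) = Fm u (QQ a b) p v at h5
    rw [Fm_eq hp hv, Fm_eq hp hv, PS_pair (by decide)] at h5
    simp only [QQ] at h5
    linear_combination h5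
  have h5 : OnZ u ![1, 0, 1, 1, 1, 1] := by
    refine ⟨fun h => ?_, ?_⟩
    · have := congrFun h 0
      simp at this
    · rw [forall_fin6]
      simp [al, be]
  have h6 : OnZ u ![1, 0, 1, 1, -1, 1] := by
    refine ⟨fun h => ?_, ?_⟩
    · have := congrFun h 0
      simp at this
    · rw [forall_fin6]
      simp [al, be]
  have k5 := h4 _ h5
  have k6 := h4 _ h6
  simp at k5 k6
  have k7 : (q : ℂ) * s⁻¹ = 0 := by linear_combination (k5 - k6) / 2
  have k8 : (q : ℂ) = 0 := (mul_eq_zero.1 k7).resolve_right (inv_ne_zero D.hs0)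
  have k9 : q = 0 := by exact_mod_cast k8
  rw [k9, zero_smul]
  exact zero_mem _

/-- **Main contradiction**: `Y_u` has no endomorphism of square `-1` up to isogeny. -/
theorem Y_side (D : Dat L e₁ e₂ e₃ s u) (hu' : Adm (conj u)) (huu : u * conj u = 1)
    (hcm : ∀ c : ℂ, (∀ z ∈ KL L, c * z ∈ KL L) → ∃ q : ℚ, c = q)
    (hcj : ∀ c : ℂ, (∀ z ∈ KL L, c * conj z ∈ KL L) → c = 0)
    (R : (YD u).Omega →ₗ[ℂ] (YD u).Omega) (hR : ∀ w, R (R w) = -w) {N : ℕ} (hN : 0 < N)
    (hRl : ∀ l ∈ (YD u).periodLattice, N • (l ∘ₗ R) ∈ (YD u).periodLattice) : False := by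
  obtain ⟨r, hr⟩ := IsAlgClosed.exists_pow_nat_eq u two_pos
  have hr0 : r ≠ 0 := by
    rintro rfl
    apply D.adm.1
    rw [← hr]; simp
  have hstab : ∀ w ∈ HE L u, R w ∈ HE L u := by
    intro w hw l hl
    have h1 := hw _ (hRl l hl)
    have h2 : (N • (l ∘ₗ R)) w = (N : ℂ) * l (R w) := by simp
    rw [h2] at h1
    exact KL_of_nsmul hN h1
  have hfinN : FiniteDimensional ℚ (NN L D.adm) := NN_finite D.adm hr hr0 hcm
  have hsup : HE L u = Submodule.span ℚ {w0 D.adm s} ⊔ NN L D.adm := by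
    apply le_antisymm
    · intro w hw
      obtain ⟨q, n, hn, rfl⟩ := HE_decomp D hu' hr hr0 huu hcm hcj hw
      exact add_mem (Submodule.mem_sup_left (Submodule.smul_mem _ _
        (Submodule.mem_span_singleton_self _))) (Submodule.mem_sup_right hn)
    · refine sup_le ?_ fun w hw => hw.1
      rw [Submodule.span_singleton_le_iff_mem]
      exact w0_mem D
  have hfinS : FiniteDimensional ℚ (Submodule.span ℚ {w0 D.adm s}) :=
    FiniteDimensional.span_of_finite ℚ (Set.toFinite _)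
  have hfinH : FiniteDimensional ℚ (HE L u) := by
    rw [hsup]
    exact Submodule.finiteDimensional_sup _ _
  have hdim : Module.finrank ℚ (HE L u) = 1 + Module.finrank ℚ (NN L D.adm) := by
    have h1 := Submodule.finrank_sup_add_finrank_inf_eq (Submodule.span ℚ {w0 D.adm s})
      (NN L D.adm)
    rw [disjoint_w0 D, finrank_bot, add_zero, ← hsup, finrank_span_singleton (w0_ne D)] at h1
    exact h1
  have hev1 : Even (Module.finrank ℚ (HE L u)) := by
    refine even_finrank (V := ↥(HE L u)) ((R.restrictScalars ℚ).restrict hstab) fun w => ?_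
    apply Subtype.ext
    exact hR w
  have hev2 : Even (Module.finrank ℚ (NN L D.adm)) :=
    even_finrank (V := ↥(NN L D.adm)) (kapN L D.adm) (kapN_sq D.adm)
  rw [hdim] at hev1
  rw [Nat.even_add] at hev1
  exact absurd (hev1.2 hev2) (by decide)

lemma contY (hu : Adm u) : ContPeriods (YD u) := fun _ hγ _ hw =>
  span_continuous hu (Y_mem_span hu hw) hγ.smooth fun s => mem_cone.1 (hγ.mem s)

lemma contX (hu : Adm u) : ContPeriods (XD u) := by
  intro γ hγ w hw
  refine span_continuous hu ?_ hγ.smooth fun s => mem_cone.1 (hγ.mem s)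
  rw [← decompA hw]
  exact Submodule.sum_mem _ fun i _ =>
    char_mem_span hu (proj_isForm hu hw _) (proj_hasChar _ _) (cardWA i)

/-- **The counterexample.** -/
theorem main : ∃ C D : CurveData 6, C.IsCurve ∧ D.IsCurve ∧ Isospectral C D ∧
    ∀ σ : ℂ ≃+* ℂ, ¬ JacIsogenous D (C.conj σ) := by
  obtain ⟨L, e₁, e₂, e₃, h₁, h₂, h₃, hn, hcm, hcj⟩ := exists_lattice
  obtain ⟨h12, h13, h23, hsum⟩ := half_facts L h₁ h₂ h₃
  have hd : e₁ - e₂ ≠ 0 := sub_ne_zero.2 h12
  set u : ℂ := -(3 * e₃) / (e₁ - e₂) with hu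
  have hue : u * (e₁ - e₂) = -(3 * e₃) := by rw [hu]; field_simp
  have hun : ‖u‖ = 1 := by
    rw [hu, norm_div, norm_neg, hn, div_self (norm_ne_zero_iff.2 hd)]
  have huu : u * conj u = 1 := by
    rw [mul_conj, normSq_eq_norm_sq, hun]
    norm_num
  have hadm : Adm u := by
    refine ⟨?_, ?_, ?_⟩
    · intro h
      rw [h] at hun
      simp at hun
    · intro h
      rw [h] at hue
      apply h23
      linear_combination (hsum - hue) / 2
    · intro h
      rw [h] at hue
      apply h13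
      linear_combination -(hue - hsum) / 2
  have hadm' : Adm (conj u) := by
    obtain ⟨a, b, c⟩ := hadm
    refine ⟨?_, ?_, ?_⟩
    · simpa using a
    · intro h
      apply b
      have := congrArg conj h
      simpa using this
    · intro h
      apply c
      have := congrArg conj h
      simpa using this
  obtain ⟨s, hs⟩ := IsAlgClosed.exists_pow_nat_eq ((e₁ - e₂) / 2) two_pos
  have hs0 : s ≠ 0 := by
    rintro rfl
    apply hd
    have : (e₁ - e₂) / 2 = 0 := by rw [← hs]; simp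
    linear_combination 2 * this
  have D : Dat L e₁ e₂ e₃ s u := ⟨h₁, h₂, h₃, hs, hs0, hue, hadm⟩
  refine ⟨XD u, YD u, isCurve_X hadm, isCurve_Y hadm, isospectral hadm huu, fun σ hσ => ?_⟩
  rw [conj_XD] at hσ
  obtain ⟨R, hR, N, hN, hRl⟩ :=
    transport hadm (adm_map hadm σ) (hσ.dual (contY hadm) (contX (adm_map hadm σ)))
  exact Y_side D hadm' huu hcm hcj R hR hN hRl

end Pool.Agent.R403.IS
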