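import Pool.Agent.R403.IS.YSide

/-!
# Periods of the differentials of `Y_u`
-/

set_option autoImplicit false

open scoped Topology ComplexConjugate PeriodPair
open Matrix Complex Finset MeasureTheory

noncomputable section

namespace Pool.Agent.R403.IS

lemma P2_21 (p : Fin 6 → ℂ) : P2 p 2 1 = p 0 * p 3 * p 4 * p 5 := by
  unfold P2
  rw [show (univ.filter fun l : Fin 6 => l ≠ 2 ∧ l ≠ 1) = {0, 3, 4, 5} from by decide]
  simp
  ring

lemma P2_31 (p : Fin 6 → ℂ) : P2 p 3 1 = p 0 * p 2 * p 4 * p 5 := by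
  unfold P2
  rw [show (univ.filter fun l : Fin 6 => l ≠ 3 ∧ l ≠ 1) = {0, 2, 4, 5} from by decide]
  simp
  ring

lemma P2_51 (p : Fin 6 → ℂ) : P2 p 5 1 = p 0 * p 2 * p 3 * p 4 := by
  unfold P2
  rw [show (univ.filter fun l : Fin 6 => l ≠ 5 ∧ l ≠ 1) = {0, 2, 3, 4} from by decide]
  simp
  ring

lemma P2_32 (p : Fin 6 → ℂ) : P2 p 3 2 = p 0 * p 1 * p 4 * p 5 := by
  unfold P2
  rw [show (univ.filter fun l : Fin 6 => l ≠ 3 ∧ l ≠ 2) = {0, 1, 4, 5} from by decide]
  simp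
  ring

lemma P2_52 (p : Fin 6 → ℂ) : P2 p 5 2 = p 0 * p 1 * p 3 * p 4 := by
  unfold P2
  rw [show (univ.filter fun l : Fin 6 => l ≠ 5 ∧ l ≠ 2) = {0, 1, 3, 4} from by decide]
  simp
  ring

/-- the elliptic data -/
structure Dat (L : PeriodPair) (e₁ e₂ e₃ s u : ℂ) : Prop where
  h₁ : e₁ = ℘[L] (L.ω₁ / 2)
  h₂ : e₂ = ℘[L] (L.ω₂ / 2)
  h₃ : e₃ = ℘[L] ((L.ω₁ + L.ω₂) / 2)
  hs : s ^ 2 = (e₁ - e₂) / 2
  hs0 : s ≠ 0
  hu : u * (e₁ - e₂) = -(3 * e₃)
  adm : Adm u

/-- the periods of the differential `ω₀` -/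
theorem omega0_mem {L : PeriodPair} {e₁ e₂ e₃ s u : ℂ} (D : Dat L e₁ e₂ e₃ s u)
    {γ : ℝ → Fin 6 → ℂ} (hγ : ZLoop u γ) :
    per (s⁻¹ • Fm u (PS {0, 4})) γ ∈ L.lattice := by
  obtain ⟨-, -, -, hsum⟩ := half_facts L D.h₁ D.h₂ D.h₃
  have hd : Differentiable ℝ γ := hγ.smooth.differentiable one_ne_zero
  have hon := hγ.on
  have htan := path_tan hd hon
  have hs := D.hs
  have hs0 := D.hs0
  have hj : ∀ t j, HasDerivAt (fun t => γ t j) (deriv γ t j) t := fun t j =>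
    hasDerivAt_pi.1 (hd t).hasDerivAt j
  have hj' : ∀ t j, HasDerivAt (fun t => s * γ t j) (s * deriv γ t j) t := fun t j =>
    (hj t j).const_mul s
  have heta : ∀ t, ∀ i j, i ≠ j → DD u i j * eta u (γ t) (deriv γ t) * P2 (γ t) i j =
      γ t j * deriv γ t i - γ t i * deriv γ t j := fun t i j hij =>
    eta_eq D.adm (hon t) (htan t) hij
  have hF : ∀ t, (s⁻¹ • Fm u (PS {0, 4})) (γ t) (deriv γ t) =
      s⁻¹ * (γ t 0 * γ t 4 * eta u (γ t) (deriv γ t)) := by
    intro t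
    simp only [Pi.smul_apply, smul_eq_mul]
    rw [Fm_eq (hon t) (htan t), PS_pair (by decide)]
  have hkey : s ^ 2 * (-1 - u) = e₃ - e₁ := by
    rw [hs]
    have := D.hu
    linear_combination -this / 2 + hsum / 2
  have hkey2 : s ^ 2 * (-2) = e₂ - e₁ := by
    rw [hs]; ring
  have DD21 : DD u 2 1 = 1 := by unfold DD; simp [al, be]
  have DD31 : DD u 3 1 = 1 := by unfold DD; simp [al, be]
  have DD51 : DD u 5 1 = 1 := by unfold DD; simp [al, be]
  have DD32 : DD u 3 2 = -2 := by unfold DD; simp [al, be]; norm_num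
  have DD52 : DD u 5 2 = -1 - u := by unfold DD; simp [al, be]
  obtain ⟨g, hg, c, hc, hcl⟩ := hγ.closed
  have hg1 : g = 1 := Subgroup.mem_bot.1 hg
  have hcl' : ∀ j, γ 1 j = c * γ 0 j := by
    intro j
    rw [hcl, hg1]
    simp [act]
  refine period_mem L D.h₁ D.h₂ D.h₃ (X₁ := fun t => γ t 1) (X₂ := fun t => s * γ t 2)
    (X₃ := fun t => s * γ t 3) (X₄ := fun t => s * γ t 5)
    (q := fun t => (s⁻¹ • Fm u (PS {0, 4})) (γ t) (deriv γ t))
    (fun t => (hj t 1).differentiableAt) (fun t => (hj' t 2).differentiableAt)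
    (fun t => (hj' t 3).differentiableAt) (fun t => (hj' t 5).differentiableAt)
    ?_ ?_ ?_ ?_ ?_ ?_ ?_ ?_ ?_ (c := c) (hcl' 1) ?_ ?_ ?_
  · exact (Fm_continuous D.adm (PS_continuous _) hγ.smooth hon).const_smul s⁻¹
  · intro t
    by_cases h : γ t 1 = 0
    · right
      exact mul_ne_zero hs0 ((hon t).ne_of_eq_zero D.adm (by decide) h)
    · exact Or.inl h
  · intro t
    have a2 := (hon t).2 2
    have a3 := (hon t).2 3
    simp [al, be] at a2 a3
    linear_combination s ^ 2 * a2 - s ^ 2 * a3 + γ t 1 ^ 2 * hkey2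
  · intro t
    have a2 := (hon t).2 2
    have a3 := (hon t).2 5
    simp [al, be] at a2 a3
    linear_combination s ^ 2 * a2 - s ^ 2 * a3 + γ t 1 ^ 2 * hkey
  · intro t
    rw [(hj' t 2).deriv, (hj t 1).deriv, hF]
    have h := heta t 2 1 (by decide)
    rw [DD21, P2_21] at h
    field_simp
    linear_combination -h
  · intro t
    rw [(hj' t 3).deriv, (hj t 1).deriv, hF]
    have h := heta t 3 1 (by decide)
    rw [DD31, P2_31] at h
    field_simp
    linear_combination -h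
  · intro t
    rw [(hj' t 5).deriv, (hj t 1).deriv, hF]
    have h := heta t 5 1 (by decide)
    rw [DD51, P2_51] at h
    field_simp
    linear_combination -h
  · intro t
    rw [(hj' t 2).deriv, (hj' t 3).deriv, hF]
    have h := heta t 3 2 (by decide)
    rw [DD32, P2_32] at h
    field_simp
    linear_combination -s ^ 2 * h +
      (γ t 0 * γ t 1 * γ t 4 * γ t 5 * eta u (γ t) (deriv γ t)) * hkey2
  · intro t
    rw [(hj' t 2).deriv, (hj' t 5).deriv, hF]
    have h := heta t 5 2 (by decide)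
    rw [DD52, P2_52] at h
    field_simp
    linear_combination -s ^ 2 * h +
      (γ t 0 * γ t 1 * γ t 3 * γ t 4 * eta u (γ t) (deriv γ t)) * hkey
  · simp only [hcl' 2]; ring
  · simp only [hcl' 3]; ring
  · simp only [hcl' 5]; ring

section anti

variable {u r : ℂ}

lemma cj_real {γ : ℝ → Fin 6 → ℂ} {γ' : Fin 6 → ℂ} {t : ℝ} (h : HasDerivAt γ γ' t) :
    HasDerivAt (fun t => cj (γ t)) (cj γ') t := by
  rw [hasDerivAt_pi]
  intro i
  have h1 := hasDerivAt_pi.1 h i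
  exact (conjCLE : ℂ →L[ℝ] ℂ).hasFDerivAt.comp_hasDerivAt t h1

lemma cj_contDiff : ContDiff ℝ 1 cj := by
  rw [contDiff_pi]
  intro i
  exact (conjCLE : ℂ →L[ℝ] ℂ).contDiff.comp (contDiff_apply ℝ ℂ i)

lemma cj_loop {γ : ℝ → Fin 6 → ℂ} (h : ZLoop u γ) : ZLoop (conj u) (fun t => cj (γ t)) where
  smooth := cj_contDiff.comp h.smooth
  mem := fun s => mem_cone.2 (cj_onZ (h.on s))
  closed := by
    obtain ⟨g, hg, c, hc, hcl⟩ := h.closed
    refine ⟨1, Subgroup.one_mem _, conj c, by simpa using hc, ?_⟩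
    have hg1 : g = 1 := Subgroup.mem_bot.1 hg
    rw [hcl, hg1, cj_smul]
    simp [act]

lemma eta_cj (hu : Adm u) (hu' : Adm (conj u)) {p v : Fin 6 → ℂ} (hp : OnZ u p) (hv : Tan u p v) :
    eta (conj u) (cj p) (cj v) = conj (eta u p v) := by
  symm
  refine eta_unique' hu' (cj_onZ hp) (cj_tan hv) fun i j hij => ?_
  have h := congrArg conj (eta_eq hu hp hv hij)
  simp only [map_mul, map_sub] at h
  have h1 : conj (DD u i j) = DD (conj u) i j := by
    unfold DD
    simp only [map_sub, map_mul]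
    congr 2
    · fin_cases i <;> simp [al]
    · fin_cases j <;> simp [be]
    · fin_cases j <;> simp [al]
    · fin_cases i <;> simp [be]
  have h2 : conj (P2 p i j) = P2 (cj p) i j := by
    unfold P2 cj
    exact map_prod _ _ _
  rw [h1, h2] at h
  exact h

/-- the antiholomorphic symmetry exchanging two elliptic differentials -/
def chi (hr : r ^ 2 = u) (hr0 : r ≠ 0) (huu : u * conj u = 1) (p : Fin 6 → ℂ) : Fin 6 → ℂ :=
  xi hr hr0 huu ((kap u).lin p)

lemma chi_form (hu : Adm u) (hu' : Adm (conj u)) (hr : r ^ 2 = u) (hr0 : r ≠ 0)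
    (huu : u * conj u = 1) {p v : Fin 6 → ℂ} (hp : OnZ u p) (hv : Tan u p v) :
    Fm u (PS {0, 4}) (chi hr hr0 huu p) (chi hr hr0 huu v) =
      (-I * r * (xiM hr hr0 huu).fac) * conj (Fm u (PS {1, 5}) p v) := by
  have hp1 := (kap u).onZ hp
  have hv1 := (kap u).tan hv
  have hp2 := cj_onZ hp1
  have hv2 := cj_tan hv1
  unfold chi xi
  rw [Fm_eq ((xiM hr hr0 huu).onZ hp2) ((xiM hr hr0 huu).tan hv2), Fm_eq hp hv,
    (xiM hr hr0 huu).eta_lin hu hu' hp2 hv2, eta_cj hu hu' hp1 hv1, kap_eta hu hp hv,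
    PS_pair (by decide), PS_pair (by decide)]
  generalize (xiM hr hr0 huu).fac = F
  simp only [xiM, kap, Mon.lin_apply, cj]
  simp [Equiv.swap_apply_def]
  linear_combination (conj (p 1) * conj (p 5) * I * r * F * conj (eta u p v)) * I_sq

lemma chi_loop (hr : r ^ 2 = u) (hr0 : r ≠ 0) (huu : u * conj u = 1) {γ : ℝ → Fin 6 → ℂ}
    (h : ZLoop u γ) : ZLoop u (fun s => chi hr hr0 huu (γ s)) := by
  have aux : ∀ {u' u : ℂ} (g : Mon u' u), ∀ h' ∈ (⊥ : Subgroup (GL (Fin 6) ℂ)),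
      ∃ h ∈ (⊥ : Subgroup (GL (Fin 6) ℂ)), ∀ p, g.lin (act h' p) = act h (g.lin p) := by
    intro u' u g h' hh'
    refine ⟨1, Subgroup.one_mem _, fun p => ?_⟩
    rw [Subgroup.mem_bot.1 hh']
    simp [act]
  have h1 : ZLoop u (fun s => (kap u).lin (γ s)) := loop_map (kap u) (aux _) h
  have h2 := cj_loop h1
  exact loop_map (xiM hr hr0 huu) (aux _) h2

lemma chi_deriv (hr : r ^ 2 = u) (hr0 : r ≠ 0) (huu : u * conj u = 1) {γ : ℝ → Fin 6 → ℂ}
    (h : Differentiable ℝ γ) (t : ℝ) :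
    deriv (fun s => chi hr hr0 huu (γ s)) t = chi hr hr0 huu (deriv γ t) := by
  have h1 := (kap u).hasDerivAt_real (h t).hasDerivAt
  have h2 := cj_real h1
  exact ((xiM hr hr0 huu).hasDerivAt_real h2).deriv

lemma chi_per (hu : Adm u) (hu' : Adm (conj u)) (hr : r ^ 2 = u) (hr0 : r ≠ 0)
    (huu : u * conj u = 1) {γ : ℝ → Fin 6 → ℂ} (h : ZLoop u γ) :
    per (Fm u (PS {0, 4})) (fun s => chi hr hr0 huu (γ s)) =
      (-I * r * (xiM hr hr0 huu).fac) * conj (per (Fm u (PS {1, 5})) γ) := by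
  have hd : Differentiable ℝ γ := h.smooth.differentiable one_ne_zero
  unfold per
  have h1 : ∀ s, Fm u (PS {0, 4}) (chi hr hr0 huu (γ s)) (deriv (fun s => chi hr hr0 huu (γ s)) s) =
      (-I * r * (xiM hr hr0 huu).fac) * conj (Fm u (PS {1, 5}) (γ s) (deriv γ s)) := by
    intro s
    rw [chi_deriv hr hr0 huu hd, chi_form hu hu' hr hr0 huu (h.on s) (path_tan hd h.on s)]
  rw [intervalIntegral.integral_congr fun s _ => h1 s, intervalIntegral.integral_const_mul]
  congr 1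
  rw [intervalIntegral.integral_of_le zero_le_one, intervalIntegral.integral_of_le zero_le_one]
  exact integral_conj

end anti

section components

variable {L : PeriodPair} {e₁ e₂ e₃ s u r : ℂ}

/-- conjugation followed by multiplication, as a rational linear map -/
def conjQ (d : ℂ) : ℂ →ₗ[ℚ] ℂ where
  toFun z := d * conj z
  map_add' a b := by rw [map_add]; ring
  map_smul' q a := by
    rw [Algebra.smul_def, Algebra.smul_def]
    simp
    ring

/-- the component with signs `{0, 2, 3, 4}` vanishes -/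
lemma comp_0234 (D : Dat L e₁ e₂ e₃ s u) (hu' : Adm (conj u)) (hr : r ^ 2 = u) (hr0 : r ≠ 0)
    (huu : u * conj u = 1) (hcj : ∀ c : ℂ, (∀ z ∈ KL L, c * conj z ∈ KL L) → c = 0) {c : ℂ}
    (hf : (ZD u ⊥).IsForm (c • Fm u (PS {1, 5})))
    (hc : PK L u (c • Fm u (PS {1, 5}))) : c • Fm u (PS {1, 5}) = 0 := by
  by_contra h0
  have hc0 : c ≠ 0 := by
    rintro rfl
    exact h0 (zero_smul _ _)
  have hF : (xiM hr hr0 huu).fac ≠ 0 :=
    div_ne_zero ((xiM hr hr0 huu).det_ne hu') (xiM hr hr0 huu).prod_ne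
  set C := -I * r * (xiM hr hr0 huu).fac with hC
  have hC0 : C ≠ 0 := mul_ne_zero (mul_ne_zero (neg_ne_zero.2 I_ne_zero) hr0) hF
  have hcc : conj c ≠ 0 := by simpa using hc0
  set d := s⁻¹ * C / conj c with hd
  have hd0 : d ≠ 0 := div_ne_zero (mul_ne_zero (inv_ne_zero D.hs0) hC0) hcc
  have h1 : KL L ≤ (KL L).comap (conjQ d) := by
    refine period_span D.adm hf h0 hc fun γ hγ => ?_
    change d * conj (per (c • Fm u (PS {1, 5})) γ) ∈ KL L
    have h2 := omega0_mem D (chi_loop hr hr0 huu hγ)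
    rw [per_smul, chi_per D.adm hu' hr hr0 huu hγ] at h2
    have h3 : d * conj (per (c • Fm u (PS {1, 5})) γ) =
        s⁻¹ * (C * conj (per (Fm u (PS {1, 5})) γ)) := by
      rw [per_smul, map_mul, hd]
      field_simp
    rw [h3]
    exact Submodule.subset_span h2
  exact hd0 (hcj d fun z hz => h1 hz)

/-- the component with signs `{0, 1, 4, 5}` vanishes -/
lemma comp_0145 (D : Dat L e₁ e₂ e₃ s u)
    (hcm : ∀ c : ℂ, (∀ z ∈ KL L, c * z ∈ KL L) → ∃ q : ℚ, c = q) {c : ℂ}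
    (hf : (ZD u ⊥).IsForm (c • Fm u (PS {2, 3})))
    (hc : PK L u (c • Fm u (PS {2, 3}))) : c • Fm u (PS {2, 3}) = 0 := by
  by_contra h0
  have h1 := PK_pull (kap u) hc
  have h2 : pull (kap u) (c • Fm u (PS {2, 3})) = (-I) • (c • Fm u (PS {2, 3})) := by
    have := kap_PS23 D.adm
    rw [smul_comm, ← this]
    rfl
  rw [h2] at h1
  obtain ⟨q, hq⟩ := ratio_rat D.adm hf h0 hc h1 hcm
  have := congrArg Complex.im hq
  simp at this

end components

end Pool.Agent.R403.IS
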