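import Pool.Agent.R403.IS.XSide
import Pool.Agent.R403.IS.Iso
import Pool.Agent.R403.IS.PeriodMem
import Pool.Agent.R403.IS.ExistsLattice
import Pool.Agent.R403.IS.PerZero

/-!
# The Jacobian of `Y_u` has no endomorphism of square `-N`
-/

set_option autoImplicit false

open scoped Topology ComplexConjugate PeriodPair
open Matrix Complex Finset MeasureTheory

noncomputable section

namespace Pool.Agent.R403.IS

section parity

/-- a rational vector space with an operator of square `-1` has even dimension -/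
lemma even_finrank {V : Type*} [AddCommGroup V] [Module ℚ V] [FiniteDimensional ℚ V]
    (J : V →ₗ[ℚ] V) (hJ : ∀ v, J (J v) = -v) : Even (Module.finrank ℚ V) := by
  have h1 : J * J = (-1 : ℚ) • (1 : Module.End ℚ V) := by
    ext v
    simp [Module.End.mul_apply, hJ]
  have h2 := congrArg LinearMap.det h1
  rw [map_mul, LinearMap.det_smul] at h2
  simp only [map_one, mul_one] at h2
  by_contra hodd
  rw [Nat.not_even_iff_odd] at hodd
  rw [hodd.neg_one_pow] at h2
  nlinarith [mul_self_nonneg (LinearMap.det J)]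

end parity

section rational

variable {L : PeriodPair}

lemma mem_KL' {z : ℂ} : z ∈ KL L ↔ ∃ a b : ℚ, z = a * L.ω₁ + b * L.ω₂ := by
  unfold KL
  constructor
  · intro h
    induction h using Submodule.span_induction with
    | mem x hx =>
      obtain ⟨m, n, h⟩ := L.mem_lattice.1 hx
      exact ⟨m, n, by rw [← h]; push_cast; ring⟩
    | zero => exact ⟨0, 0, by simp⟩
    | add x y _ _ hx hy =>
      obtain ⟨a, b, rfl⟩ := hx
      obtain ⟨a', b', rfl⟩ := hy
      exact ⟨a + a', b + b', by push_cast; ring⟩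
    | smul q x _ hx =>
      obtain ⟨a, b, rfl⟩ := hx
      exact ⟨q * a, q * b, by rw [Algebra.smul_def]; simp; ring⟩
  · rintro ⟨a, b, rfl⟩
    have h1 : L.ω₁ ∈ Submodule.span ℚ (L.lattice : Set ℂ) :=
      Submodule.subset_span (L.mem_lattice.2 ⟨1, 0, by simp⟩)
    have h2 : L.ω₂ ∈ Submodule.span ℚ (L.lattice : Set ℂ) :=
      Submodule.subset_span (L.mem_lattice.2 ⟨0, 1, by simp⟩)
    have h3 := Submodule.smul_mem _ a h1
    have h4 := Submodule.smul_mem _ b h2
    rw [Algebra.smul_def] at h3 h4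
    have := add_mem h3 h4
    simpa using this

lemma KL_rat {z : ℂ} (q : ℚ) (h : z ∈ KL L) : (q : ℂ) * z ∈ KL L := by
  have := Submodule.smul_mem _ q h
  rw [Algebra.smul_def] at this
  simpa using this

lemma KL_of_two {z : ℂ} (h : 2 * z ∈ KL L) : z ∈ KL L := by
  have h1 := KL_rat (1 / 2) h
  have h2 : ((1 / 2 : ℚ) : ℂ) * (2 * z) = z := by push_cast; ring
  rwa [h2] at h1

lemma KL_of_nsmul {z : ℂ} {N : ℕ} (hN : 0 < N) (h : (N : ℂ) * z ∈ KL L) : z ∈ KL L := by
  have h1 := KL_rat (1 / N) h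
  have hN' : (N : ℂ) ≠ 0 := by exact_mod_cast hN.ne'
  have h2 : ((1 / N : ℚ) : ℂ) * (N * z) = z := by push_cast; field_simp
  rwa [h2] at h1

/-- two elements with non-real ratio span -/
lemma KL_span {a b : ℂ} (ha : a ∈ KL L) (hb : b ∈ KL L) (ha0 : a ≠ 0) (hab : (b / a).im ≠ 0)
    {k : ℂ} (hk : k ∈ KL L) : ∃ x y : ℚ, k = x * a + y * b := by
  obtain ⟨a₁, a₂, ea⟩ := mem_KL'.1 ha
  obtain ⟨b₁, b₂, eb⟩ := mem_KL'.1 hb
  obtain ⟨k₁, k₂, ek⟩ := mem_KL'.1 hk
  have hD : a₁ * b₂ - a₂ * b₁ ≠ 0 := by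
    intro hD
    apply hab
    have hDc : (a₁ : ℂ) * b₂ - a₂ * b₁ = 0 := by exact_mod_cast hD
    by_cases h1 : a₁ = 0
    · have h2 : a₂ ≠ 0 := by
        rintro rfl
        apply ha0
        rw [ea, h1]; simp
      have h2c : (a₂ : ℂ) ≠ 0 := by exact_mod_cast h2
      have h3 : b / a = ((b₂ / a₂ : ℚ) : ℂ) := by
        rw [div_eq_iff ha0, ea, eb]
        push_cast
        field_simp
        linear_combination -L.ω₁ * hDc
      rw [h3]
      simp
    · have h1c : (a₁ : ℂ) ≠ 0 := by exact_mod_cast h1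
      have h3 : b / a = ((b₁ / a₁ : ℚ) : ℂ) := by
        rw [div_eq_iff ha0, ea, eb]
        push_cast
        field_simp
        linear_combination L.ω₂ * hDc
      rw [h3]
      simp
  have hDc : (a₁ : ℂ) * b₂ - a₂ * b₁ ≠ 0 := by exact_mod_cast hD
  refine ⟨(k₁ * b₂ - k₂ * b₁) / (a₁ * b₂ - a₂ * b₁), (a₁ * k₂ - a₂ * k₁) / (a₁ * b₂ - a₂ * b₁), ?_⟩
  rw [ea, eb, ek]
  push_cast
  rw [div_mul_eq_mul_div, div_mul_eq_mul_div, ← add_div, eq_div_iff hDc]
  ring

end rational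

section periods

variable {u : ℂ} {L : PeriodPair}

/-- all periods along loops of `Z_u` lie in the rational span of the lattice -/
def PK (L : PeriodPair) (u : ℂ) (w : FF) : Prop := ∀ γ, ZLoop u γ → per w γ ∈ KL L

lemma form_bot {H : Subgroup (GL (Fin 6) ℂ)} {w : FF} (h : (ZD u H).IsForm w) :
    (ZD u ⊥).IsForm w where
  supp := h.supp
  add := h.add
  smul := h.smul
  radial := h.radial
  scale := h.scale
  inv := by
    intro g hg p _ v _
    rw [Subgroup.mem_bot.1 hg]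
    simp [act]
  holo := fun U φ hφ => h.holo U φ (arc_change hφ)

/-- a property of the periods of a nonzero form extends to the whole rational span -/
lemma period_span (hu : Adm u) {w : FF} (hw : (ZD u ⊥).IsForm w) (hw0 : w ≠ 0) (hK : PK L u w)
    {S : Submodule ℚ ℂ} (hS : ∀ γ, ZLoop u γ → per w γ ∈ S) : KL L ≤ S := by
  have key : ∀ c : ℂ, c ≠ 0 → ∃ γ, ZLoop u γ ∧ (c * per w γ).im ≠ 0 := by
    intro c hc
    by_contra hcon
    push Not at hcon
    exact hw0 (form_eq_zero hu hw hc hcon)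
  obtain ⟨γ₁, h₁, hi₁⟩ := key 1 one_ne_zero
  have ha0 : per w γ₁ ≠ 0 := by
    intro h
    rw [h] at hi₁
    simp at hi₁
  obtain ⟨γ₂, h₂, hi₂⟩ := key (per w γ₁)⁻¹ (inv_ne_zero ha0)
  intro k hk
  obtain ⟨x, y, rfl⟩ := KL_span (hK _ h₁) (hK _ h₂) ha0 (by rwa [div_eq_inv_mul]) hk
  have h3 := Submodule.smul_mem _ x (hS _ h₁)
  have h4 := Submodule.smul_mem _ y (hS _ h₂)
  rw [Algebra.smul_def] at h3 h4
  have := add_mem h3 h4
  simpa using this

lemma per_smul (c : ℂ) (w : FF) (γ : ℝ → Fin 6 → ℂ) : per (c • w) γ = c * per w γ := by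
  unfold per
  simp only [Pi.smul_apply, smul_eq_mul]
  exact intervalIntegral.integral_const_mul c _

/-- multiplication by a complex number as a rational linear map -/
def mulQ (c : ℂ) : ℂ →ₗ[ℚ] ℂ := (LinearMap.mulLeft ℚ c)

/-- if `w` and `c w` both have periods in the rational span then `c` is rational -/
lemma ratio_rat (hu : Adm u) {w : FF} (hw : (ZD u ⊥).IsForm w) (hw0 : w ≠ 0) (hK : PK L u w)
    {c : ℂ} (hc : PK L u (c • w))
    (hcm : ∀ c : ℂ, (∀ z ∈ KL L, c * z ∈ KL L) → ∃ q : ℚ, c = q) : ∃ q : ℚ, c = q := by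
  apply hcm
  have h1 : KL L ≤ (KL L).comap (mulQ c) := by
    refine period_span hu hw hw0 hK fun γ hγ => ?_
    have := hc γ hγ
    rw [per_smul] at this
    exact this
  exact fun z hz => h1 hz

lemma PK_pull (g : Mon u u) {w : FF} (h : PK L u w) : PK L u (pull g w) := by
  intro γ hγ
  rw [per_map g w hγ.smooth]
  refine h _ ?_
  refine loop_map g (H := ⊥) (H' := ⊥) ?_ hγ
  intro h' hh'
  refine ⟨1, Subgroup.one_mem _, fun p => ?_⟩
  rw [Subgroup.mem_bot.1 hh']
  simp [act]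

end periods

section kappa

variable {u : ℂ}

/-- the symmetry `κ` -/
def kap (u : ℂ) : Mon u u where
  π := Equiv.swap 2 3 * Equiv.swap 4 5
  a := ![I, 1, I, I, I, I]
  A := -1
  B := 0
  C := 0
  D := 1
  h1 := by
    rw [forall_fin6]
    refine ⟨?_, ?_, ?_, ?_, ?_, ?_⟩ <;> simp [al, Equiv.swap_apply_def]
  h2 := by
    rw [forall_fin6]
    refine ⟨?_, ?_, ?_, ?_, ?_, ?_⟩ <;> simp [be, Equiv.swap_apply_def]
  ha := by
    rw [forall_fin6]
    simp

lemma I5 : I * (I * (I * (I * I))) = I := by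
  have := I_mul_I
  calc I * (I * (I * (I * I))) = (I * I) * (I * I) * I := by ring
    _ = I := by rw [I_mul_I]; ring

lemma kap_fac (u : ℂ) : (kap u).fac = I := by
  unfold Mon.fac kap
  simp only [Fin.prod_univ_six]
  simp

lemma kap_eta (hu : Adm u) {p v : Fin 6 → ℂ} (hp : OnZ u p) (hv : Tan u p v) :
    eta u ((kap u).lin p) ((kap u).lin v) = I * eta u p v := by
  rw [(kap u).eta_lin hu hu hp hv, kap_fac]

lemma kap_QQ (hu : Adm u) (a b : ℂ) :
    pull (kap u) (Fm u (QQ a b)) = Fm u (QQ (-I * a) (I * b)) := by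
  funext p v
  unfold pull
  by_cases hc : OnZ u p ∧ Tan u p v
  · rw [Fm_eq ((kap u).onZ hc.1) ((kap u).tan hc.2), Fm_eq hc.1 hc.2, kap_eta hu hc.1 hc.2]
    simp only [QQ, kap, Mon.lin_apply]
    simp [Equiv.swap_apply_def]
    linear_combination (a * p 0 ^ 2 * I * eta u p v) * I_sq
  · have h1 : ¬ (OnZ u ((kap u).lin p) ∧ Tan u ((kap u).lin p) ((kap u).lin v)) := by
      rwa [(kap u).onZ_iff hu, (kap u).tan_iff hu]
    simp [Fm, hc, h1]

lemma kap_PS23 (hu : Adm u) :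
    pull (kap u) (Fm u (PS {2, 3})) = (-I) • Fm u (PS {2, 3}) := by
  funext p v
  unfold pull
  simp only [Pi.smul_apply, smul_eq_mul]
  by_cases hc : OnZ u p ∧ Tan u p v
  · rw [Fm_eq ((kap u).onZ hc.1) ((kap u).tan hc.2), Fm_eq hc.1 hc.2, kap_eta hu hc.1 hc.2,
      PS_pair (by decide), PS_pair (by decide)]
    simp only [kap, Mon.lin_apply]
    simp [Equiv.swap_apply_def]
    linear_combination (p 2 * p 3 * I * eta u p v) * I_sq
  · have h1 : ¬ (OnZ u ((kap u).lin p) ∧ Tan u ((kap u).lin p) ((kap u).lin v)) := by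
      rwa [(kap u).onZ_iff hu, (kap u).tan_iff hu]
    simp [Fm, hc, h1]

variable {r : ℂ}

lemma mu_fac (hr : r ^ 2 = u) (hr0 : r ≠ 0) : (mu hr hr0).fac = 1 / r := by
  unfold Mon.fac mu
  simp only [Fin.prod_univ_six]
  simp
  rw [← hr]
  have hI : I ≠ 0 := I_ne_zero
  field_simp
  linear_combination -I_sq

lemma mu_QQ (hu : Adm u) (hr : r ^ 2 = u) (hr0 : r ≠ 0) (a b : ℂ) :
    pull (mu hr hr0) (Fm u (QQ a b)) = Fm u (QQ (b / r) (a * r)) := by
  funext p v
  unfold pull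
  by_cases hc : OnZ u p ∧ Tan u p v
  · rw [Fm_eq ((mu hr hr0).onZ hc.1) ((mu hr hr0).tan hc.2), Fm_eq hc.1 hc.2,
      (mu hr hr0).eta_lin hu hu hc.1 hc.2, mu_fac]
    simp only [QQ, mu, Mon.lin_apply]
    simp [Equiv.swap_apply_def]
    field_simp
    ring
  · have h1 : ¬ (OnZ u ((mu hr hr0).lin p) ∧ Tan u ((mu hr hr0).lin p) ((mu hr hr0).lin v)) := by
      rwa [(mu hr hr0).onZ_iff hu, (mu hr hr0).tan_iff hu]
    simp [Fm, hc, h1]

end kappa

end Pool.Agent.R403.IS
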