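import Pool.Agent.R403.IS.Defs

/-!
# The curves `Z_u` and their local parameters
-/

set_option autoImplicit false

open scoped Topology
open Matrix

noncomputable section

namespace Pool.Agent.R403.IS

/-- coefficients of the six linear forms -/
def al : Fin 6 → ℂ := ![1, 0, 1, 1, 1, 1]

def be (u : ℂ) : Fin 6 → ℂ := ![0, 1, -1, 1, -u, u]

/-- the `2 × 2` minors -/
def DD (u : ℂ) (i j : Fin 6) : ℂ := al i * be u j - al j * be u i

/-- admissible parameters -/
def Adm (u : ℂ) : Prop := u ≠ 0 ∧ u ≠ 1 ∧ u ≠ -1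

lemma DD_ne {u : ℂ} (hu : Adm u) {i j : Fin 6} (h : i ≠ j) : DD u i j ≠ 0 := by
  obtain ⟨h0, h1, h2⟩ := hu
  have e1 : u - 1 ≠ 0 := sub_ne_zero.2 h1
  have e2 : u + 1 ≠ 0 := fun h => h2 (by linear_combination h)
  have e3 : (1 : ℂ) - u ≠ 0 := fun h => h1 (by linear_combination -h)
  have e4 : (-1 : ℂ) - u ≠ 0 := fun h => h2 (by linear_combination -h)
  have e5 : -u - 1 ≠ 0 := fun h => h2 (by linear_combination -h)
  have e6 : -u + 1 ≠ 0 := fun h => h1 (by linear_combination -h)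
  have e7 : (1 : ℂ) + u ≠ 0 := fun h => h2 (by linear_combination h)
  have e8 : (-1 : ℂ) + u ≠ 0 := fun h => h1 (by linear_combination h)
  have e9 : u + u ≠ 0 := fun h => h0 (by linear_combination h / 2)
  have e10 : -u - u ≠ 0 := fun h => h0 (by linear_combination -h / 2)
  fin_cases i <;> fin_cases j <;> first
    | exact absurd rfl h
    | (simp [DD, al, be]; done)
    | (simp [DD, al, be]; assumption)
    | (simp [DD, al, be]; norm_num)

/-- the equations of `Z_u` -/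
def FZ (u : ℂ) : Set (MvPolynomial (Fin 6) ℂ) :=
  {.X 2 ^ 2 - .X 0 ^ 2 + .X 1 ^ 2, .X 3 ^ 2 - .X 0 ^ 2 - .X 1 ^ 2,
    .X 4 ^ 2 - .X 0 ^ 2 + .C u * .X 1 ^ 2, .X 5 ^ 2 - .X 0 ^ 2 - .C u * .X 1 ^ 2}

/-- points of the cone in terms of the two parameters -/
def OnZ (u : ℂ) (p : Fin 6 → ℂ) : Prop :=
  p ≠ 0 ∧ ∀ j, p j ^ 2 = al j * p 0 ^ 2 + be u j * p 1 ^ 2

/-- tangent vectors -/
def Tan (u : ℂ) (p v : Fin 6 → ℂ) : Prop :=
  ∀ j, p j * v j = al j * (p 0 * v 0) + be u j * (p 1 * v 1)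

lemma forall_fin6 {P : Fin 6 → Prop} : (∀ j, P j) ↔ P 0 ∧ P 1 ∧ P 2 ∧ P 3 ∧ P 4 ∧ P 5 := by
  constructor
  · intro h
    exact ⟨h 0, h 1, h 2, h 3, h 4, h 5⟩
  · rintro ⟨h0, h1, h2, h3, h4, h5⟩ j
    fin_cases j <;> assumption

/-- the data of `Z_u / H` -/
def ZD (u : ℂ) (H : Subgroup (GL (Fin 6) ℂ)) : CurveData 6 := ⟨FZ u, H⟩

lemma mem_cone {u : ℂ} {H : Subgroup (GL (Fin 6) ℂ)} {p : Fin 6 → ℂ} :
    p ∈ (ZD u H).cone ↔ OnZ u p := by
  unfold CurveData.cone OnZ ZD FZ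
  simp only [Set.mem_ofPred_eq, Set.mem_insert_iff, Set.mem_singleton_iff, forall_eq_or_imp,
    forall_eq, forall_fin6, map_sub, map_add, map_pow, map_mul, MvPolynomial.eval_X,
    MvPolynomial.eval_C]
  refine and_congr_right fun _ => ?_
  constructor
  · rintro ⟨h2, h3, h4, h5⟩
    simp only [al, be]
    refine ⟨?_, ?_, ?_, ?_, ?_, ?_⟩ <;> simp
    · linear_combination h2
    · linear_combination h3
    · linear_combination h4
    · linear_combination h5
  · rintro ⟨-, -, h2, h3, h4, h5⟩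
    simp only [al, be] at h2 h3 h4 h5
    simp at h2 h3 h4 h5
    refine ⟨?_, ?_, ?_, ?_⟩
    · linear_combination h2
    · linear_combination h3
    · linear_combination h4
    · linear_combination h5

lemma mem_tangent {u : ℂ} {H : Subgroup (GL (Fin 6) ℂ)} {p v : Fin 6 → ℂ} :
    v ∈ (ZD u H).tangent p ↔ Tan u p v := by
  change (∀ f ∈ (ZD u H).F, _) ↔ _
  unfold Tan ZD FZ
  simp only [Set.mem_insert_iff, Set.mem_singleton_iff, forall_eq_or_imp,
    forall_eq, forall_fin6, Fin.sum_univ_six, map_sub, map_add, Derivation.leibniz_pow,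
    Derivation.leibniz, MvPolynomial.pderiv_X, MvPolynomial.pderiv_C, smul_eq_mul,
    MvPolynomial.eval_X, MvPolynomial.eval_C, map_mul, map_pow, nsmul_eq_mul]
  simp [al, be]
  constructor
  · rintro ⟨h2, h3, h4, h5⟩
    refine ⟨?_, ?_, ?_, ?_⟩
    · linear_combination h2 / 2
    · linear_combination h3 / 2
    · linear_combination h4 / 2
    · linear_combination h5 / 2
  · rintro ⟨h2, h3, h4, h5⟩
    refine ⟨?_, ?_, ?_, ?_⟩
    · linear_combination 2 * h2
    · linear_combination 2 * h3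
    · linear_combination 2 * h4
    · linear_combination 2 * h5

end Pool.Agent.R403.IS
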